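import Mathlib
import Pool.Agent.H469R10.HO.Stmts6

set_option autoImplicit false

open Finset MeasureTheory Filter

/-! TASK N of the SELBERG-PROJECT of helper469: size of the source. -/

namespace Pool.Agent.H5R3.T469N

open Pool.Agent.H469R10.HO

lemma abs_s0_le (c x : ℝ) : |s0 c x| ≤ c ^ 2 * x ^ 2 := by
  unfold s0
  have h1 := Real.one_sub_sq_div_two_le_cos (x := c * x)
  have h2 := Real.cos_le_one (c * x)
  rw [abs_le]
  constructor <;> nlinarith [sq_nonneg (c * x)]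

lemma abs_s0_le_two (c x : ℝ) : |s0 c x| ≤ 2 := by
  unfold s0
  have h1 := Real.neg_one_le_cos (c * x)
  have h2 := Real.cos_le_one (c * x)
  rw [abs_le]
  constructor <;> linarith

noncomputable def s1 (c x : ℝ) : ℝ := - (c * Real.sin (c * x))

lemma hasDeriv_s0 (c x : ℝ) : HasDerivAt (s0 c) (s1 c x) x := by
  unfold s0 s1
  have h := (((hasDerivAt_id x).const_mul c).cos).sub_const 1
  refine HasDerivAt.congr_deriv h ?_
  simp only [id, mul_one]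
  ring

lemma abs_s1_le (c x : ℝ) : |s1 c x| ≤ c ^ 2 * |x| := by
  unfold s1
  rw [abs_neg, abs_mul]
  have h : |Real.sin (c * x)| ≤ |c * x| := Real.abs_sin_le_abs
  calc |c| * |Real.sin (c * x)| ≤ |c| * |c * x| := by gcongr
    _ = c ^ 2 * |x| := by rw [abs_mul, ← mul_assoc, abs_mul_abs_self]; ring

lemma abs_s1_le' (c x : ℝ) : |s1 c x| ≤ |c| := by
  unfold s1
  rw [abs_neg, abs_mul]
  have h : |Real.sin (c * x)| ≤ 1 := Real.abs_sin_le_one _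
  calc |c| * |Real.sin (c * x)| ≤ |c| * 1 := by gcongr
    _ = |c| := mul_one _

lemma cont_s0 (c : ℝ) : Continuous (s0 c) := by unfold s0; fun_prop

lemma cont_s1 (c : ℝ) : Continuous (s1 c) := by unfold s1; fun_prop

lemma cont_aux {h : ℝ → ℝ} (hc : Continuous h) {M : ℝ} (hM : ∀ y, |h y| ≤ M) {k : ℕ} (hk : 1 ≤ k) :
    Continuous fun x : ℝ => x ^ k * h x⁻¹ := by
  rw [continuous_iff_continuousAt]
  intro x
  by_cases hx : x = 0
  · subst hx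
    have h0 : (0:ℝ) ^ k * h 0⁻¹ = 0 := by rw [zero_pow (by omega)]; ring
    change Tendsto (fun x : ℝ => x ^ k * h x⁻¹) (nhds 0) (nhds ((0:ℝ) ^ k * h 0⁻¹))
    rw [h0]
    apply squeeze_zero_norm (a := fun x : ℝ => |x| ^ k * M)
    · intro t
      rw [norm_mul, norm_pow, Real.norm_eq_abs, Real.norm_eq_abs]
      gcongr
      exact hM _
    · have h1 : Continuous fun x : ℝ => |x| ^ k * M := by fun_prop
      have h2 := h1.tendsto 0
      simpa [zero_pow (show k ≠ 0 by omega)] using h2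
  · exact (continuousAt_id.pow k).mul (hc.continuousAt.comp (continuousAt_inv₀ hx))

lemma chi_contDiff : ContDiff ℝ 2 chi := by
  unfold chi
  exact Real.smoothTransition.contDiff.comp (by fun_prop)

lemma chi_cont : Continuous chi := chi_contDiff.continuous

lemma chi_hasDeriv (x : ℝ) : HasDerivAt chi (deriv chi x) x :=
  (chi_contDiff.differentiable (by norm_num)).differentiableAt.hasDerivAt

lemma chi_deriv_cont : Continuous (deriv chi) := chi_contDiff.continuous_deriv (by norm_num)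

lemma chi_nonneg (x : ℝ) : 0 ≤ chi x := Real.smoothTransition.nonneg _

lemma chi_le_one (x : ℝ) : chi x ≤ 1 := Real.smoothTransition.le_one _

/-- the derivative of `DD m f` -/
noncomputable def DD' (m : ℕ) (f f' : ℝ → ℝ) (x : ℝ) : ℝ :=
  deriv chi x * (x ^ (2 * m) * f x⁻¹) +
    chi x * (2 * m * (x ^ (2 * m - 1) * f x⁻¹) - x ^ (2 * m - 2) * f' x⁻¹)

lemma DD_eq (m : ℕ) (hm : 2 ≤ m) (f : ℝ → ℝ) (x : ℝ) :
    DD m f x = x * (chi x * (x ^ (2 * m - 1) * f x⁻¹)) := by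
  unfold DD
  obtain ⟨k, rfl⟩ : ∃ k, m = k + 1 := ⟨m - 1, by omega⟩
  rw [show 2 * (k + 1) - 1 = 2 * k + 1 by omega, show 2 * (k + 1) = 2 * k + 1 + 1 by ring, pow_succ]
  ring

lemma hasDeriv_DD (m : ℕ) (hm : 2 ≤ m) {f f' : ℝ → ℝ} (hf : ∀ x, HasDerivAt f (f' x) x) {M : ℝ}
    (hM : ∀ y, |f y| ≤ M) (x : ℝ) : HasDerivAt (DD m f) (DD' m f f' x) x := by
  have hfc : Continuous f := continuous_iff_continuousAt.2 fun x => (hf x).continuousAt
  by_cases hx : x = 0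
  · subst hx
    have h0 : DD' m f f' 0 = 0 := by
      unfold DD'
      rw [zero_pow (show 2 * m ≠ 0 by omega), zero_pow (show 2 * m - 1 ≠ 0 by omega),
        zero_pow (show 2 * m - 2 ≠ 0 by omega)]
      ring
    rw [h0, hasDerivAt_iff_tendsto_slope]
    have hK : Continuous fun x : ℝ => chi x * (x ^ (2 * m - 1) * f x⁻¹) :=
      chi_cont.mul (cont_aux hfc hM (by omega))
    have h1 := hK.tendsto 0
    have h2 : chi 0 * ((0:ℝ) ^ (2 * m - 1) * f 0⁻¹) = 0 := by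
      rw [zero_pow (show 2 * m - 1 ≠ 0 by omega)]; ring
    rw [h2] at h1
    refine (h1.mono_left nhdsWithin_le_nhds).congr' ?_
    filter_upwards [self_mem_nhdsWithin] with t ht
    have ht' : t ≠ 0 := ht
    rw [slope_def_field, DD_eq m hm f t, DD_eq m hm f 0, sub_zero, zero_mul, sub_zero]
    field_simp
  · have h := ((chi_hasDeriv x).mul (hasDerivAt_pow (2 * m) x)).mul ((hf x⁻¹).comp x (hasDerivAt_inv hx))
    refine HasDerivAt.congr_deriv (f := DD m f) h ?_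
    unfold DD'
    have e1 : x ^ (2 * m) * (x ^ 2)⁻¹ = x ^ (2 * m - 2) := by
      rw [← div_eq_mul_inv, div_eq_iff (pow_ne_zero 2 hx), ← pow_add]
      congr 1; omega
    simp only [Pi.mul_apply, Function.comp_apply]
    push_cast
    rw [← e1]
    ring

lemma cont_DD (m : ℕ) (hm : 2 ≤ m) {f : ℝ → ℝ} (hf : Continuous f) {M : ℝ}
    (hM : ∀ y, |f y| ≤ M) : Continuous (DD m f) := by
  have : DD m f = fun x => chi x * (x ^ (2 * m) * f x⁻¹) := by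
    ext x; unfold DD; ring
  rw [this]
  exact chi_cont.mul (cont_aux hf hM (by omega))

lemma cont_DD' (m : ℕ) (hm : 2 ≤ m) {f f' : ℝ → ℝ} (hf : Continuous f) (hf' : Continuous f') {M M' : ℝ}
    (hM : ∀ y, |f y| ≤ M) (hM' : ∀ y, |f' y| ≤ M') : Continuous (DD' m f f') := by
  unfold DD'
  exact (chi_deriv_cont.mul (cont_aux hf hM (by omega))).add
    (chi_cont.mul ((continuous_const.mul (cont_aux hf hM (by omega))).sub (cont_aux hf' hM' (by omega))))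

lemma exists_chi_bound : ∃ K : ℝ, 1 ≤ K ∧ ∀ x ∈ Set.Icc (0:ℝ) 2, |deriv chi x| ≤ K := by
  obtain ⟨K, hK⟩ := (isCompact_Icc (a := (0:ℝ)) (b := 2)).exists_bound_of_continuousOn
    (chi_deriv_cont.continuousOn)
  exact ⟨max K 1, le_max_right _ _, fun x hx => (hK x hx).trans (le_max_left _ _)⟩

lemma abs_pow_s0 (c : ℝ) (k : ℕ) {x : ℝ} (hx : x ∈ Set.Icc (0:ℝ) 2) :
    |x ^ (k + 2) * s0 c x⁻¹| ≤ 2 ^ k * c ^ 2 := by
  by_cases h0 : x = 0
  · subst h0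
    rw [zero_pow (by omega), zero_mul, abs_zero]; positivity
  have hxp : 0 < x := lt_of_le_of_ne hx.1 (Ne.symm h0)
  rw [abs_mul, abs_of_nonneg (by positivity)]
  calc x ^ (k + 2) * |s0 c x⁻¹| ≤ x ^ (k + 2) * (c ^ 2 * x⁻¹ ^ 2) := by
        gcongr; exact abs_s0_le _ _
    _ = x ^ k * c ^ 2 := by field_simp; ring
    _ ≤ 2 ^ k * c ^ 2 := by gcongr; exact hx.2

lemma abs_pow_s1 (c : ℝ) (k : ℕ) {x : ℝ} (hx : x ∈ Set.Icc (0:ℝ) 2) :
    |x ^ (k + 1) * s1 c x⁻¹| ≤ 2 ^ k * c ^ 2 := by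
  by_cases h0 : x = 0
  · subst h0
    rw [zero_pow (by omega), zero_mul, abs_zero]; positivity
  have hxp : 0 < x := lt_of_le_of_ne hx.1 (Ne.symm h0)
  rw [abs_mul, abs_of_nonneg (by positivity)]
  calc x ^ (k + 1) * |s1 c x⁻¹| ≤ x ^ (k + 1) * (c ^ 2 * |x⁻¹|) := by
        gcongr; exact abs_s1_le _ _
    _ = x ^ k * c ^ 2 := by rw [abs_of_pos (inv_pos.2 hxp)]; field_simp; ring
    _ ≤ 2 ^ k * c ^ 2 := by gcongr; exact hx.2

lemma DD_bound (m : ℕ) (hm : 2 ≤ m) (c : ℝ) {x : ℝ} (hx : x ∈ Set.Icc (0:ℝ) 2) :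
    |DD m (s0 c) x| ≤ 2 ^ (2 * m) * c ^ 2 := by
  have h1 : DD m (s0 c) x = chi x * (x ^ (2 * m) * s0 c x⁻¹) := by unfold DD; ring
  rw [h1, abs_mul, abs_of_nonneg (chi_nonneg x)]
  have h2 := abs_pow_s0 c (2 * m - 2) hx
  rw [show 2 * m - 2 + 2 = 2 * m by omega] at h2
  have h3 : (2:ℝ) ^ (2 * m - 2) ≤ 2 ^ (2 * m) := pow_le_pow_right₀ (by norm_num) (by omega)
  calc chi x * |x ^ (2 * m) * s0 c x⁻¹| ≤ 1 * (2 ^ (2 * m - 2) * c ^ 2) := by
        gcongr; exact chi_le_one x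
    _ ≤ 2 ^ (2 * m) * c ^ 2 := by rw [one_mul]; gcongr

lemma DD'_bound (m : ℕ) (hm : 2 ≤ m) (c K : ℝ) {x : ℝ} (hx : x ∈ Set.Icc (0:ℝ) 2) (hK : 0 ≤ K)
    (hKx : |deriv chi x| ≤ K) :
    |DD' m (s0 c) (s1 c) x| ≤ (K + 2 * m + 1) * (2 ^ (2 * m) * c ^ 2) := by
  unfold DD'
  have hc := chi_nonneg x
  have hc1 := chi_le_one x
  have a1 : |x ^ (2 * m) * s0 c x⁻¹| ≤ 2 ^ (2 * m) * c ^ 2 := by
    have h2 := abs_pow_s0 c (2 * m - 2) hx
    rw [show 2 * m - 2 + 2 = 2 * m by omega] at h2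
    have h3 : (2:ℝ) ^ (2 * m - 2) ≤ 2 ^ (2 * m) := pow_le_pow_right₀ (by norm_num) (by omega)
    exact h2.trans (by gcongr)
  have a2 : |x ^ (2 * m - 1) * s0 c x⁻¹| ≤ 2 ^ (2 * m) * c ^ 2 := by
    have h2 := abs_pow_s0 c (2 * m - 3) hx
    rw [show 2 * m - 3 + 2 = 2 * m - 1 by omega] at h2
    have h3 : (2:ℝ) ^ (2 * m - 3) ≤ 2 ^ (2 * m) := pow_le_pow_right₀ (by norm_num) (by omega)
    exact h2.trans (by gcongr)
  have a3 : |x ^ (2 * m - 2) * s1 c x⁻¹| ≤ 2 ^ (2 * m) * c ^ 2 := by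
    have h2 := abs_pow_s1 c (2 * m - 3) hx
    rw [show 2 * m - 3 + 1 = 2 * m - 2 by omega] at h2
    have h3 : (2:ℝ) ^ (2 * m - 3) ≤ 2 ^ (2 * m) := pow_le_pow_right₀ (by norm_num) (by omega)
    exact h2.trans (by gcongr)
  have b1 : |deriv chi x * (x ^ (2 * m) * s0 c x⁻¹)| ≤ K * (2 ^ (2 * m) * c ^ 2) := by
    rw [abs_mul]; gcongr
  have b2 : |(2 * (m:ℝ) * (x ^ (2 * m - 1) * s0 c x⁻¹) - x ^ (2 * m - 2) * s1 c x⁻¹)| ≤
      2 * m * (2 ^ (2 * m) * c ^ 2) + 2 ^ (2 * m) * c ^ 2 := by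
    refine (abs_sub _ _).trans ?_
    rw [abs_mul (2 * (m:ℝ)), abs_of_nonneg (show (0:ℝ) ≤ 2 * m by positivity)]
    gcongr
  have b3 : |chi x * (2 * (m:ℝ) * (x ^ (2 * m - 1) * s0 c x⁻¹) - x ^ (2 * m - 2) * s1 c x⁻¹)| ≤
      2 * m * (2 ^ (2 * m) * c ^ 2) + 2 ^ (2 * m) * c ^ 2 := by
    rw [abs_mul, abs_of_nonneg hc]
    calc _ ≤ 1 * (2 * m * (2 ^ (2 * m) * c ^ 2) + 2 ^ (2 * m) * c ^ 2) := by gcongr
      _ = _ := one_mul _
  refine (abs_add_le _ _).trans ?_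
  linarith

lemma int_sq_le {f : ℝ → ℝ} (hf : Continuous f) {M : ℝ} (hM : ∀ x ∈ Set.Icc (0:ℝ) 2, |f x| ≤ M) :
    ∫ t in (0:ℝ)..2, f t ^ 2 ≤ 2 * M ^ 2 := by
  have h : ∫ t in (0:ℝ)..2, f t ^ 2 ≤ ∫ t in (0:ℝ)..2, M ^ 2 := by
    apply intervalIntegral.integral_mono_on (by norm_num)
      (Continuous.intervalIntegrable (by fun_prop) _ _)
      (Continuous.intervalIntegrable (by fun_prop) _ _)
    intro x hx
    rw [← sq_abs]
    exact pow_le_pow_left₀ (abs_nonneg _) (hM x hx) 2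
  refine h.trans (le_of_eq ?_)
  rw [intervalIntegral.integral_const]
  simp

lemma weighted_bessel {f f' : ℝ → ℝ} (hd : ∀ x, HasDerivAt f (f' x) x) (hf' : Continuous f') {M M' : ℝ}
    (hM : ∀ x ∈ Set.Icc (0:ℝ) 2, |f x| ≤ M) (hM' : ∀ x ∈ Set.Icc (0:ℝ) 2, |f' x| ≤ M') (J : Finset ℕ) :
    ∑ j ∈ J, (1 + (j:ℝ)) ^ 2 * PP f j ^ 2 ≤ 4 * M ^ 2 + 4 * M' ^ 2 := by
  have hf : Continuous f := continuous_iff_continuousAt.2 fun x => (hd x).continuousAt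
  have h1 := (bessel hf J).trans (int_sq_le hf hM)
  have h2 := (bessel_deriv hd hf' J).trans (int_sq_le hf' hM')
  have h3 : ∑ j ∈ J, (1 + (j:ℝ)) ^ 2 * PP f j ^ 2 ≤
      2 * ∑ j ∈ J, PP f j ^ 2 + 2 * ∑ j ∈ J, (xx j) ^ 2 * PP f j ^ 2 := by
    rw [mul_sum, mul_sum, ← sum_add_distrib]
    apply sum_le_sum
    intro j _
    have hx : (j:ℝ) ≤ xx j := by
      unfold xx
      have := Real.pi_gt_three
      have hj : (0:ℝ) ≤ j := Nat.cast_nonneg j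
      nlinarith
    have hj : (0:ℝ) ≤ j := Nat.cast_nonneg j
    have h4 : (1 + (j:ℝ)) ^ 2 ≤ 2 + 2 * (xx j) ^ 2 := by nlinarith [sq_nonneg ((j:ℝ) - 1)]
    have h5 := sq_nonneg (PP f j)
    nlinarith
  linarith

lemma WW_le {c : ℝ} (hc : 0 < c) (hc1 : c ≤ 1) (j : ℕ) : WW c j ≤ 256 / c * (1 + (j:ℝ)) ^ 2 := by
  unfold WW
  have hj : (0:ℝ) ≤ j := Nat.cast_nonneg j
  have hx1 : 1 ≤ (1 + (j:ℝ)) / c := by rw [le_div_iff₀ hc]; linarith
  have hx0 : 0 ≤ (1 + (j:ℝ)) / c := by linarith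
  have h1 : Real.log ((1 + (j:ℝ)) / c) ≤ ((1 + (j:ℝ)) / c) ^ (1 / 4 : ℝ) / (1 / 4) :=
    Real.log_le_rpow_div hx0 (by norm_num)
  have h0 : 0 ≤ Real.log ((1 + (j:ℝ)) / c) := Real.log_nonneg hx1
  have h2 : Real.log ((1 + (j:ℝ)) / c) ^ 4 ≤ 256 * ((1 + (j:ℝ)) / c) := by
    calc Real.log ((1 + (j:ℝ)) / c) ^ 4 ≤ (((1 + (j:ℝ)) / c) ^ (1 / 4 : ℝ) / (1 / 4)) ^ 4 :=
          pow_le_pow_left₀ h0 h1 4
      _ = 256 * (((1 + (j:ℝ)) / c) ^ (1 / 4 : ℝ)) ^ 4 := by ring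
      _ = 256 * ((1 + (j:ℝ)) / c) := by
          rw [← Real.rpow_natCast, ← Real.rpow_mul hx0]
          norm_num
  calc (1 + (j:ℝ)) * Real.log ((1 + (j:ℝ)) / c) ^ 4 ≤ (1 + (j:ℝ)) * (256 * ((1 + (j:ℝ)) / c)) := by
        gcongr
    _ = 256 / c * (1 + (j:ℝ)) ^ 2 := by ring

theorem taskN : TaskN := by
  intro m hm ρ hρ
  obtain ⟨K, hK1, hK⟩ := exists_chi_bound
  set A : ℝ := 2 ^ (2 * m) with hA
  have hA1 : 1 ≤ A := one_le_pow₀ (by norm_num)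
  set R : ℝ := (K + 2 * m + 1) * A with hR
  -- total constant
  set Q : ℝ := 2 * (4 * 4 ^ 2 + 4 * 2 ^ 2) + 2 * (4 * A ^ 2 + 4 * R ^ 2) with hQ
  have hQ0 : 0 < Q := by positivity
  refine ⟨min 1 (ρ / (256 * Q)), by positivity, ?_⟩
  intro c hc hc0 J
  have hc1 : c ≤ 1 := hc0.trans (min_le_left _ _)
  have hc2 : c ≤ ρ / (256 * Q) := hc0.trans (min_le_right _ _)
  have g1 := weighted_bessel (hasDeriv_s0 c) (cont_s1 c) (M := 4 * c ^ 2) (M' := 2 * c ^ 2)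
    (by
      intro x hx
      refine (abs_s0_le c x).trans ?_
      have : x ^ 2 ≤ 4 := by nlinarith [hx.1, hx.2]
      nlinarith [sq_nonneg c])
    (by
      intro x hx
      refine (abs_s1_le c x).trans ?_
      rw [abs_of_nonneg hx.1]
      nlinarith [sq_nonneg c, hx.2]) (range J)
  have g2 := weighted_bessel (hasDeriv_DD m hm (hasDeriv_s0 c) (abs_s0_le_two c))
    (cont_DD' m hm (cont_s0 c) (cont_s1 c) (abs_s0_le_two c) (abs_s1_le' c))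
    (M := A * c ^ 2) (M' := R * c ^ 2)
    (fun x hx => DD_bound m hm c hx)
    (fun x hx => by
      have := DD'_bound m hm c K hx (by linarith) (hK x hx)
      rw [← mul_assoc] at this
      exact this) (range J)
  have h1 : ∑ j ∈ range J, (1 + (j:ℝ)) ^ 2 * (ss c m j) ^ 2 ≤ Q * c ^ 4 := by
    have h2 : ∑ j ∈ range J, (1 + (j:ℝ)) ^ 2 * (ss c m j) ^ 2 ≤
        2 * ∑ j ∈ range J, (1 + (j:ℝ)) ^ 2 * PP (s0 c) j ^ 2 +
        2 * ∑ j ∈ range J, (1 + (j:ℝ)) ^ 2 * PP (DD m (s0 c)) j ^ 2 := by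
      rw [mul_sum, mul_sum, ← sum_add_distrib]
      apply sum_le_sum
      intro j _
      unfold ss
      have h3 : (-PP (s0 c) j + PP (DD m (s0 c)) j) ^ 2 ≤
          2 * PP (s0 c) j ^ 2 + 2 * PP (DD m (s0 c)) j ^ 2 := by
        nlinarith [sq_nonneg (PP (s0 c) j + PP (DD m (s0 c)) j)]
      have h4 : (0:ℝ) ≤ (1 + (j:ℝ)) ^ 2 := by positivity
      nlinarith
    refine h2.trans ?_
    have : Q * c ^ 4 = 2 * (4 * (4 * c ^ 2) ^ 2 + 4 * (2 * c ^ 2) ^ 2) +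
        2 * (4 * (A * c ^ 2) ^ 2 + 4 * (R * c ^ 2) ^ 2) := by rw [hQ]; ring
    rw [this]
    linarith
  calc ∑ j ∈ range J, WW c j * (ss c m j) ^ 2 ≤
      ∑ j ∈ range J, 256 / c * ((1 + (j:ℝ)) ^ 2 * (ss c m j) ^ 2) := by
        apply sum_le_sum
        intro j _
        rw [← mul_assoc]
        exact mul_le_mul_of_nonneg_right (WW_le hc hc1 j) (sq_nonneg _)
    _ = 256 / c * ∑ j ∈ range J, (1 + (j:ℝ)) ^ 2 * (ss c m j) ^ 2 := by rw [mul_sum]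
    _ ≤ 256 / c * (Q * c ^ 4) := by gcongr
    _ = 256 * Q * c ^ 3 := by field_simp
    _ ≤ 256 * Q * c := by
        have : c ^ 3 ≤ c := by
          calc c ^ 3 = c * c ^ 2 := by ring
            _ ≤ c * 1 := by gcongr; exact pow_le_one₀ hc.le hc1
            _ = c := mul_one c
        gcongr
    _ ≤ ρ := by
        rw [le_div_iff₀ (by positivity)] at hc2
        linarith

end Pool.Agent.H5R3.T469N
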