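import Mathlib
import Pool.Agent.H469R10.HO.Stmts

set_option autoImplicit false

open Finset

namespace Pool.Agent.H5R3.T469A

theorem sum_le_of_inj {α β : Type} [DecidableEq β] (S : Finset α) (T : Finset β) (e : α → β)
    (he : Set.InjOn e S) (hmap : ∀ i ∈ S, e i ∈ T) (φ : β → ℝ) (hφ : ∀ j, 0 ≤ φ j) :
    ∑ i ∈ S, φ (e i) ≤ ∑ j ∈ T, φ j := by
  rw [← Finset.sum_image he]
  apply Finset.sum_le_sum_of_subset_of_nonneg
  · intro j hj
    rw [Finset.mem_image] at hj
    obtain ⟨i, hi, rfl⟩ := hj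
    exact hmap i hi
  · intro j _ _
    exact hφ j

/-- pigeonhole -/
theorem exists_small {S : Finset ℕ} (hS : S.Nonempty) (E : ℕ → ℝ) (X : ℝ) (h : ∑ m ∈ S, E m ≤ X) :
    ∃ m ∈ S, (S.card : ℝ) * E m ≤ X := by
  have hc : (0 : ℝ) < S.card := by exact_mod_cast Finset.card_pos.2 hS
  obtain ⟨m, hm, hle⟩ := Finset.exists_le_of_sum_le (f := E) (g := fun _ => X / S.card) hS (by
    rw [Finset.sum_const, nsmul_eq_mul, mul_div_cancel₀ _ hc.ne']
    exact h)
  refine ⟨m, hm, ?_⟩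
  rw [le_div_iff₀ hc] at hle
  linarith

section
variable (A : ℕ) (g : ℕ → ℝ)

/-- deficit of the convolution -/
noncomputable def D (m : ℕ) : ℝ := ∑ i ∈ Icc A (m - A), g i * (1 - g (m - i))

/-- the signed function -/
def a (i : ℕ) : ℝ := 1 - 2 * g i

theorem reflect (m : ℕ) (hAm : A ≤ m) (h : ℕ → ℝ) :
    ∑ i ∈ Icc A (m - A), h (m - i) = ∑ i ∈ Icc A (m - A), h i := by
  apply Finset.sum_nbij' (fun i => m - i) (fun i => m - i)
  · intro i hi; rw [mem_Icc] at *; omega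
  · intro i hi; rw [mem_Icc] at *; omega
  · intro i hi; rw [mem_Icc] at hi; beta_reduce; omega
  · intro i hi; rw [mem_Icc] at hi; beta_reduce; omega
  · intro i _; rfl

variable (hg : ∀ i, 0 ≤ g i ∧ g i ≤ 1)
include hg

theorem D_nonneg (m : ℕ) : 0 ≤ D A g m := by
  apply Finset.sum_nonneg
  intro i _
  exact mul_nonneg (hg i).1 (by linarith [(hg (m - i)).2])

theorem D_refl (m : ℕ) (hAm : A ≤ m) :
    ∑ i ∈ Icc A (m - A), g (m - i) * (1 - g i) = D A g m := by
  rw [D, ← reflect A m hAm (fun i => g i * (1 - g (m - i)))]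
  apply Finset.sum_congr rfl
  intro i hi
  rw [mem_Icc] at hi
  have : m - (m - i) = i := by omega
  rw [this]

theorem sum_abs (m : ℕ) (hAm : A ≤ m) :
    ∑ i ∈ Icc A (m - A), |g i - g (m - i)| ≤ 2 * D A g m := by
  have h1 : ∑ i ∈ Icc A (m - A), |g i - g (m - i)| ≤
      ∑ i ∈ Icc A (m - A), (g i * (1 - g (m - i)) + g (m - i) * (1 - g i)) := by
    apply Finset.sum_le_sum
    intro i _
    have h2 := hg i
    have h3 := hg (m - i)
    rw [abs_le]
    constructor <;> nlinarith [mul_nonneg h2.1 h3.1, mul_nonneg (sub_nonneg.2 h2.2) (sub_nonneg.2 h3.2),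
      mul_nonneg h2.1 (sub_nonneg.2 h3.2), mul_nonneg h3.1 (sub_nonneg.2 h2.2)]
  rw [Finset.sum_add_distrib, D_refl A g hg m hAm] at h1
  have h4 : ∑ i ∈ Icc A (m - A), g i * (1 - g (m - i)) = D A g m := rfl
  rw [h4] at h1
  linarith

theorem sum_sq (m : ℕ) (hAm : A ≤ m) :
    ∑ i ∈ Icc A (m - A), g i * (1 - g i) ≤ 3 * D A g m := by
  have h1 : ∑ i ∈ Icc A (m - A), g i * (1 - g i) ≤
      ∑ i ∈ Icc A (m - A), (g i * (1 - g (m - i)) + |g i - g (m - i)|) := by
    apply Finset.sum_le_sum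
    intro i _
    have h2 := hg i
    have h3 := hg (m - i)
    have h4 : g i * (g (m - i) - g i) ≤ |g i - g (m - i)| := by
      have h5 : g (m - i) - g i ≤ |g i - g (m - i)| := by
        rw [abs_sub_comm]; exact le_abs_self _
      have h6 : 0 ≤ |g i - g (m - i)| := abs_nonneg _
      calc g i * (g (m - i) - g i) ≤ g i * |g i - g (m - i)| := mul_le_mul_of_nonneg_left h5 h2.1
        _ ≤ 1 * |g i - g (m - i)| := mul_le_mul_of_nonneg_right h2.2 h6
        _ = _ := one_mul _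
    nlinarith
  rw [Finset.sum_add_distrib] at h1
  have h4 : ∑ i ∈ Icc A (m - A), g i * (1 - g (m - i)) = D A g m := rfl
  rw [h4] at h1
  have := sum_abs A g hg m hAm
  linarith

theorem sum_prod (m : ℕ) (hAm : A ≤ m) :
    ∑ i ∈ Icc A (m - A), (1 - a g i * a g (m - i)) = 4 * D A g m := by
  have h1 : ∑ i ∈ Icc A (m - A), (1 - a g i * a g (m - i)) =
      ∑ i ∈ Icc A (m - A), (2 * (g i * (1 - g (m - i))) + 2 * (g (m - i) * (1 - g i))) := by
    apply Finset.sum_congr rfl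
    intro i _
    unfold a; ring
  rw [h1, Finset.sum_add_distrib, ← Finset.mul_sum, ← Finset.mul_sum, D_refl A g hg m hAm]
  have h4 : ∑ i ∈ Icc A (m - A), g i * (1 - g (m - i)) = D A g m := rfl
  rw [h4]; ring

theorem a_bd (i : ℕ) : |a g i| ≤ 1 := by
  unfold a
  rw [abs_le]
  constructor <;> linarith [(hg i).1, (hg i).2]

/-- almost invariance under small shifts -/
theorem shift_small (K H R1 : ℕ) (hK : 1 ≤ K) (hR : R1 + A + 1 ≤ K) (δ : ℝ) (hδ : 0 ≤ δ)
    (hsum : ∑ m ∈ Icc (K - 1) (K - 1 + 2 * H), D A g m ≤ (2 * H + 1) * δ) (t : ℕ) (ht : t ≤ H) :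
    ∑ i ∈ Icc A R1, |g i - g (i + t)| ≤ 8 * δ := by
  have hDn := D_nonneg A g hg
  have h1 : ∑ m ∈ Icc (K - 1) (K - 1 + 2 * H - t), (D A g m + D A g (m + t)) ≤ 2 * ((2 * H + 1) * δ) := by
    rw [Finset.sum_add_distrib]
    have e1 : ∑ m ∈ Icc (K - 1) (K - 1 + 2 * H - t), D A g m ≤ ∑ m ∈ Icc (K - 1) (K - 1 + 2 * H), D A g m :=
      sum_le_of_inj _ _ (fun m => m) (fun _ _ _ _ h => h)
        (fun i hi => by rw [mem_Icc] at *; omega) _ hDn
    have e2 : ∑ m ∈ Icc (K - 1) (K - 1 + 2 * H - t), D A g (m + t) ≤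
        ∑ m ∈ Icc (K - 1) (K - 1 + 2 * H), D A g m :=
      sum_le_of_inj _ _ (fun m => m + t) (fun x _ y _ h => by simpa using h)
        (fun i hi => by rw [mem_Icc] at *; omega) _ hDn
    linarith
  obtain ⟨m, hm, hle⟩ := exists_small (by rw [nonempty_Icc]; omega) (fun m => D A g m + D A g (m + t)) _ h1
  rw [Nat.card_Icc] at hle
  rw [mem_Icc] at hm
  have hcard : ((H : ℝ) + 1) ≤ ((K - 1 + 2 * H - t + 1 - (K - 1) : ℕ) : ℝ) := by
    have : H + 1 ≤ K - 1 + 2 * H - t + 1 - (K - 1) := by omega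
    exact_mod_cast this
  have hE : D A g m + D A g (m + t) ≤ 4 * δ := by
    have h2 : ((H : ℝ) + 1) * (D A g m + D A g (m + t)) ≤ 2 * ((2 * H + 1) * δ) :=
      (mul_le_mul_of_nonneg_right hcard (add_nonneg (hDn _) (hDn _))).trans hle
    have h3 : 2 * ((2 * (H : ℝ) + 1) * δ) ≤ (H + 1) * (4 * δ) := by nlinarith
    have h4 : (0 : ℝ) < H + 1 := by positivity
    exact le_of_mul_le_mul_left (h2.trans h3) h4
  have e1 : ∑ i ∈ Icc A R1, |g i - g (m - i)| ≤ 2 * D A g m := by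
    refine le_trans ?_ (sum_abs A g hg m (by omega))
    exact sum_le_of_inj _ _ (fun m => m) (fun _ _ _ _ h => h)
        (fun i hi => by rw [mem_Icc] at *; omega) (fun i => |g i - g (m - i)|) (fun _ => abs_nonneg _)
  have e2 : ∑ i ∈ Icc A R1, |g (i + t) - g (m - i)| ≤ 2 * D A g (m + t) := by
    refine le_trans ?_ (sum_abs A g hg (m + t) (by omega))
    have e3 : ∑ i ∈ Icc A R1, |g (i + t) - g (m - i)| =
        ∑ i ∈ Icc A R1, |g (i + t) - g (m + t - (i + t))| := by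
      apply Finset.sum_congr rfl
      intro i _
      have : m + t - (i + t) = m - i := by omega
      rw [this]
    rw [e3]
    exact sum_le_of_inj _ _ (fun i => i + t) (fun x _ y _ h => by simpa using h)
        (fun i hi => by rw [mem_Icc] at *; omega) (fun i => |g i - g (m + t - i)|) (fun _ => abs_nonneg _)
  calc ∑ i ∈ Icc A R1, |g i - g (i + t)|
      ≤ ∑ i ∈ Icc A R1, (|g i - g (m - i)| + |g (i + t) - g (m - i)|) := by
        apply Finset.sum_le_sum
        intro i _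
        have := abs_sub_le (g i) (g (m - i)) (g (i + t))
        rwa [abs_sub_comm (g (m - i))] at this
    _ = ∑ i ∈ Icc A R1, |g i - g (m - i)| + ∑ i ∈ Icc A R1, |g (i + t) - g (m - i)| :=
        Finset.sum_add_distrib
    _ ≤ 8 * δ := by linarith

theorem sq_small (K H R1 : ℕ) (hK : 1 ≤ K) (hR : R1 + A + 1 ≤ K) (δ : ℝ) (hδ : 0 ≤ δ)
    (hsum : ∑ m ∈ Icc (K - 1) (K - 1 + 2 * H), D A g m ≤ (2 * H + 1) * δ) :
    ∑ i ∈ Icc A R1, g i * (1 - g i) ≤ 3 * δ := by
  have hDn := D_nonneg A g hg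
  obtain ⟨m, hm, hle⟩ := exists_small (by rw [nonempty_Icc]; omega) (D A g) _ hsum
  rw [Nat.card_Icc] at hle
  rw [mem_Icc] at hm
  have hcard : ((K - 1 + 2 * H + 1 - (K - 1) : ℕ) : ℝ) = 2 * H + 1 := by
    have : K - 1 + 2 * H + 1 - (K - 1) = 2 * H + 1 := by omega
    rw [this]; push_cast; ring
  rw [hcard] at hle
  have hE : D A g m ≤ δ := le_of_mul_le_mul_left hle (by positivity)
  refine le_trans ?_ ((sum_sq A g hg m (by omega)).trans (by linarith))
  apply Finset.sum_le_sum_of_subset_of_nonneg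
  · intro i hi; rw [mem_Icc] at *; omega
  · intro i _ _
    exact mul_nonneg (hg i).1 (by linarith [(hg i).2])

theorem shift_big (K H R1 R2 : ℕ) (hK : 1 ≤ K) (hR : R1 + A + 1 ≤ K) (hR2 : R2 + H ≤ R1) (δ : ℝ)
    (hδ : 0 ≤ δ)
    (hsum : ∑ m ∈ Icc (K - 1) (K - 1 + 2 * H), D A g m ≤ (2 * H + 1) * δ) (t : ℕ) (ht : t ≤ 2 * H) :
    ∑ i ∈ Icc A R2, |g i - g (i + t)| ≤ 16 * δ := by
  have h1 := shift_small A g hg K H R1 hK hR δ hδ hsum (t / 2) (by omega)
  have h2 := shift_small A g hg K H R1 hK hR δ hδ hsum (t - t / 2) (by omega)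
  have e1 : ∑ i ∈ Icc A R2, |g i - g (i + t / 2)| ≤ ∑ i ∈ Icc A R1, |g i - g (i + t / 2)| :=
    sum_le_of_inj _ _ (fun m => m) (fun _ _ _ _ h => h)
        (fun i hi => by rw [mem_Icc] at *; omega) (fun i => |g i - g (i + t / 2)|) (fun _ => abs_nonneg _)
  have e2 : ∑ i ∈ Icc A R2, |g (i + t / 2) - g (i + t)| ≤ ∑ i ∈ Icc A R1, |g i - g (i + (t - t / 2))| := by
    have e3 : ∑ i ∈ Icc A R2, |g (i + t / 2) - g (i + t)| =
        ∑ i ∈ Icc A R2, |g (i + t / 2) - g (i + t / 2 + (t - t / 2))| := by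
      apply Finset.sum_congr rfl
      intro i _
      have : i + t / 2 + (t - t / 2) = i + t := by omega
      rw [this]
    rw [e3]
    exact sum_le_of_inj _ _ (fun i => i + t / 2) (fun x _ y _ h => by simpa using h)
        (fun i hi => by rw [mem_Icc] at *; omega) (fun i => |g i - g (i + (t - t / 2))|)
        (fun _ => abs_nonneg _)
  calc ∑ i ∈ Icc A R2, |g i - g (i + t)|
      ≤ ∑ i ∈ Icc A R2, (|g i - g (i + t / 2)| + |g (i + t / 2) - g (i + t)|) := by
        apply Finset.sum_le_sum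
        intro i _
        exact abs_sub_le _ _ _
    _ = ∑ i ∈ Icc A R2, |g i - g (i + t / 2)| + ∑ i ∈ Icc A R2, |g (i + t / 2) - g (i + t)| :=
        Finset.sum_add_distrib
    _ ≤ 16 * δ := by linarith

end


/-- the setting of the main argument -/
structure Ctx (A N H n K : ℕ) (g : ℕ → ℝ) (σ δ : ℝ) : Prop where
  hg : ∀ i, 0 ≤ g i ∧ g i ≤ 1
  n1 : 1 ≤ n
  hA : A ≤ n
  hn : 100 * n ≤ N
  hN : N ≤ 101 * n
  hH1 : 1 ≤ H
  hHn : 2 * H ≤ n
  hK : 97 * n ≤ K
  hδ : 0 ≤ δ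
  hδn : δ ≤ n / 10 ^ 5
  hσ : σ ≤ n / 10 ^ 3
  c2 : ∀ u v, A ≤ u → u ≤ v → v ≤ N → |∑ i ∈ Ico u v, a g i| ≤ σ
  c3 : ∑ m ∈ Icc (K - 1) (K - 1 + 2 * H), D A g m ≤ (2 * H + 1) * δ
  c4 : ∀ i, 80 * n ≤ i → i < 90 * n → ∑ m ∈ Icc (i - 1) (i - 1 + 2 * H), D A g m ≤
    (2 * H + 1) * δ + N * ∑ k ∈ range (2 * H), g (i + k)

namespace Ctx

variable {A N H n K : ℕ} {g : ℕ → ℝ} {σ δ : ℝ} (c : Ctx A N H n K g σ δ)

/-- local average -/
noncomputable def w (H : ℕ) (g : ℕ → ℝ) (i : ℕ) : ℝ := (∑ k ∈ range (2 * H), g (i + k)) / (2 * H)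

include c

theorem shift1 (t : ℕ) (ht : t ≤ H) : ∑ i ∈ Icc A (95 * n), |g i - g (i + t)| ≤ 8 * δ :=
  shift_small A g c.hg K H (95 * n) (by have := c.hK; have := c.n1; omega)
    (by have := c.hK; have := c.n1; have := c.hA; omega) δ c.hδ c.c3 t ht

theorem shift2 (t : ℕ) (ht : t ≤ 2 * H) : ∑ i ∈ Icc A (94 * n), |g i - g (i + t)| ≤ 16 * δ :=
  shift_big A g c.hg K H (95 * n) (94 * n) (by have := c.hK; have := c.n1; omega)
    (by have := c.hK; have := c.n1; have := c.hA; omega) (by have := c.hHn; omega) δ c.hδ c.c3 t ht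

theorem sq : ∑ i ∈ Icc A (95 * n), g i * (1 - g i) ≤ 3 * δ :=
  sq_small A g c.hg K H (95 * n) (by have := c.hK; have := c.n1; omega)
    (by have := c.hK; have := c.n1; have := c.hA; omega) δ c.hδ c.c3

theorem sq_sub (S : Finset ℕ) (hS : ∀ i ∈ S, A ≤ i ∧ i ≤ 95 * n) :
    ∑ i ∈ S, (1 - a g i ^ 2) ≤ 12 * δ := by
  have h1 : ∑ i ∈ S, (1 - a g i ^ 2) = 4 * ∑ i ∈ S, g i * (1 - g i) := by
    rw [Finset.mul_sum]
    apply Finset.sum_congr rfl
    intro i _
    unfold a; ring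
  have h2 : ∑ i ∈ S, g i * (1 - g i) ≤ ∑ i ∈ Icc A (95 * n), g i * (1 - g i) := by
    apply Finset.sum_le_sum_of_subset_of_nonneg
    · intro i hi; rw [mem_Icc]; exact hS i hi
    · intro i _ _
      exact mul_nonneg (c.hg i).1 (by linarith [(c.hg i).2])
  have := c.sq
  linarith

theorem w_close : ∑ i ∈ Ico (80 * n) (90 * n), |w H g i - g i| ≤ 16 * δ := by
  have hHpos : (0 : ℝ) < 2 * H := by
    have := c.hH1
    have : (1 : ℝ) ≤ H := by exact_mod_cast this
    linarith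
  have h1 : ∀ i, |w H g i - g i| ≤ (∑ k ∈ range (2 * H), |g i - g (i + k)|) / (2 * H) := by
    intro i
    have h2 : w H g i - g i = (∑ k ∈ range (2 * H), (g (i + k) - g i)) / (2 * H) := by
      unfold w
      rw [Finset.sum_sub_distrib, Finset.sum_const, card_range, nsmul_eq_mul]
      push_cast
      rw [eq_div_iff hHpos.ne', sub_mul, div_mul_cancel₀ _ hHpos.ne']
      ring
    rw [h2, abs_div, abs_of_pos hHpos]
    apply div_le_div_of_nonneg_right _ hHpos.le
    refine (Finset.abs_sum_le_sum_abs _ _).trans (Finset.sum_le_sum fun k _ => ?_)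
    rw [abs_sub_comm]
  calc ∑ i ∈ Ico (80 * n) (90 * n), |w H g i - g i|
      ≤ ∑ i ∈ Ico (80 * n) (90 * n), (∑ k ∈ range (2 * H), |g i - g (i + k)|) / (2 * H) :=
        Finset.sum_le_sum fun i _ => h1 i
    _ = (∑ k ∈ range (2 * H), ∑ i ∈ Ico (80 * n) (90 * n), |g i - g (i + k)|) / (2 * H) := by
        rw [← Finset.sum_div, Finset.sum_comm]
    _ ≤ (∑ k ∈ range (2 * H), 16 * δ) / (2 * H) := by
        apply div_le_div_of_nonneg_right _ hHpos.le
        apply Finset.sum_le_sum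
        intro k hk
        rw [mem_range] at hk
        refine le_trans ?_ (c.shift2 k hk.le)
        apply Finset.sum_le_sum_of_subset_of_nonneg
        · intro i hi
          rw [mem_Ico] at hi
          rw [mem_Icc]
          have := c.hA
          omega
        · intro i _ _
          exact abs_nonneg _
    _ = 16 * δ := by
        rw [Finset.sum_const, card_range, nsmul_eq_mul]
        push_cast
        rw [div_eq_iff hHpos.ne']
        ring

theorem w_nonneg (i : ℕ) : 0 ≤ w H g i := by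
  unfold w
  apply div_nonneg
  · exact Finset.sum_nonneg fun k _ => (c.hg _).1
  · positivity

theorem S_bound (i : ℕ) (h1 : 80 * n ≤ i) (h2 : i < 90 * n) :
    ∑ l ∈ Ico (20 * n) (60 * n), (1 - a g l * a g (i - l)) ≤ 24 * δ + 8 * N * w H g i := by
  have hDn := D_nonneg A g c.hg
  have hA := c.hA
  have hn1 := c.n1
  have hH1 := c.hH1
  have hHn := c.hHn
  have hHpos : (0 : ℝ) < 2 * H := by
    have : (1 : ℝ) ≤ H := by exact_mod_cast hH1
    linarith
  have hG : ∑ k ∈ range (2 * H), g (i + k) = 2 * H * w H g i := by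
    unfold w; rw [mul_div_cancel₀ _ hHpos.ne']
  have hc4 := c.c4 i h1 h2
  rw [hG] at hc4
  have h3 : ∑ m ∈ Icc (i - 1) (i - 1 + H), D A g m ≤ (2 * H + 1) * δ + N * (2 * H * w H g i) := by
    refine le_trans ?_ hc4
    exact sum_le_of_inj _ _ (fun m => m) (fun _ _ _ _ h => h)
        (fun i hi => by rw [mem_Icc] at *; omega) _ hDn
  obtain ⟨m, hm, hle⟩ := exists_small (by rw [nonempty_Icc]; omega) (D A g) _ h3
  rw [Nat.card_Icc] at hle
  rw [mem_Icc] at hm
  have hcard : ((i - 1 + H + 1 - (i - 1) : ℕ) : ℝ) = H + 1 := by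
    have : i - 1 + H + 1 - (i - 1) = H + 1 := by omega
    rw [this]; push_cast; ring
  rw [hcard] at hle
  have hw := c.w_nonneg i
  have hDm : D A g m ≤ 2 * δ + 2 * N * w H g i := by
    have h4 : (2 * (H : ℝ) + 1) * δ + N * (2 * H * w H g i) ≤ (H + 1) * (2 * δ + 2 * N * w H g i) := by
      have h5 : 0 ≤ (N : ℝ) * w H g i := by positivity
      have h6 := c.hδ
      nlinarith
    exact le_of_mul_le_mul_left (hle.trans h4) (by positivity)
  have e1 : ∑ l ∈ Ico (20 * n) (60 * n), (1 - a g l * a g (m - l)) ≤ 4 * D A g m := by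
    rw [← sum_prod A g c.hg m (by omega)]
    apply Finset.sum_le_sum_of_subset_of_nonneg
    · intro l hl
      rw [mem_Ico] at hl
      rw [mem_Icc]
      omega
    · intro l _ _
      have h5 := a_bd g c.hg l
      have h6 := a_bd g c.hg (m - l)
      have h7 : |a g l * a g (m - l)| ≤ 1 := by
        rw [abs_mul]
        exact mul_le_one₀ h5 (abs_nonneg _) h6
      linarith [le_abs_self (a g l * a g (m - l))]
  have e2 : ∑ l ∈ Ico (20 * n) (60 * n), |a g (m - l) - a g (i - l)| ≤ 16 * δ := by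
    have e3 : ∀ x y, |a g x - a g y| = 2 * |g x - g y| := by
      intro x y
      have : a g x - a g y = (-2) * (g x - g y) := by unfold a; ring
      rw [this, abs_mul]; norm_num
    simp only [e3]
    rw [← Finset.mul_sum]
    have e4 : ∑ l ∈ Ico (20 * n) (60 * n), |g (m - l) - g (i - l)| ≤ 8 * δ := by
      rcases Nat.lt_or_ge m i with hmi | hmi
      · -- m = i - 1
        have hmi' : m = i - 1 := by omega
        refine le_trans ?_ (c.shift1 1 hH1)
        have e5 : ∑ l ∈ Ico (20 * n) (60 * n), |g (m - l) - g (i - l)| =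
            ∑ l ∈ Ico (20 * n) (60 * n), |g (m - l) - g (m - l + 1)| := by
          apply Finset.sum_congr rfl
          intro l hl
          rw [mem_Ico] at hl
          have : m - l + 1 = i - l := by omega
          rw [this]
        rw [e5]
        exact sum_le_of_inj _ _ (fun l => m - l)
          (fun x hx y hy h => by
            simp only [coe_Ico, Set.mem_Ico] at hx hy
            have h' : m - x = m - y := h
            omega)
          (fun l hl => by rw [mem_Ico] at hl; rw [mem_Icc]; omega)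
          (fun j => |g j - g (j + 1)|) (fun _ => abs_nonneg _)
      · refine le_trans ?_ (c.shift1 (m - i) (by omega))
        have e5 : ∑ l ∈ Ico (20 * n) (60 * n), |g (m - l) - g (i - l)| =
            ∑ l ∈ Ico (20 * n) (60 * n), |g (i - l) - g (i - l + (m - i))| := by
          apply Finset.sum_congr rfl
          intro l hl
          rw [mem_Ico] at hl
          have : i - l + (m - i) = m - l := by omega
          rw [this, abs_sub_comm]
        rw [e5]
        exact sum_le_of_inj _ _ (fun l => i - l)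
          (fun x hx y hy h => by
            simp only [coe_Ico, Set.mem_Ico] at hx hy
            have h' : i - x = i - y := h
            omega)
          (fun l hl => by rw [mem_Ico] at hl; rw [mem_Icc]; omega)
          (fun j => |g j - g (j + (m - i))|) (fun _ => abs_nonneg _)
    linarith
  have e6 : ∑ l ∈ Ico (20 * n) (60 * n), (1 - a g l * a g (i - l)) ≤
      ∑ l ∈ Ico (20 * n) (60 * n), ((1 - a g l * a g (m - l)) + |a g (m - l) - a g (i - l)|) := by
    apply Finset.sum_le_sum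
    intro l _
    have h5 := a_bd g c.hg l
    have h6 : a g l * (a g (m - l) - a g (i - l)) ≤ |a g (m - l) - a g (i - l)| := by
      calc a g l * (a g (m - l) - a g (i - l)) ≤ |a g l * (a g (m - l) - a g (i - l))| := le_abs_self _
        _ = |a g l| * |a g (m - l) - a g (i - l)| := abs_mul _ _
        _ ≤ 1 * |a g (m - l) - a g (i - l)| := mul_le_mul_of_nonneg_right h5 (abs_nonneg _)
        _ = _ := one_mul _
    nlinarith
  rw [Finset.sum_add_distrib] at e6
  linarith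


/-- the correlation at `i` -/
noncomputable def S (n : ℕ) (g : ℕ → ℝ) (i : ℕ) : ℝ := ∑ l ∈ Ico (20 * n) (60 * n), a g l * a g (i - l)

theorem S_lower (i : ℕ) (h1 : 80 * n ≤ i) (h2 : i < 90 * n) :
    40 * n - 24 * δ - 8 * N * w H g i ≤ S n g i := by
  have h3 := c.S_bound i h1 h2
  rw [Finset.sum_sub_distrib, Finset.sum_const, Nat.card_Ico, nsmul_eq_mul, mul_one] at h3
  have h4 : ((60 * n - 20 * n : ℕ) : ℝ) = 40 * n := by
    have : 60 * n - 20 * n = 40 * n := by omega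
    rw [this]; push_cast; ring
  rw [h4] at h3
  unfold S
  linarith

theorem sum_S : |∑ i ∈ Ico (80 * n) (90 * n), S n g i| ≤ 40 * n * σ := by
  have hA := c.hA
  have hn := c.hn
  unfold S
  rw [Finset.sum_comm]
  have h1 : ∀ l ∈ Ico (20 * n) (60 * n), |∑ i ∈ Ico (80 * n) (90 * n), a g l * a g (i - l)| ≤ σ := by
    intro l hl
    rw [mem_Ico] at hl
    rw [← Finset.mul_sum, abs_mul]
    have h2 : ∑ i ∈ Ico (80 * n) (90 * n), a g (i - l) = ∑ j ∈ Ico (80 * n - l) (90 * n - l), a g j := by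
      apply Finset.sum_nbij' (fun i => i - l) (fun j => j + l)
      · intro i hi; rw [mem_Ico] at *; omega
      · intro i hi; rw [mem_Ico] at *; omega
      · intro i hi; rw [mem_Ico] at hi; beta_reduce; omega
      · intro i hi; beta_reduce; omega
      · intro i _; rfl
    rw [h2]
    have h3 := c.c2 (80 * n - l) (90 * n - l) (by omega) (by omega) (by omega)
    have h4 := a_bd g c.hg l
    calc |a g l| * |∑ j ∈ Ico (80 * n - l) (90 * n - l), a g j| ≤ 1 * |∑ j ∈ Ico (80 * n - l) (90 * n - l), a g j| :=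
          mul_le_mul_of_nonneg_right h4 (abs_nonneg _)
      _ ≤ σ := by rw [one_mul]; exact h3
  calc |∑ l ∈ Ico (20 * n) (60 * n), ∑ i ∈ Ico (80 * n) (90 * n), a g l * a g (i - l)|
      ≤ ∑ l ∈ Ico (20 * n) (60 * n), |∑ i ∈ Ico (80 * n) (90 * n), a g l * a g (i - l)| :=
        Finset.abs_sum_le_sum_abs _ _
    _ ≤ ∑ l ∈ Ico (20 * n) (60 * n), σ := Finset.sum_le_sum h1
    _ = 40 * n * σ := by
        rw [Finset.sum_const, Nat.card_Ico, nsmul_eq_mul]
        have : 60 * n - 20 * n = 40 * n := by omega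
        rw [this]; push_cast; ring

theorem σ_nonneg : 0 ≤ σ := by
  have h := c.c2 A A le_rfl le_rfl (by have := c.hA; have := c.hn; omega)
  exact (abs_nonneg _).trans h

/-- the total error -/
noncomputable def ρ (n : ℕ) (σ δ : ℝ) : ℝ := n * (80 * σ + 31184 * δ)

theorem T_lower : 400 * n ^ 2 - ρ n σ δ ≤ ∑ i ∈ Ico (80 * n) (90 * n), a g i * S n g i := by
  have hA := c.hA
  have hn := c.hn
  have hN := c.hN
  have hδ := c.hδ
  have hσ := c.σ_nonneg
  have hN' : (N : ℝ) ≤ 101 * n := by exact_mod_cast hN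
  have hn0 : (0 : ℝ) ≤ n := Nat.cast_nonneg n
  set J := Ico (80 * n) (90 * n) with hJ
  have hcardJ : (J.card : ℝ) = 10 * n := by
    rw [hJ, Nat.card_Ico]
    have : 90 * n - 80 * n = 10 * n := by omega
    rw [this]; push_cast; ring
  have h1 : ∀ i ∈ J, (1 - g i) * (40 * n) - 24 * δ - 8 * N * (g i * (1 - g i)) - 8 * N * |w H g i - g i| ≤
      (1 - g i) * S n g i := by
    intro i hi
    rw [hJ, mem_Ico] at hi
    have h2 := c.S_lower i hi.1 hi.2
    have h3 := c.hg i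
    have h4 : (1 - g i) * (40 * n - 24 * δ - 8 * N * w H g i) ≤ (1 - g i) * S n g i :=
      mul_le_mul_of_nonneg_left h2 (by linarith)
    refine le_trans ?_ h4
    have h5 : (1 - g i) * w H g i ≤ g i * (1 - g i) + |w H g i - g i| := by
      have h6 : (1 - g i) * (w H g i - g i) ≤ |w H g i - g i| := by
        calc (1 - g i) * (w H g i - g i) ≤ (1 - g i) * |w H g i - g i| :=
              mul_le_mul_of_nonneg_left (le_abs_self _) (by linarith)
          _ ≤ 1 * |w H g i - g i| := mul_le_mul_of_nonneg_right (by linarith) (abs_nonneg _)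
          _ = _ := one_mul _
      nlinarith
    have h7 : 0 ≤ (N : ℝ) := Nat.cast_nonneg N
    have h8 : (N : ℝ) * ((1 - g i) * w H g i) ≤ N * (g i * (1 - g i) + |w H g i - g i|) :=
      mul_le_mul_of_nonneg_left h5 h7
    have h9 : (1 - g i) * δ ≤ δ := by nlinarith
    nlinarith
  have h2 := Finset.sum_le_sum h1
  have e1 : ∑ i ∈ J, ((1 - g i) * (40 * n) - 24 * δ - 8 * N * (g i * (1 - g i)) - 8 * N * |w H g i - g i|) =
      40 * n * ∑ i ∈ J, (1 - g i) - 10 * n * (24 * δ) - 8 * N * ∑ i ∈ J, g i * (1 - g i) -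
        8 * N * ∑ i ∈ J, |w H g i - g i| := by
    rw [Finset.sum_sub_distrib, Finset.sum_sub_distrib, Finset.sum_sub_distrib, ← Finset.sum_mul,
      Finset.sum_const, nsmul_eq_mul, hcardJ, ← Finset.mul_sum, ← Finset.mul_sum]
    ring
  rw [e1] at h2
  have h3 : ∑ i ∈ J, g i * (1 - g i) ≤ 3 * δ := by
    refine le_trans ?_ c.sq
    apply Finset.sum_le_sum_of_subset_of_nonneg
    · intro i hi
      rw [hJ, mem_Ico] at hi
      rw [mem_Icc]
      omega
    · intro i _ _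
      exact mul_nonneg (c.hg i).1 (by linarith [(c.hg i).2])
  have h4 : ∑ i ∈ J, |w H g i - g i| ≤ 16 * δ := c.w_close
  have h5 : 10 * n - σ ≤ 2 * ∑ i ∈ J, (1 - g i) := by
    have h6 := c.c2 (80 * n) (90 * n) (by omega) (by omega) (by omega)
    have h7 : 2 * ∑ i ∈ J, (1 - g i) = 10 * n + ∑ i ∈ J, a g i := by
      rw [Finset.mul_sum, ← hcardJ]
      have : (J.card : ℝ) = ∑ i ∈ J, (1 : ℝ) := by simp
      rw [this, ← Finset.sum_add_distrib]
      apply Finset.sum_congr rfl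
      intro i _
      unfold a; ring
    rw [h7]
    have := neg_le_of_abs_le h6
    linarith
  have h6 : ∑ i ∈ J, a g i * S n g i = 2 * ∑ i ∈ J, (1 - g i) * S n g i - ∑ i ∈ J, S n g i := by
    rw [Finset.mul_sum, ← Finset.sum_sub_distrib]
    apply Finset.sum_congr rfl
    intro i _
    unfold a; ring
  rw [h6]
  have h7 := c.sum_S
  have h8 := le_of_abs_le h7
  have h9 : (N : ℝ) * ∑ i ∈ J, g i * (1 - g i) ≤ (101 * n) * (3 * δ) := by
    apply mul_le_mul hN' h3 _ (by positivity)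
    exact Finset.sum_nonneg fun i _ => mul_nonneg (c.hg i).1 (by linarith [(c.hg i).2])
  have h10 : (N : ℝ) * ∑ i ∈ J, |w H g i - g i| ≤ (101 * n) * (16 * δ) := by
    apply mul_le_mul hN' h4 _ (by positivity)
    exact Finset.sum_nonneg fun i _ => abs_nonneg _
  have h11 : (n : ℝ) * (10 * n - σ) ≤ n * (2 * ∑ i ∈ J, (1 - g i)) :=
    mul_le_mul_of_nonneg_left h5 hn0
  unfold ρ
  nlinarith

/-- the main estimate -/
theorem R_bound : ∑ x ∈ Ico (80 * n) (90 * n) ×ˢ Ico (20 * n) (60 * n),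
    |a g x.2 * a g (x.1 - x.2) - a g x.1| ≤ ρ n σ δ := by
  have h1 := c.T_lower
  have h2 : ∑ x ∈ Ico (80 * n) (90 * n) ×ˢ Ico (20 * n) (60 * n),
      |a g x.2 * a g (x.1 - x.2) - a g x.1| ≤
      ∑ x ∈ Ico (80 * n) (90 * n) ×ˢ Ico (20 * n) (60 * n),
        (1 - a g x.1 * (a g x.2 * a g (x.1 - x.2))) := by
    apply Finset.sum_le_sum
    intro x _
    have h3 := abs_le.1 (a_bd g c.hg x.1)
    have h4 : |a g x.2 * a g (x.1 - x.2)| ≤ 1 := by
      rw [abs_mul]
      exact mul_le_one₀ (a_bd g c.hg x.2) (abs_nonneg _) (a_bd g c.hg _)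
    have h5 := abs_le.1 h4
    rw [abs_le]
    constructor <;> nlinarith
  have h3 : ∑ x ∈ Ico (80 * n) (90 * n) ×ˢ Ico (20 * n) (60 * n),
        (1 - a g x.1 * (a g x.2 * a g (x.1 - x.2))) =
        400 * n ^ 2 - ∑ i ∈ Ico (80 * n) (90 * n), a g i * S n g i := by
    rw [Finset.sum_sub_distrib, Finset.sum_const, Finset.card_product, Nat.card_Ico, Nat.card_Ico,
      Finset.sum_product]
    have e1 : 90 * n - 80 * n = 10 * n := by omega
    have e2 : 60 * n - 20 * n = 40 * n := by omega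
    rw [e1, e2]
    congr 1
    · rw [nsmul_eq_mul]; push_cast; ring
    · apply Finset.sum_congr rfl
      intro i _
      unfold S
      rw [Finset.mul_sum]
  linarith


theorem pair1 (t : ℕ) (ht : t ≤ 2 * n) :
    ∑ x ∈ Ico (40 * n) (42 * n) ×ˢ Ico (40 * n) (42 * n),
      |a g (x.1 + t) * a g x.2 - a g (x.1 + t + x.2)| ≤ ρ n σ δ := by
  have hn1 := c.n1
  refine le_trans ?_ c.R_bound
  have e1 : ∑ x ∈ Ico (40 * n) (42 * n) ×ˢ Ico (40 * n) (42 * n),
      |a g (x.1 + t) * a g x.2 - a g (x.1 + t + x.2)| =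
      ∑ x ∈ Ico (40 * n) (42 * n) ×ˢ Ico (40 * n) (42 * n),
      (fun y : ℕ × ℕ => |a g y.2 * a g (y.1 - y.2) - a g y.1|) (x.1 + t + x.2, x.1 + t) := by
    apply Finset.sum_congr rfl
    intro x _
    have : x.1 + t + x.2 - (x.1 + t) = x.2 := by omega
    beta_reduce
    rw [this]
  rw [e1]
  refine sum_le_of_inj _ _ (fun x : ℕ × ℕ => (x.1 + t + x.2, x.1 + t)) ?_ ?_
    (fun y : ℕ × ℕ => |a g y.2 * a g (y.1 - y.2) - a g y.1|) (fun _ => abs_nonneg _)
  · rintro ⟨x1, x2⟩ _ ⟨y1, y2⟩ _ h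
    simp only [Prod.mk.injEq] at h
    ext <;> simp <;> omega
  · intro x hx
    rw [mem_product, mem_Ico, mem_Ico] at *
    beta_reduce
    omega

theorem pair2 (t : ℕ) (ht : t ≤ 2 * n) :
    ∑ x ∈ Ico (40 * n) (42 * n) ×ˢ Ico (40 * n) (42 * n),
      |a g x.1 * a g (x.2 + t) - a g (x.1 + t + x.2)| ≤ ρ n σ δ := by
  have hn1 := c.n1
  refine le_trans ?_ c.R_bound
  have e1 : ∑ x ∈ Ico (40 * n) (42 * n) ×ˢ Ico (40 * n) (42 * n),
      |a g x.1 * a g (x.2 + t) - a g (x.1 + t + x.2)| =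
      ∑ x ∈ Ico (40 * n) (42 * n) ×ˢ Ico (40 * n) (42 * n),
      (fun y : ℕ × ℕ => |a g y.2 * a g (y.1 - y.2) - a g y.1|) (x.1 + t + x.2, x.1) := by
    apply Finset.sum_congr rfl
    intro x _
    have : x.1 + t + x.2 - x.1 = x.2 + t := by omega
    beta_reduce
    rw [this]
  rw [e1]
  refine sum_le_of_inj _ _ (fun x : ℕ × ℕ => (x.1 + t + x.2, x.1)) ?_ ?_
    (fun y : ℕ × ℕ => |a g y.2 * a g (y.1 - y.2) - a g y.1|) (fun _ => abs_nonneg _)
  · rintro ⟨x1, x2⟩ _ ⟨y1, y2⟩ _ h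
    simp only [Prod.mk.injEq] at h
    ext <;> simp <;> omega
  · intro x hx
    rw [mem_product, mem_Ico, mem_Ico] at *
    beta_reduce
    omega

/-- correlation with shift `t` -/
noncomputable def Ct (n : ℕ) (g : ℕ → ℝ) (t : ℕ) : ℝ := ∑ l ∈ Ico (40 * n) (42 * n), a g l * a g (l + t)

theorem sqB (s : ℕ) (hs : s ≤ 2 * n) :
    ∑ l ∈ Ico (40 * n) (42 * n), (1 - a g (l + s) ^ 2) ≤ 12 * δ := by
  have e1 : ∑ l ∈ Ico (40 * n) (42 * n), (1 - a g (l + s) ^ 2) =
      ∑ j ∈ Ico (40 * n + s) (42 * n + s), (1 - a g j ^ 2) := by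
    apply Finset.sum_nbij' (fun i => i + s) (fun j => j - s)
    · intro i hi; rw [mem_Ico] at *; omega
    · intro i hi; rw [mem_Ico] at *; omega
    · intro i hi; beta_reduce; omega
    · intro i hi; rw [mem_Ico] at hi; beta_reduce; omega
    · intro i _; rfl
  rw [e1]
  apply c.sq_sub
  intro i hi
  rw [mem_Ico] at hi
  have := c.hA
  omega

theorem cardB : ((Ico (40 * n) (42 * n)).card : ℝ) = 2 * n := by
  rw [Nat.card_Ico]
  have : 42 * n - 40 * n = 2 * n := by omega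
  rw [this]; push_cast; ring

theorem Ct_sq (t : ℕ) (ht : t ≤ 2 * n) : 3 * (n : ℝ) ^ 2 ≤ Ct n g t ^ 2 := by
  set B := Ico (40 * n) (42 * n) with hB
  set r : ℕ → ℝ := fun l => a g l * a g (l + t) with hr
  have hcB : (B.card : ℝ) = 2 * n := c.cardB
  have hab := a_bd g c.hg
  -- differences
  have h1 : ∑ x ∈ B ×ˢ B, |r x.1 - r x.2| ≤ 2 * ρ n σ δ + 4 * n * (12 * δ) := by
    have e1 : ∀ x ∈ B ×ˢ B, |r x.1 - r x.2| ≤
        |a g (x.1 + t) * a g x.2 - a g (x.1 + t + x.2)| +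
        |a g x.1 * a g (x.2 + t) - a g (x.1 + t + x.2)| +
        ((1 - a g x.1 ^ 2) + (1 - a g x.2 ^ 2)) := by
      intro x _
      set p := a g x.1
      set q := a g x.2
      set p' := a g (x.1 + t)
      set q' := a g (x.2 + t)
      set s := a g (x.1 + t + x.2)
      have hp := hab x.1
      have hq := hab x.2
      have hp' := hab (x.1 + t)
      have hq' := hab (x.2 + t)
      have hpp : p ^ 2 ≤ 1 := by rw [← sq_abs]; exact pow_le_one₀ (abs_nonneg _) hp
      have hqq : q ^ 2 ≤ 1 := by rw [← sq_abs]; exact pow_le_one₀ (abs_nonneg _) hq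
      have f1 : r x.1 - r x.2 = p * q * (p' * q - s) - p * q * (p * q' - s) +
          (p * p' * (1 - q ^ 2) - q * q' * (1 - p ^ 2)) := by
        simp only [r]; ring
      have b1 : |p * q * (p' * q - s)| ≤ |p' * q - s| := by
        rw [abs_mul, abs_mul]
        exact mul_le_of_le_one_left (abs_nonneg _) (mul_le_one₀ hp (abs_nonneg _) hq)
      have b2 : |p * q * (p * q' - s)| ≤ |p * q' - s| := by
        rw [abs_mul, abs_mul]
        exact mul_le_of_le_one_left (abs_nonneg _) (mul_le_one₀ hp (abs_nonneg _) hq)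
      have b3 : |p * p' * (1 - q ^ 2)| ≤ 1 - q ^ 2 := by
        rw [abs_mul, abs_mul, abs_of_nonneg (sub_nonneg.2 hqq)]
        exact mul_le_of_le_one_left (sub_nonneg.2 hqq) (mul_le_one₀ hp (abs_nonneg _) hp')
      have b4 : |q * q' * (1 - p ^ 2)| ≤ 1 - p ^ 2 := by
        rw [abs_mul, abs_mul, abs_of_nonneg (sub_nonneg.2 hpp)]
        exact mul_le_of_le_one_left (sub_nonneg.2 hpp) (mul_le_one₀ hq (abs_nonneg _) hq')
      rw [f1]
      have c1 := abs_add_le (p * q * (p' * q - s) - p * q * (p * q' - s))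
        (p * p' * (1 - q ^ 2) - q * q' * (1 - p ^ 2))
      have c2 := abs_sub (p * q * (p' * q - s)) (p * q * (p * q' - s))
      have c3 := abs_sub (p * p' * (1 - q ^ 2)) (q * q' * (1 - p ^ 2))
      linarith
    have e2 := Finset.sum_le_sum e1
    rw [Finset.sum_add_distrib, Finset.sum_add_distrib] at e2
    have e3 := c.pair1 t ht
    have e4 := c.pair2 t ht
    have e5 : ∑ x ∈ B ×ˢ B, ((1 - a g x.1 ^ 2) + (1 - a g x.2 ^ 2)) =
        4 * (n : ℝ) * ∑ l ∈ B, (1 - a g l ^ 2) := by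
      rw [Finset.sum_add_distrib, Finset.sum_product, Finset.sum_product_right]
      simp only [Finset.sum_const, nsmul_eq_mul, hcB]
      rw [← Finset.mul_sum]
      ring
    have e6 : ∑ l ∈ B, (1 - a g l ^ 2) ≤ 12 * δ := c.sqB 0 (by omega)
    have e7 : 4 * (n : ℝ) * ∑ l ∈ B, (1 - a g l ^ 2) ≤ 4 * n * (12 * δ) :=
      mul_le_mul_of_nonneg_left e6 (by positivity)
    rw [e5] at e2
    linarith
  have h2 : (2 * n : ℝ) - 24 * δ ≤ ∑ l ∈ B, r l ^ 2 := by
    have e1 : ∀ l ∈ B, 1 - (1 - a g l ^ 2) - (1 - a g (l + t) ^ 2) ≤ r l ^ 2 := by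
      intro l _
      have hp := hab l
      have hp' := hab (l + t)
      have hpp : a g l ^ 2 ≤ 1 := by rw [← sq_abs]; exact pow_le_one₀ (abs_nonneg _) hp
      have hqq : a g (l + t) ^ 2 ≤ 1 := by rw [← sq_abs]; exact pow_le_one₀ (abs_nonneg _) hp'
      simp only [r]
      nlinarith [mul_nonneg (sub_nonneg.2 hpp) (sub_nonneg.2 hqq)]
    have e2 := Finset.sum_le_sum e1
    rw [Finset.sum_sub_distrib, Finset.sum_sub_distrib, Finset.sum_const, nsmul_eq_mul, hcB] at e2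
    have e3 := c.sqB 0 (by omega)
    have e4 := c.sqB t ht
    simp only [add_zero] at e3
    linarith
  have h3 : Ct n g t ^ 2 = ∑ x ∈ B ×ˢ B, r x.1 * r x.2 := by
    have : Ct n g t = ∑ l ∈ B, r l := rfl
    rw [this, pow_two, Finset.sum_mul_sum, Finset.sum_product]
  have h4 : ∑ x ∈ B ×ˢ B, (r x.1 ^ 2 - |r x.1 - r x.2|) ≤ ∑ x ∈ B ×ˢ B, r x.1 * r x.2 := by
    apply Finset.sum_le_sum
    intro x _
    have hr1 : |r x.1| ≤ 1 := by
      simp only [r]
      rw [abs_mul]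
      exact mul_le_one₀ (hab _) (abs_nonneg _) (hab _)
    have : r x.1 * (r x.1 - r x.2) ≤ |r x.1 - r x.2| := by
      calc r x.1 * (r x.1 - r x.2) ≤ |r x.1 * (r x.1 - r x.2)| := le_abs_self _
        _ = |r x.1| * |r x.1 - r x.2| := abs_mul _ _
        _ ≤ 1 * |r x.1 - r x.2| := mul_le_mul_of_nonneg_right hr1 (abs_nonneg _)
        _ = _ := one_mul _
    nlinarith
  rw [Finset.sum_sub_distrib, Finset.sum_product] at h4
  simp only [Finset.sum_const, nsmul_eq_mul, hcB] at h4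
  rw [← Finset.mul_sum] at h4
  rw [h3]
  have hn1 : (1 : ℝ) ≤ n := by exact_mod_cast c.n1
  have hδ := c.hδ
  have hδn := c.hδn
  have hσ := c.hσ
  have h5 : (2 * n : ℝ) * (2 * n - 24 * δ) ≤ 2 * n * ∑ l ∈ B, r l ^ 2 :=
    mul_le_mul_of_nonneg_left h2 (by positivity)
  unfold ρ at h1
  have h6 : (n : ℝ) * δ ≤ n * (n / 10 ^ 5) := mul_le_mul_of_nonneg_left hδn (by positivity)
  have h7 : (n : ℝ) * σ ≤ n * (n / 10 ^ 3) := mul_le_mul_of_nonneg_left hσ (by positivity)
  have h8 : 0 ≤ (n : ℝ) * n := by positivity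
  nlinarith

theorem Ct_step (t : ℕ) (ht : t ≤ 2 * n) : |Ct n g (t + 1) - Ct n g t| ≤ 16 * δ := by
  unfold Ct
  rw [← Finset.sum_sub_distrib]
  refine (Finset.abs_sum_le_sum_abs _ _).trans ?_
  have e1 : ∀ l ∈ Ico (40 * n) (42 * n), |a g l * a g (l + (t + 1)) - a g l * a g (l + t)| ≤
      2 * (fun j => |g j - g (j + 1)|) (l + t) := by
    intro l _
    rw [← mul_sub, abs_mul]
    have h1 := a_bd g c.hg l
    have h2 : |a g (l + (t + 1)) - a g (l + t)| = 2 * |g (l + t) - g (l + t + 1)| := by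
      have : a g (l + (t + 1)) - a g (l + t) = 2 * (g (l + t) - g (l + t + 1)) := by
        unfold a; rw [← add_assoc]; ring
      rw [this, abs_mul]; norm_num
    rw [h2]
    calc |a g l| * (2 * |g (l + t) - g (l + t + 1)|) ≤ 1 * (2 * |g (l + t) - g (l + t + 1)|) :=
          mul_le_mul_of_nonneg_right h1 (by positivity)
      _ = _ := one_mul _
  refine (Finset.sum_le_sum e1).trans ?_
  rw [← Finset.mul_sum]
  have e2 : ∑ l ∈ Ico (40 * n) (42 * n), (fun j => |g j - g (j + 1)|) (l + t) ≤ 8 * δ := by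
    refine le_trans ?_ (c.shift1 1 c.hH1)
    exact sum_le_of_inj _ _ (fun l => l + t) (fun x _ y _ h => by simpa using h)
      (fun l hl => by rw [mem_Ico] at hl; rw [mem_Icc]; have := c.hA; omega)
      (fun j => |g j - g (j + 1)|) (fun _ => abs_nonneg _)
  linarith

theorem Ct_lower (t : ℕ) (ht : t ≤ 2 * n) : 3 / 2 * (n : ℝ) ≤ Ct n g t := by
  have hn1 : (1 : ℝ) ≤ n := by exact_mod_cast c.n1
  have hδ := c.hδ
  have hδn := c.hδn
  have key : ∀ t, t ≤ 2 * n → 0 ≤ Ct n g t → 3 / 2 * (n : ℝ) ≤ Ct n g t := by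
    intro t ht h0
    have h1 := c.Ct_sq t ht
    by_contra hcon
    push Not at hcon
    nlinarith
  induction t with
  | zero =>
    apply key 0 ht
    have h1 := c.sqB 0 (by omega)
    rw [Finset.sum_sub_distrib, Finset.sum_const, nsmul_eq_mul, c.cardB] at h1
    have h2 : Ct n g 0 = ∑ l ∈ Ico (40 * n) (42 * n), a g (l + 0) ^ 2 := by
      unfold Ct
      apply Finset.sum_congr rfl
      intro l _
      rw [add_zero]; ring
    rw [h2]
    linarith
  | succ t ih =>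
    have h1 := ih (by omega)
    apply key (t + 1) ht
    have h2 := neg_le_of_abs_le (c.Ct_step t (by omega))
    linarith

theorem false : False := by
  have hn1 : (1 : ℝ) ≤ n := by exact_mod_cast c.n1
  have hA := c.hA
  have hn := c.hn
  have h1 : ∑ t ∈ range (2 * n), 3 / 2 * (n : ℝ) ≤ ∑ t ∈ range (2 * n), Ct n g t := by
    apply Finset.sum_le_sum
    intro t ht
    rw [mem_range] at ht
    exact c.Ct_lower t ht.le
  rw [Finset.sum_const, card_range, nsmul_eq_mul] at h1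
  have h2 : ∑ t ∈ range (2 * n), Ct n g t ≤ 2 * n * σ := by
    unfold Ct
    rw [Finset.sum_comm]
    have h3 : ∀ l ∈ Ico (40 * n) (42 * n), ∑ t ∈ range (2 * n), a g l * a g (l + t) ≤ σ := by
      intro l hl
      rw [mem_Ico] at hl
      rw [← Finset.mul_sum]
      have h4 : ∑ t ∈ range (2 * n), a g (l + t) = ∑ i ∈ Ico l (l + 2 * n), a g i := by
        rw [Finset.sum_Ico_eq_sum_range]
        congr 2
        omega
      rw [h4]
      have h5 := c.c2 l (l + 2 * n) (by omega) (by omega) (by omega)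
      have h6 := a_bd g c.hg l
      calc a g l * ∑ i ∈ Ico l (l + 2 * n), a g i ≤ |a g l * ∑ i ∈ Ico l (l + 2 * n), a g i| := le_abs_self _
        _ = |a g l| * |∑ i ∈ Ico l (l + 2 * n), a g i| := abs_mul _ _
        _ ≤ 1 * |∑ i ∈ Ico l (l + 2 * n), a g i| := mul_le_mul_of_nonneg_right h6 (abs_nonneg _)
        _ ≤ σ := by rw [one_mul]; exact h5
    refine (Finset.sum_le_sum h3).trans ?_
    rw [Finset.sum_const, nsmul_eq_mul, c.cardB]
  have hσ := c.hσ
  push_cast at h1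
  have h7 : 2 * (n : ℝ) * σ ≤ 2 * n * (n / 10 ^ 3) := mul_le_mul_of_nonneg_left hσ (by positivity)
  nlinarith

end Ctx


/-- the rescaled function -/
noncomputable def gg (A N : ℕ) (ε : ℝ) (f : ℕ → ℝ) (i : ℕ) : ℝ :=
  if A ≤ i ∧ i ≤ N then f i / (1 + ε) else 0

/-- the restricted convolution -/
theorem filter_eq (N m : ℕ) (ε : ℝ) (hA1 : 1 ≤ ⌈ε * N⌉₊) :
    (range (m + 1)).filter (fun i : ℕ => ε * N ≤ i ∧ ε * N ≤ (m : ℝ) - i) =
      Icc ⌈ε * N⌉₊ (m - ⌈ε * N⌉₊) := by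
  ext i
  rw [mem_filter, mem_range, mem_Icc]
  constructor
  · rintro ⟨h1, h2, h3⟩
    have h4 : ((m - i : ℕ) : ℝ) = (m : ℝ) - i := Nat.cast_sub (by omega)
    rw [← h4] at h3
    have h5 := Nat.ceil_le.2 h2
    have h6 := Nat.ceil_le.2 h3
    omega
  · rintro ⟨h1, h2⟩
    have h3 : i ≤ m := by omega
    refine ⟨by omega, Nat.ceil_le.1 h1, ?_⟩
    have h4 : ((m - i : ℕ) : ℝ) = (m : ℝ) - i := Nat.cast_sub h3
    rw [← h4]
    apply Nat.ceil_le.1
    omega

theorem main (ε η : ℝ) (hε : ε = 1 / 10 ^ 9) (hη : η = 1 / 10 ^ 9) (H : ℕ) (hH : H = 10 ^ 7)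
    (N : ℕ) (hN : 10 ^ 17 ≤ N) (f : ℕ → ℝ) (h0 : ∀ i, 0 ≤ f i)
    (h1 : ∀ i : ℕ, ε * N ≤ i → i ≤ N → f i ≤ 1 + ε)
    (h2 : ∀ a b : ℕ, ε * N ≤ a → a ≤ b → b ≤ N → |∑ i ∈ Ico a b, f i - ((b:ℝ) - a) / 2| ≤ ε * N)
    (h3 : ∀ K : ℕ, (N:ℝ) / 2 ≤ K → K + 2 * H ≤ N →
      (1 / 2 - 5 * ε) * K * (2 * H : ℕ) - K / 2 * ∑ i ∈ Ico K (K + 2 * H), f i ≤
        ∑ m ∈ Icc (K - 1) (K + 2 * H - 1),
          ∑ i ∈ (range (m + 1)).filter (fun i : ℕ => ε * N ≤ i ∧ ε * N ≤ (m : ℝ) - i), f i * f (m - i))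
    (K : ℕ) (hK1 : (1 - ε) * N ≤ K) (hK2 : K + 2 * H ≤ N) :
    η * (2 * H : ℕ) ≤ ∑ i ∈ Ico K (K + 2 * H), f i := by
  by_contra hcon
  push Not at hcon
  have hε0 : 0 < ε := by rw [hε]; positivity
  have hη0 : 0 < η := by rw [hη]; positivity
  obtain ⟨n, hn⟩ : ∃ n : ℕ, n = N / 100 := ⟨_, rfl⟩
  have hn1 : 10 ^ 15 ≤ n := by omega
  have hn2 : 100 * n ≤ N := by omega
  have hn3 : N ≤ 101 * n := by omega
  have hn1' : (10 : ℝ) ^ 15 ≤ n := by exact_mod_cast hn1
  have hn2' : 100 * (n : ℝ) ≤ N := by exact_mod_cast hn2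
  have hn3' : (N : ℝ) ≤ 101 * n := by exact_mod_cast hn3
  obtain ⟨A, hA⟩ : ∃ A : ℕ, A = ⌈ε * N⌉₊ := ⟨_, rfl⟩
  have hAle : ε * N ≤ A := by rw [hA]; exact Nat.le_ceil _
  have hA1 : 1 ≤ A := by
    rw [hA]
    apply Nat.ceil_pos.2
    have : (0 : ℝ) < N := by linarith
    positivity
  have hAn : A ≤ n := by
    rw [hA]
    apply Nat.ceil_le.2
    rw [hε]
    linarith
  have hiff : ∀ i : ℕ, ε * N ≤ i ↔ A ≤ i := fun i => by rw [hA]; exact Nat.ceil_le.symm
  have hHr : (H : ℝ) = 10 ^ 7 := by rw [hH]; norm_num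
  set g : ℕ → ℝ := gg A N ε f with hg
  have hgf : ∀ i, A ≤ i → i ≤ N → f i = (1 + ε) * g i := by
    intro i hi1 hi2
    have h1ε : (1 + ε) ≠ 0 := by positivity
    rw [hg, gg, if_pos ⟨hi1, hi2⟩, mul_div_cancel₀ _ h1ε]
  have hg01 : ∀ i, 0 ≤ g i ∧ g i ≤ 1 := by
    intro i
    rw [hg, gg]
    split_ifs with h
    · refine ⟨div_nonneg (h0 i) (by positivity), ?_⟩
      rw [div_le_one (by positivity)]
      exact h1 i ((hiff i).2 h.1) h.2
    · norm_num
  -- mean values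
  have hc2 : ∀ u v, A ≤ u → u ≤ v → v ≤ N → |∑ i ∈ Ico u v, a g i| ≤ 4 * ε * N := by
    intro u v hu huv hv
    have e1 := h2 u v ((hiff u).2 hu) huv hv
    have e2 : ∑ i ∈ Ico u v, f i = (1 + ε) * ∑ i ∈ Ico u v, g i := by
      rw [Finset.mul_sum]
      apply Finset.sum_congr rfl
      intro i hi
      rw [mem_Ico] at hi
      exact hgf i (by omega) (by omega)
    have e3 : ∑ i ∈ Ico u v, a g i = ((v : ℝ) - u) - 2 * ∑ i ∈ Ico u v, g i := by
      have : ∑ i ∈ Ico u v, a g i = ∑ i ∈ Ico u v, (1 : ℝ) - 2 * ∑ i ∈ Ico u v, g i := by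
        rw [Finset.mul_sum, ← Finset.sum_sub_distrib]
        rfl
      rw [this, Finset.sum_const, Nat.card_Ico, nsmul_eq_mul, mul_one, Nat.cast_sub huv]
    rw [e2] at e1
    rw [e3]
    set G := ∑ i ∈ Ico u v, g i
    have e4 : 0 ≤ G := Finset.sum_nonneg fun i _ => (hg01 i).1
    have e5 : G ≤ (v : ℝ) - u := by
      calc G ≤ ∑ i ∈ Ico u v, (1 : ℝ) := Finset.sum_le_sum fun i _ => (hg01 i).2
        _ = (v : ℝ) - u := by
          rw [Finset.sum_const, Nat.card_Ico, nsmul_eq_mul, mul_one, Nat.cast_sub huv]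
    have e6 : (v : ℝ) - u ≤ N := by
      have : (v : ℝ) ≤ N := by exact_mod_cast hv
      have : (0 : ℝ) ≤ u := Nat.cast_nonneg u
      linarith
    have e7 := abs_le.1 e1
    have e8 : ε * G ≤ ε * N := mul_le_mul_of_nonneg_left (e5.trans e6) hε0.le
    have e9 : 0 ≤ ε * G := by positivity
    rw [abs_le]
    constructor <;> linarith [e7.1, e7.2]
  -- sums of deficits
  have hD : ∀ K' : ℕ, (N : ℝ) / 2 ≤ K' → K' + 2 * H ≤ N →
      ∑ m ∈ Icc (K' - 1) (K' - 1 + 2 * H), D A g m ≤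
        N / 2 + (2 * H) * (2 * H + 1) / 2 + 6 * ε * (2 * H + 1) * N +
          N / 2 * ∑ i ∈ Ico K' (K' + 2 * H), f i := by
    intro K' hk1 hk2
    have e1 := h3 K' hk1 hk2
    have hk0 : 50 * n ≤ K' := by
      have : (50 * n : ℝ) ≤ K' := by linarith
      exact_mod_cast this
    have hidx : K' + 2 * H - 1 = K' - 1 + 2 * H := by omega
    rw [hidx] at e1
    have e2 : ∀ m ∈ Icc (K' - 1) (K' - 1 + 2 * H),
        D A g m ≤ (1 + ε) * ((K' + 2 * H : ℕ) : ℝ) / 2 -
          ∑ i ∈ (range (m + 1)).filter (fun i : ℕ => ε * N ≤ i ∧ ε * N ≤ (m : ℝ) - i), f i * f (m - i) := by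
      intro m hm
      rw [mem_Icc] at hm
      rw [filter_eq N m ε (by rw [← hA]; exact hA1), ← hA]
      have hDn := D_nonneg A g hg01 m
      have q1 : D A g m * (1 + ε) ^ 2 = (1 + ε) * ∑ i ∈ Icc A (m - A), f i -
          ∑ i ∈ Icc A (m - A), f i * f (m - i) := by
        unfold D
        rw [Finset.mul_sum, Finset.sum_mul, ← Finset.sum_sub_distrib]
        apply Finset.sum_congr rfl
        intro i hi
        rw [mem_Icc] at hi
        rw [hgf i hi.1 (by omega), hgf (m - i) (by omega) (by omega)]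
        ring
      have q2 : ∑ i ∈ Icc A (m - A), f i ≤ ((K' + 2 * H : ℕ) : ℝ) / 2 := by
        have q3 := h2 A (m - A + 1) hAle (by omega) (by omega)
        have q4 : Ico A (m - A + 1) = Icc A (m - A) := by
          ext i; rw [mem_Ico, mem_Icc]; omega
        rw [q4] at q3
        have q5 := (abs_le.1 q3).2
        have q6 : ((m - A + 1 : ℕ) : ℝ) = (m : ℝ) - A + 1 := by
          rw [Nat.cast_add, Nat.cast_sub (by omega)]; push_cast; ring
        rw [q6] at q5
        have q7 : (m : ℝ) + 1 ≤ ((K' + 2 * H : ℕ) : ℝ) := by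
          have : m + 1 ≤ K' + 2 * H := by omega
          exact_mod_cast this
        linarith
      have q8 : D A g m ≤ D A g m * (1 + ε) ^ 2 := by
        have : 1 ≤ (1 + ε) ^ 2 := by nlinarith
        nlinarith
      have q9 : (1 + ε) * ∑ i ∈ Icc A (m - A), f i ≤ (1 + ε) * (((K' + 2 * H : ℕ) : ℝ) / 2) :=
        mul_le_mul_of_nonneg_left q2 (by positivity)
      linarith
    have e3 := Finset.sum_le_sum e2
    rw [Finset.sum_sub_distrib, Finset.sum_const, nsmul_eq_mul, Nat.card_Icc] at e3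
    have e4 : ((K' - 1 + 2 * H + 1 - (K' - 1) : ℕ) : ℝ) = 2 * H + 1 := by
      have : K' - 1 + 2 * H + 1 - (K' - 1) = 2 * H + 1 := by omega
      rw [this]; push_cast; ring
    rw [e4] at e3
    have hKN : (K' : ℝ) + 2 * H ≤ N := by exact_mod_cast hk2
    have hW : 0 ≤ ∑ i ∈ Ico K' (K' + 2 * H), f i := Finset.sum_nonneg fun i _ => h0 i
    have hH0 : (0 : ℝ) ≤ H := Nat.cast_nonneg H
    have hK'0 : (0 : ℝ) ≤ K' := Nat.cast_nonneg K'
    have hN0 : (0 : ℝ) ≤ N := Nat.cast_nonneg N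
    have e5 : (K' : ℝ) / 2 * ∑ i ∈ Ico K' (K' + 2 * H), f i ≤ N / 2 * ∑ i ∈ Ico K' (K' + 2 * H), f i :=
      mul_le_mul_of_nonneg_right (by linarith) hW
    push_cast at e1 e3
    have e6 : (2 * (H : ℝ) + 1) * ((1 + ε) * (K' + 2 * H) / 2) ≤
        (1 / 2 - 5 * ε) * K' * (2 * H) + (N / 2 + (2 * H) * (2 * H + 1) / 2 + 6 * ε * (2 * H + 1) * N) := by
      have p1 : ε * ((2 * (H : ℝ) + 1) * (K' + 2 * H)) ≤ ε * ((2 * (H : ℝ) + 1) * N) :=
        mul_le_mul_of_nonneg_left (mul_le_mul_of_nonneg_left hKN (by positivity)) hε0.le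
      have p2 : ε * ((K' : ℝ) * (2 * H)) ≤ ε * (N * (2 * H + 1)) := by
        apply mul_le_mul_of_nonneg_left _ hε0.le
        apply mul_le_mul _ _ (by positivity) hN0
        · linarith
        · linarith
      nlinarith
    linarith
  -- the parameters
  obtain ⟨δ, hδ⟩ : ∃ δ : ℝ, δ = N / (2 * (2 * H + 1)) + H + 6 * ε * N + η * N / 2 := ⟨_, rfl⟩
  have hN0 : (0 : ℝ) ≤ N := Nat.cast_nonneg N
  have hδ0 : 0 ≤ δ := by rw [hδ]; positivity
  have hM1 : (0 : ℝ) < 2 * H + 1 := by positivity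
  have hδM : (2 * (H : ℝ) + 1) * δ = N / 2 + (2 * H) * (2 * H + 1) / 2 + 6 * ε * (2 * H + 1) * N +
      (2 * H + 1) * (η * N / 2) := by
    rw [hδ]
    field_simp
  have hc : Ctx A N H n K g (4 * ε * N) δ := by
    refine ⟨hg01, by omega, hAn, hn2, hn3, by omega, by omega, ?_, hδ0, ?_, ?_, hc2, ?_, ?_⟩
    · have : (97 * n : ℝ) ≤ K := by
        refine le_trans ?_ hK1
        rw [hε]
        nlinarith
      exact_mod_cast this
    · rw [hδ, hHr, hε, hη]
      have p1 : (N : ℝ) / (2 * (2 * 10 ^ 7 + 1)) ≤ 101 * n / (2 * (2 * 10 ^ 7 + 1)) :=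
        div_le_div_of_nonneg_right hn3' (by norm_num)
      have p2 : 101 * (n : ℝ) / (2 * (2 * 10 ^ 7 + 1)) ≤ 3 / 10 ^ 6 * n := by
        rw [div_le_iff₀ (by norm_num)]
        nlinarith
      linarith
    · rw [hε]
      linarith
    · refine (hD K ?_ hK2).trans ?_
      · have : (97 * n : ℝ) ≤ K := by
          refine le_trans ?_ hK1
          rw [hε]
          nlinarith
        linarith
      · rw [hδM]
        have p1 : (N : ℝ) / 2 * ∑ i ∈ Ico K (K + 2 * H), f i ≤ N / 2 * (η * (2 * H : ℕ)) :=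
          mul_le_mul_of_nonneg_left hcon.le (by positivity)
        push_cast at p1
        have p2 : (N : ℝ) / 2 * (η * (2 * H)) ≤ (2 * H + 1) * (η * N / 2) := by
          have : 0 ≤ η * N := by positivity
          nlinarith
        linarith
    · intro i hi1 hi2
      have hi1' : (80 * n : ℝ) ≤ i := by exact_mod_cast hi1
      refine (hD i (by linarith) (by omega)).trans ?_
      rw [hδM]
      have p1 : ∑ j ∈ Ico i (i + 2 * H), f j = (1 + ε) * ∑ k ∈ range (2 * H), g (i + k) := by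
        rw [Finset.sum_Ico_eq_sum_range, Finset.mul_sum]
        have : i + 2 * H - i = 2 * H := by omega
        rw [this]
        apply Finset.sum_congr rfl
        intro k hk
        rw [mem_range] at hk
        exact hgf (i + k) (by omega) (by omega)
      rw [p1]
      have p2 : 0 ≤ ∑ k ∈ range (2 * H), g (i + k) := Finset.sum_nonneg fun k _ => (hg01 _).1
      have p3 : (N : ℝ) / 2 * ((1 + ε) * ∑ k ∈ range (2 * H), g (i + k)) ≤
          N * ∑ k ∈ range (2 * H), g (i + k) := by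
        have : (N : ℝ) / 2 * (1 + ε) ≤ N := by
          rw [hε]; linarith
        calc (N : ℝ) / 2 * ((1 + ε) * ∑ k ∈ range (2 * H), g (i + k))
            = (N / 2 * (1 + ε)) * ∑ k ∈ range (2 * H), g (i + k) := by ring
          _ ≤ N * ∑ k ∈ range (2 * H), g (i + k) := mul_le_mul_of_nonneg_right this p2
      have p4 : 0 ≤ (2 * (H : ℝ) + 1) * (η * N / 2) := by positivity
      linarith
  exact hc.false

/-- A stronger form (weaker quadratic hypothesis, upper bound for `ε`) of the structure lemma. -/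
def StructureLemma' : Prop := ∃ (ε η : ℝ) (M N₀ : ℕ), 0 < ε ∧ ε ≤ 1 / 100 ∧ 0 < η ∧ 0 < M ∧
  ∀ N : ℕ, N₀ ≤ N → ∀ f : ℕ → ℝ, (∀ i, 0 ≤ f i) →
    (∀ i : ℕ, ε * N ≤ i → i ≤ N → f i ≤ 1 + ε) →
    (∀ a b : ℕ, ε * N ≤ a → a ≤ b → b ≤ N → |∑ i ∈ Ico a b, f i - ((b:ℝ) - a) / 2| ≤ ε * N) →
    (∀ K : ℕ, (N:ℝ) / 2 ≤ K → K + M ≤ N →
      (1 / 2 - 5 * ε) * K * M - K / 2 * ∑ i ∈ Ico K (K + M), f i ≤
        ∑ m ∈ Icc (K - 1) (K + M - 1),
          ∑ i ∈ (range (m + 1)).filter (fun i : ℕ => ε * N ≤ i ∧ ε * N ≤ (m : ℝ) - i), f i * f (m - i)) →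
    ∀ K : ℕ, (1 - ε) * N ≤ K → K + M ≤ N → η * M ≤ ∑ i ∈ Ico K (K + M), f i

theorem structureLemma' : StructureLemma' := by
  obtain ⟨H, hH⟩ : ∃ H : ℕ, H = 10 ^ 7 := ⟨_, rfl⟩
  refine ⟨1 / 10 ^ 9, 1 / 10 ^ 9, 2 * H, 10 ^ 17, by norm_num, by norm_num, by norm_num, by omega, ?_⟩
  intro N hN f h0 h1 h2 h3 K hK1 hK2
  exact main (1 / 10 ^ 9) (1 / 10 ^ 9) rfl rfl H hH N hN f h0 h1 h2 h3 K hK1 hK2

/-- TASK A -/
theorem structureLemma : Pool.Agent.H469R10.HO.StructureLemma := by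
  obtain ⟨ε, η, M, N₀, h1, h2, h3, h4, h⟩ := structureLemma'
  refine ⟨ε, η, M, N₀, h1, h3, h4, ?_⟩
  intro N hN f f0 f1 f2 f3 K hK1 hK2
  refine h N hN f f0 f1 f2 ?_ K hK1 hK2
  intro K' hk1 hk2
  refine le_trans ?_ (f3 K' hk1 hk2)
  have : 0 ≤ ε * K' * M := by positivity
  nlinarith

end Pool.Agent.H5R3.T469A
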