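import Pool.Agent.H336R4.PF.Defs

set_option autoImplicit false

open Filter Topology Asymptotics

/-! TASK U of SELBERG-PROJECT part 2 (helper336): additivity of the degree. -/

namespace Pool.Agent.H5R3.PFU

open Pool.Agent.H336R4.PF

/-! ### Real Gamma -/

lemma logGamma_bound {w : ℝ} (hw : 3 ≤ w) : |Real.log (Real.Gamma w) - w * Real.log w| ≤ 5 * w := by
  obtain ⟨n, hn⟩ : ∃ n : ℕ, n = ⌊w⌋₊ := ⟨_, rfl⟩
  have h1 : (n : ℝ) ≤ w := by rw [hn]; exact Nat.floor_le (by linarith)
  have h2 : w < n + 1 := by rw [hn]; exact Nat.lt_floor_add_one w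
  have h3 : 3 ≤ n := by rw [hn]; exact Nat.le_floor (by exact_mod_cast hw)
  have h3' : (3:ℝ) ≤ n := by exact_mod_cast h3
  have hw0 : 0 < w := by linarith
  have hn0 : (0:ℝ) < n := by linarith
  have hGpos : 0 < Real.Gamma w := Real.Gamma_pos_of_pos hw0
  have hlogn : 0 ≤ Real.log n := Real.log_nonneg (by linarith)
  have hlogw : Real.log n ≤ Real.log w := Real.log_le_log hn0 h1
  -- upper bound
  have hup : Real.log (Real.Gamma w) ≤ w * Real.log w := by
    have g1 : Real.Gamma w ≤ Real.Gamma (n + 1) := by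
      apply Real.Gamma_strictMonoOn_Ici.monotoneOn _ _ h2.le
      · show (2:ℝ) ≤ w; linarith
      · show (2:ℝ) ≤ n + 1; linarith
    rw [Real.Gamma_nat_eq_factorial] at g1
    have g2 : ((n.factorial : ℕ) : ℝ) ≤ (n : ℝ) ^ n := by exact_mod_cast Nat.factorial_le_pow n
    calc Real.log (Real.Gamma w) ≤ Real.log ((n : ℝ) ^ n) := Real.log_le_log hGpos (g1.trans g2)
      _ = n * Real.log n := by rw [Real.log_pow]
      _ ≤ w * Real.log w := by gcongr
  -- lower bound
  have hlow : n * Real.log n - 2 * n ≤ Real.log (Real.Gamma w) := by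
    have g1 : Real.Gamma n ≤ Real.Gamma w := by
      apply Real.Gamma_strictMonoOn_Ici.monotoneOn _ _ h1
      · show (2:ℝ) ≤ n; linarith
      · show (2:ℝ) ≤ w; linarith
    have hGn : 0 < Real.Gamma n := Real.Gamma_pos_of_pos hn0
    have g2 : Real.log (Real.Gamma (n + 1)) = Real.log n + Real.log (Real.Gamma n) := by
      rw [Real.Gamma_add_one hn0.ne', Real.log_mul hn0.ne' hGn.ne']
    rw [Real.Gamma_nat_eq_factorial] at g2
    have g3 : n * Real.log n - n ≤ Real.log ((n.factorial : ℕ) : ℝ) := by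
      have e := Real.pow_div_factorial_le_exp (n : ℝ) hn0.le n
      have hf : (0:ℝ) < (n.factorial : ℕ) := by exact_mod_cast n.factorial_pos
      have e2 := Real.log_le_log (by positivity) e
      rw [Real.log_exp, Real.log_div (by positivity) hf.ne', Real.log_pow] at e2
      linarith
    have g4 : Real.log (Real.Gamma n) ≤ Real.log (Real.Gamma w) := Real.log_le_log hGn g1
    have g5 : Real.log n ≤ n := (Real.log_le_sub_one_of_pos hn0).trans (by linarith)
    linarith
  have hmain : w * Real.log w ≤ n * Real.log n + 3 * n := by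
    have k1 : Real.log w ≤ Real.log n + 1 / n := by
      have : Real.log w - Real.log n ≤ 1 / n := by
        rw [← Real.log_div hw0.ne' hn0.ne']
        refine (Real.log_le_sub_one_of_pos (by positivity)).trans ?_
        rw [div_sub_one hn0.ne']
        gcongr
        linarith
      linarith
    have hlw : 0 ≤ Real.log w := hlogn.trans hlogw
    have g5 : Real.log n ≤ n := (Real.log_le_sub_one_of_pos hn0).trans (by linarith)
    calc w * Real.log w ≤ (n + 1) * (Real.log n + 1 / n) := by gcongr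
      _ = n * Real.log n + Real.log n + 1 + 1 / n := by field_simp; ring
      _ ≤ n * Real.log n + 3 * n := by
        have : 1 / (n:ℝ) ≤ 1 := by rw [div_le_one hn0]; linarith
        linarith
  rw [abs_le]
  constructor <;> linarith

/-- `φ(x) = κ x log x + O(x)` -/
def As (φ : ℝ → ℝ) (κ : ℝ) : Prop := (fun x => φ x - κ * (x * Real.log x)) =O[atTop] (fun x : ℝ => x)

lemma As.add {φ ψ : ℝ → ℝ} {κ l : ℝ} (h : As φ κ) (h' : As ψ l) : As (fun x => φ x + ψ x) (κ + l) := by
  unfold As at *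
  refine (IsBigO.add h h').congr_left ?_
  intro x; ring

lemma As.neg {φ : ℝ → ℝ} {κ : ℝ} (h : As φ κ) : As (fun x => - φ x) (-κ) := by
  unfold As at *
  refine h.neg_left.congr_left ?_
  intro x; ring

lemma As.sub {φ ψ : ℝ → ℝ} {κ l : ℝ} (h : As φ κ) (h' : As ψ l) : As (fun x => φ x - ψ x) (κ - l) := by
  have := h.add h'.neg
  simpa [sub_eq_add_neg] using this

lemma As.congr {φ ψ : ℝ → ℝ} {κ : ℝ} (h : As φ κ) (he : ∀ᶠ x in atTop, φ x = ψ x) : As ψ κ := by
  unfold As at *
  refine h.congr' ?_ EventuallyEq.rfl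
  filter_upwards [he] with x hx
  rw [hx]

lemma As.sum {k : ℕ} {φ : Fin k → ℝ → ℝ} {κ : Fin k → ℝ} (h : ∀ j, As (φ j) (κ j)) :
    As (fun x => ∑ j, φ j x) (∑ j, κ j) := by
  unfold As at *
  refine (IsBigO.sum (s := Finset.univ) fun j _ => h j).congr_left ?_
  intro x
  simp only [Finset.sum_apply]
  rw [Finset.sum_sub_distrib, Finset.sum_mul]

lemma As_const (C : ℝ) : As (fun _ => C) 0 := by
  unfold As
  simp only [zero_mul, sub_zero]
  exact (isLittleO_const_id_atTop C).isBigO

lemma As_of_bounded {φ : ℝ → ℝ} (h : φ =O[atTop] (fun _ => (1:ℝ))) : As φ 0 := by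
  unfold As
  simp only [zero_mul, sub_zero]
  exact h.trans (isLittleO_const_id_atTop (1:ℝ)).isBigO

lemma As_lin (C : ℝ) : As (fun x => C * x) 0 := by
  unfold As
  simp only [zero_mul, sub_zero]
  exact (isBigO_refl (fun x : ℝ => x) atTop).const_mul_left C

lemma As_log : As Real.log 0 := by
  unfold As
  simp only [zero_mul, sub_zero]
  exact Real.isLittleO_log_id_atTop.isBigO

lemma As.const_mul {φ : ℝ → ℝ} {κ : ℝ} (h : As φ κ) (c : ℝ) : As (fun x => c * φ x) (c * κ) := by
  unfold As at *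
  refine (h.const_mul_left c).congr_left ?_
  intro x; ring

lemma As.unique {φ : ℝ → ℝ} {κ l : ℝ} (h : As φ κ) (h' : As φ l) : κ = l := by
  have h1 := h.sub h'
  by_contra hne
  have hne' : κ - l ≠ 0 := sub_ne_zero.2 hne
  unfold As at h1
  obtain ⟨C, hC⟩ := h1.bound
  have h2 : ∀ᶠ x : ℝ in atTop, C / |κ - l| + 1 ≤ Real.log x := Real.tendsto_log_atTop.eventually_ge_atTop _
  obtain ⟨x, hx1, hx2, hx3⟩ := (hC.and (h2.and (eventually_ge_atTop (1:ℝ)))).exists
  have hx0 : 0 < x := by linarith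
  simp only [sub_self, zero_sub, norm_neg, Real.norm_eq_abs, abs_mul] at hx1
  rw [abs_of_pos hx0] at hx1
  have hl : 0 ≤ Real.log x := Real.log_nonneg hx3
  rw [abs_of_nonneg hl] at hx1
  have hk : 0 < |κ - l| := abs_pos.2 hne'
  have h3 : |κ - l| * Real.log x ≤ C := by
    by_contra hcon
    push Not at hcon
    nlinarith
  have h4 : C + |κ - l| ≤ |κ - l| * Real.log x := by
    calc C + |κ - l| = |κ - l| * (C / |κ - l| + 1) := by field_simp
      _ ≤ _ := by gcongr
  linarith

lemma tendsto_log_ratio {l : ℝ} (hl : 0 < l) (c : ℝ) :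
    Tendsto (fun x : ℝ => Real.log (l + c / x)) atTop (𝓝 (Real.log l)) := by
  have h1 : Tendsto (fun x : ℝ => l + c / x) atTop (𝓝 l) := by
    have := (tendsto_const_nhds (x := l)).add (tendsto_const_nhds (x := c) |>.div_atTop tendsto_id (l := atTop))
    simpa using this
  exact h1.log hl.ne'

lemma log_affine {l : ℝ} (hl : 0 < l) (c : ℝ) :
    ∀ᶠ x : ℝ in atTop, Real.log (l * x + c) = Real.log x + Real.log (l + c / x) := by
  have h1 : Tendsto (fun x : ℝ => l * x + c) atTop atTop :=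
    tendsto_atTop_add_const_right _ _ (tendsto_id.const_mul_atTop hl)
  filter_upwards [eventually_gt_atTop 0, h1.eventually_gt_atTop 0] with x hx hx2
  have h2 : l + c / x = (l * x + c) / x := by field_simp
  rw [h2, Real.log_div hx2.ne' hx.ne']
  ring

lemma As_log_affine {l : ℝ} (hl : 0 < l) (c : ℝ) : As (fun x => Real.log (l * x + c)) 0 := by
  have h : As (fun x => Real.log x + Real.log (l + c / x)) (0 + 0) :=
    As_log.add (As_of_bounded ((tendsto_log_ratio hl c).isBigO_one ℝ))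
  rw [add_zero] at h
  refine h.congr ?_
  filter_upwards [log_affine hl c] with x hx
  exact hx.symm

lemma As_mul_log {l : ℝ} (hl : 0 < l) (c : ℝ) : As (fun x => (l * x + c) * Real.log (l * x + c)) l := by
  have h1 : As (fun x => l * (x * Real.log (l + c / x)) + c * Real.log (l * x + c)) (0 + c * 0) := by
    refine As.add ?_ ((As_log_affine hl c).const_mul c)
    unfold As
    simp only [zero_mul, sub_zero]
    refine IsBigO.const_mul_left ?_ l
    have := (isBigO_refl (fun x : ℝ => x) atTop).mul ((tendsto_log_ratio hl c).isBigO_one ℝ)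
    simpa using this
  have h2 : As (fun x : ℝ => l * (x * Real.log x)) l := by
    unfold As
    simp only [sub_self]
    exact isBigO_zero _ _
  have h3 := h2.add h1
  simp only [mul_zero, add_zero] at h3
  refine h3.congr ?_
  filter_upwards [log_affine hl c] with x hx
  rw [hx]
  ring

lemma As_logGamma {l : ℝ} (hl : 0 < l) (c : ℝ) : As (fun x => Real.log (Real.Gamma (l * x + c))) l := by
  have h1 : Tendsto (fun x : ℝ => l * x + c) atTop atTop :=
    tendsto_atTop_add_const_right _ _ (tendsto_id.const_mul_atTop hl)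
  have h2 : As (fun x => Real.log (Real.Gamma (l * x + c)) - (l * x + c) * Real.log (l * x + c)) 0 := by
    unfold As
    simp only [zero_mul, sub_zero]
    have h3 : (fun x => Real.log (Real.Gamma (l * x + c)) - (l * x + c) * Real.log (l * x + c)) =O[atTop]
        (fun x : ℝ => l * x + c) := by
      refine IsBigO.of_bound 5 ?_
      filter_upwards [h1.eventually_ge_atTop 3] with x hx
      rw [Real.norm_eq_abs, Real.norm_eq_abs, abs_of_nonneg (show 0 ≤ l * x + c by linarith)]
      exact logGamma_bound hx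
    refine h3.trans ?_
    exact ((isBigO_refl (fun x : ℝ => x) atTop).const_mul_left l).add (isLittleO_const_id_atTop c).isBigO
  have h3 := h2.add (As_mul_log hl c)
  rw [zero_add] at h3
  refine h3.congr ?_
  filter_upwards with x
  ring

/-! ### Complex Gamma -/

lemma norm_Gamma_le {z : ℂ} (hz : 0 < z.re) : ‖Complex.Gamma z‖ ≤ Real.Gamma z.re := by
  rw [Complex.Gamma_eq_integral hz, Complex.GammaIntegral, Real.Gamma_eq_integral hz]
  refine (MeasureTheory.norm_integral_le_integral_norm _).trans_eq ?_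
  apply MeasureTheory.setIntegral_congr_fun measurableSet_Ioi
  intro x hx
  have hx : 0 < x := hx
  simp only [norm_mul, Complex.norm_real, Real.norm_of_nonneg (Real.exp_pos _).le]
  rw [Complex.norm_cpow_eq_rpow_re_of_pos hx]
  simp

lemma As_normGamma (hP1 : TaskP1) (hP2 : TaskP2) {l : ℝ} (hl : 0 < l) (c y : ℝ) :
    As (fun x : ℝ => Real.log ‖Complex.Gamma (((l * x + c : ℝ) : ℂ) + y * Complex.I)‖) l := by
  have h1 : Tendsto (fun x : ℝ => l * x + c) atTop atTop :=
    tendsto_atTop_add_const_right _ _ (tendsto_id.const_mul_atTop hl)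
  have hG2 : 0 < Real.Gamma (1 / 2) := Real.Gamma_pos_of_pos (by norm_num)
  set c0 : ℝ := ‖Complex.Gamma (1 / 2 + y * Complex.I)‖ with hc0
  have hc0pos : 0 < c0 := by
    have h2 := hP2 y
    have h3 : 0 < Real.pi / Real.cosh (Real.pi * y) := div_pos Real.pi_pos (Real.cosh_pos _)
    rw [← h2] at h3
    by_contra hcon
    have : c0 = 0 := le_antisymm (not_lt.1 hcon) (norm_nonneg _)
    rw [← hc0, this] at h3
    norm_num at h3
  have h2 : As (fun x : ℝ => Real.log ‖Complex.Gamma (((l * x + c : ℝ) : ℂ) + y * Complex.I)‖ -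
      Real.log (Real.Gamma (l * x + c))) 0 := by
    apply As_of_bounded
    refine IsBigO.of_bound (|Real.log (c0 / Real.Gamma (1 / 2))|) ?_
    filter_upwards [h1.eventually_ge_atTop (1 / 2)] with x hx
    have hw : 0 < l * x + c := by linarith
    have hG : 0 < Real.Gamma (l * x + c) := Real.Gamma_pos_of_pos hw
    have up : ‖Complex.Gamma (((l * x + c : ℝ) : ℂ) + y * Complex.I)‖ ≤ Real.Gamma (l * x + c) := by
      have := norm_Gamma_le (z := ((l * x + c : ℝ) : ℂ) + y * Complex.I) (by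
        simp only [Complex.add_re, Complex.ofReal_re, Complex.mul_re, Complex.I_re, Complex.ofReal_im,
          Complex.I_im, mul_zero, zero_mul, sub_zero, add_zero]
        exact hw)
      simp only [Complex.add_re, Complex.ofReal_re, Complex.mul_re, Complex.I_re, Complex.ofReal_im,
          Complex.I_im, mul_zero, zero_mul, sub_zero, add_zero] at this
      exact this
    have low : c0 * Real.Gamma (l * x + c) ≤
        ‖Complex.Gamma (((l * x + c : ℝ) : ℂ) + y * Complex.I)‖ * Real.Gamma (1 / 2) := by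
      have := hP1 (1 / 2) (l * x + c) y (by norm_num) hx
      have e : ((1 / 2 : ℝ) : ℂ) = 1 / 2 := by push_cast; rfl
      rw [e] at this
      exact this
    have low' : c0 / Real.Gamma (1 / 2) * Real.Gamma (l * x + c) ≤
        ‖Complex.Gamma (((l * x + c : ℝ) : ℂ) + y * Complex.I)‖ := by
      rw [div_mul_eq_mul_div, div_le_iff₀ hG2]
      exact low
    have hpos : 0 < ‖Complex.Gamma (((l * x + c : ℝ) : ℂ) + y * Complex.I)‖ :=
      lt_of_lt_of_le (by positivity) low'
    have l1 : Real.log ‖Complex.Gamma (((l * x + c : ℝ) : ℂ) + y * Complex.I)‖ ≤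
        Real.log (Real.Gamma (l * x + c)) := Real.log_le_log hpos up
    have l2 := Real.log_le_log (by positivity) low'
    rw [Real.log_mul (by positivity) hG.ne'] at l2
    rw [Real.norm_eq_abs, norm_one, mul_one]
    rw [abs_le]
    constructor
    · have := neg_abs_le (Real.log (c0 / Real.Gamma (1 / 2)))
      linarith
    · have := abs_nonneg (Real.log (c0 / Real.Gamma (1 / 2)))
      linarith
  have h3 := h2.add (As_logGamma hl c)
  rw [zero_add] at h3
  refine h3.congr ?_
  filter_upwards with x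
  ring

lemma norm_sin_sq (a b : ℝ) :
    ‖Complex.sin ((a:ℂ) + b * Complex.I)‖ ^ 2 = Real.sin a ^ 2 + Real.sinh b ^ 2 := by
  rw [Complex.sin_add_mul_I, ← Complex.ofReal_sin, ← Complex.ofReal_cosh, ← Complex.ofReal_cos,
    ← Complex.ofReal_sinh, Complex.sq_norm, Complex.normSq_apply]
  simp only [Complex.add_re, Complex.mul_re, Complex.ofReal_re, Complex.ofReal_im, Complex.I_re,
    Complex.I_im, Complex.add_im, Complex.mul_im, mul_zero, zero_mul, sub_zero, add_zero, mul_one, zero_add]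
  have h1 := Real.cosh_sq b
  have h2 := Real.sin_sq_add_cos_sq a
  have h3 : Real.cos a ^ 2 = 1 - Real.sin a ^ 2 := by linarith
  calc _ = Real.sin a ^ 2 * Real.cosh b ^ 2 + Real.cos a ^ 2 * Real.sinh b ^ 2 := by ring
    _ = _ := by rw [h1, h3]; ring

lemma As_invGamma (hP1 : TaskP1) (hP2 : TaskP2) {l : ℝ} (hl : 0 < l) (c : ℝ) {y : ℝ} (hy : y ≠ 0) :
    As (fun x : ℝ => - Real.log ‖Complex.Gamma (((-(l * x) + c : ℝ) : ℂ) + y * Complex.I)‖) l ∧
    ∀ x : ℝ, Complex.Gamma (((-(l * x) + c : ℝ) : ℂ) + y * Complex.I) ≠ 0 := by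
  have him : ∀ x : ℝ, (((-(l * x) + c : ℝ) : ℂ) + y * Complex.I).im = y := by
    intro x; simp
  have hne : ∀ x : ℝ, Complex.Gamma (((-(l * x) + c : ℝ) : ℂ) + y * Complex.I) ≠ 0 := by
    intro x
    apply Complex.Gamma_ne_zero
    intro n hn
    have := congrArg Complex.im hn
    rw [him] at this
    simp at this
    exact hy this
  refine ⟨?_, hne⟩
  have hpy : Real.pi * y ≠ 0 := mul_ne_zero Real.pi_ne_zero hy
  have hsinh : 0 < |Real.sinh (Real.pi * y)| := abs_pos.2 (by rw [Ne, Real.sinh_eq_zero]; exact hpy)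
  -- sine factor
  have hsin : ∀ x : ℝ, |Real.sinh (Real.pi * y)| ≤
      ‖Complex.sin (Real.pi * (((-(l * x) + c : ℝ) : ℂ) + y * Complex.I))‖ ∧
      ‖Complex.sin (Real.pi * (((-(l * x) + c : ℝ) : ℂ) + y * Complex.I))‖ ≤ Real.cosh (Real.pi * y) := by
    intro x
    have e : (Real.pi : ℂ) * (((-(l * x) + c : ℝ) : ℂ) + y * Complex.I) =
        ((Real.pi * (-(l * x) + c) : ℝ) : ℂ) + ((Real.pi * y : ℝ) : ℂ) * Complex.I := by
      push_cast; ring
    rw [e]
    have h := norm_sin_sq (Real.pi * (-(l * x) + c)) (Real.pi * y)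
    have hs : Real.sin (Real.pi * (-(l * x) + c)) ^ 2 ≤ 1 := Real.sin_sq_le_one _
    constructor
    · rw [← abs_norm]
      apply sq_le_sq.1
      rw [h]
      nlinarith [sq_nonneg (Real.sin (Real.pi * (-(l * x) + c)))]
    · have hc : 0 ≤ Real.cosh (Real.pi * y) := (Real.cosh_pos _).le
      apply le_of_sq_le_sq _ hc
      rw [h, Real.cosh_sq]
      linarith
  have hbdd : As (fun x : ℝ => Real.log ‖Complex.sin (Real.pi * (((-(l * x) + c : ℝ) : ℂ) + y * Complex.I))‖) 0 := by
    apply As_of_bounded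
    refine IsBigO.of_bound (abs (Real.log (abs (Real.sinh (Real.pi * y)))) + abs (Real.log (Real.cosh (Real.pi * y)))) ?_
    filter_upwards with x
    obtain ⟨s1, s2⟩ := hsin x
    have l1 := Real.log_le_log hsinh s1
    have l2 := Real.log_le_log (hsinh.trans_le s1) s2
    rw [Real.norm_eq_abs, norm_one, mul_one, abs_le]
    have a1 := neg_abs_le (Real.log (abs (Real.sinh (Real.pi * y))))
    have a2 := le_abs_self (Real.log (Real.cosh (Real.pi * y)))
    have a3 := abs_nonneg (Real.log (abs (Real.sinh (Real.pi * y))))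
    have a4 := abs_nonneg (Real.log (Real.cosh (Real.pi * y)))
    constructor <;> linarith
  have h3 := ((As_normGamma hP1 hP2 hl (1 - c) (-y)).add hbdd).sub (As_const (Real.log Real.pi))
  rw [add_zero, sub_zero] at h3
  refine h3.congr ?_
  filter_upwards with x
  have e1 : 1 - (((-(l * x) + c : ℝ) : ℂ) + y * Complex.I) =
      ((l * x + (1 - c) : ℝ) : ℂ) + ((-y : ℝ) : ℂ) * Complex.I := by
    push_cast; ring
  have h := Complex.Gamma_mul_Gamma_one_sub (((-(l * x) + c : ℝ) : ℂ) + y * Complex.I)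
  rw [e1] at h
  have hs0 : 0 < ‖Complex.sin (Real.pi * (((-(l * x) + c : ℝ) : ℂ) + y * Complex.I))‖ :=
    hsinh.trans_le (hsin x).1
  have hn := congrArg norm h
  rw [norm_mul, norm_div, Complex.norm_real, Real.norm_of_nonneg Real.pi_pos.le] at hn
  have hg1 : 0 < ‖Complex.Gamma (((-(l * x) + c : ℝ) : ℂ) + y * Complex.I)‖ := norm_pos_iff.2 (hne x)
  have hprod : 0 < ‖Complex.Gamma (((-(l * x) + c : ℝ) : ℂ) + y * Complex.I)‖ *
      ‖Complex.Gamma (((l * x + (1 - c) : ℝ) : ℂ) + ((-y : ℝ) : ℂ) * Complex.I)‖ := by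
    rw [hn]; exact div_pos Real.pi_pos hs0
  have hg2 : 0 < ‖Complex.Gamma (((l * x + (1 - c) : ℝ) : ℂ) + ((-y : ℝ) : ℂ) * Complex.I)‖ :=
    (pos_iff_pos_of_mul_pos hprod).1 hg1
  have hl := congrArg Real.log hn
  rw [Real.log_mul hg1.ne' hg2.ne', Real.log_div Real.pi_pos.ne' hs0.ne'] at hl
  linarith

/-! ### The L-series far to the right -/

lemma tendsto_LSeries {a : ℕ → ℂ} (ha : Ram a) (ha1 : a 1 = 1) (t : ℝ) :
    Tendsto (fun x : ℝ => LSeries a (1 + (x : ℂ) + t * Complex.I)) atTop (𝓝 1) := by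
  set b : ℕ → ℂ := fun n => a n / (n : ℂ) ^ ((t : ℂ) * Complex.I) with hb
  have hnorm : ∀ n : ℕ, n ≠ 0 → ‖b n‖ = ‖a n‖ := by
    intro n hn
    have hn0 : (0:ℝ) < n := by exact_mod_cast Nat.pos_of_ne_zero hn
    rw [hb]
    simp only [norm_div]
    rw [← Complex.ofReal_natCast, Complex.norm_cpow_eq_rpow_re_of_pos hn0]
    simp
  have hb1 : b 1 = 1 := by simp [hb, ha1]
  have habs : LSeries.abscissaOfAbsConv b < ⊤ := by
    obtain ⟨C, hC⟩ := ha 1 one_pos
    have h1 : LSeries.abscissaOfAbsConv b ≤ ((1 : ℝ) : EReal) + 1 := by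
      apply LSeries.abscissaOfAbsConv_le_of_le_const_mul_rpow
      refine ⟨C, fun n hn => ?_⟩
      rw [hnorm n hn]
      exact hC n (Nat.one_le_iff_ne_zero.2 hn)
    refine lt_of_le_of_lt h1 ?_
    exact EReal.add_lt_top (EReal.coe_ne_top _) (by decide)
  have h2 := LSeries.tendsto_atTop habs
  rw [hb1] at h2
  have h3 : Tendsto (fun x : ℝ => 1 + x) atTop atTop := tendsto_atTop_add_const_left _ _ tendsto_id
  refine (h2.comp h3).congr ?_
  intro x
  show LSeries b ((1 + x : ℝ) : ℂ) = LSeries a (1 + (x : ℂ) + t * Complex.I)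
  unfold LSeries
  congr 1
  ext n
  rw [LSeries.term_def, LSeries.term_def]
  split_ifs with h0
  · rfl
  · have hn : (n : ℂ) ≠ 0 := by exact_mod_cast h0
    rw [hb]
    simp only
    rw [div_div, ← Complex.cpow_add _ _ hn]
    congr 2
    push_cast
    ring

lemma As_norm {z : ℝ → ℂ} {C : ℝ} (h1 : ∀ x : ℝ, 1 ≤ x → x ≤ ‖z x‖) (h2 : ∀ x : ℝ, 1 ≤ x → ‖z x‖ ≤ x + C) :
    As (fun x => Real.log ‖z x‖) 0 := by
  have h3 := As_log_affine (l := 1) one_pos C
  unfold As at *
  simp only [zero_mul, sub_zero, one_mul] at *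
  refine IsBigO.trans (IsBigO.of_bound 1 ?_) h3
  filter_upwards [eventually_ge_atTop 1] with x hx
  have hx0 : 0 < x := by linarith
  have k1 := h1 x hx
  have k2 := h2 x hx
  have l1 : 0 ≤ Real.log ‖z x‖ := Real.log_nonneg (hx.trans k1)
  have l2 : Real.log ‖z x‖ ≤ Real.log (x + C) := Real.log_le_log (by linarith) k2
  rw [Real.norm_eq_abs, Real.norm_eq_abs, abs_of_nonneg l1, abs_of_nonneg (l1.trans l2), one_mul]
  exact l2

lemma norm_bounds (c x t : ℝ) (hc : c = 0 ∨ c = 1) (hx : 1 ≤ x) :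
    x ≤ ‖(-(x:ℂ) + t * Complex.I) - c‖ ∧ ‖(-(x:ℂ) + t * Complex.I) - c‖ ≤ x + (1 + |t|) := by
  have hre : ((-(x:ℂ) + t * Complex.I) - c).re = -x - c := by simp
  have him : ((-(x:ℂ) + t * Complex.I) - c).im = t := by simp
  constructor
  · have := Complex.abs_re_le_norm ((-(x:ℂ) + t * Complex.I) - c)
    rw [hre] at this
    rcases hc with rfl | rfl
    · rw [abs_of_nonpos (by linarith)] at this; linarith
    · rw [abs_of_nonpos (by linarith)] at this; linarith
  · have := Complex.norm_le_abs_re_add_abs_im ((-(x:ℂ) + t * Complex.I) - c)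
    rw [hre, him] at this
    rcases hc with rfl | rfl
    · rw [abs_of_nonpos (show -x - 0 ≤ 0 by linarith)] at this; linarith
    · rw [abs_of_nonpos (show -x - 1 ≤ 0 by linarith)] at this; linarith

/-- the growth of `G` far to the left -/
lemma main_B (hP1 : TaskP1) (hP2 : TaskP2) (hFEX : TaskFEX) {a : ℕ → ℂ} (ha : Ram a) (ha1 : a 1 = 1)
    {m : ℕ} {G : ℂ → ℂ} (hG : Cont a m G) {Q : ℝ} {k : ℕ} {lam : Fin k → ℝ} {μ : Fin k → ℂ} {ω : ℂ}
    (hQ : 0 < Q) (hFE : FE m G Q k lam μ ω) :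
    ∀ᶠ t : ℝ in atTop, As (fun x : ℝ => Real.log ‖G (-(x:ℂ) + t * Complex.I)‖) (2 * ∑ j, lam j) ∧
      ∀ᶠ x : ℝ in atTop, G (-(x:ℂ) + t * Complex.I) ≠ 0 := by
  have hlam : ∀ j, 0 < lam j := hFE.1
  have hω : ‖ω‖ = 1 := hFE.2.2.1
  have hev : ∀ᶠ t : ℝ in atTop, ∀ j, 0 < lam j * t + (μ j).im := by
    rw [eventually_all]
    intro j
    have h1 : Tendsto (fun x : ℝ => lam j * x + (μ j).im) atTop atTop :=
      tendsto_atTop_add_const_right _ _ (tendsto_id.const_mul_atTop (hlam j))
    exact h1.eventually_gt_atTop 0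
  filter_upwards [hev] with t ht
  -- notation
  set z : ℝ → ℂ := fun x => -(x:ℂ) + t * Complex.I with hz
  set A : Fin k → ℝ → ℝ := fun j x =>
    ‖Complex.Gamma (((lam j * x + (lam j + (μ j).re) : ℝ) : ℂ) + ((-(lam j * t + (μ j).im) : ℝ) : ℂ) * Complex.I)‖
    with hA
  set B : Fin k → ℝ → ℝ := fun j x =>
    ‖Complex.Gamma (((-(lam j * x) + (μ j).re : ℝ) : ℂ) + ((lam j * t + (μ j).im : ℝ) : ℂ) * Complex.I)‖
    with hB
  have hAas : ∀ j, As (fun x => Real.log (A j x)) (lam j) := fun j => As_normGamma hP1 hP2 (hlam j) _ _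
  have hBas : ∀ j, As (fun x => - Real.log (B j x)) (lam j) :=
    fun j => (As_invGamma hP1 hP2 (hlam j) _ (ht j).ne').1
  have hBne : ∀ j x, 0 < B j x := fun j x =>
    norm_pos_iff.2 ((As_invGamma hP1 hP2 (hlam j) _ (ht j).ne').2 x)
  have hAne : ∀ j x, 0 < x → 0 < A j x := by
    intro j x hx
    apply norm_pos_iff.2
    apply Complex.Gamma_ne_zero
    intro n hn
    have := congrArg Complex.im hn
    simp at this
    have h2 := ht j
    linarith
  -- right hand value of `G`
  set Rt : ℝ → ℂ := fun x => LSeries a (1 + (x : ℂ) + t * Complex.I) with hRt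
  have hRtlim := tendsto_LSeries ha ha1 t
  have hRtne : ∀ᶠ x : ℝ in atTop, Rt x ≠ 0 := hRtlim.eventually_ne one_ne_zero
  have hRtas : As (fun x => Real.log ‖Rt x‖) 0 := by
    apply As_of_bounded
    have h1 : Tendsto (fun x => Real.log ‖Rt x‖) atTop (𝓝 (Real.log ‖(1:ℂ)‖)) :=
      hRtlim.norm.log (by norm_num)
    exact h1.isBigO_one ℝ
  -- the functional equation in norms
  have hfe : ∀ x : ℝ, 0 < x →
      Q ^ (-x) * (∏ j, (A j x)⁻¹) * (‖G (z x)‖ * ‖z x‖ ^ m) =
      Q ^ (1 + x) * (∏ j, (B j x)⁻¹) * ((‖z x‖ ^ m * ‖Rt x‖) * ‖z x - 1‖ ^ m) := by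
    intro x hx
    have h := hFEX m G hG.1 Q k lam μ ω hQ hFE (z x)
    have hn := congrArg norm h
    have e1 : 1 - starRingEnd ℂ (z x) = 1 + (x:ℂ) + t * Complex.I := by
      simp only [hz, map_add, map_neg, map_mul, Complex.conj_ofReal, Complex.conj_I]
      ring
    have e2 : G (1 + (x:ℂ) + t * Complex.I) = ((x:ℂ) + t * Complex.I) ^ m * Rt x := by
      rw [hG.2.2 _ (by simp; exact hx)]
      congr 2
      ring
    have e3 : ‖(x:ℂ) + t * Complex.I‖ = ‖z x‖ := by
      rw [Complex.norm_def, Complex.norm_def, Complex.normSq_apply, Complex.normSq_apply]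
      simp [hz]
    have e4 : ∀ j, (lam j : ℂ) * (1 - z x) + starRingEnd ℂ (μ j) =
        ((lam j * x + (lam j + (μ j).re) : ℝ) : ℂ) + ((-(lam j * t + (μ j).im) : ℝ) : ℂ) * Complex.I := by
      intro j
      apply Complex.ext
      · simp [hz]; ring
      · simp [hz]; ring
    have e5 : ∀ j, (lam j : ℂ) * (z x) + μ j =
        ((-(lam j * x) + (μ j).re : ℝ) : ℂ) + ((lam j * t + (μ j).im : ℝ) : ℂ) * Complex.I := by
      intro j
      apply Complex.ext
      · simp [hz]
      · simp [hz]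
    simp_rw [e4, e5] at hn
    rw [e1, e2] at hn
    simp only [norm_mul, norm_prod, norm_inv, norm_pow, norm_neg, norm_one, one_pow, one_mul, hω,
      RCLike.norm_conj] at hn
    rw [Complex.norm_cpow_eq_rpow_re_of_pos hQ, Complex.norm_cpow_eq_rpow_re_of_pos hQ, e3] at hn
    have e6 : (z x).re = -x := by simp [hz]
    have e7 : (1 - z x).re = 1 + x := by simp [hz]
    rw [e6, e7] at hn
    exact hn
  have hz1 : ∀ x : ℝ, 1 ≤ x → 0 < ‖z x‖ ∧ 0 < ‖z x - 1‖ := by
    intro x hx
    have h0 := (norm_bounds 0 x t (Or.inl rfl) hx).1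
    have h1 := (norm_bounds 1 x t (Or.inr rfl) hx).1
    simp only [Complex.ofReal_zero, sub_zero, Complex.ofReal_one] at h0 h1
    constructor
    · exact lt_of_lt_of_le (by linarith) h0
    · exact lt_of_lt_of_le (by linarith) h1
  have hGne : ∀ᶠ x : ℝ in atTop, G (z x) ≠ 0 := by
    filter_upwards [hRtne, eventually_ge_atTop 1] with x hx1 hx2 hcon
    have h := hfe x (by linarith)
    rw [hcon, norm_zero, zero_mul, mul_zero] at h
    have hp : 0 < Q ^ (1 + x) * (∏ j, (B j x)⁻¹) * ((‖z x‖ ^ m * ‖Rt x‖) * ‖z x - 1‖ ^ m) := by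
      have a1 : 0 < ∏ j, (B j x)⁻¹ := Finset.prod_pos fun j _ => inv_pos.2 (hBne j x)
      have a2 := (hz1 x hx2).1
      have a3 := (hz1 x hx2).2
      have a4 : 0 < ‖Rt x‖ := norm_pos_iff.2 hx1
      positivity
    linarith
  refine ⟨?_, hGne⟩
  have hzas : As (fun x => Real.log ‖z x - 1‖) 0 := by
    refine As_norm (C := 1 + |t|) (fun x hx => ?_) (fun x hx => ?_)
    · have := (norm_bounds 1 x t (Or.inr rfl) hx).1
      simpa using this
    · have := (norm_bounds 1 x t (Or.inr rfl) hx).2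
      simpa using this
  have hlinas : As (fun x => Real.log Q + (2 * Real.log Q) * x) 0 := by
    have := (As_const (Real.log Q)).add (As_lin (2 * Real.log Q))
    simpa using this
  have htot := ((((As.sum hAas).add (As.sum hBas)).add hlinas).add hRtas).add (hzas.const_mul (m : ℝ))
  have hk : ∑ j, lam j + ∑ j, lam j + 0 + 0 + (m:ℝ) * 0 = 2 * ∑ j, lam j := by ring
  rw [hk] at htot
  refine htot.congr ?_
  filter_upwards [hGne, hRtne, eventually_ge_atTop 1] with x hx1 hx2 hx3
  have hx0 : 0 < x := by linarith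
  have h := congrArg Real.log (hfe x hx0)
  have a0 : 0 < Q ^ (-x) := Real.rpow_pos_of_pos hQ _
  have a0' : 0 < Q ^ (1 + x) := Real.rpow_pos_of_pos hQ _
  have a1 : 0 < ∏ j, (B j x)⁻¹ := Finset.prod_pos fun j _ => inv_pos.2 (hBne j x)
  have a1' : 0 < ∏ j, (A j x)⁻¹ := Finset.prod_pos fun j _ => inv_pos.2 (hAne j x hx0)
  have a2 := (hz1 x hx3).1
  have a3 := (hz1 x hx3).2
  have a4 : 0 < ‖Rt x‖ := norm_pos_iff.2 hx2
  have a5 : 0 < ‖G (z x)‖ := norm_pos_iff.2 hx1
  rw [Real.log_mul (by positivity) (by positivity), Real.log_mul (by positivity) (by positivity),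
    Real.log_mul (by positivity) (by positivity), Real.log_mul (by positivity) (by positivity),
    Real.log_mul (by positivity) (by positivity), Real.log_mul (by positivity) (by positivity),
    Real.log_mul (by positivity) (by positivity),
    Real.log_rpow hQ, Real.log_rpow hQ, Real.log_pow, Real.log_pow,
    Real.log_prod (fun j _ => (inv_pos.2 (hBne j x)).ne'),
    Real.log_prod (fun j _ => (inv_pos.2 (hAne j x hx0)).ne')] at h
  simp only [Real.log_inv, Finset.sum_neg_distrib] at h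
  simp only [Finset.sum_neg_distrib]
  linarith

/-- TASK U -/
theorem taskU : TaskU := by
  intro hP1 hP2 hFEX a f g d d₁ d₂ ha hf hg hprod
  obtain ⟨ha1, haR, ⟨m, G, hG, Q, k, lam, μ, ω, hQ, hFE, hd⟩, -⟩ := ha
  obtain ⟨hf1, hfR, ⟨m', G', hG', Q', k', lam', μ', ω', hQ', hFE', hd'⟩, -⟩ := hf
  obtain ⟨hg1, hgR, ⟨m'', G'', hG'', Q'', k'', lam'', μ'', ω'', hQ'', hFE'', hd''⟩, -⟩ := hg
  obtain ⟨t, ⟨h1, n1⟩, ⟨h2, n2⟩, ⟨h3, n3⟩⟩ := ((main_B hP1 hP2 hFEX haR ha1 hG hQ hFE).and
    ((main_B hP1 hP2 hFEX hfR hf1 hG' hQ' hFE').and (main_B hP1 hP2 hFEX hgR hg1 hG'' hQ'' hFE''))).exists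
  rw [← hd] at h1
  rw [← hd'] at h2
  rw [← hd''] at h3
  -- identity
  have hid : (fun s => G s * (s - 1) ^ (m' + m'')) = fun s => G' s * G'' s * (s - 1) ^ m := by
    have A1 : Differentiable ℂ fun s => G s * (s - 1) ^ (m' + m'') := by
      have := hG.1; fun_prop
    have A2 : Differentiable ℂ fun s => G' s * G'' s * (s - 1) ^ m := by
      have := hG'.1; have := hG''.1; fun_prop
    refine AnalyticOnNhd.eq_of_eventuallyEq (𝕜 := ℂ) (z₀ := 2) (fun x _ => A1.analyticAt x)
      (fun x _ => A2.analyticAt x) ?_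
    have hopen : IsOpen {s : ℂ | 1 < s.re} := isOpen_lt continuous_const Complex.continuous_re
    filter_upwards [hopen.mem_nhds (show (2:ℂ) ∈ {s : ℂ | 1 < s.re} by simp)] with s hs
    have hs' : 1 < s.re := hs
    rw [hG.2.2 s hs', hG'.2.2 s hs', hG''.2.2 s hs', hprod s hs', pow_add]
    ring
  -- comparison
  have hzas : As (fun x : ℝ => Real.log ‖(-(x:ℂ) + t * Complex.I) - 1‖) 0 := by
    refine As_norm (C := 1 + |t|) (fun x hx => ?_) (fun x hx => ?_)
    · have := (norm_bounds 1 x t (Or.inr rfl) hx).1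
      simpa using this
    · have := (norm_bounds 1 x t (Or.inr rfl) hx).2
      simpa using this
  have L1 := h1.add (hzas.const_mul (((m' + m'' : ℕ)) : ℝ))
  have L2 := (h2.add h3).add (hzas.const_mul (m : ℝ))
  rw [mul_zero, add_zero] at L1 L2
  refine L1.unique (L2.congr ?_)
  filter_upwards [n1, n2, n3, eventually_ge_atTop 1] with x x1 x2 x3 hx
  have hz0 : 0 < ‖(-(x:ℂ) + t * Complex.I) - 1‖ := by
    have h1 := (norm_bounds 1 x t (Or.inr rfl) hx).1
    simp only [Complex.ofReal_one] at h1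
    exact lt_of_lt_of_le (by linarith) h1
  have h := congrArg (fun φ : ℂ → ℂ => Real.log ‖φ (-(x:ℂ) + t * Complex.I)‖) hid
  simp only [norm_mul, norm_pow] at h
  have b1 := norm_pos_iff.2 x1
  have b2 := norm_pos_iff.2 x2
  have b3 := norm_pos_iff.2 x3
  rw [Real.log_mul b1.ne' (by positivity), Real.log_mul (by positivity) (by positivity),
    Real.log_mul b2.ne' b3.ne', Real.log_pow, Real.log_pow] at h
  linarith

end Pool.Agent.H5R3.PFU
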