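import Mathlib

set_option autoImplicit false

/-!
# Second derivative test for the phase `b t - κ t log t`, with the weight `t^a e^(-δ t)`
-/

namespace Pool.Agent.H5R3.VC

open Filter Topology Set MeasureTheory intervalIntegral Complex

/-- the phase -/
noncomputable def ph (κ b t : ℝ) : ℝ := b * t - κ * t * Real.log t

/-- its derivative -/
noncomputable def phd (κ b t : ℝ) : ℝ := b - κ * (Real.log t + 1)

/-- the oscillating factor -/
noncomputable def osc (κ b t : ℝ) : ℂ := cexp (I * (ph κ b t : ℝ))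

theorem norm_osc (κ b t : ℝ) : ‖osc κ b t‖ = 1 := by
  rw [osc, mul_comm, Complex.norm_exp_ofReal_mul_I]

theorem ph_hasDerivAt (κ b : ℝ) {t : ℝ} (ht : 0 < t) : HasDerivAt (ph κ b) (phd κ b t) t := by
  have h1 : HasDerivAt (fun t : ℝ => κ * t * Real.log t) (κ * 1 * Real.log t + κ * t * t⁻¹) t :=
    ((hasDerivAt_id t).const_mul κ).fun_mul (Real.hasDerivAt_log ht.ne')
  have h2 : HasDerivAt (fun t : ℝ => b * t) (b * 1) t := (hasDerivAt_id t).const_mul b
  have h3 := h2.fun_sub h1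
  have e : b * 1 - (κ * 1 * Real.log t + κ * t * t⁻¹) = phd κ b t := by
    unfold phd
    rw [mul_assoc κ t, mul_inv_cancel₀ ht.ne']
    ring
  rw [e] at h3
  exact h3

theorem phd_hasDerivAt (κ b : ℝ) {t : ℝ} (ht : 0 < t) : HasDerivAt (phd κ b) (-(κ / t)) t := by
  have h1 : HasDerivAt (fun t : ℝ => κ * (Real.log t + 1)) (κ * t⁻¹) t :=
    ((Real.hasDerivAt_log ht.ne').add_const 1).const_mul κ
  have h2 := (hasDerivAt_const t b).fun_sub h1
  have e : (0 : ℝ) - κ * t⁻¹ = -(κ / t) := by ring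
  rw [e] at h2
  exact h2

theorem osc_hasDerivAt (κ b : ℝ) {t : ℝ} (ht : 0 < t) :
    HasDerivAt (osc κ b) (osc κ b t * (I * (phd κ b t : ℝ))) t := by
  have h1 : HasDerivAt (fun t : ℝ => ((ph κ b t : ℝ) : ℂ)) ((phd κ b t : ℝ) : ℂ) t :=
    (ph_hasDerivAt κ b ht).ofReal_comp
  exact (h1.const_mul I).cexp

theorem osc_cont (κ b : ℝ) : ContinuousOn (osc κ b) (Ioi 0) := fun _ ht =>
  (osc_hasDerivAt κ b ht).continuousAt.continuousWithinAt

theorem osc_meas (κ b : ℝ) : Measurable (osc κ b) := by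
  unfold osc ph
  fun_prop

/-- first derivative test -/
theorem first {κ b u v μ : ℝ} (hκ : 0 < κ) (hu : 0 < u) (huv : u ≤ v) (hμ : 0 < μ)
    (h : (∀ t ∈ Icc u v, μ ≤ phd κ b t) ∨ (∀ t ∈ Icc u v, phd κ b t ≤ -μ)) :
    ‖∫ t in u..v, osc κ b t‖ ≤ 3 / μ := by
  have habs : ∀ t ∈ Icc u v, μ ≤ |phd κ b t| := by
    intro t ht
    rcases h with h | h
    · exact (h t ht).trans (le_abs_self _)
    · have := h t ht
      rw [abs_of_nonpos (by linarith)]
      linarith
  have hne : ∀ t ∈ Icc u v, phd κ b t ≠ 0 := fun t ht h0 => by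
    have := habs t ht
    rw [h0, abs_zero] at this
    linarith
  have hpos : ∀ t ∈ Icc u v, 0 < t := fun t ht => hu.trans_le ht.1
  -- the primitive
  set F : ℝ → ℂ := fun t => osc κ b t / (I * (phd κ b t : ℝ)) with hF
  set R : ℝ → ℂ := fun t => osc κ b t * ((κ / t : ℝ) : ℂ) / (I * ((phd κ b t : ℝ) : ℂ) ^ 2) with hR
  have hFd : ∀ t ∈ Icc u v, HasDerivAt F (osc κ b t + R t) t := by
    intro t ht
    have h1 : HasDerivAt (fun t : ℝ => I * ((phd κ b t : ℝ) : ℂ)) (I * ((-(κ / t) : ℝ) : ℂ)) t :=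
      (phd_hasDerivAt κ b (hpos t ht)).ofReal_comp.const_mul I
    have hn : ((phd κ b t : ℝ) : ℂ) ≠ 0 := by exact_mod_cast hne t ht
    have h2 := (osc_hasDerivAt κ b (hpos t ht)).fun_div h1 (mul_ne_zero I_ne_zero hn)
    have hI : (I : ℂ) ≠ 0 := I_ne_zero
    have e : (osc κ b t * (I * ((phd κ b t : ℝ) : ℂ)) * (I * ((phd κ b t : ℝ) : ℂ)) -
        osc κ b t * (I * ((-(κ / t) : ℝ) : ℂ))) / (I * ((phd κ b t : ℝ) : ℂ)) ^ 2 =
        osc κ b t + osc κ b t * ((κ / t : ℝ) : ℂ) / (I * ((phd κ b t : ℝ) : ℂ) ^ 2) := by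
      rw [Complex.ofReal_neg]
      generalize ((phd κ b t : ℝ) : ℂ) = P at hn ⊢
      generalize ((κ / t : ℝ) : ℂ) = Q
      field_simp
      ring
    rw [e] at h2
    exact h2
  have hco : ContinuousOn (osc κ b) (uIcc u v) := by
    rw [uIcc_of_le huv]
    exact (osc_cont κ b).mono fun t ht => hpos t ht
  have hphdc : ContinuousOn (phd κ b) (Icc u v) := fun t ht =>
    (phd_hasDerivAt κ b (hpos t ht)).continuousAt.continuousWithinAt
  have hidc : ContinuousOn (fun t : ℝ => κ / t) (Icc u v) :=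
    continuousOn_const.div continuousOn_id fun t ht => (hpos t ht).ne'
  have hcR : ContinuousOn R (uIcc u v) := by
    rw [uIcc_of_le huv] at hco ⊢
    refine (hco.mul (Complex.continuous_ofReal.comp_continuousOn hidc)).div ?_ ?_
    · exact continuousOn_const.mul ((Complex.continuous_ofReal.comp_continuousOn hphdc).pow 2)
    · intro t ht
      have hn : ((phd κ b t : ℝ) : ℂ) ≠ 0 := by exact_mod_cast hne t ht
      exact mul_ne_zero I_ne_zero (pow_ne_zero 2 hn)
  have hint : ∫ t in u..v, (osc κ b t + R t) = F v - F u := by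
    refine integral_eq_sub_of_hasDerivAt (fun t ht => ?_) (hco.add hcR).intervalIntegrable
    rw [uIcc_of_le huv] at ht
    exact hFd t ht
  rw [intervalIntegral.integral_add hco.intervalIntegrable hcR.intervalIntegrable] at hint
  have hFn : ∀ t ∈ Icc u v, ‖F t‖ ≤ 1 / μ := by
    intro t ht
    rw [hF]
    simp only
    rw [norm_div, norm_osc, norm_mul, norm_I, one_mul, Complex.norm_real, Real.norm_eq_abs]
    exact one_div_le_one_div_of_le hμ (habs t ht)
  have hRn : ‖∫ t in u..v, R t‖ ≤ 1 / μ := by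
    have h5 : ‖∫ t in u..v, R t‖ ≤ ∫ t in u..v, (κ / t) / (phd κ b t) ^ 2 := by
      refine norm_integral_le_of_norm_le huv (ae_of_all _ fun t ht => ?_) ?_
      · have ht' : t ∈ Icc u v := Ioc_subset_Icc_self ht
        have h0 : 0 < κ / t := div_pos hκ (hpos t ht')
        rw [hR]
        simp only
        rw [norm_div, norm_mul, norm_osc, one_mul, norm_mul, norm_I, one_mul, norm_pow,
          Complex.norm_real, Complex.norm_real, Real.norm_eq_abs, Real.norm_eq_abs, sq_abs,
          abs_of_pos h0]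
      · refine ContinuousOn.intervalIntegrable ?_
        rw [uIcc_of_le huv]
        exact hidc.div (hphdc.pow 2) fun t ht => pow_ne_zero 2 (hne t ht)
    have h6 : ∫ t in u..v, (κ / t) / (phd κ b t) ^ 2 = (phd κ b v)⁻¹ - (phd κ b u)⁻¹ := by
      refine integral_eq_sub_of_hasDerivAt (f := fun t => (phd κ b t)⁻¹) (fun t ht => ?_) ?_
      · rw [uIcc_of_le huv] at ht
        have := (phd_hasDerivAt κ b (hpos t ht)).fun_inv (hne t ht)
        rw [neg_neg] at this
        exact this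
      · refine ContinuousOn.intervalIntegrable ?_
        rw [uIcc_of_le huv]
        exact hidc.div (hphdc.pow 2) fun t ht => pow_ne_zero 2 (hne t ht)
    rw [h6] at h5
    refine h5.trans ?_
    have hu' : u ∈ Icc u v := ⟨le_rfl, huv⟩
    have hv' : v ∈ Icc u v := ⟨huv, le_rfl⟩
    rcases h with h | h
    · have h7 : (phd κ b v)⁻¹ ≤ 1 / μ := by
        rw [one_div]
        exact inv_anti₀ hμ (h v hv')
      have h8 : 0 ≤ (phd κ b u)⁻¹ := inv_nonneg.2 (hμ.le.trans (h u hu'))
      linarith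
    · have h7 : (phd κ b v)⁻¹ ≤ 0 := inv_nonpos.2 (by linarith [h v hv'])
      have h8 : -(phd κ b u)⁻¹ ≤ 1 / μ := by
        rw [← inv_neg, one_div]
        exact inv_anti₀ hμ (by linarith [h u hu'])
      linarith
  have hE : ∫ t in u..v, osc κ b t = F v - F u - ∫ t in u..v, R t := by
    rw [← hint]; ring
  rw [hE]
  calc ‖F v - F u - ∫ t in u..v, R t‖ ≤ ‖F v‖ + ‖F u‖ + ‖∫ t in u..v, R t‖ :=
        (norm_sub_le _ _).trans (add_le_add_left (norm_sub_le _ _) _)
    _ ≤ 1 / μ + 1 / μ + 1 / μ := by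
        gcongr
        · exact hFn v ⟨huv, le_rfl⟩
        · exact hFn u ⟨le_rfl, huv⟩
    _ = 3 / μ := by ring

theorem phd_eq {κ b t : ℝ} (hκ : 0 < κ) (ht : 0 < t) :
    phd κ b t = κ * Real.log (Real.exp (b / κ - 1) / t) := by
  rw [Real.log_div (Real.exp_ne_zero _) ht.ne', Real.log_exp, phd]
  field_simp
  ring

/-- second derivative test -/
theorem second {κ b u v : ℝ} (hκ : 0 < κ) (hu : 0 < u) (huv : u ≤ v) :
    ‖∫ t in u..v, osc κ b t‖ ≤ 8 * Real.sqrt (v / κ) := by
  have hv : 0 < v := hu.trans_le huv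
  set c : ℝ := Real.exp (b / κ - 1) with hc
  have hc0 : 0 < c := Real.exp_pos _
  set h : ℝ := Real.sqrt (v / κ) with hh
  have hh0 : 0 < h := Real.sqrt_pos.2 (by positivity)
  have hhh : h * h = v / κ := Real.mul_self_sqrt (by positivity)
  set m : ℝ := max u (min c v) with hm
  have hmu : u ≤ m := le_max_left _ _
  have hmv : m ≤ v := max_le huv (min_le_right _ _)
  have hm0 : 0 < m := hu.trans_le hmu
  set p : ℝ := max u (m - h) with hp
  set r : ℝ := min v (m + h) with hr
  have hup : u ≤ p := le_max_left _ _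
  have hpm : p ≤ m := max_le hmu (by linarith)
  have hmr : m ≤ r := le_min hmv (by linarith)
  have hrv : r ≤ v := min_le_left _ _
  have hμ : 0 < κ * h / v := by positivity
  have h3μ : 3 / (κ * h / v) = 3 * h := by
    have : κ * h * h = v := by
      rw [mul_assoc, hhh]; field_simp
    field_simp
    linarith
  have ii : ∀ x y, u ≤ x → u ≤ y → IntervalIntegrable (osc κ b) volume x y := by
    intro x y hx hy
    refine ContinuousOn.intervalIntegrable ((osc_cont κ b).mono fun t ht => ?_)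
    rw [mem_uIcc] at ht
    rcases ht with ht | ht
    · exact hu.trans_le (hx.trans ht.1)
    · exact hu.trans_le (hy.trans ht.1)
  have h1 : ‖∫ t in u..p, osc κ b t‖ ≤ 3 * h := by
    rcases le_or_gt (m - h) u with hle | hgt
    · have : p = u := max_eq_left hle
      rw [this, integral_same, norm_zero]
      positivity
    · have hpe : p = m - h := max_eq_right hgt.le
      have hmc : m ≤ c := by
        rcases le_total u (min c v) with h2 | h2
        · rw [hm, max_eq_right h2]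
          exact min_le_left _ _
        · have : m = u := by rw [hm, max_eq_left h2]
          linarith
      rw [← h3μ]
      refine first hκ hu hup hμ (Or.inl fun t ht => ?_)
      have ht0 : 0 < t := hu.trans_le ht.1
      have htm : t ≤ m - h := by rw [← hpe]; exact ht.2
      rw [phd_eq hκ ht0, ← hc]
      have h4 : 1 - (c / t)⁻¹ ≤ Real.log (c / t) := Real.one_sub_inv_le_log_of_pos (by positivity)
      rw [inv_div] at h4
      have h5 : h / v ≤ 1 - t / c := by
        have h6 : t / c ≤ t / m := by gcongr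
        have h7 : h / v ≤ h / m := by gcongr
        have h8 : h / m ≤ 1 - t / m := by
          rw [div_le_iff₀ hm0, sub_mul, one_mul, div_mul_cancel₀ _ hm0.ne']
          linarith
        linarith
      calc κ * h / v = κ * (h / v) := by ring
        _ ≤ κ * Real.log (c / t) := by gcongr; linarith
  have h2 : ‖∫ t in p..r, osc κ b t‖ ≤ 2 * h := by
    have := norm_integral_le_of_norm_le_const (a := p) (b := r) (f := osc κ b) (C := 1)
      (fun t _ => (norm_osc κ b t).le)
    rw [one_mul, abs_of_nonneg (by linarith)] at this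
    refine this.trans ?_
    have h5 : r ≤ m + h := min_le_right _ _
    have h6 : m - h ≤ p := le_max_right _ _
    linarith
  have h3 : ‖∫ t in r..v, osc κ b t‖ ≤ 3 * h := by
    rcases le_or_gt v (m + h) with hle | hgt
    · have : r = v := min_eq_left hle
      rw [this, integral_same, norm_zero]
      positivity
    · have hre : r = m + h := min_eq_right hgt.le
      have hmc : c ≤ m := by
        rcases le_total c v with h2 | h2
        · rw [hm, min_eq_left h2]
          exact le_max_right _ _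
        · have : m = v := by rw [hm, min_eq_right h2, max_eq_right huv]
          linarith
      rw [← h3μ]
      have hr0 : 0 < r := hm0.trans_le hmr
      refine first hκ hr0 hrv hμ (Or.inr fun t ht => ?_)
      have ht0 : 0 < t := hr0.trans_le ht.1
      have htm : m + h ≤ t := by rw [← hre]; exact ht.1
      rw [phd_eq hκ ht0, ← hc]
      have h4 : Real.log (c / t) ≤ c / t - 1 := Real.log_le_sub_one_of_pos (by positivity)
      have h5 : h / v ≤ 1 - c / t := by
        have h6 : c / t ≤ m / t := by gcongr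
        have h7 : h / v ≤ h / t := by gcongr; exact ht.2
        have h8 : h / t ≤ 1 - m / t := by
          rw [div_le_iff₀ ht0, sub_mul, one_mul, div_mul_cancel₀ _ ht0.ne']
          linarith
        linarith
      calc κ * Real.log (c / t) ≤ κ * (-(h / v)) := by gcongr; linarith
        _ = -(κ * h / v) := by ring
  have hpu : u ≤ p := hup
  have hru : u ≤ r := hpu.trans (hpm.trans hmr)
  rw [← integral_add_adjacent_intervals (ii u p le_rfl hpu) (ii p v hpu huv),
    ← integral_add_adjacent_intervals (ii p r hpu hru) (ii r v hru huv)]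
  calc ‖(∫ t in u..p, osc κ b t) + ((∫ t in p..r, osc κ b t) + ∫ t in r..v, osc κ b t)‖
      ≤ ‖∫ t in u..p, osc κ b t‖ + (‖∫ t in p..r, osc κ b t‖ + ‖∫ t in r..v, osc κ b t‖) :=
        (norm_add_le _ _).trans (add_le_add_right (norm_add_le _ _) _)
    _ ≤ 3 * h + (2 * h + 3 * h) := by gcongr
    _ = 8 * h := by ring

/-! ### the weight -/

theorem gam_int {s δ : ℝ} (hs : -1 < s) (hδ : 0 < δ) :
    IntegrableOn (fun t : ℝ => t ^ s * Real.exp (-(δ * t))) (Ioi 0) := by
  have := integrableOn_rpow_mul_exp_neg_mul_rpow (s := s) (p := 1) (b := δ) hs one_pos hδ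
  refine this.congr_fun (fun t _ => ?_) measurableSet_Ioi
  simp only [Real.rpow_one, neg_mul]

theorem gam_val {s δ : ℝ} (hs : -1 < s) (hδ : 0 < δ) :
    ∫ t in Ioi (0 : ℝ), t ^ s * Real.exp (-(δ * t)) = Real.Gamma (s + 1) * δ ^ (-(s + 1)) := by
  have := Real.integral_rpow_mul_exp_neg_mul_Ioi (a := s + 1) (r := δ) (by linarith) hδ
  rw [add_sub_cancel_right] at this
  rw [this, one_div, Real.inv_rpow hδ.le, Real.rpow_neg hδ.le, mul_comm]

theorem gam_nonneg {s δ : ℝ} : ∀ t ∈ Ioi (0 : ℝ), 0 ≤ t ^ s * Real.exp (-(δ * t)) :=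
  fun t ht => mul_nonneg (Real.rpow_nonneg (le_of_lt ht) _) (Real.exp_pos _).le

theorem gam_le {s δ : ℝ} (hs : -1 < s) (hδ : 0 < δ) :
    ∫ t in Ioi (1 : ℝ), t ^ s * Real.exp (-(δ * t)) ≤ Real.Gamma (s + 1) * δ ^ (-(s + 1)) := by
  rw [← gam_val hs hδ]
  refine setIntegral_mono_set (gam_int hs hδ) ?_ ?_
  · exact (ae_restrict_iff' measurableSet_Ioi).2 (ae_of_all _ fun t ht => gam_nonneg t ht)
  · exact (Ioi_subset_Ioi zero_le_one).eventuallyLE

/-- integrability of the weighted oscillating function -/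
theorem vc_int {κ a b δ : ℝ} (ha : 0 ≤ a) (hδ : 0 < δ) :
    IntegrableOn (fun t : ℝ => ((t ^ a * Real.exp (-(δ * t)) : ℝ) : ℂ) * osc κ b t) (Ioi 1) := by
  have h1 : IntegrableOn (fun t : ℝ => t ^ a * Real.exp (-(δ * t))) (Ioi 1) :=
    (gam_int (by linarith) hδ).mono_set (Ioi_subset_Ioi zero_le_one)
  refine (h1.ofReal (𝕜 := ℂ)).mul_bdd (c := 1) (osc_meas κ b).aestronglyMeasurable
    (ae_of_all _ fun t => (norm_osc κ b t).le)

/-- the slow twist `t^(-iA)` -/
noncomputable def tw (A t : ℝ) : ℂ := cexp (I * ((-(A * Real.log t) : ℝ) : ℂ))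

theorem norm_tw (A t : ℝ) : ‖tw A t‖ = 1 := by
  rw [tw, mul_comm, Complex.norm_exp_ofReal_mul_I]

theorem tw_hasDerivAt (A : ℝ) {t : ℝ} (ht : 0 < t) :
    HasDerivAt (tw A) (tw A t * (I * ((-(A * t⁻¹) : ℝ) : ℂ))) t := by
  have h1 : HasDerivAt (fun t : ℝ => -(A * Real.log t)) (-(A * t⁻¹)) t :=
    ((Real.hasDerivAt_log ht.ne').const_mul A).fun_neg
  exact (h1.ofReal_comp.const_mul I).cexp

theorem tw_meas (A : ℝ) : Measurable (tw A) := by
  unfold tw
  fun_prop

theorem vcu_int {κ a b δ A : ℝ} (ha : 0 ≤ a) (hδ : 0 < δ) :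
    IntegrableOn (fun t : ℝ => (((t ^ a * Real.exp (-(δ * t)) : ℝ) : ℂ) * tw A t) * osc κ b t)
      (Ioi 1) := by
  have h1 : IntegrableOn (fun t : ℝ => t ^ a * Real.exp (-(δ * t))) (Ioi 1) :=
    (gam_int (by linarith) hδ).mono_set (Ioi_subset_Ioi zero_le_one)
  have h2 := (h1.ofReal (𝕜 := ℂ)).mul_bdd (c := 1) (tw_meas A).aestronglyMeasurable
    (ae_of_all _ fun t => (norm_tw A t).le)
  exact h2.mul_bdd (c := 1) (osc_meas κ b).aestronglyMeasurable
    (ae_of_all _ fun t => (norm_osc κ b t).le)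

theorem vcu {κ a : ℝ} (hκ : 0 < κ) (ha : 0 ≤ a) (A : ℝ) : ∃ C : ℝ, 0 ≤ C ∧
    ∀ δ : ℝ, 0 < δ → ∀ b : ℝ,
    ‖∫ t in Ioi (1 : ℝ), (((t ^ a * Real.exp (-(δ * t)) : ℝ) : ℂ) * tw A t) * osc κ b t‖ ≤
      C * δ ^ (-(a + 1 / 2)) := by
  set K : ℝ := 8 / Real.sqrt κ with hK
  have hK0 : 0 ≤ K := by positivity
  refine ⟨K * ((a + |A|) * Real.Gamma (a + 1 / 2) + Real.Gamma (a + 3 / 2)), ?_,
    fun δ hδ b => ?_⟩
  · have h1 : 0 < Real.Gamma (a + 1 / 2) := Real.Gamma_pos_of_pos (by linarith)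
    have h2 : 0 < Real.Gamma (a + 3 / 2) := Real.Gamma_pos_of_pos (by linarith)
    positivity
  set w0 : ℝ → ℝ := fun t => t ^ a * Real.exp (-(δ * t)) with hw0
  set w0' : ℝ → ℝ := fun t => a * t ^ (a - 1) * Real.exp (-(δ * t)) +
    t ^ a * (Real.exp (-(δ * t)) * (-δ)) with hw0'
  set w : ℝ → ℂ := fun t => ((w0 t : ℝ) : ℂ) * tw A t with hw
  set w' : ℝ → ℂ := fun t => ((w0' t : ℝ) : ℂ) * tw A t +
    ((w0 t : ℝ) : ℂ) * (tw A t * (I * ((-(A * t⁻¹) : ℝ) : ℂ))) with hw'
  set G : ℝ → ℂ := fun t => ∫ s in (1 : ℝ)..t, osc κ b s with hG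
  have hwd : ∀ t, 0 < t → HasDerivAt w (w' t) t := by
    intro t ht
    refine HasDerivAt.fun_mul (HasDerivAt.ofReal_comp (f := w0) (u := w0' t) ?_)
      (tw_hasDerivAt A ht)
    have h1 : HasDerivAt (fun t : ℝ => t ^ a) (a * t ^ (a - 1)) t :=
      Real.hasDerivAt_rpow_const (Or.inl ht.ne')
    have h2 : HasDerivAt (fun t : ℝ => Real.exp (-(δ * t))) (Real.exp (-(δ * t)) * (-δ)) t := by
      have h3 : HasDerivAt (fun t : ℝ => -(δ * t)) (-δ) t := by
        have h4 := ((hasDerivAt_id t).const_mul δ).fun_neg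
        rw [mul_one] at h4
        exact h4
      exact h3.exp
    exact h1.fun_mul h2
  have hGd : ∀ t, 1 < t → HasDerivAt G (osc κ b t) t := by
    intro t ht
    have ht0 : 0 < t := by linarith
    refine intervalIntegral.integral_hasDerivAt_right ?_ ?_
      (osc_hasDerivAt κ b ht0).continuousAt
    · refine ContinuousOn.intervalIntegrable ((osc_cont κ b).mono fun s hs => ?_)
      rw [uIcc_of_le ht.le] at hs
      exact lt_of_lt_of_le one_pos hs.1
    · exact (osc_cont κ b).stronglyMeasurableAtFilter isOpen_Ioi t ht0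
  have hGn : ∀ t, 1 ≤ t → ‖G t‖ ≤ K * t ^ ((1 : ℝ) / 2) := by
    intro t ht
    have h1 := second (b := b) hκ one_pos ht
    rw [Real.sqrt_div (by linarith)] at h1
    refine h1.trans (le_of_eq ?_)
    rw [hK, ← Real.sqrt_eq_rpow]
    ring
  have hG1 : G 1 = 0 := by simp [hG]
  have hGc : ContinuousOn G (Ici 1) := by
    intro t ht
    have h1 : ContinuousOn G (Icc 1 (t + 1)) := by
      have h2 := continuousOn_primitive_interval (μ := volume) (f := osc κ b) (a := 1) (b := t + 1)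
        (by
          rw [uIcc_of_le (by linarith [show (1:ℝ) ≤ t from ht])]
          exact ((osc_cont κ b).mono fun s hs => lt_of_lt_of_le one_pos hs.1).integrableOn_Icc)
      rwa [uIcc_of_le (by linarith [show (1:ℝ) ≤ t from ht])] at h2
    have h3 : ContinuousWithinAt G (Icc 1 (t + 1)) t := h1 t ⟨ht, by linarith⟩
    refine h3.mono_of_mem_nhdsWithin ?_
    rw [← Ici_inter_Iic]
    exact inter_mem_nhdsWithin _ (Iic_mem_nhds (by linarith))
  have hwc : ∀ t, 0 < t → ContinuousAt w t := fun t ht => (hwd t ht).continuousAt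
  set H : ℝ → ℂ := fun t => w t * G t with hH
  set H' : ℝ → ℂ := fun t => w' t * G t + w t * osc κ b t with hH'
  have hHd : ∀ t ∈ Ioi (1 : ℝ), HasDerivAt H (H' t) t := by
    intro t ht
    exact (hwd t (lt_trans one_pos ht)).fun_mul (hGd t ht)
  have hHc : ContinuousWithinAt H (Ici 1) 1 := by
    refine ContinuousWithinAt.mul ?_ (hGc 1 (mem_Ici.2 le_rfl))
    exact (hwc 1 one_pos).continuousWithinAt
  -- bounds
  set M : ℝ → ℝ := fun t => K * ((a + |A|) * (t ^ (a - 1 / 2) * Real.exp (-(δ * t))) +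
    δ * (t ^ (a + 1 / 2) * Real.exp (-(δ * t)))) with hM
  have hbd : ∀ t ∈ Ioi (1 : ℝ), ‖w' t * G t‖ ≤ M t := by
    intro t ht
    have ht0 : 0 < t := lt_trans one_pos ht
    rw [norm_mul]
    have h1 : |w0' t| ≤ a * t ^ (a - 1) * Real.exp (-(δ * t)) +
        t ^ a * (Real.exp (-(δ * t)) * δ) := by
      refine (abs_add_le _ _).trans (le_of_eq ?_)
      rw [abs_of_nonneg (by positivity), mul_neg, mul_neg, abs_neg, abs_of_nonneg (by positivity)]
    have h1' : ‖w' t‖ ≤ (a + |A|) * t ^ (a - 1) * Real.exp (-(δ * t)) +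
        t ^ a * (Real.exp (-(δ * t)) * δ) := by
      have e1 : t ^ a * t⁻¹ = t ^ (a - 1) := by
        rw [Real.rpow_sub ht0, Real.rpow_one, div_eq_mul_inv]
      have h9 : ‖((w0 t : ℝ) : ℂ) * (tw A t * (I * ((-(A * t⁻¹) : ℝ) : ℂ)))‖ =
          |A| * t ^ (a - 1) * Real.exp (-(δ * t)) := by
        rw [norm_mul, norm_mul, norm_mul, norm_I, norm_tw, Complex.norm_real, Complex.norm_real,
          Real.norm_eq_abs, Real.norm_eq_abs, abs_neg, abs_mul A, abs_of_pos (inv_pos.2 ht0),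
          abs_of_nonneg (show 0 ≤ w0 t from gam_nonneg t ht0), ← e1, hw0]
        ring
      refine (norm_add_le _ _).trans ?_
      rw [h9, norm_mul, norm_tw, mul_one, Complex.norm_real, Real.norm_eq_abs]
      linarith
    calc ‖w' t‖ * ‖G t‖ ≤ ((a + |A|) * t ^ (a - 1) * Real.exp (-(δ * t)) +
        t ^ a * (Real.exp (-(δ * t)) * δ)) * (K * t ^ ((1 : ℝ) / 2)) := by
          gcongr
          exact hGn t ht.le
      _ = M t := by
          have e1 : t ^ (a - 1) * t ^ ((1 : ℝ) / 2) = t ^ (a - 1 / 2) := by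
            rw [← Real.rpow_add ht0]; congr 1; ring
          have e2 : t ^ a * t ^ ((1 : ℝ) / 2) = t ^ (a + 1 / 2) := by
            rw [← Real.rpow_add ht0]
          rw [hM]
          simp only
          rw [← e1, ← e2]
          ring
  have i1 : IntegrableOn (fun t : ℝ => t ^ (a - 1 / 2) * Real.exp (-(δ * t))) (Ioi 1) :=
    (gam_int (by linarith) hδ).mono_set (Ioi_subset_Ioi zero_le_one)
  have i2 : IntegrableOn (fun t : ℝ => t ^ (a + 1 / 2) * Real.exp (-(δ * t))) (Ioi 1) :=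
    (gam_int (by linarith) hδ).mono_set (Ioi_subset_Ioi zero_le_one)
  have hMi : IntegrableOn M (Ioi 1) := ((i1.const_mul (a + |A|)).add (i2.const_mul δ)).const_mul K
  have hw'm : Measurable w' := by
    have := tw_meas A
    rw [hw', hw0', hw0]
    fun_prop
  have hwGi : IntegrableOn (fun t => w' t * G t) (Ioi 1) := by
    refine Integrable.mono' hMi ?_ ((ae_restrict_iff' measurableSet_Ioi).2 (ae_of_all _ hbd))
    refine hw'm.aestronglyMeasurable.mul ?_
    exact (hGc.mono Ioi_subset_Ici_self).aestronglyMeasurable measurableSet_Ioi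
  have hwoi : IntegrableOn (fun t => w t * osc κ b t) (Ioi 1) := vcu_int ha hδ
  have hlim : Tendsto H atTop (𝓝 0) := by
    have h1 : Tendsto (fun t : ℝ => K * (t ^ (a + 1 / 2) * Real.exp (-δ * t))) atTop (𝓝 0) := by
      have := (tendsto_rpow_mul_exp_neg_mul_atTop_nhds_zero (a + 1 / 2) δ hδ).const_mul K
      rwa [mul_zero] at this
    refine squeeze_zero_norm' ?_ h1
    filter_upwards [eventually_gt_atTop (1 : ℝ)] with t ht
    have ht0 : 0 < t := by linarith
    rw [hH]
    simp only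
    rw [norm_mul, norm_mul, norm_tw, mul_one, Complex.norm_real, Real.norm_eq_abs,
      abs_of_nonneg (by rw [hw0]; exact gam_nonneg t ht0)]
    calc w0 t * ‖G t‖ ≤ w0 t * (K * t ^ ((1 : ℝ) / 2)) := by
          refine mul_le_mul_of_nonneg_left (hGn t ht.le) ?_
          rw [hw0]; exact gam_nonneg t ht0
      _ = K * (t ^ (a + 1 / 2) * Real.exp (-δ * t)) := by
          have e2 : t ^ a * t ^ ((1 : ℝ) / 2) = t ^ (a + 1 / 2) := by
            rw [← Real.rpow_add ht0]
          rw [hw0]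
          simp only
          rw [← e2, neg_mul]
          ring
  have key := integral_Ioi_of_hasDerivAt_of_tendsto hHc hHd (hwGi.add hwoi) hlim
  have hH1 : H 1 = 0 := by rw [hH]; simp only; rw [hG1, mul_zero]
  rw [hH1, sub_zero, hH', MeasureTheory.integral_add hwGi hwoi] at key
  have hE : ∫ t in Ioi (1 : ℝ), w t * osc κ b t =
      -∫ t in Ioi (1 : ℝ), w' t * G t := by
    linear_combination key
  show ‖∫ t in Ioi (1 : ℝ), w t * osc κ b t‖ ≤ _
  rw [hE, norm_neg]
  calc ‖∫ t in Ioi (1 : ℝ), w' t * G t‖ ≤ ∫ t in Ioi (1 : ℝ), M t :=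
        norm_integral_le_of_norm_le hMi ((ae_restrict_iff' measurableSet_Ioi).2 (ae_of_all _ hbd))
    _ = K * ((a + |A|) * (∫ t in Ioi (1 : ℝ), t ^ (a - 1 / 2) * Real.exp (-(δ * t))) +
          δ * ∫ t in Ioi (1 : ℝ), t ^ (a + 1 / 2) * Real.exp (-(δ * t))) := by
        rw [hM, MeasureTheory.integral_const_mul,
          MeasureTheory.integral_add (i1.const_mul (a + |A|)) (i2.const_mul δ),
          MeasureTheory.integral_const_mul, MeasureTheory.integral_const_mul]
    _ ≤ K * ((a + |A|) * (Real.Gamma (a + 1 / 2) * δ ^ (-(a + 1 / 2))) +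
          δ * (Real.Gamma (a + 3 / 2) * δ ^ (-(a + 3 / 2)))) := by
        have g1 := gam_le (s := a - 1 / 2) (by linarith) hδ
        have g2 := gam_le (s := a + 1 / 2) (by linarith) hδ
        rw [show a - 1 / 2 + 1 = a + 1 / 2 by ring] at g1
        rw [show a + 1 / 2 + 1 = a + 3 / 2 by ring] at g2
        gcongr
    _ = K * ((a + |A|) * Real.Gamma (a + 1 / 2) + Real.Gamma (a + 3 / 2)) *
          δ ^ (-(a + 1 / 2)) := by
        have e : δ * δ ^ (-(a + 3 / 2)) = δ ^ (-(a + 1 / 2)) := by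
          nth_rewrite 1 [← Real.rpow_one δ]
          rw [← Real.rpow_add hδ]
          congr 1
          ring
        calc K * ((a + |A|) * (Real.Gamma (a + 1 / 2) * δ ^ (-(a + 1 / 2))) +
            δ * (Real.Gamma (a + 3 / 2) * δ ^ (-(a + 3 / 2))))
            = K * ((a + |A|) * Real.Gamma (a + 1 / 2) * δ ^ (-(a + 1 / 2)) +
              Real.Gamma (a + 3 / 2) * (δ * δ ^ (-(a + 3 / 2)))) := by ring
          _ = _ := by rw [e]; ring

theorem vc_eq (κ A b t : ℝ) (z : ℂ) : (z * tw A t) * osc κ b t =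
    z * cexp (I * ((b * t - κ * t * Real.log t - A * Real.log t : ℝ) : ℂ)) := by
  rw [mul_assoc, tw, osc, ← Complex.exp_add, ph]
  congr 2
  push_cast
  ring

/-- the uniform second derivative test of task VC -/
theorem vc {κ a : ℝ} (hκ : 0 < κ) (ha : 0 ≤ a) (A : ℝ) : ∃ C : ℝ, 0 ≤ C ∧
    ∀ δ : ℝ, 0 < δ → ∀ b : ℝ,
    ‖∫ t in Ioi (1 : ℝ), ((t ^ a * Real.exp (-(δ * t)) : ℝ) : ℂ) *
      cexp (I * ((b * t - κ * t * Real.log t - A * Real.log t : ℝ) : ℂ))‖ ≤
      C * δ ^ (-(a + 1 / 2)) := by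
  obtain ⟨C, hC, h⟩ := vcu hκ ha A
  refine ⟨C, hC, fun δ hδ b => ?_⟩
  have := h δ hδ b
  simp only [vc_eq] at this
  exact this

theorem vc_integrable {κ a b δ : ℝ} (A : ℝ) (ha : 0 ≤ a) (hδ : 0 < δ) :
    IntegrableOn (fun t : ℝ => ((t ^ a * Real.exp (-(δ * t)) : ℝ) : ℂ) *
      cexp (I * ((b * t - κ * t * Real.log t - A * Real.log t : ℝ) : ℂ))) (Ioi 1) := by
  have := vcu_int (κ := κ) (b := b) (A := A) ha hδ
  simp only [vc_eq] at this
  exact this

/-- the error terms -/
theorem err_pos {a : ℝ} (ha : 0 < a) : ∃ C : ℝ, 0 ≤ C ∧ ∀ δ : ℝ, 0 < δ →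
    ∫ t in Ioi (1 : ℝ), t ^ (a - 1) * Real.exp (-(δ * t)) ≤ C * δ ^ (-a) := by
  refine ⟨Real.Gamma a, (Real.Gamma_pos_of_pos ha).le, fun δ hδ => ?_⟩
  have := gam_le (s := a - 1) (by linarith) hδ
  rwa [sub_add_cancel] at this

end Pool.Agent.H5R3.VC
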