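import Mathlib
import Pool.Agent.H180R3.PO.Stmts
import Pool.Agent.H5R3.VC

set_option autoImplicit false

/-!
# TaskVC and TaskT1 of the project POLEORDER
-/

namespace Pool.Agent.H5R3.PO

open Filter Topology Set MeasureTheory
open Pool.Agent.H336R4.PF Pool.Agent.H180R3.PO

theorem phase_eq (κ A b t : ℝ) : b * t - κ * (t * Real.log t) - A * Real.log t =
    b * t - κ * t * Real.log t - A * Real.log t := by ring

theorem taskVC : TaskVC := by
  intro κ e A T hκ he hT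
  obtain ⟨C, hC0, hC⟩ := Pool.Agent.H5R3.VC.vc hκ he A
  refine ⟨C + T ^ e * (T - 1), ?_, fun δ hδ hδ1 b => ?_⟩
  · have h1 : 0 ≤ T ^ e := Real.rpow_nonneg (by linarith) _
    have h2 : 0 ≤ T - 1 := by linarith
    positivity
  unfold JJ
  simp only [phase_eq]
  set E : ℝ → ℂ := fun t => ((t ^ e * Real.exp (-(δ * t)) : ℝ) : ℂ) *
    Complex.exp (Complex.I * ((b * t - κ * t * Real.log t - A * Real.log t : ℝ) : ℂ)) with hE
  have hi : IntegrableOn E (Ioi 1) := Pool.Agent.H5R3.VC.vc_integrable A he hδ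
  have hi1 : IntegrableOn E (Ioc 1 T) := hi.mono_set Ioc_subset_Ioi_self
  have hi2 : IntegrableOn E (Ioi T) := hi.mono_set (Ioi_subset_Ioi hT)
  have hs : ∫ t in Ioi (1 : ℝ), E t = (∫ t in Ioc (1 : ℝ) T, E t) + ∫ t in Ioi T, E t := by
    rw [← Ioc_union_Ioi_eq_Ioi hT]
    refine setIntegral_union ?_ measurableSet_Ioi hi1 hi2
    exact Set.disjoint_left.2 fun t h1 h2 => absurd h1.2 (not_le.2 h2)
  have h1 := hC δ hδ b
  rw [show (∫ t in Ioi (1 : ℝ), ((t ^ e * Real.exp (-(δ * t)) : ℝ) : ℂ) *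
    Complex.exp (Complex.I * ((b * t - κ * t * Real.log t - A * Real.log t : ℝ) : ℂ))) =
    ∫ t in Ioi (1 : ℝ), E t from rfl, hs] at h1
  have h2 : ‖∫ t in Ioc (1 : ℝ) T, E t‖ ≤ T ^ e * (T - 1) := by
    have := norm_setIntegral_le_of_norm_le_const (μ := volume) (s := Ioc (1 : ℝ) T) (C := T ^ e)
      (f := E) (by simp) (fun t ht => ?_)
    · refine this.trans (le_of_eq ?_)
      simp [Measure.real, ENNReal.toReal_ofReal (show 0 ≤ T - 1 by linarith)]
    · have ht0 : 0 < t := lt_trans one_pos ht.1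
      rw [hE]
      simp only
      rw [norm_mul, mul_comm Complex.I, Complex.norm_exp_ofReal_mul_I, mul_one, Complex.norm_real,
        Real.norm_eq_abs, abs_of_nonneg (by positivity)]
      calc t ^ e * Real.exp (-(δ * t)) ≤ T ^ e * 1 := by
            gcongr
            · exact ht.2
            · rw [Real.exp_le_one_iff]
              have : 0 < δ * t := by positivity
              linarith
        _ = T ^ e := mul_one _
  have h3 : 1 ≤ δ ^ (-(e + 1 / 2)) :=
    Real.one_le_rpow_of_pos_of_le_one_of_nonpos hδ hδ1 (by linarith)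
  have h4 : ‖∫ t in Ioi T, E t‖ ≤ C * δ ^ (-(e + 1 / 2)) + T ^ e * (T - 1) := by
    have e1 : ∫ t in Ioi T, E t =
        ((∫ t in Ioc (1 : ℝ) T, E t) + ∫ t in Ioi T, E t) - ∫ t in Ioc (1 : ℝ) T, E t := by ring
    rw [e1]
    exact (norm_sub_le _ _).trans (add_le_add h1 h2)
  have h5 : 0 ≤ T ^ e * (T - 1) := mul_nonneg (Real.rpow_nonneg (by linarith) _) (by linarith)
  calc ‖∫ t in Ioi T, E t‖ ≤ C * δ ^ (-(e + 1 / 2)) + T ^ e * (T - 1) := h4
    _ ≤ C * δ ^ (-(e + 1 / 2)) + T ^ e * (T - 1) * δ ^ (-(e + 1 / 2)) := by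
        have h6 := mul_le_mul_of_nonneg_left h3 h5
        rw [mul_one] at h6
        linarith
    _ = _ := by ring

/-- summability of the coefficients -/
theorem ram_summable {a : ℕ → ℂ} (ha : Ram a) {η : ℝ} (hη : 0 < η) :
    Summable fun n : ℕ => ‖a n‖ * (n : ℝ) ^ (-1 - η) := by
  obtain ⟨C, hC⟩ := ha (η / 2) (by linarith)
  have h1 : Summable fun n : ℕ => C * (n : ℝ) ^ (-1 - η / 2) :=
    (Real.summable_nat_rpow.2 (by linarith)).mul_left C
  refine Summable.of_norm_bounded_eventually_nat h1 ?_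
  filter_upwards [eventually_ge_atTop 1] with n hn
  have hn0 : (0 : ℝ) < n := by exact_mod_cast hn
  rw [Real.norm_eq_abs, abs_of_nonneg (by positivity)]
  calc ‖a n‖ * (n : ℝ) ^ (-1 - η) ≤ (C * (n : ℝ) ^ (η / 2)) * (n : ℝ) ^ (-1 - η) := by
        gcongr
        exact hC n hn
    _ = C * (n : ℝ) ^ (-1 - η / 2) := by
        rw [mul_assoc, ← Real.rpow_add hn0]
        congr 2
        ring

theorem fz_periodic (a : ℕ → ℂ) (z : ℂ) : fz a (z + (2 * Real.pi : ℝ) * Complex.I) = fz a z := by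
  unfold fz
  refine tsum_congr fun n => ?_
  congr 1
  have e : -((n : ℂ) * (z + ((2 * Real.pi : ℝ) : ℂ) * Complex.I)) =
      -((n : ℂ) * z) + -((n : ℂ) * (2 * Real.pi * Complex.I)) := by
    push_cast
    ring
  rw [e, Complex.exp_add, Complex.exp_neg ((n : ℂ) * (2 * Real.pi * Complex.I)),
    Complex.exp_nat_mul_two_pi_mul_I, inv_one, mul_one]

/-- the Abelian limit -/
theorem abel (hMB : TaskMB) {a : ℕ → ℂ} (ha : Ram a) {G : ℂ → ℂ} (hG : Cont a 1 G)
    (hPG : PolyGrowth G) :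
    Tendsto (fun δ : ℝ => (δ : ℂ) * fz a δ) (𝓝[>] 0) (𝓝 (G 1)) := by
  set η : ℝ := 1 / 2 with hη
  have hη0 : 0 < η := by norm_num [hη]
  set g : ℝ → ℂ := fun t => G (-η + t * Complex.I) / (-η + t * Complex.I - 1) *
    Complex.Gamma (-η + t * Complex.I) with hg
  have h1 := (hMB a ha G hG hPG η hη0 (by norm_num [hη]) 1 (by simp)).1
  simp only [Complex.log_one, mul_zero, Complex.exp_zero, mul_one] at h1
  have h1' : Integrable g := h1
  set K : ℝ := ∫ t, ‖g t‖ with hK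
  have hform : ∀ δ : ℝ, 0 < δ → (δ : ℂ) * fz a δ = G 1 - δ * G 0 + δ * (1 / (2 * Real.pi) : ℂ) *
      ∫ t : ℝ, g t * Complex.exp (-(-η + t * Complex.I) * Complex.log δ) := by
    intro δ hδ
    have h2 := (hMB a ha G hG hPG η hη0 (by norm_num [hη]) (δ : ℂ) (by simpa using hδ)).2
    rw [h2]
    have hδ' : (δ : ℂ) ≠ 0 := by exact_mod_cast hδ.ne'
    have e1 : (δ : ℂ) * (G 1 / δ) = G 1 := by field_simp
    rw [mul_add, mul_sub, e1, mul_assoc (δ : ℂ)]
  have hb : ∀ δ : ℝ, 0 < δ → ‖∫ t : ℝ, g t * Complex.exp (-(-η + t * Complex.I) *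
      Complex.log δ)‖ ≤ δ ^ η * K := by
    intro δ hδ
    rw [hK, ← MeasureTheory.integral_const_mul]
    refine norm_integral_le_of_norm_le (h1'.norm.const_mul _) (ae_of_all _ fun t => le_of_eq ?_)
    rw [norm_mul, Complex.norm_exp, mul_comm]
    congr 1
    rw [Real.rpow_def_of_pos hδ, ← Complex.ofReal_log hδ.le]
    congr 1
    simp
    ring
  have hlim : Tendsto (fun δ : ℝ => δ * ‖G 0‖ + δ * (1 / (2 * Real.pi)) * (δ ^ η * K)) (𝓝[>] 0)
      (𝓝 0) := by
    have e1 : Tendsto (fun δ : ℝ => δ) (𝓝[>] 0) (𝓝 0) := nhdsWithin_le_nhds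
    have e2 : Tendsto (fun δ : ℝ => δ ^ η) (𝓝[>] 0) (𝓝 0) := by
      have := (Real.continuousAt_rpow_const 0 η (Or.inr hη0.le)).tendsto
      rw [Real.zero_rpow hη0.ne'] at this
      exact this.mono_left nhdsWithin_le_nhds
    have := (e1.mul_const ‖G 0‖).add ((e1.mul_const (1 / (2 * Real.pi))).mul (e2.mul_const K))
    simpa using this
  rw [← tendsto_sub_nhds_zero_iff]
  refine squeeze_zero_norm' ?_ hlim
  filter_upwards [self_mem_nhdsWithin] with δ hδ
  have hδ0 : (0 : ℝ) < δ := hδ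
  rw [hform δ hδ0]
  have e1 : G 1 - (δ : ℂ) * G 0 + (δ : ℂ) * (1 / (2 * Real.pi) : ℂ) *
      (∫ t : ℝ, g t * Complex.exp (-(-η + t * Complex.I) * Complex.log δ)) - G 1 =
      -((δ : ℂ) * G 0) + (δ : ℂ) * (1 / (2 * Real.pi) : ℂ) *
      (∫ t : ℝ, g t * Complex.exp (-(-η + t * Complex.I) * Complex.log δ)) := by ring
  rw [e1]
  refine (norm_add_le _ _).trans (add_le_add ?_ ?_)
  · rw [norm_neg, norm_mul, Complex.norm_real, Real.norm_eq_abs, abs_of_pos hδ0]
  · rw [norm_mul, norm_mul, Complex.norm_real, Real.norm_eq_abs, abs_of_pos hδ0]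
    have e2 : ‖(1 / (2 * Real.pi) : ℂ)‖ = 1 / (2 * Real.pi) := by
      rw [show (1 / (2 * Real.pi) : ℂ) = ((1 / (2 * Real.pi) : ℝ) : ℂ) by push_cast; ring,
        Complex.norm_real, Real.norm_eq_abs, abs_of_pos (by positivity)]
    rw [e2]
    have := hb δ hδ0
    gcongr

theorem arctan_ge {x : ℝ} (hx : 0 ≤ x) : x / (1 + x) ≤ Real.arctan x := by
  have h0 : 0 ≤ Real.arctan x := Real.arctan_nonneg.2 hx
  have h1 := Real.sin_le h0
  rw [Real.sin_arctan] at h1
  refine le_trans ?_ h1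
  have h2 : Real.sqrt (1 + x ^ 2) ≤ 1 + x := by
    rw [Real.sqrt_le_left (by linarith)]
    nlinarith
  have h3 : 0 < Real.sqrt (1 + x ^ 2) := Real.sqrt_pos.2 (by positivity)
  gcongr

theorem taskT1 : TaskT1 := by
  intro hVC hLIM hMB a ha G hG hPG d hd1 hd2 hAs
  set η : ℝ := (2 - d) / 4 with hη
  have hη0 : 0 < η := by rw [hη]; linarith
  have hη1 : η < 1 := by rw [hη]; linarith
  obtain ⟨K, c, A, C, T, hAsym⟩ := hAs η hη0 hη1
  set e : ℝ := (d - 1) * (1 / 2 + η) with he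
  have he0 : 0 ≤ e := by
    rw [he]
    have : 0 ≤ d - 1 := by linarith
    positivity
  have he1 : e < 1 / 2 := by
    rw [he, hη]
    nlinarith
  have hT : 1 ≤ T := hAsym.2.1
  obtain ⟨CV, hCV0, hCV⟩ := hVC (d - 1) e A T (by linarith) he0 hT
  set y : ℝ := 2 * Real.pi with hy
  have hy0 : 0 < y := by positivity
  have hy6 : 6 < y := by
    have := Real.pi_gt_three
    rw [hy]; linarith
  have hlim := hLIM a ha G hG hPG hMB d η K c A C T hd1.le hη0 hη1 (by linarith) hAsym y hy0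
  have hS := ram_summable ha hη0
  set S : ℝ := ∑' n : ℕ, ‖a n‖ * (n : ℝ) ^ (-1 - η) with hSdef
  have hS0 : 0 ≤ S := tsum_nonneg fun n => by positivity
  -- bound of the series
  have hSJ : ∀ δ : ℝ, 0 < δ → δ ≤ 1 → ‖SJ a d η c A T y δ‖ ≤
      S * (CV * ((1 + y) ^ (e + 1 / 2) * δ ^ (-(e + 1 / 2)))) := by
    intro δ hδ hδ1
    have hx0 : 0 < δ / y := by positivity
    have hδ' : 0 < Real.arctan (δ / y) := Real.arctan_pos.2 hx0
    have hδ'1 : Real.arctan (δ / y) ≤ 1 := by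
      have h1 : Real.arctan (δ / y) ≤ Real.arctan 1 := Real.arctan_strictMono.monotone (by
        rw [div_le_one hy0]; linarith)
      rw [Real.arctan_one] at h1
      have := Real.pi_le_four
      linarith
    have hge : δ / (1 + y) ≤ Real.arctan (δ / y) := by
      refine le_trans ?_ (arctan_ge hx0.le)
      rw [show δ / y / (1 + δ / y) = δ / (y + δ) by field_simp]
      exact div_le_div_of_nonneg_left hδ.le (by linarith) (by linarith)
    have hpow : (Real.arctan (δ / y)) ^ (-(e + 1 / 2)) ≤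
        (1 + y) ^ (e + 1 / 2) * δ ^ (-(e + 1 / 2)) := by
      calc (Real.arctan (δ / y)) ^ (-(e + 1 / 2)) ≤ (δ / (1 + y)) ^ (-(e + 1 / 2)) :=
            Real.rpow_le_rpow_of_nonpos (by positivity) hge (by linarith)
        _ = _ := by
            rw [Real.div_rpow hδ.le (by linarith), Real.rpow_neg (show 0 ≤ 1 + y by linarith),
              div_inv_eq_mul, mul_comm]
    unfold SJ
    refine tsum_of_norm_bounded (hS.hasSum.mul_right _) fun n => ?_
    rw [norm_mul, norm_mul, RCLike.norm_conj, Complex.norm_real, Real.norm_eq_abs,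
      abs_of_nonneg (Real.rpow_nonneg (Nat.cast_nonneg n) _)]
    have := hCV _ hδ' hδ'1 (c + Real.log n - Real.log ‖((δ : ℂ) + y * Complex.I)‖)
    have h3 := this.trans (mul_le_mul_of_nonneg_left hpow hCV0)
    gcongr
  -- second term tends to zero
  set X : ℝ → ℂ := fun δ => (δ : ℂ) * (K / (2 * Real.pi)) *
    ((‖((δ : ℂ) + y * Complex.I)‖ ^ η : ℝ) : ℂ) *
      Complex.exp (Complex.I * ((η * (Real.pi / 2 - Real.arctan (δ / y)) : ℝ) : ℂ)) *
        SJ a d η c A T y δ with hX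
  have hXlim : Tendsto X (𝓝[>] 0) (𝓝 0) := by
    set D : ℝ := ‖K / (2 * Real.pi)‖ * (1 + y) ^ η * (S * (CV * (1 + y) ^ (e + 1 / 2))) with hD
    have hl : Tendsto (fun δ : ℝ => D * δ ^ (1 / 2 - e)) (𝓝[>] 0) (𝓝 0) := by
      have := (Real.continuousAt_rpow_const 0 (1 / 2 - e) (Or.inr (by linarith))).tendsto
      rw [Real.zero_rpow (by linarith)] at this
      have h4 := (this.mono_left (nhdsWithin_le_nhds (s := Ioi 0))).const_mul D
      rwa [mul_zero] at h4
    refine squeeze_zero_norm' ?_ hl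
    have ev : ∀ᶠ δ : ℝ in 𝓝[>] 0, δ ∈ Ioc (0 : ℝ) 1 := Ioc_mem_nhdsGT one_pos
    filter_upwards [ev] with δ hδ
    have hδ0 := hδ.1
    have hnz : ‖((δ : ℂ) + y * Complex.I)‖ ≤ 1 + y := by
      refine (norm_add_le _ _).trans ?_
      rw [Complex.norm_real, norm_mul, Complex.norm_I, mul_one, Complex.norm_real,
        Real.norm_eq_abs, Real.norm_eq_abs, abs_of_pos hδ0, abs_of_pos hy0]
      linarith [hδ.2]
    rw [hX]
    simp only
    rw [norm_mul, norm_mul, norm_mul, norm_mul, mul_comm Complex.I,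
      Complex.norm_exp_ofReal_mul_I, mul_one, Complex.norm_real, Complex.norm_real,
      Real.norm_eq_abs, Real.norm_eq_abs, abs_of_pos hδ0,
      abs_of_nonneg (Real.rpow_nonneg (norm_nonneg _) _)]
    have h5 := hSJ δ hδ0 hδ.2
    have q2 : δ * δ ^ (-(e + 1 / 2)) = δ ^ (1 / 2 - e) := by
      nth_rewrite 1 [← Real.rpow_one δ]
      rw [← Real.rpow_add hδ0]
      congr 1
      ring
    calc δ * ‖K / (2 * Real.pi)‖ * ‖((δ : ℂ) + y * Complex.I)‖ ^ η * ‖SJ a d η c A T y δ‖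
        ≤ δ * ‖K / (2 * Real.pi)‖ * (1 + y) ^ η *
          (S * (CV * ((1 + y) ^ (e + 1 / 2) * δ ^ (-(e + 1 / 2))))) := by
          gcongr
      _ = D * (δ * δ ^ (-(e + 1 / 2))) := by rw [hD]; ring
      _ = _ := by rw [q2]
  -- the limit along `δ + 2πi`
  have hper : Tendsto (fun δ : ℝ => (δ : ℂ) * fz a (δ + y * Complex.I)) (𝓝[>] 0) (𝓝 0) := by
    have := hlim.add hXlim
    simp only [hX, sub_add_cancel, add_zero] at this
    exact this
  have hper2 : Tendsto (fun δ : ℝ => (δ : ℂ) * fz a δ) (𝓝[>] 0) (𝓝 0) := by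
    refine hper.congr fun δ => ?_
    rw [hy, fz_periodic]
  exact tendsto_nhds_unique (abel hMB ha hG hPG) hper2

end Pool.Agent.H5R3.PO
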