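import Mathlib

/-!
Boundary extension of a map with `‖g' w‖ ≤ C (1 - ‖w‖)^(-κ)`.
-/

set_option autoImplicit false
open Complex Set Filter Metric Topology Function

namespace Pool.Agent.H5R3

lemma radial_bound {g : ℂ → ℂ} (hg : DifferentiableOn ℂ g (ball 0 1)) {κ C : ℝ} (hκ0 : 0 < κ)
    (hκ1 : κ < 1) (hC : 0 < C)
    (hb : ∀ w ∈ ball (0 : ℂ) 1, ‖deriv g w‖ ≤ C * (1 - ‖w‖) ^ (-κ))
    {w : ℂ} (hw : ‖w‖ ≤ 1) {r r' : ℝ} (hr : 0 ≤ r) (hrr : r ≤ r') (hr' : r' < 1) :
    ‖g (r' * w) - g (r * w)‖ ≤ C / (1 - κ) * (1 - r) ^ (1 - κ) := by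
  have hmem : ∀ s ∈ Icc r r', (s : ℂ) * w ∈ ball (0 : ℂ) 1 := by
    intro s hs
    rw [mem_ball_zero_iff, norm_mul, Complex.norm_real, Real.norm_eq_abs,
      abs_of_nonneg (hr.trans hs.1)]
    calc s * ‖w‖ ≤ s * 1 := mul_le_mul_of_nonneg_left hw (hr.trans hs.1)
      _ < 1 := by linarith [hs.2]
  have hderiv : ∀ s ∈ Icc r r', HasDerivAt (fun s : ℝ => g (s * w) - g (r * w))
      (deriv g (s * w) * w) s := by
    intro s hs
    have h1 : HasDerivAt g (deriv g (s * w)) (s * w) :=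
      (hg.differentiableAt (isOpen_ball.mem_nhds (hmem s hs))).hasDerivAt
    have h2 : HasDerivAt (fun s : ℝ => (s : ℂ) * w) w s := by
      have := (Complex.ofRealCLM.hasDerivAt (x := s)).mul_const w
      simpa using this
    have h3 := HasDerivAt.comp_of_eq s h1 h2 rfl
    exact h3.sub_const _
  have hB : ∀ s ∈ Icc r r', HasDerivAt
      (fun s : ℝ => C / (1 - κ) * ((1 - r) ^ (1 - κ) - (1 - s) ^ (1 - κ)))
      (C * (1 - s) ^ (-κ)) s := by
    intro s hs
    have h1 : HasDerivAt (fun s : ℝ => 1 - s) (-1) s := by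
      simpa using (hasDerivAt_id s).const_sub 1
    have h2 : HasDerivAt (fun s : ℝ => (1 - s) ^ (1 - κ)) (-1 * (1 - κ) * (1 - s) ^ (1 - κ - 1)) s :=
      h1.rpow_const (Or.inl (by linarith [hs.2]))
    have h3 := ((h2.const_sub ((1 - r) ^ (1 - κ))).const_mul (C / (1 - κ)))
    have : (1 - κ) ≠ 0 := by linarith
    have h4 : C / (1 - κ) * -(-1 * (1 - κ) * (1 - s) ^ (1 - κ - 1)) = C * (1 - s) ^ (-κ) := by
      rw [show (1 - κ - 1) = -κ by ring]
      field_simp
    rwa [h4] at h3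
  have key := image_norm_le_of_norm_deriv_right_le_deriv_boundary'
    (f := fun s : ℝ => g (s * w) - g (r * w)) (f' := fun s => deriv g (s * w) * w)
    (a := r) (b := r')
    (B := fun s : ℝ => C / (1 - κ) * ((1 - r) ^ (1 - κ) - (1 - s) ^ (1 - κ)))
    (B' := fun s => C * (1 - s) ^ (-κ))
    (fun s hs => (hderiv s hs).continuousAt.continuousWithinAt)
    (fun s hs => (hderiv s ⟨hs.1, hs.2.le⟩).hasDerivWithinAt)
    (by simp)
    (fun s hs => (hB s hs).continuousAt.continuousWithinAt)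
    (fun s hs => (hB s ⟨hs.1, hs.2.le⟩).hasDerivWithinAt)
    (by
      intro s hs
      have hs' : s ∈ Icc r r' := ⟨hs.1, hs.2.le⟩
      have h1 := hb _ (hmem s hs')
      have h0 : 0 ≤ s := hr.trans hs.1
      have hsw : ‖(s : ℂ) * w‖ ≤ s := by
        rw [norm_mul, Complex.norm_real, Real.norm_eq_abs, abs_of_nonneg h0]
        calc s * ‖w‖ ≤ s * 1 := mul_le_mul_of_nonneg_left hw h0
          _ = s := mul_one s
      have hs1 : 0 < 1 - s := by linarith [hs.2]
      calc ‖deriv g (s * w) * w‖ = ‖deriv g (s * w)‖ * ‖w‖ := norm_mul _ _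
        _ ≤ ‖deriv g (s * w)‖ * 1 := mul_le_mul_of_nonneg_left hw (norm_nonneg _)
        _ = ‖deriv g (s * w)‖ := mul_one _
        _ ≤ C * (1 - ‖(s : ℂ) * w‖) ^ (-κ) := h1
        _ ≤ C * (1 - s) ^ (-κ) := by
            apply mul_le_mul_of_nonneg_left _ hC.le
            exact Real.rpow_le_rpow_of_nonpos hs1 (by linarith) (by linarith))
  have h4 := key (x := r') ⟨hrr, le_refl _⟩
  refine h4.trans ?_
  have h5 : 0 ≤ (1 - r') ^ (1 - κ) := Real.rpow_nonneg (by linarith) _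
  have h6 : 0 < C / (1 - κ) := div_pos hC (by linarith)
  show C / (1 - κ) * ((1 - r) ^ (1 - κ) - (1 - r') ^ (1 - κ)) ≤ _
  apply mul_le_mul_of_nonneg_left _ h6.le
  linarith

lemma exists_ext {g : ℂ → ℂ} (hg : DifferentiableOn ℂ g (ball 0 1)) {κ C : ℝ} (hκ0 : 0 < κ)
    (hκ1 : κ < 1) (hC : 0 < C)
    (hb : ∀ w ∈ ball (0 : ℂ) 1, ‖deriv g w‖ ≤ C * (1 - ‖w‖) ^ (-κ)) :
    ∃ G : ℂ → ℂ, ContinuousOn G (closedBall 0 1) ∧ EqOn G g (ball 0 1) := by
  -- the sequence of radii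
  set ρ : ℕ → ℝ := fun n => 1 - 1 / ((n : ℝ) + 2) with hρ
  have hρ0 : ∀ n, 0 ≤ ρ n := by
    intro n
    have h1 : (0 : ℝ) < (n : ℝ) + 2 := by positivity
    have h2 : 1 / ((n : ℝ) + 2) ≤ 1 := by
      rw [div_le_one h1]; linarith [Nat.cast_nonneg (α := ℝ) n]
    simp only [hρ]; linarith
  have hρ1 : ∀ n, ρ n < 1 := by
    intro n
    have h1 : (0 : ℝ) < 1 / ((n : ℝ) + 2) := by positivity
    simp only [hρ]; linarith
  have hρmono : Monotone ρ := by
    intro a b hab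
    have h1 : (a : ℝ) ≤ b := by exact_mod_cast hab
    have h2 : (0 : ℝ) < (a : ℝ) + 2 := by positivity
    have h3 : 1 / ((b : ℝ) + 2) ≤ 1 / ((a : ℝ) + 2) := one_div_le_one_div_of_le h2 (by linarith)
    simp only [hρ]; linarith
  set b : ℕ → ℝ := fun n => C / (1 - κ) * (1 - ρ n) ^ (1 - κ) with hbdef
  have hlim : Tendsto b atTop (𝓝 0) := by
    have h1 : Tendsto (fun n : ℕ => 1 - ρ n) atTop (𝓝 0) := by
      have : (fun n : ℕ => 1 - ρ n) = fun n : ℕ => 1 / ((n : ℝ) + 2) := by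
        funext n; simp [hρ]
      rw [this]
      have h2 : Tendsto (fun n : ℕ => (n : ℝ) + 2) atTop atTop :=
        tendsto_atTop_add_const_right _ _ tendsto_natCast_atTop_atTop
      have h3 := h2.inv_tendsto_atTop
      refine h3.congr (fun n => ?_)
      simp
    have h2 : Tendsto (fun n : ℕ => (1 - ρ n) ^ (1 - κ)) atTop (𝓝 0) := by
      have h3 := h1.rpow_const (p := 1 - κ) (Or.inr (by linarith))
      rwa [Real.zero_rpow (by linarith)] at h3
    simpa using h2.const_mul (C / (1 - κ))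
  have hcauchy : ∀ w ∈ closedBall (0 : ℂ) 1, ∀ n m, n ≤ m →
      ‖g (ρ m * w) - g (ρ n * w)‖ ≤ b n := by
    intro w hw n m hnm
    exact radial_bound hg hκ0 hκ1 hC hb (mem_closedBall_zero_iff.mp hw) (hρ0 n) (hρmono hnm) (hρ1 m)
  have hcs : ∀ w ∈ closedBall (0 : ℂ) 1, CauchySeq (fun n => g (ρ n * w)) := by
    intro w hw
    apply cauchySeq_of_le_tendsto_0 (fun n => 2 * b n)
    · intro n m N hn hm
      have h1 := hcauchy w hw N n hn
      have h2 := hcauchy w hw N m hm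
      rw [dist_eq_norm]
      calc ‖g (ρ n * w) - g (ρ m * w)‖
          = ‖(g (ρ n * w) - g (ρ N * w)) - (g (ρ m * w) - g (ρ N * w))‖ := by ring_nf
        _ ≤ _ := norm_sub_le _ _
        _ ≤ 2 * b N := by linarith
    · simpa using hlim.const_mul 2
  have hex : ∀ w : ℂ, ∃ y, w ∈ closedBall (0 : ℂ) 1 → Tendsto (fun n => g (ρ n * w)) atTop (𝓝 y) := by
    intro w
    by_cases hw : w ∈ closedBall (0 : ℂ) 1
    · obtain ⟨y, hy⟩ := cauchySeq_tendsto_of_complete (hcs w hw)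
      exact ⟨y, fun _ => hy⟩
    · exact ⟨0, fun h => absurd h hw⟩
  choose G hG using hex
  have huni : TendstoUniformlyOn (fun n w => g (ρ n * w)) G atTop (closedBall (0 : ℂ) 1) := by
    rw [Metric.tendstoUniformlyOn_iff]
    intro ε hε
    have h1 : ∀ᶠ n in atTop, b n < ε := hlim.eventually (gt_mem_nhds hε)
    filter_upwards [h1] with n hn w hw
    have h2 : Tendsto (fun m => ‖g (ρ m * w) - g (ρ n * w)‖) atTop (𝓝 ‖G w - g (ρ n * w)‖) :=
      ((hG w hw).sub_const _).norm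
    have h3 : ‖G w - g (ρ n * w)‖ ≤ b n :=
      le_of_tendsto h2 (eventually_atTop.mpr ⟨n, fun m hm => hcauchy w hw n m hm⟩)
    rw [dist_eq_norm]; linarith
  refine ⟨G, ?_, ?_⟩
  · refine huni.continuousOn (Eventually.frequently ?_)
    filter_upwards with n
    have h1 : MapsTo (fun w : ℂ => (ρ n : ℂ) * w) (closedBall 0 1) (ball 0 1) := by
      intro w hw
      rw [mem_ball_zero_iff, norm_mul, Complex.norm_real, Real.norm_eq_abs, abs_of_nonneg (hρ0 n)]
      calc ρ n * ‖w‖ ≤ ρ n * 1 := mul_le_mul_of_nonneg_left (mem_closedBall_zero_iff.mp hw) (hρ0 n)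
        _ < 1 := by linarith [hρ1 n]
    exact hg.continuousOn.comp (by fun_prop) h1
  · intro w hw
    have h1 : ContinuousAt g w := (hg.differentiableAt (isOpen_ball.mem_nhds hw)).continuousAt
    have h2 : Tendsto (fun n : ℕ => (ρ n : ℂ) * w) atTop (𝓝 w) := by
      have h3 : Tendsto ρ atTop (𝓝 1) := by
        have h4 : Tendsto (fun n : ℕ => 1 / ((n : ℝ) + 2)) atTop (𝓝 0) := by
          have h2 : Tendsto (fun n : ℕ => (n : ℝ) + 2) atTop atTop :=
            tendsto_atTop_add_const_right _ _ tendsto_natCast_atTop_atTop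
          have h3 := h2.inv_tendsto_atTop
          refine h3.congr (fun n => ?_)
          simp
        have h5 := h4.const_sub 1
        rw [sub_zero] at h5
        exact h5
      have h4 : Tendsto (fun n => (ρ n : ℂ)) atTop (𝓝 ((1 : ℝ) : ℂ)) :=
        (Complex.continuous_ofReal.tendsto 1).comp h3
      simpa using h4.mul_const w
    have h3 : Tendsto (fun n : ℕ => g ((ρ n : ℂ) * w)) atTop (𝓝 (g w)) := h1.tendsto.comp h2
    exact tendsto_nhds_unique (hG w (ball_subset_closedBall hw)) h3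

end Pool.Agent.H5R3
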