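import Pool.Agent.H5R3.GrowthG
import Pool.Agent.H5R3.Ext
import Pool.Agent.Helper202.Riemann

/-!
`starB`: Riemann map of a bounded domain which is star-shaped with respect to a ball.
-/

set_option autoImplicit false
open Complex Set Filter Metric Topology Function

namespace Pool.Agent.H5R3

theorem starB {U : Set ℂ} (hU : IsOpen U) (hb : Bornology.IsBounded U) {z₁ : ℂ} {δ : ℝ}
    (hδ : 0 < δ) (hsub : ball z₁ δ ⊆ U) (hstar : ∀ z₂ ∈ ball z₁ δ, StarConvex ℝ z₂ U) :
    ∃ (g : ℂ → ℂ) (κ c : ℝ), 0 < κ ∧ κ < 1 ∧ 0 < c ∧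
      ContinuousOn g (closedBall 0 1) ∧ DifferentiableOn ℂ g (ball 0 1) ∧
      g '' ball 0 1 = U ∧ g '' sphere 0 1 = frontier U ∧
      ∀ w ∈ ball (0 : ℂ) 1, c * (1 - ‖w‖) ^ κ ≤ ‖deriv g w‖ := by
  have hz1U : z₁ ∈ U := hsub (mem_ball_self hδ)
  have hst : StarConvex ℝ z₁ U := hstar z₁ (mem_ball_self hδ)
  have hsc : IsSimplyConnected U := by
    haveI : ContractibleSpace U := hst.contractibleSpace ⟨z₁, hz1U⟩
    show SimplyConnectedSpace U
    infer_instance
  have hne : U ≠ univ := by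
    intro h
    rw [h] at hb
    obtain ⟨R, hR⟩ := hb.subset_closedBall (0 : ℂ)
    have h1 := hR (mem_univ (((|R| + 1 : ℝ)) : ℂ))
    rw [mem_closedBall_zero_iff, Complex.norm_real, Real.norm_eq_abs,
      abs_of_pos (by positivity)] at h1
    linarith [le_abs_self R]
  obtain ⟨g, φ, hg, hbij, hg', hg0, hφ, hφm, hgφ, hφg⟩ :=
    Pool.Agent.Helper202.Riemann.riemann_inv hU hsc hne hz1U
  have hgU : MapsTo g (ball 0 1) U := hbij.mapsTo
  obtain ⟨R, hR⟩ := Metric.isBounded_iff.mp hb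
  have hR' : ∀ x ∈ U, ∀ y ∈ U, ‖x - y‖ ≤ R := by
    intro x hx y hy
    rw [← dist_eq_norm]
    exact hR hx hy
  obtain ⟨κ, c, C, hκ0, hκ1, hc, hC, hder⟩ :=
    growth_deriv hU hg hgU hg' hφ hφm hgφ hφg hδ hsub hstar hR' hg0
  obtain ⟨G, hGc, hGg⟩ := exists_ext hg hκ0 hκ1 hC (fun w hw => (hder w hw).2)
  have hGball : G '' ball 0 1 = U := by
    rw [hGg.image_eq]; exact hbij.image_eq
  have hGcl : G '' closedBall 0 1 = closure U := by
    apply Subset.antisymm
    · rw [← closure_ball (0 : ℂ) one_ne_zero, ← hGball]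
      rw [← closure_ball (0 : ℂ) one_ne_zero] at hGc
      exact hGc.image_closure
    · apply closure_minimal
      · rw [← hGball]; exact image_mono ball_subset_closedBall
      · exact ((isCompact_closedBall (0 : ℂ) 1).image_of_continuousOn hGc).isClosed
  have hdisj : ∀ w ∈ sphere (0 : ℂ) 1, G w ∉ U := by
    intro w hw hwU
    have hwn : ‖w‖ = 1 := mem_sphere_zero_iff_norm.mp hw
    have hwcb : w ∈ closedBall (0 : ℂ) 1 := sphere_subset_closedBall hw
    have hφc : ContinuousAt φ (G w) := (hφ.differentiableAt (hU.mem_nhds hwU)).continuousAt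
    have hwcl : w ∈ closure (ball (0 : ℂ) 1) := by
      rw [closure_ball (0 : ℂ) one_ne_zero]; exact hwcb
    haveI : (𝓝[ball (0 : ℂ) 1] w).NeBot := mem_closure_iff_nhdsWithin_neBot.mp hwcl
    have h1 : Tendsto G (𝓝[ball (0 : ℂ) 1] w) (𝓝 (G w)) :=
      (hGc w hwcb).mono_left (nhdsWithin_mono _ ball_subset_closedBall)
    have h2 : Tendsto (fun x => φ (G x)) (𝓝[ball (0 : ℂ) 1] w) (𝓝 (φ (G w))) := hφc.tendsto.comp h1
    have h3 : Tendsto (fun x : ℂ => x) (𝓝[ball (0 : ℂ) 1] w) (𝓝 w) :=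
      tendsto_id.mono_left nhdsWithin_le_nhds
    have h4 : Tendsto (fun x : ℂ => x) (𝓝[ball (0 : ℂ) 1] w) (𝓝 (φ (G w))) := by
      refine h2.congr' ?_
      filter_upwards [self_mem_nhdsWithin] with x hx
      rw [hGg hx]; exact hφg x hx
    have h5 : w = φ (G w) := tendsto_nhds_unique h3 h4
    have h6 := hφm hwU
    rw [← h5, mem_ball_zero_iff, hwn] at h6
    exact lt_irrefl _ h6
  refine ⟨G, κ, c, hκ0, hκ1, hc, hGc, hg.congr hGg, hGball, ?_, ?_⟩
  · rw [hU.frontier_eq]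
    apply Subset.antisymm
    · rintro _ ⟨w, hw, rfl⟩
      exact ⟨hGcl ▸ mem_image_of_mem G (sphere_subset_closedBall hw), hdisj w hw⟩
    · rintro z ⟨hz, hzU⟩
      rw [← hGcl] at hz
      obtain ⟨w, hw, rfl⟩ := hz
      refine ⟨w, ?_, rfl⟩
      rw [mem_sphere_zero_iff_norm]
      rcases lt_or_eq_of_le (mem_closedBall_zero_iff.mp hw) with h | h
      · exact absurd (hGball ▸ mem_image_of_mem G (mem_ball_zero_iff.mpr h)) hzU
      · exact h
  · intro w hw
    have h1 : deriv G w = deriv g w := by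
      apply Filter.EventuallyEq.deriv_eq
      filter_upwards [isOpen_ball.mem_nhds hw] with x hx
      exact hGg hx
    rw [h1]
    exact (hder w hw).1

end Pool.Agent.H5R3

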