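import Mathlib
import Pool.Agent.H33R3.Bom.Stmts

set_option autoImplicit false

/-! # Task E1 of the project H33-BOM: the pairing inequality -/

namespace Pool.Agent.H5R3.BomE1

open Complex Metric Set Filter Topology
open Pool.Agent.H33R3.Bom

lemma ball_mem : ball (0 : ℂ) 1 ∈ 𝓝 (0 : ℂ) := isOpen_ball.mem_nhds (by simp)

lemma deriv_Y {Y : ℂ → ℂ} (hY : IsG Y) : deriv Y 0 = 0 := by
  have h1 : (fun z : ℂ => Y (-z)) =ᶠ[𝓝 0] Y := by
    filter_upwards [ball_mem] with z hz using hY.even z hz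
  have h2 := h1.deriv_eq
  rw [deriv_comp_neg, neg_zero] at h2
  have h3 : (2 : ℂ) * deriv Y 0 = 0 := by linear_combination -h2
  simpa using h3

lemma dslope_eq {Y : ℂ → ℂ} (hY : IsG Y) {ζ : ℂ} (h0 : ζ ≠ 0) :
    dslope Y 0 ζ = (Y ζ - 1) / ζ := by
  rw [dslope_of_ne _ h0, slope_def_field, hY.one, sub_zero]

lemma dslope_odd {Y : ℂ → ℂ} (hY : IsG Y) {z : ℂ} (hz : z ∈ ball (0 : ℂ) 1) :
    dslope Y 0 (-z) = -dslope Y 0 z := by
  by_cases h0 : z = 0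
  · subst h0
    rw [neg_zero, dslope_same, deriv_Y hY, neg_zero]
  · rw [dslope_eq hY h0, dslope_eq hY (neg_ne_zero.2 h0), hY.even z hz]
    field_simp

lemma dslope_diff {Y : ℂ → ℂ} (hY : IsG Y) : DifferentiableOn ℂ (dslope Y 0) (ball 0 1) :=
  (Complex.differentiableOn_dslope ball_mem).2 hY.diff

lemma deriv_A {Y A : ℂ → ℂ} (hY : IsG Y) {ζ : ℂ} (h0 : ζ ≠ 0) (hA : LogFor Y ζ A) :
    deriv A 0 = 2 * dslope Y 0 ζ := by
  have hYd : HasDerivAt Y (deriv Y 0) 0 := (hY.diff.differentiableAt ball_mem).hasDerivAt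
  have hAd : HasDerivAt A (deriv A 0) 0 := (hA.diff.differentiableAt ball_mem).hasDerivAt
  have h1 : HasDerivAt (fun z => Y ζ * z - Y z * ζ) (Y ζ * 1 - deriv Y 0 * ζ) 0 :=
    ((hasDerivAt_id (0 : ℂ)).const_mul (Y ζ)).sub (hYd.mul_const ζ)
  have h2 : HasDerivAt (fun z : ℂ => z + ζ) 1 0 := (hasDerivAt_id (0 : ℂ)).add_const ζ
  have h3 : HasDerivAt (fun z => exp (A z)) (exp (A 0) * deriv A 0) 0 := hAd.cexp
  have h4 : HasDerivAt (fun z => Y ζ * z + Y z * ζ) (Y ζ * 1 + deriv Y 0 * ζ) 0 :=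
    ((hasDerivAt_id (0 : ℂ)).const_mul (Y ζ)).add (hYd.mul_const ζ)
  have h5 : HasDerivAt (fun z : ℂ => z - ζ) 1 0 := (hasDerivAt_id (0 : ℂ)).sub_const ζ
  have hL := (h1.mul h2).mul h3
  have hR := h4.mul h5
  have heq : ((fun z => Y ζ * z - Y z * ζ) * (fun z : ℂ => z + ζ)) * (fun z => exp (A z))
      =ᶠ[𝓝 0] (fun z => Y ζ * z + Y z * ζ) * (fun z : ℂ => z - ζ) := by
    filter_upwards [ball_mem] with z hz
    have := hA.eq z hz
    simpa using this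
  have hu := hL.unique (hR.congr_of_eventuallyEq heq)
  rw [hA.zero, hY.one, deriv_Y hY] at hu
  simp only [exp_zero, mul_zero, zero_sub, zero_add, mul_one, zero_mul, sub_zero, one_mul,
    add_zero] at hu
  rw [dslope_eq hY h0]
  field_simp
  have h6 : ζ * (deriv A 0 * ζ) = ζ * (2 * (Y ζ - 1)) := by
    simp only [Pi.mul_apply] at hu
    linear_combination -hu - ζ ^ 2 * deriv A 0 * hY.one
  exact mul_left_cancel₀ h0 h6

theorem e1 : TaskE1 := by
  intro hC Y hY ζ A₁ A₂ h0 h1 hA₁ hA₂ s t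
  have hre : ∀ k : ℕ, t * ζ ^ k + (starRingEnd ℂ) t * (starRingEnd ℂ) ζ ^ k =
      ((2 * (t * ζ ^ k).re : ℝ) : ℂ) := by
    intro k
    rw [← Complex.add_conj (t * ζ ^ k), map_mul, map_pow]
  have h0' : (starRingEnd ℂ) ζ ≠ 0 := by simpa using h0
  have h1' : ‖(starRingEnd ℂ) ζ‖ < 1 := by rw [Complex.norm_conj]; exact h1
  set ζ' := (starRingEnd ℂ) ζ with hζ'
  set t' := (starRingEnd ℂ) t with ht'
  have hm : ζ ∈ ball (0 : ℂ) 1 := by simpa using h1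
  have hm' : ζ' ∈ ball (0 : ℂ) 1 := by simpa using h1'
  obtain ⟨Φ, hΦ⟩ : ∃ Φ : ℂ → ℂ, Φ = fun z => (s : ℂ) * dslope Y 0 z + t * A₁ z + t' * A₂ z :=
    ⟨_, rfl⟩
  have hΦv : ∀ z, Φ z = (s : ℂ) * dslope Y 0 z + t * A₁ z + t' * A₂ z := fun z => by rw [hΦ]
  have hΦd : DifferentiableOn ℂ Φ (ball 0 1) := by
    rw [hΦ]
    exact (((dslope_diff hY).const_mul _).add (hA₁.diff.const_mul t)).add (hA₂.diff.const_mul t')
  have hΦodd : ∀ z ∈ ball (0 : ℂ) 1, Φ (-z) = -Φ z := by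
    intro z hz
    rw [hΦv, hΦv, dslope_odd hY hz, hA₁.odd z hz, hA₂.odd z hz]
    ring
  have hΦ' : deriv Φ 0 = (s : ℂ) * deriv (dslope Y 0) 0 + t * (2 * dslope Y 0 ζ) +
      t' * (2 * dslope Y 0 ζ') := by
    have k1 : HasDerivAt (dslope Y 0) (deriv (dslope Y 0) 0) 0 :=
      ((dslope_diff hY).differentiableAt ball_mem).hasDerivAt
    have k2 : HasDerivAt A₁ (deriv A₁ 0) 0 := (hA₁.diff.differentiableAt ball_mem).hasDerivAt
    have k3 : HasDerivAt A₂ (deriv A₂ 0) 0 := (hA₂.diff.differentiableAt ball_mem).hasDerivAt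
    have k4 := ((k1.const_mul (s : ℂ)).add (k2.const_mul t)).add (k3.const_mul t')
    rw [hΦ]
    have k5 := k4.deriv
    rw [deriv_A hY h0 hA₁, deriv_A hY h0' hA₂] at k5
    exact k5
  obtain ⟨c, hc1, hc⟩ : ∃ c : ℕ → ℂ, c 1 = deriv Φ 0 ∧
      ∀ z ∈ ball (0 : ℂ) 1, HasSum (fun k : ℕ => c k * z ^ k) (Φ z) := by
    refine ⟨fun n => (n.factorial : ℂ)⁻¹ * iteratedDeriv n Φ 0, by simp [iteratedDeriv_one], ?_⟩
    intro z hz
    have hd : DifferentiableOn ℂ Φ (ball (0 : ℂ) ((1 : NNReal) : ℝ)) := by simpa using hΦd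
    have h := Complex.hasSum_taylorSeries_on_ball (c := (0 : ℂ)) (r := 1) hd
      (z := z) (by simpa using hz)
    refine h.congr_fun ?_
    intro n
    simp only [smul_eq_mul, sub_zero]
    ring
  have hT := hC Y hY ζ ζ' A₁ A₂ h0 h0' h1 h1' hA₁ hA₂ (s : ℂ) t t' c (by
    intro z hz
    have := hc z hz
    rwa [hΦv] at this)
  have hodd : ∀ z ∈ ball (0 : ℂ) 1,
      HasSum (fun k : ℕ => if Odd k then c k * z ^ k else 0) (Φ z) := by
    intro z hz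
    have hz' : -z ∈ ball (0 : ℂ) 1 := by simpa using hz
    have h := ((hc z hz).sub (hc (-z) hz')).div_const 2
    rw [hΦodd z hz] at h
    have e : (Φ z - -Φ z) / 2 = Φ z := by ring
    rw [e] at h
    have hf : (fun k : ℕ => if Odd k then c k * z ^ k else 0) =
        fun i : ℕ => (c i * z ^ i - c i * (-z) ^ i) / 2 := by
      ext k
      split_ifs with hk
      · rw [hk.neg_pow]; ring
      · rw [(Nat.not_odd_iff_even.1 hk).neg_pow]; ring
    rw [hf]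
    exact h
  obtain ⟨δ, hδ⟩ : ∃ δ : ℕ → ℝ, δ = fun k : ℕ => (if k = 1 then s else 0) +
      (if Odd k then 2 / (k : ℝ) * (2 * (t * ζ ^ k).re) else 0) := ⟨_, rfl⟩
  have hdd : ∀ k, dd (s : ℂ) t t' ζ ζ' k = ((δ k : ℝ) : ℂ) := by
    intro k
    rw [dd, hδ, hre k]
    push_cast
    split_ifs <;> simp
  obtain ⟨D, hD⟩ : ∃ D : ℝ, D = s ^ 2 + 8 * s * (t * ζ).re +
      4 * (∑' k : ℕ, if Odd k then (2 * (t * ζ ^ k).re) ^ 2 / (k : ℝ) else 0) := ⟨_, rfl⟩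
  have hsum1 : Summable (fun k : ℕ => if Odd k then (2 * (t * ζ ^ k).re) ^ 2 / (k : ℝ) else 0) := by
    have hg : Summable (fun k : ℕ => (4 * ‖t‖ ^ 2) * (‖ζ‖ ^ 2) ^ k) := by
      refine (summable_geometric_of_lt_one (by positivity) ?_).mul_left _
      nlinarith [norm_nonneg ζ]
    refine Summable.of_nonneg_of_le (fun k => ?_) (fun k => ?_) hg
    · split_ifs
      · positivity
      · exact le_rfl
    · split_ifs with hk
      · have hk1 : (1 : ℝ) ≤ k := by exact_mod_cast hk.pos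
        have h2 : |(t * ζ ^ k).re| ≤ ‖t‖ * ‖ζ‖ ^ k := by
          have := Complex.abs_re_le_norm (t * ζ ^ k)
          rwa [norm_mul, norm_pow] at this
        have h3 : (2 * (t * ζ ^ k).re) ^ 2 ≤ 4 * ‖t‖ ^ 2 * (‖ζ‖ ^ 2) ^ k := by
          have h4 : (t * ζ ^ k).re ^ 2 ≤ (‖t‖ * ‖ζ‖ ^ k) ^ 2 := by
            rw [← sq_abs]
            exact pow_le_pow_left₀ (abs_nonneg _) h2 2
          have h5 : (‖t‖ * ‖ζ‖ ^ k) ^ 2 = ‖t‖ ^ 2 * (‖ζ‖ ^ 2) ^ k := by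
            rw [mul_pow, ← pow_mul, ← pow_mul, mul_comm k 2]
          nlinarith
        exact (div_le_self (by positivity) hk1).trans h3
      · positivity
  have hy : HasSum (fun k : ℕ => (k : ℝ) * δ k ^ 2) D := by
    have h2 := (hasSum_ite_eq (1 : ℕ) (s ^ 2 + 8 * s * (t * ζ).re)).add (hsum1.hasSum.mul_left 4)
    rw [hD]
    refine h2.congr_fun ?_
    intro k
    rw [hδ]
    simp only
    by_cases hk : Odd k
    · have hk0 : (k : ℝ) ≠ 0 := by exact_mod_cast hk.pos.ne'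
      by_cases hk1 : k = 1
      · subst hk1
        simp
        ring
      · simp only [hk1, if_false, hk, if_true]
        field_simp
        ring
    · have hk1 : k ≠ 1 := by rintro rfl; exact hk odd_one
      simp [hk1, hk]
  have hcd : HasSum (fun k : ℕ => (k : ℂ) * c k * (δ k : ℂ))
      ((s : ℂ) * c 1 + 2 * (t * Φ ζ + t' * Φ ζ')) := by
    have h2 := (hasSum_ite_eq (1 : ℕ) ((s : ℂ) * c 1)).add
      ((((hodd ζ hm).mul_left t).add ((hodd ζ' hm').mul_left t')).mul_left 2)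
    refine h2.congr_fun ?_
    intro k
    have hdk := hdd k
    rw [← hdk, dd]
    by_cases hk : Odd k
    · have hk0 : (k : ℂ) ≠ 0 := by exact_mod_cast hk.pos.ne'
      by_cases hk1 : k = 1
      · subst hk1
        simp
        ring
      · simp only [hk1, if_false, hk, if_true]
        field_simp
        ring
    · have hk1 : k ≠ 1 := by rintro rfl; exact hk odd_one
      simp [hk1, hk]
  have hyd : ∑' k : ℕ, (k : ℝ) * ‖dd (s : ℂ) t t' ζ ζ' k‖ ^ 2 = D := by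
    rw [← hy.tsum_eq]
    congr 1
    ext k
    rw [hdd k, Complex.norm_real, Real.norm_eq_abs, sq_abs]
  rw [hyd] at hT
  have hxn : ∀ k : ℕ, 0 ≤ (k : ℝ) * ‖c k‖ ^ 2 := fun k => by positivity
  have hx : Summable (fun k : ℕ => (k : ℝ) * ‖c k‖ ^ 2) := summable_of_sum_range_le hxn hT
  have hxD : ∑' k : ℕ, (k : ℝ) * ‖c k‖ ^ 2 ≤ D := Real.tsum_le_of_sum_range_le hxn hT
  have hall := (hx.hasSum.add ((Complex.reCLM.hasSum hcd).mul_left 2)).add hy
  have hpos : 0 ≤ (∑' k : ℕ, (k : ℝ) * ‖c k‖ ^ 2) +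
      2 * ((s : ℂ) * c 1 + 2 * (t * Φ ζ + t' * Φ ζ')).re + D := by
    refine hall.nonneg fun k => ?_
    have e : (k : ℝ) * ‖c k‖ ^ 2 + 2 * ((k : ℂ) * c k * (δ k : ℂ)).re + (k : ℝ) * δ k ^ 2 =
        (k : ℝ) * ((c k).re + δ k) ^ 2 + (k : ℝ) * (c k).im ^ 2 := by
      rw [Complex.sq_norm, Complex.normSq_apply]
      simp only [Complex.mul_re, Complex.natCast_re, Complex.natCast_im, Complex.ofReal_re,
        Complex.ofReal_im, Complex.mul_im]
      ring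
    have e2 : 0 ≤ (k : ℝ) * ((c k).re + δ k) ^ 2 + (k : ℝ) * (c k).im ^ 2 := by positivity
    rw [← e] at e2
    exact e2
  have hfin : 0 ≤ D + ((s : ℂ) * c 1 + 2 * (t * Φ ζ + t' * Φ ζ')).re := by linarith
  refine hfin.trans (le_of_eq ?_)
  have e1 : ((s : ℂ) * c 1 + 2 * (t * Φ ζ + t' * Φ ζ')).re =
      s ^ 2 * (deriv (dslope Y 0) 0).re + 4 * s * (t * dslope Y 0 ζ + t' * dslope Y 0 ζ').re +
      2 * (t ^ 2 * A₁ ζ + t * t' * (A₂ ζ + A₁ ζ') + t' ^ 2 * A₂ ζ').re := by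
    have : ((s : ℂ) * c 1 + 2 * (t * Φ ζ + t' * Φ ζ')) =
        ((s ^ 2 : ℝ) : ℂ) * deriv (dslope Y 0) 0 +
        ((4 * s : ℝ) : ℂ) * (t * dslope Y 0 ζ + t' * dslope Y 0 ζ') +
        ((2 : ℝ) : ℂ) * (t ^ 2 * A₁ ζ + t * t' * (A₂ ζ + A₁ ζ') + t' ^ 2 * A₂ ζ') := by
      rw [hc1, hΦ', hΦv, hΦv]
      push_cast
      ring
    rw [this, Complex.add_re, Complex.add_re, Complex.re_ofReal_mul, Complex.re_ofReal_mul,
      Complex.re_ofReal_mul]
  have e2 : ep Y / 2 = (deriv (dslope Y 0) 0).re + 1 := by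
    have k1 : HasDerivAt (dslope Y 0) (deriv (dslope Y 0) 0) 0 :=
      ((dslope_diff hY).differentiableAt ball_mem).hasDerivAt
    have k2 : HasDerivAt (hh Y) (deriv (dslope Y 0) 0 + 1) 0 := k1.add (hasDerivAt_id (0 : ℂ))
    rw [ep, k2.deriv]
    simp
  have e3 : (t * hh Y ζ + t' * hh Y ζ').re =
      (t * dslope Y 0 ζ + t' * dslope Y 0 ζ').re + 2 * (t * ζ).re := by
    have h2 := hre 1
    rw [pow_one, pow_one] at h2
    have h3 : t * hh Y ζ + t' * hh Y ζ' =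
        (t * dslope Y 0 ζ + t' * dslope Y 0 ζ') + ((2 * (t * ζ).re : ℝ) : ℂ) := by
      rw [← h2, hh, hh]
      ring
    rw [h3, Complex.add_re, Complex.ofReal_re]
  rw [e1, e2, e3, hD]
  ring

end Pool.Agent.H5R3.BomE1
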