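import Pool.Agent.H508R3.SC

set_option autoImplicit false

/-! Piece 508-SC1 (helper508): the Wigner-von Neumann estimate. -/

namespace Pool.Agent.H5R3.SC1

open Pool.Agent.H508R3.SC Matrix Finset

/-! ### Perturbation lemma -/

/-- `P 0 = 1`, `P (n+1) = (1 + X n) P n` -/
def pr {R : Type} [Ring R] (X : ℕ → R) : ℕ → R
  | 0 => 1
  | n + 1 => (1 + X n) * pr X n

section pert

variable {R : Type} [NormedRing R] [NormOneClass R]

lemma norm_one_add_le {x : R} {a : ℝ} (h : ‖x‖ ≤ a) : ‖1 + x‖ ≤ Real.exp a := by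
  calc ‖1 + x‖ ≤ ‖(1:R)‖ + ‖x‖ := norm_add_le _ _
    _ ≤ 1 + a := by rw [norm_one]; gcongr
    _ ≤ Real.exp a := by have := Real.add_one_le_exp a; linarith

lemma norm_pr_le (X : ℕ → R) (a : ℕ → ℝ) (h : ∀ n, ‖X n‖ ≤ a n) (n : ℕ) :
    ‖pr X n‖ ≤ Real.exp (∑ i ∈ range n, a i) := by
  induction n with
  | zero => simp [pr]
  | succ n ih =>
    rw [pr, sum_range_succ, add_comm (∑ i ∈ range n, a i), Real.exp_add]
    exact (norm_mul_le _ _).trans (mul_le_mul (norm_one_add_le (h n)) ih (norm_nonneg _) (Real.exp_pos _).le)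

theorem pert (D E : ℕ → R) (a : ℕ → ℝ) (β : ℝ) (ha : ∀ n, ‖D n‖ + ‖E n‖ ≤ a n)
    (hβ : ∀ n, ‖∑ i ∈ range n, E i‖ ≤ β) (n : ℕ) :
    ‖pr (fun n => D n + E n) n - pr D n‖ ≤ β * Real.exp (3 * ∑ i ∈ range n, a i) := by
  have hβ0 : 0 ≤ β := (norm_nonneg _).trans (hβ 0)
  have ha0 : ∀ n, 0 ≤ a n := fun n => (add_nonneg (norm_nonneg _) (norm_nonneg _)).trans (ha n)
  have hV0 : ∀ n, 0 ≤ ∑ i ∈ range n, a i := fun n => sum_nonneg fun i _ => ha0 i
  have hX : ∀ n, ‖D n + E n‖ ≤ a n := fun n => (norm_add_le _ _).trans (ha n)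
  have hD : ∀ n, ‖D n‖ ≤ a n := fun n => le_trans (by linarith [norm_nonneg (E n)]) (ha n)
  have hP := norm_pr_le (fun n => D n + E n) a hX
  have key : ∀ n, ‖pr (fun n => D n + E n) n - pr D n - (∑ i ∈ range n, E i) * pr (fun n => D n + E n) n‖ ≤
      2 * β * (∑ i ∈ range n, a i) * Real.exp (∑ i ∈ range n, a i) := by
    intro n
    induction n with
    | zero => simp [pr]
    | succ n ih =>
      have e : pr (fun n => D n + E n) (n + 1) - pr D (n + 1) -
          (∑ i ∈ range (n + 1), E i) * pr (fun n => D n + E n) (n + 1) =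
          (1 + D n) * (pr (fun n => D n + E n) n - pr D n - (∑ i ∈ range n, E i) * pr (fun n => D n + E n) n)
          + D n * (∑ i ∈ range n, E i) * pr (fun n => D n + E n) n
          - (∑ i ∈ range (n + 1), E i) * (D n + E n) * pr (fun n => D n + E n) n := by
        rw [pr, pr, sum_range_succ]
        noncomm_ring
      rw [e]
      have t1 : ‖(1 + D n) * (pr (fun n => D n + E n) n - pr D n - (∑ i ∈ range n, E i) * pr (fun n => D n + E n) n)‖
          ≤ Real.exp (a n) * (2 * β * (∑ i ∈ range n, a i) * Real.exp (∑ i ∈ range n, a i)) :=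
        (norm_mul_le _ _).trans (mul_le_mul (norm_one_add_le (hD n)) ih (norm_nonneg _) (Real.exp_pos _).le)
      have t2 : ‖D n * (∑ i ∈ range n, E i) * pr (fun n => D n + E n) n‖ ≤
          a n * β * Real.exp (∑ i ∈ range n, a i) := by
        refine (norm_mul_le _ _).trans (mul_le_mul ?_ (hP n) (norm_nonneg _) (by have := ha0 n; positivity))
        exact (norm_mul_le _ _).trans (mul_le_mul (hD n) (hβ n) (norm_nonneg _) (ha0 n))
      have t3 : ‖(∑ i ∈ range (n + 1), E i) * (D n + E n) * pr (fun n => D n + E n) n‖ ≤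
          β * a n * Real.exp (∑ i ∈ range n, a i) := by
        refine (norm_mul_le _ _).trans (mul_le_mul ?_ (hP n) (norm_nonneg _) (by have := ha0 n; positivity))
        exact (norm_mul_le _ _).trans (mul_le_mul (hβ _) (hX n) (norm_nonneg _) hβ0)
      have t4 : Real.exp (∑ i ∈ range n, a i) ≤ Real.exp (∑ i ∈ range n, a i) * Real.exp (a n) := by
        have := Real.one_le_exp (ha0 n)
        have h2 := Real.exp_pos (∑ i ∈ range n, a i)
        nlinarith
      rw [sum_range_succ a n, Real.exp_add]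
      have hv := hV0 n
      have han := ha0 n
      have hb2 : 0 ≤ 2 * β * a n := by positivity
      calc _ ≤ Real.exp (a n) * (2 * β * (∑ i ∈ range n, a i) * Real.exp (∑ i ∈ range n, a i))
            + a n * β * Real.exp (∑ i ∈ range n, a i) + β * a n * Real.exp (∑ i ∈ range n, a i) := by
            refine (norm_sub_le _ _).trans (add_le_add ((norm_add_le _ _).trans (add_le_add t1 t2)) t3)
        _ = Real.exp (a n) * (2 * β * (∑ i ∈ range n, a i) * Real.exp (∑ i ∈ range n, a i))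
            + 2 * β * a n * Real.exp (∑ i ∈ range n, a i) := by ring
        _ ≤ Real.exp (a n) * (2 * β * (∑ i ∈ range n, a i) * Real.exp (∑ i ∈ range n, a i))
            + 2 * β * a n * (Real.exp (∑ i ∈ range n, a i) * Real.exp (a n)) := by
            gcongr
        _ = _ := by ring
  have h1 := key n
  set V := ∑ i ∈ range n, a i with hV
  have hVn : 0 ≤ V := hV0 n
  have h2 : ‖(∑ i ∈ range n, E i) * pr (fun n => D n + E n) n‖ ≤ β * Real.exp V :=
    (norm_mul_le _ _).trans (mul_le_mul (hβ n) (hP n) (norm_nonneg _) hβ0)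
  have h3 : ‖pr (fun n => D n + E n) n - pr D n‖ ≤ 2 * β * V * Real.exp V + β * Real.exp V := by
    calc _ = ‖(pr (fun n => D n + E n) n - pr D n - (∑ i ∈ range n, E i) * pr (fun n => D n + E n) n) +
          (∑ i ∈ range n, E i) * pr (fun n => D n + E n) n‖ := by rw [sub_add_cancel]
      _ ≤ _ := (norm_add_le _ _).trans (add_le_add h1 h2)
  refine h3.trans ?_
  have h4 : 1 + 2 * V ≤ Real.exp (2 * V) := by have := Real.add_one_le_exp (2 * V); linarith
  calc 2 * β * V * Real.exp V + β * Real.exp V = β * Real.exp V * (1 + 2 * V) := by ring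
    _ ≤ β * Real.exp V * Real.exp (2 * V) := by gcongr
    _ = β * Real.exp (3 * V) := by rw [mul_assoc, ← Real.exp_add]; ring_nf

end pert

/-! ### scalar products -/

lemma scal (x : ℕ → ℝ) (hx : ∀ n, |x n| ≤ 1) (n : ℕ) :
    |∏ i ∈ range n, (1 + x i) - Real.exp (∑ i ∈ range n, x i)| ≤
      (∑ i ∈ range n, x i ^ 2) * Real.exp (∑ i ∈ range n, |x i|) := by
  induction n with
  | zero => simp
  | succ n ih =>
    rw [prod_range_succ, sum_range_succ, sum_range_succ, sum_range_succ, Real.exp_add, Real.exp_add]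
    set p := ∏ i ∈ range n, (1 + x i)
    set s := ∑ i ∈ range n, x i
    set q := ∑ i ∈ range n, x i ^ 2 with hq
    set t := ∑ i ∈ range n, |x i| with ht
    have hq0 : 0 ≤ q := sum_nonneg fun i _ => sq_nonneg _
    have hst : s ≤ t := sum_le_sum fun i _ => le_abs_self _
    have h1 : |1 + x n| ≤ Real.exp |x n| := by
      calc |1 + x n| ≤ |(1:ℝ)| + |x n| := abs_add_le _ _
        _ = |x n| + 1 := by rw [abs_one]; ring
        _ ≤ _ := Real.add_one_le_exp _
    have h2 : |1 + x n - Real.exp (x n)| ≤ x n ^ 2 := by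
      have := Real.abs_exp_sub_one_sub_id_le (hx n)
      rw [abs_sub_comm] at this
      calc |1 + x n - Real.exp (x n)| = |x n - (Real.exp (x n) - 1)| := by ring_nf
        _ ≤ x n ^ 2 := this
    have e : p * (1 + x n) - Real.exp s * Real.exp (x n) =
        (1 + x n) * (p - Real.exp s) + (1 + x n - Real.exp (x n)) * Real.exp s := by ring
    rw [e]
    have h3 : Real.exp s ≤ Real.exp t * Real.exp |x n| := by
      rw [← Real.exp_add]
      apply Real.exp_le_exp.2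
      have := abs_nonneg (x n)
      linarith
    calc |(1 + x n) * (p - Real.exp s) + (1 + x n - Real.exp (x n)) * Real.exp s| ≤
        |1 + x n| * |p - Real.exp s| + |1 + x n - Real.exp (x n)| * Real.exp s := by
          refine (abs_add_le _ _).trans ?_
          rw [abs_mul, abs_mul, abs_of_pos (Real.exp_pos s)]
      _ ≤ Real.exp |x n| * (q * Real.exp t) + x n ^ 2 * (Real.exp t * Real.exp |x n|) := by
          gcongr
      _ = _ := by ring

lemma sum_inv_sq (n : ℕ) : ∑ i ∈ range n, (1 / ((i:ℝ) + 1)) ^ 2 ≤ (2:ℝ) - 1 / (n:ℝ) := by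
  induction n with
  | zero => simp
  | succ n ih =>
    rw [sum_range_succ]
    by_cases hn : n = 0
    · subst hn; norm_num
    have hn0 : (0:ℝ) < n := by exact_mod_cast Nat.pos_of_ne_zero hn
    have : (1 / ((n:ℝ) + 1)) ^ 2 ≤ 1 / n - 1 / ((n:ℝ) + 1) := by
      rw [div_sub_div _ _ hn0.ne' (by positivity), div_pow, div_le_div_iff₀ (by positivity) (by positivity)]
      nlinarith
    push_cast
    linarith

/-! ### trigonometric sums -/

lemma abel (f : ℕ → ℂ) (F : ℝ) (a : ℕ) (hF : ∀ n, ‖∑ i ∈ range n, f (a + i)‖ ≤ F) (n : ℕ) :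
    ‖∑ i ∈ range n, f (a + i) / ((a : ℂ) + i + 1)‖ ≤ F / (a + 1) := by
  have key : ‖∑ i ∈ range n, f (a + i) / ((a : ℂ) + i + 1) - (∑ i ∈ range n, f (a + i)) / ((a:ℂ) + n + 1)‖ ≤
      F * (1 / ((a:ℝ) + 1) - 1 / ((a:ℝ) + n + 1)) := by
    induction n with
    | zero => simp
    | succ n ih =>
      have c1 : ((a:ℂ) + n + 1) ≠ 0 := by exact_mod_cast (show (a + n + 1 : ℕ) ≠ 0 by omega)
      have c2 : ((a:ℂ) + n + 1 + 1) ≠ 0 := by exact_mod_cast (show (a + n + 1 + 1 : ℕ) ≠ 0 by omega)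
      have e : ∑ i ∈ range (n + 1), f (a + i) / ((a : ℂ) + i + 1) -
          (∑ i ∈ range (n + 1), f (a + i)) / ((a:ℂ) + (n + 1 : ℕ) + 1) =
          (∑ i ∈ range n, f (a + i) / ((a : ℂ) + i + 1) - (∑ i ∈ range n, f (a + i)) / ((a:ℂ) + n + 1)) +
          (∑ i ∈ range (n + 1), f (a + i)) * (((1 / ((a:ℝ) + n + 1) - 1 / ((a:ℝ) + n + 1 + 1) : ℝ)) : ℂ) := by
        rw [sum_range_succ, sum_range_succ]
        push_cast
        have c3 : ((a:ℂ) + (n + 1) + 1) ≠ 0 := by rw [← add_assoc]; exact c2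
        field_simp
        ring
      rw [e]
      have h1 : 0 ≤ 1 / ((a:ℝ) + n + 1) - 1 / ((a:ℝ) + n + 1 + 1) := by
        rw [sub_nonneg]
        exact one_div_le_one_div_of_le (by positivity) (by linarith)
      refine (norm_add_le _ _).trans ?_
      rw [norm_mul, Complex.norm_real, Real.norm_of_nonneg h1]
      have h2 := mul_le_mul_of_nonneg_right (hF (n + 1)) h1
      push_cast
      rw [← add_assoc]
      linarith
  have h1 : ‖(∑ i ∈ range n, f (a + i)) / ((a:ℂ) + n + 1)‖ ≤ F * (1 / ((a:ℝ) + n + 1)) := by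
    rw [norm_div]
    have : ‖((a:ℂ) + n + 1)‖ = (a:ℝ) + n + 1 := by
      have : ((a:ℂ) + n + 1) = ((a + n + 1 : ℝ) : ℂ) := by push_cast; ring
      rw [this, Complex.norm_real, Real.norm_of_nonneg (by positivity)]
    rw [this, div_eq_mul_one_div]
    exact mul_le_mul_of_nonneg_right (hF n) (by positivity)
  calc ‖∑ i ∈ range n, f (a + i) / ((a : ℂ) + i + 1)‖ =
      ‖(∑ i ∈ range n, f (a + i) / ((a : ℂ) + i + 1) - (∑ i ∈ range n, f (a + i)) / ((a:ℂ) + n + 1)) +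
        (∑ i ∈ range n, f (a + i)) / ((a:ℂ) + n + 1)‖ := by rw [sub_add_cancel]
    _ ≤ F * (1 / ((a:ℝ) + 1) - 1 / ((a:ℝ) + n + 1)) + F * (1 / ((a:ℝ) + n + 1)) :=
        (norm_add_le _ _).trans (add_le_add key h1)
    _ = F / (a + 1) := by ring

lemma geom (z : ℂ) (hz : ‖z‖ = 1) (hz1 : z ≠ 1) (a n : ℕ) :
    ‖∑ i ∈ range n, z ^ (a + i + 1)‖ ≤ 2 / ‖z - 1‖ := by
  have h0 : 0 < ‖z - 1‖ := norm_pos_iff.2 (sub_ne_zero.2 hz1)
  have h1 : (∑ i ∈ range n, z ^ (a + i + 1)) * (z - 1) = z ^ (a + 1) * (z ^ n - 1) := by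
    rw [← geom_sum_mul, ← mul_assoc, mul_sum]
    congr 1
    apply sum_congr rfl
    intro i _
    rw [← pow_add]
    congr 1
    ring
  rw [le_div_iff₀ h0, ← norm_mul, h1, norm_mul, norm_pow, hz, one_pow, one_mul]
  calc ‖z ^ n - 1‖ ≤ ‖z ^ n‖ + ‖(1:ℂ)‖ := norm_sub_le _ _
    _ = 2 := by rw [norm_pow, hz, one_pow, norm_one]; norm_num

lemma pow_sub_one (z : ℂ) (hz : ‖z‖ = 1) (k : ℕ) : ‖z ^ k - 1‖ ≤ k * ‖z - 1‖ := by
  induction k with
  | zero => simp
  | succ k ih =>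
    have : z ^ (k + 1) - 1 = z * (z ^ k - 1) + (z - 1) := by ring
    rw [this]
    refine (norm_add_le _ _).trans ?_
    rw [norm_mul, hz, one_mul]
    push_cast
    linarith

lemma re_sum (z : ℂ) (hz : ‖z‖ = 1) (hz1 : 1 ≤ ‖z - 1‖) (n : ℕ) :
    |∑ i ∈ range n, (z ^ (i + 1)).re / ((i:ℝ) + 1)| ≤ 2 := by
  have hne : z ≠ 1 := by
    intro h
    rw [h, sub_self, norm_zero] at hz1
    linarith
  have h := abel (fun k => z ^ (k + 1)) (2 / ‖z - 1‖) 0 (fun n => geom z hz hne 0 n) n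
  have h2 : (∑ i ∈ range n, z ^ (0 + i + 1) / (((0:ℕ):ℂ) + i + 1)).re =
      ∑ i ∈ range n, (z ^ (i + 1)).re / ((i:ℝ) + 1) := by
    rw [Complex.re_sum]
    apply sum_congr rfl
    intro i _
    have : (((0:ℕ):ℂ) + i + 1) = ((i + 1 : ℝ) : ℂ) := by push_cast; ring
    rw [this, Complex.div_ofReal_re, zero_add]
  rw [← h2]
  refine (Complex.abs_re_le_norm _).trans (h.trans ?_)
  have : 2 / ‖z - 1‖ ≤ 2 := by
    rw [div_le_iff₀ (by linarith)]; linarith
  simpa using this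

lemma im_sum (z : ℂ) (hz : ‖z‖ = 1) (n : ℕ) :
    |∑ i ∈ range n, (z ^ (i + 1)).im / ((i:ℝ) + 1)| ≤ 3 := by
  by_cases hne : z = 1
  · subst hne; simp
  set d : ℝ := ‖z - 1‖ with hd
  have hd0 : 0 < d := norm_pos_iff.2 (sub_ne_zero.2 hne)
  obtain ⟨M, hM⟩ : ∃ M : ℕ, M = ⌊1 / d⌋₊ := ⟨_, rfl⟩
  have hM1 : (M:ℝ) ≤ 1 / d := by rw [hM]; exact Nat.floor_le (by positivity)
  have hM2 : 1 / d < M + 1 := by rw [hM]; exact Nat.lt_floor_add_one _
  have hMd : (M:ℝ) * d ≤ 1 := by rwa [le_div_iff₀ hd0] at hM1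
  have small : ∀ k : ℕ, k ≤ M → |∑ i ∈ range k, (z ^ (i + 1)).im / ((i:ℝ) + 1)| ≤ 1 := by
    intro k hk
    calc |∑ i ∈ range k, (z ^ (i + 1)).im / ((i:ℝ) + 1)| ≤ ∑ i ∈ range k, |(z ^ (i + 1)).im / ((i:ℝ) + 1)| :=
          abs_sum_le_sum_abs _ _
      _ ≤ ∑ i ∈ range k, d := by
          apply sum_le_sum
          intro i _
          have hi : (0:ℝ) < (i:ℝ) + 1 := by positivity
          rw [abs_div, abs_of_pos hi, div_le_iff₀ hi]
          have h1 : (z ^ (i + 1)).im = (z ^ (i + 1) - 1).im := by simp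
          rw [h1]
          refine (Complex.abs_im_le_norm _).trans ((pow_sub_one z hz (i + 1)).trans (le_of_eq ?_))
          push_cast; ring
      _ = k * d := by rw [sum_const, card_range, nsmul_eq_mul]
      _ ≤ M * d := by gcongr
      _ ≤ 1 := hMd
  by_cases hn : n ≤ M
  · exact (small n hn).trans (by norm_num)
  obtain ⟨k, rfl⟩ : ∃ k, n = M + k := ⟨n - M, by omega⟩
  rw [sum_range_add]
  have h := abel (fun k => z ^ (k + 1)) (2 / ‖z - 1‖) M (fun n => geom z hz hne M n) k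
  have h2 : (∑ i ∈ range k, z ^ (M + i + 1) / ((M:ℂ) + i + 1)).im =
      ∑ i ∈ range k, (z ^ (M + i + 1)).im / (((M + i : ℕ):ℝ) + 1) := by
    rw [Complex.im_sum]
    apply sum_congr rfl
    intro i _
    have : ((M:ℂ) + i + 1) = (((M + i : ℕ) + 1 : ℝ) : ℂ) := by push_cast; ring
    rw [this, Complex.div_ofReal_im]
  have h3 : |∑ i ∈ range k, (z ^ (M + i + 1)).im / (((M + i : ℕ):ℝ) + 1)| ≤ 2 := by
    rw [← h2]
    refine (Complex.abs_im_le_norm _).trans (h.trans ?_)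
    rw [div_div, ← hd, div_le_iff₀ (by positivity)]
    have : 1 ≤ d * (M + 1) := by
      rw [div_lt_iff₀ hd0] at hM2
      linarith
    linarith
  calc _ ≤ |∑ i ∈ range M, (z ^ (i + 1)).im / ((i:ℝ) + 1)| +
      |∑ i ∈ range k, (z ^ (M + i + 1)).im / (((M + i : ℕ):ℝ) + 1)| := abs_add_le _ _
    _ ≤ 1 + 2 := add_le_add (small M le_rfl) h3
    _ = 3 := by norm_num

lemma sin_sum (x : ℝ) (n : ℕ) : |∑ i ∈ range n, Real.sin (x * ((i:ℝ) + 1)) / ((i:ℝ) + 1)| ≤ 3 := by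
  have h := im_sum (Complex.exp (x * Complex.I)) (Complex.norm_exp_ofReal_mul_I x) n
  have e : ∀ i : ℕ, (Complex.exp (x * Complex.I) ^ (i + 1)).im = Real.sin (x * ((i:ℝ) + 1)) := by
    intro i
    rw [← Complex.exp_nat_mul]
    have : ((i + 1 : ℕ) : ℂ) * (x * Complex.I) = ((x * ((i:ℝ) + 1) : ℝ) : ℂ) * Complex.I := by
      push_cast; ring
    rw [this, Complex.exp_ofReal_mul_I_im]
  simp_rw [e] at h
  exact h

lemma cos_sum (x : ℝ) (hx : Real.cos x ≤ 0) (n : ℕ) :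
    |∑ i ∈ range n, Real.cos (x * ((i:ℝ) + 1)) / ((i:ℝ) + 1)| ≤ 2 := by
  have h1 : 1 ≤ ‖Complex.exp (x * Complex.I) - 1‖ := by
    have h2 := Complex.abs_re_le_norm (Complex.exp (x * Complex.I) - 1)
    rw [Complex.sub_re, Complex.exp_ofReal_mul_I_re, Complex.one_re] at h2
    have h3 : 1 ≤ |Real.cos x - 1| := by
      rw [abs_sub_comm]
      refine le_trans ?_ (le_abs_self _)
      linarith
    linarith
  have h := re_sum (Complex.exp (x * Complex.I)) (Complex.norm_exp_ofReal_mul_I x) h1 n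
  have e : ∀ i : ℕ, (Complex.exp (x * Complex.I) ^ (i + 1)).re = Real.cos (x * ((i:ℝ) + 1)) := by
    intro i
    rw [← Complex.exp_nat_mul]
    have : ((i + 1 : ℕ) : ℂ) * (x * Complex.I) = ((x * ((i:ℝ) + 1) : ℝ) : ℂ) * Complex.I := by
      push_cast; ring
    rw [this, Complex.exp_ofReal_mul_I_re]
  simp_rw [e] at h
  exact h

/-! ### matrices -/

/-- reversal -/
def flip (X : M2) : M2 := !![X 1 1, X 0 1; X 1 0, X 0 0]

lemma flip_mul (X Y : M2) : flip (X * Y) = flip Y * flip X := by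
  ext i j
  fin_cases i <;> fin_cases j <;> simp [flip, Matrix.mul_apply, Fin.sum_univ_two] <;> ring

lemma flip_one : flip (1 : M2) = 1 := by
  ext i j
  fin_cases i <;> fin_cases j <;> simp [flip]

lemma ns_flip (X : M2) : ns (flip X) = ns X := by
  simp [ns, flip]; ring

lemma rot_zero : rot 0 = 1 := by
  ext i j
  fin_cases i <;> fin_cases j <;> simp [rot]

lemma rot_add (a b : ℝ) : rot (a + b) = rot a * rot b := by
  ext i j
  fin_cases i <;> fin_cases j <;> simp [rot, Matrix.mul_apply, Fin.sum_univ_two, Real.cos_add, Real.sin_add] <;> ring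

lemma ns_rot_mul (a : ℝ) (X : M2) : ns (rot a * X) = ns X := by
  have h := Real.sin_sq_add_cos_sq a
  simp only [ns, rot, Matrix.mul_apply, Fin.sum_univ_two, Matrix.of_apply, Matrix.cons_val', Matrix.cons_val_zero,
    Matrix.cons_val_one, Matrix.cons_val_fin_one]
  have h2 : Real.cos a ^ 2 = 1 - Real.sin a ^ 2 := by linarith
  ring_nf
  rw [h2]
  ring

lemma ns_mul_rot (a : ℝ) (X : M2) : ns (X * rot a) = ns X := by
  have h := Real.sin_sq_add_cos_sq a
  simp only [ns, rot, Matrix.mul_apply, Fin.sum_univ_two, Matrix.of_apply, Matrix.cons_val', Matrix.cons_val_zero,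
    Matrix.cons_val_one, Matrix.cons_val_fin_one]
  have h2 : Real.cos a ^ 2 = 1 - Real.sin a ^ 2 := by linarith
  ring_nf
  rw [h2]
  ring

/-- nilpotent generator in the rotating frame -/
noncomputable def AA (θ b a : ℝ) : M2 :=
  !![-(b / Real.sin θ) * (Real.sin a * Real.cos a), -(b / Real.sin θ) * Real.cos a ^ 2;
    (b / Real.sin θ) * Real.sin a ^ 2, (b / Real.sin θ) * (Real.sin a * Real.cos a)]

lemma det_one_add_AA (θ b a : ℝ) : (1 + AA θ b a).det = 1 := by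
  rw [Matrix.det_fin_two]
  simp [AA]
  ring

lemma right_step (θ b a : ℝ) : st θ b * rot a = rot (a + θ) * (1 + AA θ b (a + θ)) := by
  have e : st θ b * rot a = !![1, -(b / Real.sin θ); 0, 1] * rot (a + θ) := by
    rw [st, Matrix.mul_assoc, ← rot_add, add_comm]
  rw [e]
  set x := a + θ
  have h := Real.sin_sq_add_cos_sq x
  have h2 : Real.cos x ^ 2 = 1 - Real.sin x ^ 2 := by linarith
  have h3 : Real.cos x ^ 3 = (1 - Real.sin x ^ 2) * Real.cos x := by rw [← h2]; ring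
  ext i j
  fin_cases i <;> fin_cases j <;>
    simp [AA, rot, Matrix.mul_apply, Fin.sum_univ_two, Matrix.add_apply]
  · linear_combination ((b / Real.sin θ) * Real.sin x) * h
  · linear_combination ((b / Real.sin θ) * Real.cos x) * h
  · ring
  · ring

lemma left_step (θ b a : ℝ) : rot a * st θ b = flip (1 + AA θ b a) * rot (a + θ) := by
  have e : rot a * st θ b = (rot a * !![1, -(b / Real.sin θ); 0, 1]) * rot θ := by
    rw [st, ← Matrix.mul_assoc]
  rw [e, rot_add, ← Matrix.mul_assoc]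
  congr 1
  have h := Real.sin_sq_add_cos_sq a
  ext i j
  fin_cases i <;> fin_cases j <;>
    simp [AA, flip, rot, Matrix.mul_apply, Fin.sum_univ_two, Matrix.add_apply]
  · ring
  · linear_combination ((b / Real.sin θ) * Real.cos a) * h
  · ring
  · linear_combination ((b / Real.sin θ) * Real.sin a) * h

/-- the product in the rotating frame -/
noncomputable def GG (θ φ η : ℝ) (n : ℕ) : M2 :=
  pr (fun i : ℕ => AA θ (η * wv φ (i + 1)) (((i:ℝ) + 1) * θ)) n

lemma GG_det (θ φ η : ℝ) (n : ℕ) : (GG θ φ η n).det = 1 := by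
  induction n with
  | zero => simp [GG, pr]
  | succ n ih =>
    rw [GG, pr, Matrix.det_mul, det_one_add_AA, one_mul]
    exact ih

/-- right half of the word -/
noncomputable def rw' (φ η : ℝ) (n : ℕ) : List ℝ := (List.range n).map (fun i => η * wv φ (i + 1))

/-- left half of the word -/
noncomputable def lw' (φ η : ℝ) (n : ℕ) : List ℝ := (List.range n).map (fun i => η * wv φ (n - i))

lemma lw_succ (φ η : ℝ) (n : ℕ) : lw' φ η (n + 1) = η * wv φ (n + 1) :: lw' φ η n := by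
  unfold lw'
  rw [List.range_succ_eq_map, List.map_cons, List.map_map]
  simp only [Nat.sub_zero, List.cons.injEq, true_and]
  apply List.map_congr_left
  intro i _
  simp only [Function.comp_apply]
  congr 2
  omega

lemma Th_rw (θ φ η : ℝ) (n : ℕ) : Th θ (rw' φ η n) = rot (n * θ) * GG θ φ η n := by
  induction n with
  | zero => simp [rw', Th, GG, pr, rot_zero]
  | succ n ih =>
    have e : rw' φ η (n + 1) = rw' φ η n ++ [η * wv φ (n + 1)] := by
      unfold rw'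
      rw [List.range_succ, List.map_append]
      rfl
    rw [e, Th_append, ih]
    have e2 : Th θ [η * wv φ (n + 1)] = st θ (η * wv φ (n + 1)) := by simp [Th]
    rw [e2, ← Matrix.mul_assoc, right_step]
    have e3 : (n : ℝ) * θ + θ = ((n:ℝ) + 1) * θ := by ring
    rw [e3]
    push_cast
    rw [Matrix.mul_assoc]
    rfl

lemma Th_lw (θ φ η : ℝ) (n : ℕ) : Th θ (lw' φ η n) = rot (-θ) * flip (GG θ φ η n) * rot (((n:ℝ) + 1) * θ) := by
  induction n with
  | zero =>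
    simp only [lw', List.range_zero, List.map_nil, Th, GG, pr, flip_one, mul_one, Nat.cast_zero, zero_add, one_mul]
    rw [← rot_add, neg_add_cancel, rot_zero]
  | succ n ih =>
    rw [lw_succ, Th, ih, Matrix.mul_assoc, left_step]
    have e3 : ((n : ℝ) + 1) * θ + θ = (((n + 1 : ℕ) : ℝ) + 1) * θ := by push_cast; ring
    rw [e3]
    have e4 : flip (GG θ φ η (n + 1)) = flip (GG θ φ η n) * flip (1 + AA θ (η * wv φ (n + 1)) (((n:ℝ) + 1) * θ)) := by
      rw [← flip_mul]; rfl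
    rw [e4]
    simp only [Matrix.mul_assoc]

lemma qf_eq0 (φ η : ℝ) (L : ℕ) :
    qf φ η L = (List.range (2 * L + 1)).map (fun i : ℕ => η * wv φ ((i:ℤ) - L).natAbs) := by
  unfold qf
  simp only [bind_pure_comp, List.map_eq_map, List.map_map]
  rfl

lemma qf_eq (φ η : ℝ) (L : ℕ) : qf φ η L = lw' φ η L ++ (0 :: rw' φ η L) := by
  rw [qf_eq0]
  have e : 2 * L + 1 = L + (L + 1) := by ring
  rw [e, List.range_add, List.map_append]
  congr 1
  · unfold lw'
    apply List.map_congr_left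
    intro i hi
    have hi' : i < L := List.mem_range.1 hi
    congr 2
    omega
  · rw [List.range_succ_eq_map, List.map_cons, List.map_cons, List.map_map, List.map_map]
    unfold rw'
    congr 1
    · have : ((((L + 0 : ℕ) : ℤ) - L).natAbs) = 0 := by omega
      rw [this]
      simp [wv]
    · apply List.map_congr_left
      intro i _
      simp only [Function.comp_apply]
      congr 2
      omega

lemma Th_qf (θ φ η : ℝ) (L : ℕ) : Th θ (qf φ η L) =
    rot (L * θ) * (GG θ φ η L * flip (GG θ φ η L)) * rot (((L:ℝ) + 1) * θ) := by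
  rw [qf_eq, Th_append, Th, Th_rw, Th_lw]
  have e : st θ 0 = rot θ := by
    ext i j
    fin_cases i <;> fin_cases j <;> simp [st, rot, Matrix.mul_apply, Fin.sum_univ_two]
  rw [e]
  have e2 : rot θ * rot (-θ) = 1 := by rw [← rot_add, add_neg_cancel, rot_zero]
  calc rot (L * θ) * GG θ φ η L * rot θ * (rot (-θ) * flip (GG θ φ η L) * rot (((L:ℝ) + 1) * θ)) =
      rot (L * θ) * GG θ φ η L * (rot θ * rot (-θ)) * flip (GG θ φ η L) * rot (((L:ℝ) + 1) * θ) := by
        simp only [Matrix.mul_assoc]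
    _ = _ := by rw [e2]; simp only [Matrix.mul_assoc, Matrix.one_mul]

lemma Th_take (θ φ η : ℝ) (L : ℕ) : ns (Th θ ((qf φ η L).take L)) = ns (GG θ φ η L) := by
  have e : (qf φ η L).take L = lw' φ η L := by
    rw [qf_eq]
    have : L = (lw' φ η L).length := by simp [lw']
    conv_lhs => rw [this]
    rw [← this]
    exact List.take_left' this.symm
  rw [e, Th_lw, ns_mul_rot, ns_rot_mul, ns_flip]

lemma mul_flip (X : M2) (h : X.det = 1) : X * flip X =
    1 + !![2 * (X 0 1 * X 1 0), 2 * (X 0 0 * X 0 1); 2 * (X 1 0 * X 1 1), 2 * (X 0 1 * X 1 0)] := by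
  rw [Matrix.det_fin_two] at h
  ext i j
  fin_cases i <;> fin_cases j <;>
    simp [flip, Matrix.mul_apply, Fin.sum_univ_two, Matrix.add_apply] <;> linarith

lemma rot_conj_entry (a b : ℝ) (K : M2) {k : ℝ} (hK : ∀ i j, |K i j| ≤ k) (i j : Fin 2) :
    |(rot a * K * rot b) i j| ≤ 4 * k := by
  have hs : ∀ x y z : ℝ, |x| ≤ 1 → |z| ≤ 1 → |y| ≤ k → |x * y * z| ≤ k := by
    intro x y z hx hz hy
    rw [abs_mul, abs_mul]
    have hk : 0 ≤ k := (abs_nonneg _).trans hy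
    calc |x| * |y| * |z| ≤ 1 * k * 1 := by gcongr
      _ = k := by ring
  have hr : ∀ (t : ℝ) (i j : Fin 2), |rot t i j| ≤ 1 := by
    intro t i j
    fin_cases i <;> fin_cases j <;> simp [rot, Real.abs_cos_le_one, Real.abs_sin_le_one]
  have e : (rot a * K * rot b) i j = rot a i 0 * K 0 0 * rot b 0 j + rot a i 1 * K 1 0 * rot b 0 j +
      rot a i 0 * K 0 1 * rot b 1 j + rot a i 1 * K 1 1 * rot b 1 j := by
    simp only [Matrix.mul_apply, Fin.sum_univ_two]
    ring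
  rw [e]
  have h1 := hs _ _ _ (hr a i 0) (hr b 0 j) (hK 0 0)
  have h2 := hs _ _ _ (hr a i 1) (hr b 0 j) (hK 1 0)
  have h3 := hs _ _ _ (hr a i 0) (hr b 1 j) (hK 0 1)
  have h4 := hs _ _ _ (hr a i 1) (hr b 1 j) (hK 1 1)
  rw [abs_le] at *
  constructor <;> linarith

/-! ### norms -/

section norms

attribute [local instance] Matrix.linftyOpNormedRing Matrix.linftyOpNormedAddCommGroup

lemma entry_le (A : M2) (i j : Fin 2) : |A i j| ≤ ‖A‖ := by
  rw [Matrix.linfty_opNorm_def]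
  have h1 : ‖A i j‖₊ ≤ ∑ j, ‖A i j‖₊ := Finset.single_le_sum (f := fun j => ‖A i j‖₊) (fun _ _ => zero_le) (Finset.mem_univ j)
  have h2 : ∑ j, ‖A i j‖₊ ≤ (Finset.univ : Finset (Fin 2)).sup fun i : Fin 2 => ∑ j : Fin 2, ‖A i j‖₊ :=
    Finset.le_sup (f := fun i : Fin 2 => ∑ j : Fin 2, ‖A i j‖₊) (Finset.mem_univ i)
  exact_mod_cast h1.trans h2

lemma norm_le_entries (A : M2) : ‖A‖ ≤ |A 0 0| + |A 0 1| + |A 1 0| + |A 1 1| := by
  rw [Matrix.linfty_opNorm_def]
  have h : ((Finset.univ : Finset (Fin 2)).sup fun i : Fin 2 => ∑ j : Fin 2, ‖A i j‖₊) ≤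
      ‖A 0 0‖₊ + ‖A 0 1‖₊ + ‖A 1 0‖₊ + ‖A 1 1‖₊ := by
    apply Finset.sup_le
    intro i _
    fin_cases i
    · simp only [Fin.sum_univ_two, Fin.zero_eta]
      rw [add_assoc]
      exact le_self_add
    · simp only [Fin.sum_univ_two, Fin.mk_one]
      have : ‖A 0 0‖₊ + ‖A 0 1‖₊ + ‖A 1 0‖₊ + ‖A 1 1‖₊ = (‖A 1 0‖₊ + ‖A 1 1‖₊) + (‖A 0 0‖₊ + ‖A 0 1‖₊) := by ring
      rw [this]
      exact le_self_add
  exact_mod_cast h

/-- diagonal part -/
noncomputable def al (θ φ η : ℝ) (i : ℕ) : ℝ :=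
  -(η / (4 * Real.sin θ)) * (Real.cos (2 * (θ - φ) * ((i:ℝ) + 1)) / ((i:ℝ) + 1))

noncomputable def e0 (θ φ η : ℝ) (i : ℕ) : ℝ :=
  (η / (4 * Real.sin θ)) * (Real.cos (2 * (θ + φ) * ((i:ℝ) + 1)) / ((i:ℝ) + 1))

noncomputable def e1 (θ φ η : ℝ) (i : ℕ) : ℝ :=
  -(η / (2 * Real.sin θ)) * (Real.sin (2 * φ * ((i:ℝ) + 1)) / ((i:ℝ) + 1) +
    1 / 2 * (Real.sin (2 * (φ + θ) * ((i:ℝ) + 1)) / ((i:ℝ) + 1)) +
    1 / 2 * (Real.sin (2 * (φ - θ) * ((i:ℝ) + 1)) / ((i:ℝ) + 1)))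

noncomputable def e2 (θ φ η : ℝ) (i : ℕ) : ℝ :=
  (η / (2 * Real.sin θ)) * (Real.sin (2 * φ * ((i:ℝ) + 1)) / ((i:ℝ) + 1) -
    1 / 2 * (Real.sin (2 * (φ + θ) * ((i:ℝ) + 1)) / ((i:ℝ) + 1)) -
    1 / 2 * (Real.sin (2 * (φ - θ) * ((i:ℝ) + 1)) / ((i:ℝ) + 1)))

noncomputable def DD (θ φ η : ℝ) (i : ℕ) : M2 := !![al θ φ η i, 0; 0, -al θ φ η i]

noncomputable def EE (θ φ η : ℝ) (i : ℕ) : M2 := !![e0 θ φ η i, e1 θ φ η i; e2 θ φ η i, -e0 θ φ η i]

lemma AA_eq (θ φ η : ℝ) (i : ℕ) :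
    AA θ (η * wv φ (i + 1)) (((i:ℝ) + 1) * θ) = DD θ φ η i + EE θ φ η i := by
  have hx : ((i:ℝ) + 1) ≠ 0 := by positivity
  set x : ℝ := (i:ℝ) + 1 with hxdef
  set a : ℝ := x * θ with ha
  set c : ℝ := 2 * φ * x with hc
  have hw : wv φ (i + 1) = Real.sin c / x := by
    unfold wv; push_cast; rfl
  have h1 : Real.cos (2 * (θ - φ) * x) = Real.cos (2 * a) * Real.cos c + Real.sin (2 * a) * Real.sin c := by
    rw [show 2 * (θ - φ) * x = 2 * a - c by rw [ha, hc]; ring, Real.cos_sub]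
  have h2 : Real.cos (2 * (θ + φ) * x) = Real.cos (2 * a) * Real.cos c - Real.sin (2 * a) * Real.sin c := by
    rw [show 2 * (θ + φ) * x = 2 * a + c by rw [ha, hc]; ring, Real.cos_add]
  have h3 : Real.sin (2 * (φ + θ) * x) = Real.sin c * Real.cos (2 * a) + Real.cos c * Real.sin (2 * a) := by
    rw [show 2 * (φ + θ) * x = c + 2 * a by rw [ha, hc]; ring, Real.sin_add]
  have h4 : Real.sin (2 * (φ - θ) * x) = Real.sin c * Real.cos (2 * a) - Real.cos c * Real.sin (2 * a) := by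
    rw [show 2 * (φ - θ) * x = c - 2 * a by rw [ha, hc]; ring, Real.sin_sub]
  have hs := Real.sin_sq_add_cos_sq a
  rw [hw]
  by_cases hθ : Real.sin θ = 0
  · ext i' j'
    fin_cases i' <;> fin_cases j' <;> simp [AA, DD, EE, al, e0, e1, e2, hθ]
  ext i' j'
  fin_cases i' <;> fin_cases j' <;>
    simp only [AA, DD, EE, al, e0, e1, e2, Matrix.of_apply, Matrix.cons_val', Matrix.cons_val_zero,
      Matrix.cons_val_one, Matrix.cons_val_fin_one, Matrix.add_apply, Fin.zero_eta, Fin.mk_one,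
      ← hxdef, ← hc, h1, h2, h3, h4, Real.sin_two_mul, Real.cos_two_mul]
  · field_simp
    ring
  · field_simp
    ring
  · have h5 : Real.sin a ^ 2 = 1 - Real.cos a ^ 2 := by linarith
    rw [h5]
    field_simp
    ring
  · field_simp
    ring

section bounds

variable {θ φ η : ℝ} (hθ : θ ∈ Set.Icc (Real.pi / 8) (3 * Real.pi / 8))
  (hφ : φ ∈ Set.Icc (Real.pi / 8) (3 * Real.pi / 8)) (hη : 0 ≤ η) (hη1 : η ≤ 1)

include hθ in
lemma sin_ge : 1 / 4 ≤ Real.sin θ := by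
  have hp := Real.pi_pos
  have h := Real.mul_le_sin (x := θ) (by linarith [hθ.1]) (by linarith [hθ.2])
  refine le_trans ?_ h
  have h1 : 2 / Real.pi * (Real.pi / 8) ≤ 2 / Real.pi * θ := by
    have := hθ.1
    gcongr
  have h2 : 2 / Real.pi * (Real.pi / 8) = 1 / 4 := by field_simp; norm_num
  linarith

include hθ hη in
lemma c4 : 0 ≤ η / (4 * Real.sin θ) ∧ η / (4 * Real.sin θ) ≤ η := by
  have h := sin_ge hθ
  constructor
  · positivity
  · rw [div_le_iff₀ (by linarith)]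
    nlinarith

include hθ hη in
lemma c2 : 0 ≤ η / (2 * Real.sin θ) ∧ η / (2 * Real.sin θ) ≤ 2 * η := by
  have h := sin_ge hθ
  constructor
  · positivity
  · rw [div_le_iff₀ (by linarith)]
    nlinarith

include hθ hφ in
lemma cos_nonpos : Real.cos (2 * (θ + φ)) ≤ 0 := by
  have hp := Real.pi_pos
  apply Real.cos_nonpos_of_pi_div_two_le_of_le
  · linarith [hθ.1, hφ.1]
  · linarith [hθ.2, hφ.2]

lemma abs_div_le {y x : ℝ} (hx : 0 < x) (hy : |y| ≤ 1) : |y / x| ≤ 1 / x := by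
  rw [abs_div, abs_of_pos hx]
  gcongr

include hθ hη in
lemma al_le (i : ℕ) : |al θ φ η i| ≤ η * (1 / ((i:ℝ) + 1)) := by
  unfold al
  have hx : (0:ℝ) < (i:ℝ) + 1 := by positivity
  obtain ⟨a1, a2⟩ := c4 hθ hη
  rw [abs_mul, abs_neg, abs_of_nonneg a1]
  have := abs_div_le hx (Real.abs_cos_le_one (2 * (θ - φ) * ((i:ℝ) + 1)))
  gcongr

include hθ hη in
lemma e0_le (i : ℕ) : |e0 θ φ η i| ≤ η * (1 / ((i:ℝ) + 1)) := by
  unfold e0
  have hx : (0:ℝ) < (i:ℝ) + 1 := by positivity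
  obtain ⟨a1, a2⟩ := c4 hθ hη
  rw [abs_mul, abs_of_nonneg a1]
  have := abs_div_le hx (Real.abs_cos_le_one (2 * (θ + φ) * ((i:ℝ) + 1)))
  gcongr

include hθ hη in
lemma e1_le (i : ℕ) : |e1 θ φ η i| ≤ 4 * η * (1 / ((i:ℝ) + 1)) := by
  unfold e1
  have hx : (0:ℝ) < (i:ℝ) + 1 := by positivity
  obtain ⟨a1, a2⟩ := c2 hθ hη
  rw [abs_mul, abs_neg, abs_of_nonneg a1]
  have h1 := abs_div_le hx (Real.abs_sin_le_one (2 * φ * ((i:ℝ) + 1)))
  have h2 := abs_div_le hx (Real.abs_sin_le_one (2 * (φ + θ) * ((i:ℝ) + 1)))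
  have h3 := abs_div_le hx (Real.abs_sin_le_one (2 * (φ - θ) * ((i:ℝ) + 1)))
  have h4 : |Real.sin (2 * φ * ((i:ℝ) + 1)) / ((i:ℝ) + 1) +
    1 / 2 * (Real.sin (2 * (φ + θ) * ((i:ℝ) + 1)) / ((i:ℝ) + 1)) +
    1 / 2 * (Real.sin (2 * (φ - θ) * ((i:ℝ) + 1)) / ((i:ℝ) + 1))| ≤ 2 * (1 / ((i:ℝ) + 1)) := by
    rw [abs_le] at *
    constructor <;> linarith
  calc _ ≤ 2 * η * (2 * (1 / ((i:ℝ) + 1))) := by gcongr
    _ = _ := by ring

include hθ hη in
lemma e2_le (i : ℕ) : |e2 θ φ η i| ≤ 4 * η * (1 / ((i:ℝ) + 1)) := by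
  unfold e2
  have hx : (0:ℝ) < (i:ℝ) + 1 := by positivity
  obtain ⟨a1, a2⟩ := c2 hθ hη
  rw [abs_mul, abs_of_nonneg a1]
  have h1 := abs_div_le hx (Real.abs_sin_le_one (2 * φ * ((i:ℝ) + 1)))
  have h2 := abs_div_le hx (Real.abs_sin_le_one (2 * (φ + θ) * ((i:ℝ) + 1)))
  have h3 := abs_div_le hx (Real.abs_sin_le_one (2 * (φ - θ) * ((i:ℝ) + 1)))
  have h4 : |Real.sin (2 * φ * ((i:ℝ) + 1)) / ((i:ℝ) + 1) -
    1 / 2 * (Real.sin (2 * (φ + θ) * ((i:ℝ) + 1)) / ((i:ℝ) + 1)) -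
    1 / 2 * (Real.sin (2 * (φ - θ) * ((i:ℝ) + 1)) / ((i:ℝ) + 1))| ≤ 2 * (1 / ((i:ℝ) + 1)) := by
    rw [abs_le] at *
    constructor <;> linarith
  calc _ ≤ 2 * η * (2 * (1 / ((i:ℝ) + 1))) := by gcongr
    _ = _ := by ring

include hθ hη in
lemma DE_le (i : ℕ) : ‖DD θ φ η i‖ + ‖EE θ φ η i‖ ≤ 12 * η * (1 / ((i:ℝ) + 1)) := by
  have h1 := norm_le_entries (DD θ φ η i)
  have h2 := norm_le_entries (EE θ φ η i)
  simp only [DD, EE, Matrix.of_apply, Matrix.cons_val', Matrix.cons_val_zero,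
      Matrix.cons_val_one, Matrix.cons_val_fin_one, abs_neg, abs_zero] at h1 h2
  have a1 := al_le hθ hη (φ := φ) i
  have a2 := e0_le hθ hη (φ := φ) i
  have a3 := e1_le hθ hη (φ := φ) i
  have a4 := e2_le hθ hη (φ := φ) i
  unfold DD EE
  linarith

include hθ hφ hη in
lemma sumE_le (n : ℕ) : ‖∑ i ∈ range n, EE θ φ η i‖ ≤ 28 * η := by
  obtain ⟨a1, a2⟩ := c2 hθ hη
  obtain ⟨b1, b2⟩ := c4 hθ hη
  have h := norm_le_entries (∑ i ∈ range n, EE θ φ η i)
  simp only [Matrix.sum_apply] at h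
  have s0 : |∑ i ∈ range n, EE θ φ η i 0 0| ≤ 2 * η := by
    have : ∑ i ∈ range n, EE θ φ η i 0 0 = (η / (4 * Real.sin θ)) *
        ∑ i ∈ range n, Real.cos (2 * (θ + φ) * ((i:ℝ) + 1)) / ((i:ℝ) + 1) := by
      rw [mul_sum]; rfl
    rw [this, abs_mul, abs_of_nonneg b1]
    have := cos_sum (2 * (θ + φ)) (cos_nonpos hθ hφ) n
    calc _ ≤ η * 2 := by gcongr
      _ = _ := by ring
  have s3 : |∑ i ∈ range n, EE θ φ η i 1 1| ≤ 2 * η := by
    have : ∑ i ∈ range n, EE θ φ η i 1 1 = -∑ i ∈ range n, EE θ φ η i 0 0 := by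
      rw [← sum_neg_distrib]; rfl
    rw [this, abs_neg]; exact s0
  have t1 := sin_sum (2 * φ) n
  have t2 := sin_sum (2 * (φ + θ)) n
  have t3 := sin_sum (2 * (φ - θ)) n
  have s1 : |∑ i ∈ range n, EE θ φ η i 0 1| ≤ 12 * η := by
    have : ∑ i ∈ range n, EE θ φ η i 0 1 = -(η / (2 * Real.sin θ)) *
        (∑ i ∈ range n, Real.sin (2 * φ * ((i:ℝ) + 1)) / ((i:ℝ) + 1) +
        1 / 2 * ∑ i ∈ range n, Real.sin (2 * (φ + θ) * ((i:ℝ) + 1)) / ((i:ℝ) + 1) +
        1 / 2 * ∑ i ∈ range n, Real.sin (2 * (φ - θ) * ((i:ℝ) + 1)) / ((i:ℝ) + 1)) := by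
      rw [mul_sum, mul_sum, ← sum_add_distrib, ← sum_add_distrib, mul_sum]; rfl
    rw [this, abs_mul, abs_neg, abs_of_nonneg a1]
    have h4 : |∑ i ∈ range n, Real.sin (2 * φ * ((i:ℝ) + 1)) / ((i:ℝ) + 1) +
        1 / 2 * ∑ i ∈ range n, Real.sin (2 * (φ + θ) * ((i:ℝ) + 1)) / ((i:ℝ) + 1) +
        1 / 2 * ∑ i ∈ range n, Real.sin (2 * (φ - θ) * ((i:ℝ) + 1)) / ((i:ℝ) + 1)| ≤ 6 := by
      rw [abs_le] at *
      constructor <;> linarith
    calc _ ≤ 2 * η * 6 := by gcongr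
      _ = _ := by ring
  have s2 : |∑ i ∈ range n, EE θ φ η i 1 0| ≤ 12 * η := by
    have : ∑ i ∈ range n, EE θ φ η i 1 0 = (η / (2 * Real.sin θ)) *
        (∑ i ∈ range n, Real.sin (2 * φ * ((i:ℝ) + 1)) / ((i:ℝ) + 1) -
        1 / 2 * ∑ i ∈ range n, Real.sin (2 * (φ + θ) * ((i:ℝ) + 1)) / ((i:ℝ) + 1) -
        1 / 2 * ∑ i ∈ range n, Real.sin (2 * (φ - θ) * ((i:ℝ) + 1)) / ((i:ℝ) + 1)) := by
      rw [mul_sum, mul_sum, ← sum_sub_distrib, ← sum_sub_distrib, mul_sum]; rfl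
    rw [this, abs_mul, abs_of_nonneg a1]
    have h4 : |∑ i ∈ range n, Real.sin (2 * φ * ((i:ℝ) + 1)) / ((i:ℝ) + 1) -
        1 / 2 * ∑ i ∈ range n, Real.sin (2 * (φ + θ) * ((i:ℝ) + 1)) / ((i:ℝ) + 1) -
        1 / 2 * ∑ i ∈ range n, Real.sin (2 * (φ - θ) * ((i:ℝ) + 1)) / ((i:ℝ) + 1)| ≤ 6 := by
      rw [abs_le] at *
      constructor <;> linarith
    calc _ ≤ 2 * η * 6 := by gcongr
      _ = _ := by ring
  linarith

lemma harm (L : ℕ) : ∑ i ∈ range L, 1 / ((i:ℝ) + 1) ≤ 1 + Real.log L := by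
  have h := harmonic_le_one_add_log L
  refine le_trans (le_of_eq ?_) h
  unfold harmonic
  push_cast
  apply sum_congr rfl
  intro i _
  rw [one_div]

/-- the diagonal product -/
lemma pr_DD (n : ℕ) : pr (DD θ φ η) n =
    !![∏ i ∈ range n, (1 + al θ φ η i), 0; 0, ∏ i ∈ range n, (1 + -al θ φ η i)] := by
  induction n with
  | zero =>
    rw [pr]
    ext i j
    fin_cases i <;> fin_cases j <;> simp
  | succ n ih =>
    rw [pr, ih, prod_range_succ, prod_range_succ]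
    ext i j
    fin_cases i <;> fin_cases j <;>
      simp [DD, Matrix.mul_apply, Fin.sum_univ_two, Matrix.add_apply] <;> ring

lemma sum_al (L : ℕ) : ∑ i ∈ range L, al θ φ η i =
    -(η / (4 * Real.sin θ) * ∑ m ∈ Finset.Icc 1 L, Real.cos (2 * (θ - φ) * m) / m) := by
  have h : ∑ m ∈ Finset.Icc 1 L, Real.cos (2 * (θ - φ) * m) / m =
      ∑ i ∈ range L, Real.cos (2 * (θ - φ) * ((i:ℝ) + 1)) / ((i:ℝ) + 1) := by
    induction L with
    | zero => simp
    | succ L ih =>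
      rw [Finset.sum_Icc_succ_top (by omega), sum_range_succ, ih]
      push_cast
      rfl
  rw [h]
  unfold al
  rw [← mul_sum]
  ring

include hθ hφ hη hη1 in
/-- the estimates for the product -/
lemma GG_est (L : ℕ) (r : ℝ) (hr : ∑ i ∈ range L, al θ φ η i = -r) :
    |GG θ φ η L 0 1| ≤ 30 * η * Real.exp (36 * (η * (1 + Real.log L))) ∧
    |GG θ φ η L 1 0| ≤ 30 * η * Real.exp (36 * (η * (1 + Real.log L))) ∧
    |GG θ φ η L 0 0 - Real.exp (-r)| ≤ 30 * η * Real.exp (36 * (η * (1 + Real.log L))) ∧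
    |GG θ φ η L 1 1 - Real.exp r| ≤ 30 * η * Real.exp (36 * (η * (1 + Real.log L))) ∧
    (∀ i j, |GG θ φ η L i j| ≤ Real.exp (12 * (η * (1 + Real.log L)))) ∧
    Real.exp r ≤ Real.exp (12 * (η * (1 + Real.log L))) ∧
    Real.exp (-r) ≤ Real.exp (12 * (η * (1 + Real.log L))) := by
  have hsum : ∑ i ∈ range L, 12 * η * (1 / ((i:ℝ) + 1)) ≤ 12 * (η * (1 + Real.log L)) := by
    rw [← mul_sum]
    have := harm L
    calc 12 * η * ∑ i ∈ range L, 1 / ((i:ℝ) + 1) ≤ 12 * η * (1 + Real.log L) := by gcongr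
      _ = _ := by ring
  have hG : GG θ φ η L = pr (fun n => DD θ φ η n + EE θ φ η n) L := by
    unfold GG
    congr 1
    ext1 i
    exact AA_eq θ φ η i
  have hT : 0 ≤ η * (1 + Real.log L) := by
    have : 0 ≤ 1 + Real.log L := (sum_nonneg fun i _ => by positivity).trans (harm L)
    positivity
  have h1 : ‖GG θ φ η L - pr (DD θ φ η) L‖ ≤ 28 * η * Real.exp (36 * (η * (1 + Real.log L))) := by
    rw [hG]
    refine (pert (DD θ φ η) (EE θ φ η) (fun i => 12 * η * (1 / ((i:ℝ) + 1))) (28 * η)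
      (DE_le hθ hη) (sumE_le hθ hφ hη) L).trans ?_
    apply mul_le_mul_of_nonneg_left _ (by positivity)
    apply Real.exp_le_exp.2
    linarith
  have h2 : ‖GG θ φ η L‖ ≤ Real.exp (12 * (η * (1 + Real.log L))) := by
    rw [hG]
    refine (norm_pr_le (fun n => DD θ φ η n + EE θ φ η n) (fun i => 12 * η * (1 / ((i:ℝ) + 1)))
      (fun n => (norm_add_le _ _).trans (DE_le hθ hη n)) L).trans ?_
    gcongr
  -- scalars
  have hal1 : ∀ i, |al θ φ η i| ≤ 1 := by
    intro i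
    refine (al_le hθ hη i).trans ?_
    have : 1 / ((i:ℝ) + 1) ≤ 1 := by
      rw [div_le_one (by positivity)]
      have : (0:ℝ) ≤ i := Nat.cast_nonneg i
      linarith
    calc η * (1 / ((i:ℝ) + 1)) ≤ 1 * 1 := by gcongr
      _ = 1 := one_mul 1
  have hsq : ∑ i ∈ range L, (al θ φ η i) ^ 2 ≤ 2 * η := by
    calc ∑ i ∈ range L, (al θ φ η i) ^ 2 ≤ ∑ i ∈ range L, η ^ 2 * (1 / ((i:ℝ) + 1)) ^ 2 := by
          apply sum_le_sum
          intro i _
          rw [← sq_abs, ← mul_pow]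
          exact pow_le_pow_left₀ (abs_nonneg _) (al_le hθ hη i) 2
      _ = η ^ 2 * ∑ i ∈ range L, (1 / ((i:ℝ) + 1)) ^ 2 := by rw [mul_sum]
      _ ≤ η ^ 2 * 2 := by
          have h3 := sum_inv_sq L
          have h4 : (0:ℝ) ≤ 1 / (L:ℝ) := by positivity
          gcongr
          linarith
      _ ≤ 2 * η := by nlinarith
  have habs : ∑ i ∈ range L, |al θ φ η i| ≤ η * (1 + Real.log L) := by
    calc _ ≤ ∑ i ∈ range L, η * (1 / ((i:ℝ) + 1)) := sum_le_sum fun i _ => al_le hθ hη i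
      _ = η * ∑ i ∈ range L, 1 / ((i:ℝ) + 1) := by rw [mul_sum]
      _ ≤ _ := by have := harm L; gcongr
  have hexp : Real.exp (η * (1 + Real.log L)) ≤ Real.exp (36 * (η * (1 + Real.log L))) :=
    Real.exp_le_exp.2 (by linarith)
  have q1 : |∏ i ∈ range L, (1 + al θ φ η i) - Real.exp (-r)| ≤
      2 * η * Real.exp (36 * (η * (1 + Real.log L))) := by
    rw [← hr]
    refine (scal _ hal1 L).trans ?_
    have : Real.exp (∑ i ∈ range L, |al θ φ η i|) ≤ Real.exp (36 * (η * (1 + Real.log L))) :=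
      (Real.exp_le_exp.2 habs).trans hexp
    gcongr
  have q2 : |∏ i ∈ range L, (1 + -al θ φ η i) - Real.exp r| ≤
      2 * η * Real.exp (36 * (η * (1 + Real.log L))) := by
    have hr' : ∑ i ∈ range L, -al θ φ η i = r := by rw [sum_neg_distrib, hr, neg_neg]
    rw [← hr']
    refine (scal (fun i => -al θ φ η i) (fun i => by rw [abs_neg]; exact hal1 i) L).trans ?_
    simp only [neg_sq, abs_neg]
    have : Real.exp (∑ i ∈ range L, |al θ φ η i|) ≤ Real.exp (36 * (η * (1 + Real.log L))) :=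
      (Real.exp_le_exp.2 habs).trans hexp
    gcongr
  have g : ∀ i j, |GG θ φ η L i j - pr (DD θ φ η) L i j| ≤ 28 * η * Real.exp (36 * (η * (1 + Real.log L))) :=
    fun i j => (entry_le _ i j).trans h1
  have g01 := g 0 1
  have g10 := g 1 0
  have g00 := g 0 0
  have g11 := g 1 1
  rw [pr_DD] at g01 g10 g00 g11
  simp only [Matrix.of_apply, Matrix.cons_val', Matrix.cons_val_zero,
      Matrix.cons_val_one, Matrix.cons_val_fin_one, sub_zero] at g01 g10 g00 g11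
  have hpos : 0 ≤ 2 * η * Real.exp (36 * (η * (1 + Real.log L))) := by positivity
  have hrabs : |r| ≤ η * (1 + Real.log L) := by
    have : r = -∑ i ∈ range L, al θ φ η i := by rw [hr, neg_neg]
    rw [this, abs_neg]
    exact (abs_sum_le_sum_abs _ _).trans habs
  refine ⟨by linarith, by linarith, ?_, ?_, fun i j => (entry_le _ i j).trans h2, ?_, ?_⟩
  · have := abs_sub_le (GG θ φ η L 0 0) (∏ i ∈ range L, (1 + al θ φ η i)) (Real.exp (-r))
    linarith
  · have := abs_sub_le (GG θ φ η L 1 1) (∏ i ∈ range L, (1 + -al θ φ η i)) (Real.exp r)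
    linarith
  · apply Real.exp_le_exp.2
    have := le_abs_self r
    linarith
  · apply Real.exp_le_exp.2
    have := neg_le_abs r
    linarith

end bounds

end norms

/-- 508-SC1 -/
theorem wvn : ∃ C : ℝ, 0 < C ∧ ∀ θ φ η : ℝ, θ ∈ Set.Icc (Real.pi / 8) (3 * Real.pi / 8) →
    φ ∈ Set.Icc (Real.pi / 8) (3 * Real.pi / 8) → 0 ≤ η → η ≤ 1 → ∀ L : ℕ, 1 ≤ L →
    (∀ i j, |Th θ (qf φ η L) i j - rot ((2 * L + 1) * θ) i j| ≤
      C * Real.exp (C * (η * (1 + Real.log L))) * η) ∧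
    |ns (Th θ ((qf φ η L).take L)) -
      (Real.exp (2 * (η / (4 * Real.sin θ) * ∑ m ∈ Finset.Icc 1 L, Real.cos (2 * (θ - φ) * m) / m)) +
       Real.exp (-(2 * (η / (4 * Real.sin θ) * ∑ m ∈ Finset.Icc 1 L, Real.cos (2 * (θ - φ) * m) / m))))| ≤
      C * Real.exp (C * (η * (1 + Real.log L))) * η := by
  refine ⟨1000, by norm_num, ?_⟩
  intro θ φ η hθ hφ hη hη1 L hL
  obtain ⟨r, hr⟩ : ∃ r : ℝ, r = η / (4 * Real.sin θ) * ∑ m ∈ Finset.Icc 1 L, Real.cos (2 * (θ - φ) * m) / m :=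
    ⟨_, rfl⟩
  rw [← hr]
  obtain ⟨g01, g10, g00, g11, gE, hr1, hr2⟩ := GG_est hθ hφ hη hη1 L r (by rw [sum_al, hr])
  have hlog : 0 ≤ Real.log L := Real.log_nonneg (by exact_mod_cast hL)
  set T : ℝ := η * (1 + Real.log L) with hT
  have hT0 : 0 ≤ T := by positivity
  have hmul : Real.exp (36 * T) * Real.exp (12 * T) ≤ Real.exp (1000 * T) := by
    rw [← Real.exp_add]
    exact Real.exp_le_exp.2 (by linarith)
  have hE0 := Real.exp_pos (12 * T)
  have hE1 := Real.exp_pos (36 * T)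
  set G := GG θ φ η L with hG
  have hprod : ∀ x y : ℝ, |x| ≤ 30 * η * Real.exp (36 * T) → |y| ≤ Real.exp (12 * T) →
      |2 * (x * y)| ≤ 60 * η * Real.exp (1000 * T) := by
    intro x y hx hy
    rw [abs_mul, abs_mul, abs_two]
    calc 2 * (|x| * |y|) ≤ 2 * ((30 * η * Real.exp (36 * T)) * Real.exp (12 * T)) := by gcongr
      _ = 60 * η * (Real.exp (36 * T) * Real.exp (12 * T)) := by ring
      _ ≤ _ := by gcongr
  constructor
  · intro i j
    have e : Th θ (qf φ η L) - rot ((2 * L + 1) * θ) = rot (L * θ) *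
        !![2 * (G 0 1 * G 1 0), 2 * (G 0 0 * G 0 1); 2 * (G 1 0 * G 1 1), 2 * (G 0 1 * G 1 0)] *
        rot (((L:ℝ) + 1) * θ) := by
      rw [Th_qf, mul_flip _ (GG_det θ φ η L), Matrix.mul_add, Matrix.add_mul, Matrix.mul_one, ← rot_add]
      have : (L:ℝ) * θ + ((L:ℝ) + 1) * θ = (2 * L + 1) * θ := by ring
      rw [this, add_sub_cancel_left]
    have h := rot_conj_entry (L * θ) (((L:ℝ) + 1) * θ)
      !![2 * (G 0 1 * G 1 0), 2 * (G 0 0 * G 0 1); 2 * (G 1 0 * G 1 1), 2 * (G 0 1 * G 1 0)]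
      (k := 60 * η * Real.exp (1000 * T)) (by
        intro i j
        fin_cases i <;> fin_cases j
        · exact hprod _ _ g01 (gE 1 0)
        · show |2 * (G 0 0 * G 0 1)| ≤ _
          rw [mul_comm (G 0 0)]
          exact hprod _ _ g01 (gE 0 0)
        · exact hprod _ _ g10 (gE 1 1)
        · exact hprod _ _ g01 (gE 1 0)) i j
    rw [← e, Matrix.sub_apply] at h
    refine h.trans ?_
    have hp : 0 ≤ η * Real.exp (1000 * T) := by positivity
    linarith
  · rw [Th_take]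
    have s1 : |G 0 0 ^ 2 - Real.exp (-(2 * r))| ≤ 60 * η * Real.exp (1000 * T) := by
      have e : G 0 0 ^ 2 - Real.exp (-(2 * r)) = (G 0 0 - Real.exp (-r)) * (G 0 0 + Real.exp (-r)) := by
        have : Real.exp (-(2 * r)) = Real.exp (-r) * Real.exp (-r) := by rw [← Real.exp_add]; ring_nf
        rw [this]; ring
      rw [e, abs_mul]
      have h1 : |G 0 0 + Real.exp (-r)| ≤ 2 * Real.exp (12 * T) := by
        refine (abs_add_le _ _).trans ?_
        rw [abs_of_pos (Real.exp_pos _)]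
        linarith [gE 0 0]
      calc _ ≤ (30 * η * Real.exp (36 * T)) * (2 * Real.exp (12 * T)) := by gcongr
        _ = 60 * η * (Real.exp (36 * T) * Real.exp (12 * T)) := by ring
        _ ≤ _ := by gcongr
    have s2 : |G 1 1 ^ 2 - Real.exp (2 * r)| ≤ 60 * η * Real.exp (1000 * T) := by
      have e : G 1 1 ^ 2 - Real.exp (2 * r) = (G 1 1 - Real.exp r) * (G 1 1 + Real.exp r) := by
        have : Real.exp (2 * r) = Real.exp r * Real.exp r := by rw [← Real.exp_add]; ring_nf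
        rw [this]; ring
      rw [e, abs_mul]
      have h1 : |G 1 1 + Real.exp r| ≤ 2 * Real.exp (12 * T) := by
        refine (abs_add_le _ _).trans ?_
        rw [abs_of_pos (Real.exp_pos _)]
        linarith [gE 1 1]
      calc _ ≤ (30 * η * Real.exp (36 * T)) * (2 * Real.exp (12 * T)) := by gcongr
        _ = 60 * η * (Real.exp (36 * T) * Real.exp (12 * T)) := by ring
        _ ≤ _ := by gcongr
    have s3 : |G 0 1 ^ 2| ≤ 60 * η * Real.exp (1000 * T) := by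
      have := hprod _ _ g01 (gE 0 1)
      rw [abs_mul, abs_two] at this
      rw [pow_two]
      have h0 := abs_nonneg (G 0 1 * G 0 1)
      linarith
    have s4 : |G 1 0 ^ 2| ≤ 60 * η * Real.exp (1000 * T) := by
      have := hprod _ _ g10 (gE 1 0)
      rw [abs_mul, abs_two] at this
      rw [pow_two]
      have h0 := abs_nonneg (G 1 0 * G 1 0)
      linarith
    have hp : 0 ≤ η * Real.exp (1000 * T) := by positivity
    unfold ns
    rw [abs_le] at *
    constructor <;> linarith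

end Pool.Agent.H5R3.SC1
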