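import Pool.Agent.H508R3.Bloch

set_option autoImplicit false

namespace Pool.Agent.H5R3.Base508

open Pool.Agent.H508R3 Polynomial

/-- forward and backward solutions -/
noncomputable def fw (V : ℤ → ℂ) (x y : ℂ) : ℕ → ℂ × ℂ
  | 0 => (x, y)
  | (n + 1) => (V n * (fw V x y n).1 - (fw V x y n).2, (fw V x y n).1)

noncomputable def bw (V : ℤ → ℂ) (x y : ℂ) : ℕ → ℂ × ℂ
  | 0 => (x, y)
  | (n + 1) => ((bw V x y n).2, V (-(n : ℤ) - 1) * (bw V x y n).2 - (bw V x y n).1)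

noncomputable def sol (V : ℤ → ℂ) (x y : ℂ) : ℤ → ℂ
  | Int.ofNat k => (fw V x y k).1
  | Int.negSucc k => (bw V x y k).2

theorem sol_zero (V : ℤ → ℂ) (x y : ℂ) : sol V x y 0 = x := rfl
theorem sol_neg_one (V : ℤ → ℂ) (x y : ℂ) : sol V x y (-1) = y := rfl

theorem sol_nat (V : ℤ → ℂ) (x y : ℂ) (k : ℕ) : sol V x y (k : ℤ) = (fw V x y k).1 := rfl

theorem sol_nat_sub (V : ℤ → ℂ) (x y : ℂ) (k : ℕ) : sol V x y ((k : ℤ) - 1) = (fw V x y k).2 := by
  cases k with
  | zero => rfl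
  | succ k =>
    have : (((k + 1 : ℕ) : ℤ) - 1) = (k : ℤ) := by push_cast; ring
    rw [this, sol_nat]; rfl

theorem sol_neg (V : ℤ → ℂ) (x y : ℂ) (k : ℕ) : sol V x y (-(k : ℤ) - 1) = (bw V x y k).2 := by
  have : (-(k : ℤ) - 1) = Int.negSucc k := by rw [Int.negSucc_eq]; ring
  rw [this]; rfl

theorem sol_neg' (V : ℤ → ℂ) (x y : ℂ) (k : ℕ) : sol V x y (-(k : ℤ)) = (bw V x y k).1 := by
  cases k with
  | zero => rfl
  | succ k =>
    have : (-((k + 1 : ℕ) : ℤ)) = (-(k : ℤ) - 1) := by push_cast; ring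
    rw [this, sol_neg]; rfl

theorem sol_eq (V : ℤ → ℂ) (x y : ℂ) (n : ℤ) :
    sol V x y (n + 1) + sol V x y (n - 1) - V n * sol V x y n = 0 := by
  rcases Int.eq_nat_or_neg n with ⟨k, rfl | rfl⟩
  · have h1 : ((k : ℤ) + 1) = ((k + 1 : ℕ) : ℤ) := by push_cast; ring
    rw [h1, sol_nat, sol_nat_sub, sol_nat]
    change (V k * (fw V x y k).1 - (fw V x y k).2) + (fw V x y k).2 - V k * (fw V x y k).1 = 0
    ring
  · cases k with
    | zero =>
      have h1 : (-((0 : ℕ) : ℤ) + 1) = ((1 : ℕ) : ℤ) := by norm_num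
      have h2 : (-((0 : ℕ) : ℤ) - 1) = -1 := by norm_num
      rw [h1, h2, sol_nat]
      change (V (((0 : ℕ) : ℤ)) * (fw V x y 0).1 - (fw V x y 0).2) + sol V x y (-1) - V (-((0:ℕ):ℤ)) * sol V x y (-((0:ℕ) : ℤ)) = 0
      have h3 : (-((0 : ℕ) : ℤ)) = 0 := by norm_num
      rw [h3, sol_zero, sol_neg_one]
      change (V 0 * x - y) + y - V 0 * x = 0
      ring
    | succ k =>
      have h1 : (-((k + 1 : ℕ) : ℤ) + 1) = -(k : ℤ) := by push_cast; ring
      have h2 : (-((k + 1 : ℕ) : ℤ)) = -(k : ℤ) - 1 := by push_cast; ring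
      have h3 : (-((k + 1 : ℕ) : ℤ) - 1) = (-((k + 1 : ℕ) : ℤ) - 1) := rfl
      rw [h1, sol_neg', sol_neg, h2, sol_neg]
      change (bw V x y k).1 + (V (-(k : ℤ) - 1) * (bw V x y k).2 - (bw V x y k).1) -
        V (-(k : ℤ) - 1) * (bw V x y k).2 = 0
      ring

theorem unique (V : ℤ → ℂ) (v : ℤ → ℂ) (h : ∀ n, v (n + 1) + v (n - 1) - V n * v n = 0)
    (h0 : v 0 = 0) (h1 : v (-1) = 0) : ∀ n, v n = 0 := by
  have key : ∀ n : ℤ, v n = 0 ∧ v (n - 1) = 0 := by
    intro n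
    induction n using Int.induction_on with
    | zero => exact ⟨h0, by simpa using h1⟩
    | succ k ih =>
      have := h k
      rw [ih.1, ih.2] at this
      refine ⟨by simpa using this, ?_⟩
      have h2 : ((k : ℤ) + 1 - 1) = k := by ring
      rw [h2]; exact ih.1
    | pred k ih =>
      have := h (-(k : ℤ) - 1)
      have h2 : (-(k : ℤ) - 1 + 1) = -(k : ℤ) := by ring
      rw [h2, ih.1, ih.2] at this
      exact ⟨ih.2, by simpa using this⟩
  exact fun n => (key n).1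

section
variable (U : ℤ → ℝ) (e : ℝ)

/-- evaluation of `pol` -/
noncomputable def P (x y : ℝ) (n : ℕ) : ℝ := (pol U x y n).1.eval e
noncomputable def Q (x y : ℝ) (n : ℕ) : ℝ := (pol U x y n).2.eval e

theorem P_zero (x y : ℝ) : P U e x y 0 = x := by simp [P, pol]
theorem Q_zero (x y : ℝ) : Q U e x y 0 = y := by simp [Q, pol]
theorem P_succ (x y : ℝ) (n : ℕ) : P U e x y (n + 1) = (e - U n) * P U e x y n - Q U e x y n := by
  simp [P, Q, pol]
theorem Q_succ (x y : ℝ) (n : ℕ) : Q U e x y (n + 1) = P U e x y n := by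
  simp [P, Q, pol]

theorem det (n : ℕ) : P U e 1 0 n * Q U e 0 1 n - P U e 0 1 n * Q U e 1 0 n = 1 := by
  induction n with
  | zero => simp [P_zero, Q_zero]
  | succ n ih =>
    rw [P_succ, Q_succ, P_succ, Q_succ]
    linarith

/-- the solution in terms of the basic solutions -/
theorem fw_eq (x y : ℂ) (n : ℕ) :
    (fw (fun k => ((e - U k : ℝ) : ℂ)) x y n).1 = x * P U e 1 0 n + y * P U e 0 1 n ∧
    (fw (fun k => ((e - U k : ℝ) : ℂ)) x y n).2 = x * Q U e 1 0 n + y * Q U e 0 1 n := by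
  induction n with
  | zero => simp [fw, P_zero, Q_zero]
  | succ n ih =>
    constructor
    · change ((e - U n : ℝ) : ℂ) * (fw _ x y n).1 - (fw _ x y n).2 = _
      rw [ih.1, ih.2, P_succ, P_succ]
      push_cast
      ring
    · change (fw _ x y n).1 = _
      rw [ih.1, Q_succ, Q_succ]

variable {U e} {m : ℕ} (h0 : U 0 = 0) (h1 : ∀ n : ℤ, 0 < n → n < (2 * m + 1 : ℕ) → U n = -10)
include h0 h1

theorem inv (x y : ℝ) (n : ℕ) (hn : n < 2 * m + 1) :
    P U e x y (n + 1) ^ 2 + Q U e x y (n + 1) ^ 2 - (e + 10) * P U e x y (n + 1) * Q U e x y (n + 1) =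
      (e * x - y) ^ 2 + x ^ 2 - (e + 10) * (e * x - y) * x := by
  induction n with
  | zero =>
    rw [P_succ, Q_succ, P_zero, Q_zero]
    have : U ((0 : ℕ) : ℤ) = 0 := h0
    rw [this]; ring
  | succ n ih =>
    rw [← ih (by omega)]
    rw [P_succ U e x y (n + 1), Q_succ U e x y (n + 1)]
    have : U ((n + 1 : ℕ) : ℤ) = -10 := h1 _ (by omega) (by exact_mod_cast hn)
    rw [this]
    ring

theorem bnd01 (he1 : -11 < e) (he2 : e < -9) (n : ℕ) (hn : n ≤ 2 * m + 1) :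
    P U e 0 1 n ^ 2 ≤ 2 ∧ (1 ≤ n → Q U e 0 1 n ^ 2 ≤ 2) := by
  cases n with
  | zero => rw [P_zero]; norm_num
  | succ n =>
    have h2 := inv h0 h1 (e := e) 0 1 n (by omega)
    set p := P U e 0 1 (n + 1)
    set q := Q U e 0 1 (n + 1)
    have h3 : p ^ 2 + q ^ 2 ≤ 2 := by
      have h4 : (e + 10) * p * q ≤ (p ^ 2 + q ^ 2) / 2 := by
        have h5 : |(e + 10) * (p * q)| ≤ |p * q| := by
          rw [abs_mul]
          exact mul_le_of_le_one_left (abs_nonneg _) (abs_le.2 ⟨by linarith, by linarith⟩)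
        have h6 : |p * q| ≤ (p ^ 2 + q ^ 2) / 2 := by
          rw [abs_le]
          constructor <;> nlinarith [sq_nonneg (p + q), sq_nonneg (p - q)]
        have := le_abs_self ((e + 10) * (p * q))
        nlinarith
      nlinarith
    exact ⟨by nlinarith [sq_nonneg q], fun _ => by nlinarith [sq_nonneg p]⟩

theorem bnd10 (he1 : -11 < e) (he2 : e < -9) (n : ℕ) (hn : n ≤ 2 * m + 1) :
    P U e 1 0 n ^ 2 ≤ 222 ∧ (1 ≤ n → Q U e 1 0 n ^ 2 ≤ 222) := by
  cases n with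
  | zero => rw [P_zero]; norm_num
  | succ n =>
    have h2 := inv h0 h1 (e := e) 1 0 n (by omega)
    set p := P U e 1 0 (n + 1)
    set q := Q U e 1 0 (n + 1)
    have h3 : p ^ 2 + q ^ 2 ≤ 222 := by
      have h4 : (e + 10) * p * q ≤ (p ^ 2 + q ^ 2) / 2 := by
        have h5 : |(e + 10) * (p * q)| ≤ |p * q| := by
          rw [abs_mul]
          exact mul_le_of_le_one_left (abs_nonneg _) (abs_le.2 ⟨by linarith, by linarith⟩)
        have h6 : |p * q| ≤ (p ^ 2 + q ^ 2) / 2 := by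
          rw [abs_le]
          constructor <;> nlinarith [sq_nonneg (p + q), sq_nonneg (p - q)]
        have := le_abs_self ((e + 10) * (p * q))
        nlinarith
      nlinarith
    exact ⟨by nlinarith [sq_nonneg q], fun _ => by nlinarith [sq_nonneg p]⟩

end


theorem norm_shift {N : ℕ} {z : ℂ} (hz : ‖z‖ = 1) {w : ℤ → ℂ} (hw : ∀ n, w (n + N) = z * w n)
    (n : ℤ) (q : ℤ) : ‖w (n + N * q)‖ = ‖w n‖ := by
  induction q using Int.induction_on with
  | zero => simp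
  | succ k ih =>
    have : n + (N : ℤ) * (k + 1) = (n + N * k) + N := by ring
    rw [this, hw, norm_mul, hz, one_mul, ih]
  | pred k ih =>
    have h1 := hw (n + (N : ℤ) * (-(k : ℤ) - 1))
    have h2 : n + (N : ℤ) * (-(k : ℤ) - 1) + N = n + N * (-(k : ℤ)) := by ring
    rw [h2] at h1
    rw [← ih, h1, norm_mul, hz, one_mul]

open Complex in
theorem bloch_base (m : ℕ) (U : ℤ → ℝ) (hU : ∀ n : ℤ, U (n + (2 * m + 1 : ℕ)) = U n) (h0 : U 0 = 0)
    (h1 : ∀ n : ℤ, 0 < n → n < (2 * m + 1 : ℕ) → U n = -10) (e : ℝ) (he1 : -11 < e) (he2 : e < -9)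
    (ht : |(trp U (2 * m + 1)).eval e| < 1) :
    ∃ (z : ℂ) (w : ℤ → ℂ), Bloch U e (2 * m + 1) z w 2048 := by
  set N : ℕ := 2 * m + 1 with hN
  set a := P U e 1 0 N with ha
  set b := P U e 0 1 N with hb
  set c := Q U e 1 0 N with hc
  set d := Q U e 0 1 N with hd
  have htr : (trp U N).eval e = a + d := by
    unfold trp
    rw [Polynomial.eval_add]
    rfl
  rw [htr] at ht
  have hdet : a * d - b * c = 1 := det U e N
  have hb2 : b ^ 2 ≤ 2 := (bnd01 h0 h1 he1 he2 N le_rfl).1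
  have hc2 : c ^ 2 ≤ 222 := (bnd10 h0 h1 he1 he2 N le_rfl).2 (by omega)
  have ht2 : (a + d) ^ 2 < 1 := by
    rw [← sq_abs]
    nlinarith [abs_nonneg (a + d)]
  have hb0 : b ≠ 0 := by
    intro h
    rw [h] at hdet
    nlinarith [sq_nonneg (a - d)]
  set s := Real.sqrt (1 - (a + d) ^ 2 / 4) with hs
  have hs2 : s ^ 2 = 1 - (a + d) ^ 2 / 4 := Real.sq_sqrt (by nlinarith)
  have hs0 : 0 < s := Real.sqrt_pos.2 (by nlinarith)
  have hs34 : 3 / 4 ≤ s ^ 2 := by rw [hs2]; nlinarith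
  -- sign
  obtain ⟨σ, hσ, hσb⟩ : ∃ σ : ℝ, σ ^ 2 = 1 ∧ σ * b = |b| := by
    rcases lt_or_gt_of_ne hb0 with h | h
    · exact ⟨-1, by norm_num, by rw [abs_of_neg h]; ring⟩
    · exact ⟨1, by norm_num, by rw [abs_of_pos h]; ring⟩
  have hbabs : 0 < |b| := abs_pos.2 hb0
  set κ := Real.sqrt (1 / (|b| * s)) with hκ
  have hκ2 : κ ^ 2 = 1 / (|b| * s) := Real.sq_sqrt (by positivity)
  let z : ℂ := ⟨(a + d) / 2, -(σ * s)⟩
  have hz2 : z * z - (a + d : ℝ) * z + 1 = 0 := by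
    apply Complex.ext
    · simp [z]
      nlinarith
    · simp [z]
      ring
  have hznorm : ‖z‖ = 1 := by
    have : ‖z‖ ^ 2 = 1 := by
      rw [← Complex.normSq_eq_norm_sq, Complex.normSq_apply]
      simp only [z]
      nlinarith
    nlinarith [norm_nonneg z]
  let w0 : ℂ := ((κ * b : ℝ) : ℂ)
  let w1 : ℂ := (κ : ℂ) * (z - a)
  let V : ℤ → ℂ := fun n => ((e - U n : ℝ) : ℂ)
  let w : ℤ → ℂ := sol V w0 w1
  have heq : ∀ n, w (n + 1) + w (n - 1) - V n * w n = 0 := sol_eq V w0 w1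
  have hwN : w N = w0 * a + w1 * b := (fw_eq U e w0 w1 N).1
  have hwN1 : w ((N : ℤ) - 1) = w0 * c + w1 * d := by
    change sol V w0 w1 ((N : ℤ) - 1) = _
    rw [sol_nat_sub]
    exact (fw_eq U e w0 w1 N).2
  have hper : ∀ n : ℤ, w (n + N) = z * w n := by
    have h2 : ∀ n : ℤ, (fun n : ℤ => w (n + N) - z * w n) n = 0 := by
      apply unique V
      · intro n
        have e1 := heq (n + N)
        have e2 := heq n
        have hV : V (n + N) = V n := by
          simp only [V]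
          rw [hU n]
        rw [hV] at e1
        have h3 : n + 1 + (N : ℤ) = n + N + 1 := by ring
        have h4 : n - 1 + (N : ℤ) = n + N - 1 := by ring
        beta_reduce
        rw [h3, h4]
        linear_combination e1 - z * e2
      · beta_reduce
        rw [zero_add, hwN]
        change w0 * a + w1 * b - z * w0 = 0
        simp only [w0, w1]
        push_cast
        ring
      · beta_reduce
        have h3 : (-1 : ℤ) + (N : ℤ) = N - 1 := by ring
        rw [h3, hwN1]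
        change w0 * c + w1 * d - z * w1 = 0
        simp only [w0, w1]
        have hdet' : (a : ℂ) * d - b * c = 1 := by exact_mod_cast hdet
        have hz2' : z * z - ((a : ℂ) + d) * z + 1 = 0 := by
          have := hz2
          push_cast at this
          exact this
        push_cast
        linear_combination (-(κ : ℂ)) * hz2' + (-(κ : ℂ)) * hdet'
    intro n
    exact sub_eq_zero.1 (h2 n)
  have hwr : ∀ n : ℤ, (starRingEnd ℂ (w n) * w (n + 1)).im = 1 := by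
    have hstep : ∀ n : ℤ, (starRingEnd ℂ (w n) * w (n + 1)).im =
        (starRingEnd ℂ (w (n - 1)) * w n).im := by
      intro n
      have e1 := heq n
      have e2 : w (n + 1) = V n * w n - w (n - 1) := by linear_combination e1
      rw [e2]
      simp only [V, mul_im, sub_im, sub_re, mul_re, conj_re, conj_im, ofReal_re, ofReal_im]
      ring
    have hbase : (starRingEnd ℂ (w (-1)) * w 0).im = 1 := by
      change (starRingEnd ℂ w1 * w0).im = 1
      simp only [w0, w1, z, map_mul, conj_ofReal, map_sub, mul_im, mul_re, conj_re, conj_im, ofReal_re,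
        ofReal_im, sub_re, sub_im]
      have h5 : κ ^ 2 * (|b| * s) = 1 := by
        rw [hκ2]; field_simp
      rw [← hσb] at h5
      linear_combination h5
    intro n
    induction n using Int.induction_on with
    | zero =>
      rw [hstep]
      have : (0 : ℤ) - 1 = -1 := by norm_num
      rw [this]
      exact hbase
    | succ k ih =>
      rw [hstep]
      have : (k : ℤ) + 1 - 1 = k := by ring
      rw [this]
      exact ih
    | pred k ih =>
      rw [hstep] at ih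
      have : -(k : ℤ) - 1 + 1 = -k := by ring
      rw [this]
      exact ih
  have hw0n : ‖w0‖ ^ 2 = |b| / s := by
    simp only [w0]
    rw [Complex.norm_real, Real.norm_eq_abs, sq_abs, mul_pow, hκ2, ← sq_abs b]
    field_simp
  have hw1n : ‖w1‖ ^ 2 = |c| / s := by
    have h2 : ‖z - a‖ ^ 2 = |b| * |c| := by
      rw [← Complex.normSq_eq_norm_sq, Complex.normSq_apply, ← abs_mul]
      have h3 : (z - (a : ℂ)).re = (a + d) / 2 - a := by simp [z]
      have h4 : (z - (a : ℂ)).im = -(σ * s) := by simp [z]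
      rw [h3, h4]
      have h5 : b * c = a * d - 1 := by linarith
      have h6 : b * c ≤ 0 := by
        rw [h5]; nlinarith [sq_nonneg (a - d)]
      rw [abs_of_nonpos h6]
      nlinarith
    simp only [w1]
    rw [norm_mul, mul_pow, h2, Complex.norm_real, Real.norm_eq_abs, sq_abs, hκ2]
    field_simp
  have hw0b : ‖w0‖ ^ 2 ≤ 1.64 := by
    rw [hw0n, div_le_iff₀ hs0]
    have h2 : |b| ^ 2 ≤ 2 := by rw [sq_abs]; exact hb2
    nlinarith [abs_nonneg b]
  have hw1b : ‖w1‖ ^ 2 ≤ 17.3 := by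
    rw [hw1n, div_le_iff₀ hs0]
    have h2 : |c| ^ 2 ≤ 222 := by rw [sq_abs]; exact hc2
    nlinarith [abs_nonneg c]
  have hbd0 : ∀ k : ℕ, k ≤ N → ‖w k‖ ^ 2 ≤ 2048 := by
    intro k hk
    have h2 : w k = w0 * P U e 1 0 k + w1 * P U e 0 1 k := (fw_eq U e w0 w1 k).1
    have h3 : ‖w k‖ ≤ ‖w0‖ * |P U e 1 0 k| + ‖w1‖ * |P U e 0 1 k| := by
      rw [h2]
      refine (norm_add_le _ _).trans ?_
      have e1 : ‖((P U e 1 0 k : ℝ) : ℂ)‖ = |P U e 1 0 k| := by
        rw [Complex.norm_real, Real.norm_eq_abs]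
      have e2 : ‖((P U e 0 1 k : ℝ) : ℂ)‖ = |P U e 0 1 k| := by
        rw [Complex.norm_real, Real.norm_eq_abs]
      rw [norm_mul, norm_mul, e1, e2]
    have h4 := (bnd10 h0 h1 he1 he2 k hk).1
    have h5 := (bnd01 h0 h1 he1 he2 k hk).1
    have h6 : ‖w k‖ ^ 2 ≤ 2 * (‖w0‖ ^ 2 * (P U e 1 0 k) ^ 2) + 2 * (‖w1‖ ^ 2 * (P U e 0 1 k) ^ 2) := by
      rw [← sq_abs (P U e 1 0 k), ← sq_abs (P U e 0 1 k)]
      have h7 : ‖w k‖ ^ 2 ≤ (‖w0‖ * |P U e 1 0 k| + ‖w1‖ * |P U e 0 1 k|) ^ 2 :=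
        pow_le_pow_left₀ (norm_nonneg _) h3 2
      nlinarith [sq_nonneg (‖w0‖ * |P U e 1 0 k| - ‖w1‖ * |P U e 0 1 k|)]
    have h8 : ‖w0‖ ^ 2 * (P U e 1 0 k) ^ 2 ≤ 1.64 * 222 :=
      mul_le_mul hw0b h4 (sq_nonneg _) (by norm_num)
    have h9 : ‖w1‖ ^ 2 * (P U e 0 1 k) ^ 2 ≤ 17.3 * 2 :=
      mul_le_mul hw1b h5 (sq_nonneg _) (by norm_num)
    linarith
  refine ⟨z, w, ⟨?_, hper, hznorm, hwr, ?_⟩⟩
  · intro n
    have := heq n
    simp only [V] at this
    push_cast at this ⊢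
    linear_combination this
  · intro n
    have hNpos : (0 : ℤ) < N := by omega
    have h2 := norm_shift hznorm hper (n % N) (n / N)
    rw [Int.emod_add_mul_ediv] at h2
    rw [h2]
    obtain ⟨k, hk⟩ := Int.eq_ofNat_of_zero_le (Int.emod_nonneg n hNpos.ne')
    rw [hk]
    have h3 := Int.emod_lt_of_pos n hNpos
    rw [hk] at h3
    exact hbd0 k (by omega)


theorem trig {m : ℕ} {U : ℤ → ℝ} (h0 : U 0 = 0)
    (h1 : ∀ n : ℤ, 0 < n → n < (2 * m + 1 : ℕ) → U n = -10) (θ : ℝ) (k : ℕ) (hk : k < 2 * m + 1) :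
    (P U (2 * Real.cos θ - 10) 1 0 k * Real.sin θ = Real.sin ((k + 1) * θ) - 10 * Real.sin (k * θ) ∧
     P U (2 * Real.cos θ - 10) 0 1 k * Real.sin θ = - Real.sin (k * θ)) ∧
    (P U (2 * Real.cos θ - 10) 1 0 (k + 1) * Real.sin θ =
        Real.sin ((k + 2) * θ) - 10 * Real.sin ((k + 1) * θ) ∧
     P U (2 * Real.cos θ - 10) 0 1 (k + 1) * Real.sin θ = - Real.sin ((k + 1) * θ)) := by
  induction k with
  | zero =>
    have hU0 : U ((0 : ℕ) : ℤ) = 0 := h0
    refine ⟨⟨by rw [P_zero]; simp, by rw [P_zero]; simp⟩, ?_, ?_⟩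
    · rw [P_succ, P_zero, Q_zero, hU0]
      have : ((((0 : ℕ) : ℝ) + 2) * θ) = 2 * θ := by push_cast; ring
      rw [this, Real.sin_two_mul]
      have : ((((0 : ℕ) : ℝ) + 1) * θ) = θ := by push_cast; ring
      rw [this]
      ring
    · rw [P_succ, P_zero, Q_zero, hU0]
      have : ((((0 : ℕ) : ℝ) + 1) * θ) = θ := by push_cast; ring
      rw [this]
      ring
  | succ k ih =>
    obtain ⟨⟨e1, e2⟩, ⟨e3, e4⟩⟩ := ih (by omega)
    have hUk : U ((k + 1 : ℕ) : ℤ) = -10 := h1 _ (by omega) (by exact_mod_cast hk)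
    have c1 : (((k + 1 : ℕ) : ℝ) + 1) = k + 2 := by push_cast; ring
    have c2 : (((k + 1 : ℕ) : ℝ) + 2) = k + 3 := by push_cast; ring
    have c3 : (((k + 1 : ℕ) : ℝ)) = k + 1 := by push_cast; ring
    have t1 : Real.sin ((k + 3) * θ) = 2 * Real.cos θ * Real.sin ((k + 2) * θ) - Real.sin ((k + 1) * θ) := by
      have a1 : ((k : ℝ) + 3) * θ = (k + 2) * θ + θ := by ring
      have a2 : ((k : ℝ) + 1) * θ = (k + 2) * θ - θ := by ring
      rw [a1, a2, Real.sin_add, Real.sin_sub]; ring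
    have t2 : Real.sin ((k + 2) * θ) = 2 * Real.cos θ * Real.sin ((k + 1) * θ) - Real.sin (k * θ) := by
      have a1 : ((k : ℝ) + 2) * θ = (k + 1) * θ + θ := by ring
      have a2 : (k : ℝ) * θ = (k + 1) * θ - θ := by ring
      rw [a1, a2, Real.sin_add, Real.sin_sub]; ring
    rw [c1, c2, c3]
    refine ⟨⟨e3, e4⟩, ?_, ?_⟩
    · rw [P_succ U _ 1 0 (k + 1), Q_succ, hUk, t1]
      linear_combination (2 * Real.cos θ) * e3 - e1 + 10 * t2
    · rw [P_succ U _ 0 1 (k + 1), Q_succ, hUk]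
      linear_combination (2 * Real.cos θ) * e4 - e2 + t2

theorem base_exists (m : ℕ) (hm : 3 ≤ m) (U : ℤ → ℝ)
    (h0 : U 0 = 0) (h1 : ∀ n : ℤ, 0 < n → n < (2 * m + 1 : ℕ) → U n = -10) :
    ∃ e : ℝ, -11 < e ∧ e < -9 ∧ |(trp U (2 * m + 1)).eval e| < 1 := by
  have hpi := Real.pi_pos
  have hNpos : (0 : ℝ) < 2 * m + 1 := by positivity
  -- the trace at the zeros of the sine
  have key : ∀ l : ℕ, 0 < Real.sin (l * Real.pi / (2 * m + 1)) →
      (trp U (2 * m + 1)).eval (2 * Real.cos (l * Real.pi / (2 * m + 1)) - 10) = 2 * (-1) ^ l := by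
    intro l hl
    set θ := l * Real.pi / (2 * m + 1) with hθ
    have hNθ : ((2 * m : ℕ) + 1 : ℝ) * θ = l * Real.pi := by
      rw [hθ]; push_cast; field_simp
    have hsinN : Real.sin (((2 * m : ℕ) + 1 : ℝ) * θ) = 0 := by rw [hNθ]; exact Real.sin_nat_mul_pi l
    have hcosN : Real.cos (((2 * m : ℕ) + 1 : ℝ) * θ) = (-1) ^ l := by
      rw [hNθ]; exact Real.cos_nat_mul_pi l
    obtain ⟨⟨-, e2⟩, ⟨e3, -⟩⟩ := trig h0 h1 θ (2 * m) (by omega)
    have htr : (trp U (2 * m + 1)).eval (2 * Real.cos θ - 10) =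
        P U (2 * Real.cos θ - 10) 1 0 (2 * m + 1) + P U (2 * Real.cos θ - 10) 0 1 (2 * m) := by
      unfold trp
      rw [Polynomial.eval_add, ← Q_succ]
      rfl
    rw [htr]
    have s1 : Real.sin (((2 * m : ℕ) + 2 : ℝ) * θ) = (-1) ^ l * Real.sin θ := by
      have : ((2 * m : ℕ) + 2 : ℝ) * θ = ((2 * m : ℕ) + 1 : ℝ) * θ + θ := by ring
      rw [this, Real.sin_add, hsinN, hcosN]; ring
    have s2 : Real.sin (((2 * m : ℕ) : ℝ) * θ) = -((-1) ^ l * Real.sin θ) := by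
      have : ((2 * m : ℕ) : ℝ) * θ = ((2 * m : ℕ) + 1 : ℝ) * θ - θ := by ring
      rw [this, Real.sin_sub, hsinN, hcosN]; ring
    rw [s1, hsinN] at e3
    rw [s2] at e2
    have : (P U (2 * Real.cos θ - 10) 1 0 (2 * m + 1) + P U (2 * Real.cos θ - 10) 0 1 (2 * m)) *
        Real.sin θ = (2 * (-1) ^ l) * Real.sin θ := by linear_combination e3 + e2
    exact mul_right_cancel₀ hl.ne' this
  have hm' : (3 : ℝ) ≤ m := by exact_mod_cast hm
  set θ1 := m * Real.pi / (2 * m + 1) with hθ1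
  set θ2 := ((m + 1 : ℕ) : ℝ) * Real.pi / (2 * m + 1) with hθ2
  have b1 : Real.pi / 3 < θ1 := by
    rw [hθ1, div_lt_div_iff₀ (by norm_num) hNpos]
    nlinarith
  have b2 : θ2 < 2 * Real.pi / 3 := by
    rw [hθ2, div_lt_div_iff₀ hNpos (by norm_num)]
    push_cast
    nlinarith
  have b3 : θ1 ≤ θ2 := by
    rw [hθ1, hθ2]
    apply div_le_div_of_nonneg_right _ hNpos.le
    push_cast
    nlinarith
  have k1 := key m (Real.sin_pos_of_pos_of_lt_pi (by linarith) (by linarith))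
  have k2 := key (m + 1) (Real.sin_pos_of_pos_of_lt_pi (by linarith) (by linarith))
  let f : ℝ → ℝ := fun θ => (trp U (2 * m + 1)).eval (2 * Real.cos θ - 10)
  have hf : Continuous f := (Polynomial.continuous _).comp (by fun_prop)
  have hz : (0 : ℝ) ∈ Set.uIcc (f θ1) (f θ2) := by
    rw [Set.mem_uIcc]
    change (trp U (2 * m + 1)).eval (2 * Real.cos θ1 - 10) ≤ 0 ∧ 0 ≤ (trp U (2 * m + 1)).eval (2 * Real.cos θ2 - 10) ∨
      (trp U (2 * m + 1)).eval (2 * Real.cos θ2 - 10) ≤ 0 ∧ 0 ≤ (trp U (2 * m + 1)).eval (2 * Real.cos θ1 - 10)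
    rw [k1, k2, pow_succ]
    rcases neg_one_pow_eq_or ℝ m with h | h
    · right; rw [h]; norm_num
    · left; rw [h]; norm_num
  obtain ⟨θ, hθ, hfθ⟩ := intermediate_value_uIcc hf.continuousOn hz
  rw [Set.uIcc_of_le b3] at hθ
  refine ⟨2 * Real.cos θ - 10, ?_, ?_, ?_⟩
  · have : Real.cos (2 * Real.pi / 3) < Real.cos θ :=
      Real.cos_lt_cos_of_nonneg_of_le_pi (by linarith [hθ.1]) (by linarith) (by linarith [hθ.2])
    have h2 : Real.cos (2 * Real.pi / 3) = -(1 / 2) := by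
      have : 2 * Real.pi / 3 = Real.pi - Real.pi / 3 := by ring
      rw [this, Real.cos_pi_sub, Real.cos_pi_div_three]
    linarith
  · have : Real.cos θ < Real.cos (Real.pi / 3) :=
      Real.cos_lt_cos_of_nonneg_of_le_pi (by linarith) (by linarith [hθ.2]) (by linarith [hθ.1])
    rw [Real.cos_pi_div_three] at this
    linarith
  · have : (trp U (2 * m + 1)).eval (2 * Real.cos θ - 10) = 0 := hfθ
    rw [this]
    norm_num

end Pool.Agent.H5R3.Base508
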