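import Pool.Agent.H5R3.Task469N
import Pool.Agent.H902R3.PZ.Stmts

set_option autoImplicit false

open Finset MeasureTheory Filter

/-! TASK PZ-N of helper902 (MP_995735_nt): size of the extra source. -/

namespace Pool.Agent.H5R3.PZN

open Pool.Agent.H469R10.HO Pool.Agent.H902R3.PZ Pool.Agent.H5R3.T469N

lemma st_contDiff : ContDiff ℝ 2 Real.smoothTransition := Real.smoothTransition.contDiff

lemma st_hasDeriv (x : ℝ) : HasDerivAt Real.smoothTransition (deriv Real.smoothTransition x) x :=
  (st_contDiff.differentiable (by norm_num)).differentiableAt.hasDerivAt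

lemma st_deriv_cont : Continuous (deriv Real.smoothTransition) :=
  st_contDiff.continuous_deriv (by norm_num)

lemma exists_st_bound : ∃ K : ℝ, 0 ≤ K ∧ ∀ x : ℝ, |deriv Real.smoothTransition x| ≤ K := by
  obtain ⟨K, hK⟩ := (isCompact_Icc (a := (0:ℝ)) (b := 1)).exists_bound_of_continuousOn
    (st_deriv_cont.continuousOn)
  refine ⟨max K 0, le_max_right _ _, fun x => ?_⟩
  by_cases h0 : x < 0
  · have h1 : Real.smoothTransition =ᶠ[nhds x] fun _ => 0 := by
      filter_upwards [Iio_mem_nhds h0] with y hy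
      exact Real.smoothTransition.zero_of_nonpos (le_of_lt hy)
    rw [h1.deriv_eq]
    simp
  by_cases h2 : 1 < x
  · have h1 : Real.smoothTransition =ᶠ[nhds x] fun _ => 1 := by
      filter_upwards [Ioi_mem_nhds h2] with y hy
      exact Real.smoothTransition.one_of_one_le (le_of_lt hy)
    rw [h1.deriv_eq]
    simp
  push Not at h0 h2
  exact (hK x ⟨h0, h2⟩).trans (le_max_left _ _)

/-- a bounded function continuous off zero times a power is continuous -/
lemma cont_pow_mul {k : ℝ → ℝ} (hk : ∀ x, x ≠ 0 → ContinuousAt k x) {M : ℝ} (hM : ∀ x, |k x| ≤ M) {n : ℕ}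
    (hn : 1 ≤ n) : Continuous fun x : ℝ => x ^ n * k x := by
  rw [continuous_iff_continuousAt]
  intro x
  by_cases hx : x = 0
  · subst hx
    have h0 : (0:ℝ) ^ n * k 0 = 0 := by rw [zero_pow (by omega)]; ring
    change Tendsto (fun x : ℝ => x ^ n * k x) (nhds 0) (nhds ((0:ℝ) ^ n * k 0))
    rw [h0]
    apply squeeze_zero_norm (a := fun x : ℝ => |x| ^ n * M)
    · intro t
      rw [norm_mul, norm_pow, Real.norm_eq_abs, Real.norm_eq_abs]
      gcongr
      exact hM _
    · have h1 : Continuous fun x : ℝ => |x| ^ n * M := by fun_prop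
      have h2 := h1.tendsto 0
      simpa [zero_pow (show n ≠ 0 by omega)] using h2
  · exact (continuousAt_id.pow n).mul (hk x hx)

noncomputable def uuu (x : ℝ) : ℝ := 1 / 2 - Real.log x / (2 * Real.log (4 / 3))

lemma uuu_cont {x : ℝ} (hx : x ≠ 0) : ContinuousAt uuu x := by
  unfold uuu
  exact continuousAt_const.sub ((Real.continuousAt_log hx).div_const _)

lemma th_cont {x : ℝ} (hx : x ≠ 0) : ContinuousAt th x := by
  have : th = fun x => Real.smoothTransition (uuu x) := by ext x; rfl
  rw [this]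
  exact (st_contDiff.continuous.continuousAt).comp (uuu_cont hx)

lemma th_nonneg (x : ℝ) : 0 ≤ th x := Real.smoothTransition.nonneg _

lemma th_le (x : ℝ) : th x ≤ 1 := Real.smoothTransition.le_one _

/-- the derivative factor -/
noncomputable def kk (m : ℕ) (L x : ℝ) : ℝ :=
  deriv Real.smoothTransition (uuu x) * (-(1 / (2 * Real.log (4 / 3)))) * Real.sin (L * Real.log x)
    + th x * (m * Real.sin (L * Real.log x)) + th x * (L * Real.cos (L * Real.log x))

lemma kk_cont (m : ℕ) (L : ℝ) {x : ℝ} (hx : x ≠ 0) : ContinuousAt (kk m L) x := by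
  have h1 : ContinuousAt (fun x : ℝ => L * Real.log x) x := continuousAt_const.mul (Real.continuousAt_log hx)
  have h2 : ContinuousAt (fun x : ℝ => Real.sin (L * Real.log x)) x :=
    Real.continuous_sin.continuousAt.comp h1
  have h3 : ContinuousAt (fun x : ℝ => Real.cos (L * Real.log x)) x :=
    Real.continuous_cos.continuousAt.comp h1
  have h4 : ContinuousAt (fun x : ℝ => deriv Real.smoothTransition (uuu x)) x :=
    st_deriv_cont.continuousAt.comp (uuu_cont hx)
  unfold kk
  exact (((h4.mul continuousAt_const).mul h2).add ((th_cont hx).mul (continuousAt_const.mul h2))).add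
    ((th_cont hx).mul (continuousAt_const.mul h3))

lemma kk_bound (m : ℕ) (L : ℝ) {S : ℝ} (hS0 : 0 ≤ S) (hS : ∀ x : ℝ, |deriv Real.smoothTransition x| ≤ S) (x : ℝ) :
    |kk m L x| ≤ S * |1 / (2 * Real.log (4 / 3))| + m + |L| := by
  unfold kk
  have hs : |Real.sin (L * Real.log x)| ≤ 1 := Real.abs_sin_le_one _
  have hc : |Real.cos (L * Real.log x)| ≤ 1 := Real.abs_cos_le_one _
  have ht : |th x| ≤ 1 := by rw [abs_of_nonneg (th_nonneg x)]; exact th_le x
  have a1 : |deriv Real.smoothTransition (uuu x) * (-(1 / (2 * Real.log (4 / 3)))) * Real.sin (L * Real.log x)|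
      ≤ S * |1 / (2 * Real.log (4 / 3))| := by
    rw [abs_mul, abs_mul, abs_neg]
    calc _ ≤ S * |1 / (2 * Real.log (4 / 3))| * 1 := by
          gcongr
          exact hS _
      _ = _ := mul_one _
  have a2 : |th x * (m * Real.sin (L * Real.log x))| ≤ m := by
    rw [abs_mul, abs_mul, abs_of_nonneg (show (0:ℝ) ≤ m by positivity)]
    calc _ ≤ 1 * (m * 1 : ℝ) := by gcongr
      _ = _ := by ring
  have a3 : |th x * (L * Real.cos (L * Real.log x))| ≤ |L| := by
    rw [abs_mul, abs_mul]
    calc _ ≤ 1 * (|L| * 1 : ℝ) := by gcongr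
      _ = _ := by ring
  refine (abs_add_le _ _).trans ?_
  have := abs_add_le (deriv Real.smoothTransition (uuu x) * (-(1 / (2 * Real.log (4 / 3)))) * Real.sin (L * Real.log x))
    (th x * (m * Real.sin (L * Real.log x)))
  linarith

noncomputable def rr1 (m : ℕ) (L x : ℝ) : ℝ := x ^ (m - 1) * kk m L x

lemma rr_hasDeriv (m : ℕ) (L : ℝ) (hm : 2 ≤ m) (x : ℝ) : HasDerivAt (rr m 1 L) (rr1 m L x) x := by
  by_cases hx : x = 0
  · subst hx
    have h0 : rr1 m L 0 = 0 := by
      unfold rr1; rw [zero_pow (by omega), zero_mul]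
    have e : ∀ x : ℝ, rr m 1 L x = x * (x ^ (m - 1) * (th x * Real.sin (L * Real.log x))) := by
      intro x
      unfold rr RR
      obtain ⟨k, rfl⟩ : ∃ k, m = k + 1 := ⟨m - 1, by omega⟩
      rw [Nat.add_sub_cancel, pow_succ]
      ring
    rw [h0, hasDerivAt_iff_tendsto_slope]
    have hK : Continuous fun x : ℝ => x ^ (m - 1) * (th x * Real.sin (L * Real.log x)) := by
      apply cont_pow_mul (M := 1) _ _ (by omega)
      · intro x hx
        have h1 : ContinuousAt (fun x : ℝ => L * Real.log x) x :=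
          continuousAt_const.mul (Real.continuousAt_log hx)
        exact (th_cont hx).mul (Real.continuous_sin.continuousAt.comp h1)
      · intro x
        have hs : |Real.sin (L * Real.log x)| ≤ 1 := Real.abs_sin_le_one _
        have ht : |th x| ≤ 1 := by rw [abs_of_nonneg (th_nonneg x)]; exact th_le x
        rw [abs_mul]
        calc _ ≤ (1:ℝ) * 1 := by gcongr
          _ = 1 := one_mul 1
    have h1 := hK.tendsto 0
    have h2 : (0:ℝ) ^ (m - 1) * (th 0 * Real.sin (L * Real.log 0)) = 0 := by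
      rw [zero_pow (by omega), zero_mul]
    rw [h2] at h1
    refine (h1.mono_left nhdsWithin_le_nhds).congr' ?_
    filter_upwards [self_mem_nhdsWithin] with t ht
    have ht' : t ≠ 0 := ht
    rw [slope_def_field, e t, e 0, sub_zero, zero_mul, sub_zero]
    field_simp
  · have hl : HasDerivAt (fun x : ℝ => L * Real.log x) (L * x⁻¹) x := (Real.hasDerivAt_log hx).const_mul L
    have hu : HasDerivAt uuu (-(x⁻¹ / (2 * Real.log (4 / 3)))) x := by
      unfold uuu
      exact ((Real.hasDerivAt_log hx).div_const _).const_sub _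
    have ht : HasDerivAt th (deriv Real.smoothTransition (uuu x) * (-(x⁻¹ / (2 * Real.log (4 / 3))))) x :=
      (st_hasDeriv (uuu x)).comp x hu
    have h := ht.mul (((hasDerivAt_pow m x).const_mul 1).mul hl.sin)
    refine HasDerivAt.congr_deriv (f := rr m 1 L) h ?_
    unfold rr1 kk
    have e1 : x ^ m = x ^ (m - 1) * x := by
      rw [← pow_succ]; congr 1; omega
    simp only [one_mul, Pi.mul_apply]
    rw [e1]
    field_simp
    ring

lemma rr1_cont (m : ℕ) (L : ℝ) (hm : 2 ≤ m) : Continuous (rr1 m L) := by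
  obtain ⟨S, hS0, hS⟩ := exists_st_bound
  exact cont_pow_mul (fun x hx => kk_cont m L hx) (fun x => kk_bound m L hS0 hS x) (by omega)

lemma PP_rr (m : ℕ) (C L : ℝ) (j : ℕ) : PP (rr m C L) j = C * PP (rr m 1 L) j := by
  unfold PP
  rw [← mul_div_assoc, ← intervalIntegral.integral_const_mul]
  congr 2
  ext x
  unfold rr RR
  ring

/-- TASK PZ-N -/
theorem taskN' : TaskN' := by
  intro m L hm
  obtain ⟨S, hS0, hS⟩ := exists_st_bound
  set M : ℝ := 2 ^ m with hM
  set R : ℝ := 2 ^ m * (S * |1 / (2 * Real.log (4 / 3))| + m + |L|) with hR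
  have hM0 : 0 < M := by positivity
  have hb := weighted_bessel (rr_hasDeriv m L hm) (rr1_cont m L hm) (M := M) (M' := R)
    (by
      intro x hx
      unfold rr RR
      have hs : |Real.sin (L * Real.log x)| ≤ 1 := Real.abs_sin_le_one _
      have ht : |th x| ≤ 1 := by rw [abs_of_nonneg (th_nonneg x)]; exact th_le x
      have hx0 := hx.1
      have hx2 := hx.2
      rw [abs_mul, abs_mul, one_mul, abs_of_nonneg (pow_nonneg hx0 m)]
      calc |th x| * (x ^ m * |Real.sin (L * Real.log x)|) ≤ 1 * (2 ^ m * 1) := by gcongr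
        _ = M := by rw [hM]; ring)
    (by
      intro x hx
      unfold rr1
      have hx0 := hx.1
      have hx2 := hx.2
      rw [abs_mul, abs_of_nonneg (pow_nonneg hx0 _)]
      have h1 : x ^ (m - 1) ≤ 2 ^ m := by
        calc x ^ (m - 1) ≤ 2 ^ (m - 1) := by gcongr
          _ ≤ 2 ^ m := pow_le_pow_right₀ (by norm_num) (by omega)
      have h2 := kk_bound m L hS0 hS x
      rw [hR]
      gcongr)
  refine ⟨256 * (4 * M ^ 2 + 4 * R ^ 2), by positivity, ?_⟩
  intro c hc hc1 C J
  calc ∑ j ∈ range J, WW c j * (PP (rr m C L) j) ^ 2 ≤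
      ∑ j ∈ range J, 256 / c * C ^ 2 * ((1 + (j:ℝ)) ^ 2 * (PP (rr m 1 L) j) ^ 2) := by
        apply sum_le_sum
        intro j _
        rw [PP_rr, mul_pow]
        have h1 := WW_le hc hc1 j
        have h2 : 0 ≤ C ^ 2 * PP (rr m 1 L) j ^ 2 := by positivity
        calc WW c j * (C ^ 2 * PP (rr m 1 L) j ^ 2) ≤ 256 / c * (1 + (j:ℝ)) ^ 2 * (C ^ 2 * PP (rr m 1 L) j ^ 2) := by
              gcongr
          _ = _ := by ring
    _ = 256 / c * C ^ 2 * ∑ j ∈ range J, (1 + (j:ℝ)) ^ 2 * (PP (rr m 1 L) j) ^ 2 := by rw [mul_sum]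
    _ ≤ 256 / c * C ^ 2 * (4 * M ^ 2 + 4 * R ^ 2) := by
        have := hb (range J)
        gcongr
    _ = 256 * (4 * M ^ 2 + 4 * R ^ 2) * C ^ 2 / c := by ring

end Pool.Agent.H5R3.PZN
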