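import Pool.Agent.H5R3.Sector

/-!
Growth bounds for the derivative of the Riemann map of a domain star-shaped with respect to a ball.
-/

set_option autoImplicit false
open Complex Set Filter Metric Topology Function ComplexConjugate

namespace Pool.Agent.H5R3

/-- Two-sided growth bounds for a function with values in a sector near the circle. -/
lemma growth_F {F : ℂ → ℂ} {r₀ c₀ : ℝ} (hr0 : 1 / 2 ≤ r₀) (hr1 : r₀ < 1) (hc0 : 0 < c₀)
    (hc1 : c₀ < 1) (hF : DifferentiableOn ℂ F {w | r₀ < ‖w‖ ∧ ‖w‖ < 1})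
    (hne : ∀ w, r₀ < ‖w‖ → ‖w‖ < 1 → F w ≠ 0)
    (hsec : ∀ w, r₀ < ‖w‖ → ‖w‖ < 1 → c₀ * ‖F w‖ ≤ (F w).re) :
    ∃ κ ρ m M : ℝ, 0 < κ ∧ κ < 1 ∧ 0 < ρ ∧ ρ ≤ 1 / 4 ∧ 0 < m ∧ 0 < M ∧
      ∀ w, 1 - ρ ≤ ‖w‖ → ‖w‖ < 1 →
        m * (1 - ‖w‖) ^ κ ≤ ‖F w‖ ∧ ‖F w‖ ≤ M * (1 - ‖w‖) ^ (-κ) := by
  set κ₀ := Real.arccos c₀ / (Real.pi / 2) with hκ₀
  have hpi := Real.pi_pos
  have hac0 : 0 < Real.arccos c₀ := Real.arccos_pos.mpr hc1
  have hac1 : Real.arccos c₀ < Real.pi / 2 := Real.arccos_lt_pi_div_two.mpr hc0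
  have hκ₀0 : 0 < κ₀ := by positivity
  have hκ₀1 : κ₀ < 1 := by rw [hκ₀, div_lt_one (by positivity)]; exact hac1
  set κ := (1 + κ₀) / 2 with hκ
  have hκ0 : 0 < κ := by linarith
  have hκ1 : κ < 1 := by linarith
  have hκκ : κ₀ < κ := by linarith
  have hac : Real.arccos c₀ < κ * (Real.pi / 2) := by
    have : Real.arccos c₀ = κ₀ * (Real.pi / 2) := by rw [hκ₀]; field_simp
    rw [this]
    exact mul_lt_mul_of_pos_right hκκ (by positivity)
  -- the argument bound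
  have harg : ∀ w, r₀ < ‖w‖ → ‖w‖ < 1 → |arg (F w)| < κ * (Real.pi / 2) := by
    intro w h1 h2
    refine lt_of_le_of_lt ?_ hac
    have h3 : c₀ ≤ Real.cos |arg (F w)| := by
      rw [Real.cos_abs, Complex.cos_arg (hne w h1 h2),
        le_div_iff₀ (norm_pos_iff.mpr (hne w h1 h2))]
      exact hsec w h1 h2
    have h4 := Real.arccos_le_arccos h3
    rwa [Real.arccos_cos (abs_nonneg _) (Complex.abs_arg_le_pi _)] at h4
  set P : ℂ → ℂ := fun w => Complex.exp (Complex.log (F w) / (κ : ℂ)) with hP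
  have hPnorm : ∀ w, r₀ < ‖w‖ → ‖w‖ < 1 → ‖P w‖ = ‖F w‖ ^ (1 / κ) := by
    intro w h1 h2
    have hpos : 0 < ‖F w‖ := norm_pos_iff.mpr (hne w h1 h2)
    rw [hP, Complex.norm_exp, Complex.div_ofReal_re, Complex.log_re, Real.rpow_def_of_pos hpos]
    congr 1
    ring
  have hPre : ∀ w, r₀ < ‖w‖ → ‖w‖ < 1 → 0 < (P w).re := by
    intro w h1 h2
    rw [hP, Complex.exp_re]
    apply mul_pos (Real.exp_pos _)
    rw [Complex.div_ofReal_im, Complex.log_im]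
    have h3 := abs_lt.mp (harg w h1 h2)
    apply Real.cos_pos_of_mem_Ioo
    constructor
    · rw [lt_div_iff₀ hκ0]; linarith
    · rw [div_lt_iff₀ hκ0]; linarith
  have hopen : IsOpen {w : ℂ | r₀ < ‖w‖ ∧ ‖w‖ < 1} :=
    (isOpen_lt continuous_const continuous_norm).inter (isOpen_lt continuous_norm continuous_const)
  have hPd : DifferentiableOn ℂ P {w | r₀ < ‖w‖ ∧ ‖w‖ < 1} := by
    intro w hw
    have h1 : DifferentiableAt ℂ F w := hF.differentiableAt (hopen.mem_nhds hw)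
    have h2 : F w ∈ slitPlane := by
      left
      have h3 : 0 < ‖F w‖ := norm_pos_iff.mpr (hne w hw.1 hw.2)
      have h4 := hsec w hw.1 hw.2
      nlinarith
    exact ((h1.clog h2).div_const _).cexp.differentiableWithinAt
  set ρ := (1 - r₀) / 2 with hρ
  have hρ0 : 0 < ρ := by rw [hρ]; linarith
  have hρ4 : ρ ≤ 1 / 4 := by rw [hρ]; linarith
  -- bounds on the circle
  have hsph : sphere (0 : ℂ) (1 - ρ) ⊆ {w | r₀ < ‖w‖ ∧ ‖w‖ < 1} := by
    intro w hw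
    rw [mem_sphere_zero_iff_norm] at hw
    constructor <;> rw [hw] <;> linarith
  have hcont : ContinuousOn (fun w => ‖P w‖) (sphere (0 : ℂ) (1 - ρ)) :=
    (hPd.continuousOn.mono hsph).norm
  have hnonempty : (sphere (0 : ℂ) (1 - ρ)).Nonempty :=
    NormedSpace.sphere_nonempty.mpr (by linarith)
  obtain ⟨x₁, hx₁, hmin⟩ := (isCompact_sphere (0 : ℂ) (1 - ρ)).exists_isMinOn hnonempty hcont
  obtain ⟨x₂, hx₂, hmax⟩ := (isCompact_sphere (0 : ℂ) (1 - ρ)).exists_isMaxOn hnonempty hcont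
  set m₁ := ‖P x₁‖ with hm₁
  set M₁ := ‖P x₂‖ with hM₁
  have hm₁0 : 0 < m₁ := by
    rw [hm₁, hP]; exact norm_pos_iff.mpr (Complex.exp_ne_zero _)
  have hM₁0 : 0 < M₁ := by
    rw [hM₁, hP]; exact norm_pos_iff.mpr (Complex.exp_ne_zero _)
  refine ⟨κ, ρ, (m₁ / (2 * ρ)) ^ κ, (2 * ρ * M₁) ^ κ, hκ0, hκ1, hρ0, hρ4,
    Real.rpow_pos_of_pos (by positivity) _, Real.rpow_pos_of_pos (by positivity) _, ?_⟩
  intro w hw1 hw2
  have hwpos : 0 < ‖w‖ := by linarith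
  have h1w : 0 < 1 - ‖w‖ := by linarith
  set c : ℂ := (((1 - ρ) / ‖w‖ : ℝ) : ℂ) * w with hc
  have hcn : ‖c‖ = 1 - ρ := by
    rw [hc, norm_mul, Complex.norm_real, Real.norm_eq_abs,
      abs_of_pos (div_pos (by linarith) hwpos)]
    field_simp
  have hwc : ‖w - c‖ = ‖w‖ - (1 - ρ) := by
    have : w - c = ((1 - (1 - ρ) / ‖w‖ : ℝ) : ℂ) * w := by
      rw [hc]; push_cast; ring
    rw [this, norm_mul, Complex.norm_real, Real.norm_eq_abs, abs_of_nonneg]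
    · field_simp
    · rw [sub_nonneg, div_le_one hwpos]; exact hw1
  have hcs : c ∈ sphere (0 : ℂ) (1 - ρ) := by rw [mem_sphere_zero_iff_norm, hcn]
  have hballsub : ball c ρ ⊆ {w | r₀ < ‖w‖ ∧ ‖w‖ < 1} := by
    intro z hz
    rw [mem_ball, dist_eq_norm] at hz
    constructor
    · have := norm_sub_norm_le c z
      rw [norm_sub_rev, hcn] at this
      linarith
    · have := norm_sub_norm_le z c
      rw [hcn] at this
      linarith
  have hwball : w ∈ ball c ρ := by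
    rw [mem_ball, dist_eq_norm, hwc]; linarith
  have hH := harnack (hPd.mono hballsub) (fun z hz => hPre z (hballsub hz).1 (hballsub hz).2) hwball
  have hr₀w : r₀ < ‖w‖ := by linarith
  have hq : 1 - ‖w - c‖ / ρ = (1 - ‖w‖) / ρ := by
    rw [hwc]; field_simp; ring
  have hq2 : 1 + ‖w - c‖ / ρ ≤ 2 := by
    have : ‖w - c‖ / ρ ≤ 1 := by rw [div_le_one hρ0, hwc]; linarith
    linarith
  rw [hq] at hH
  have hcM : ‖P c‖ ≤ M₁ := hmax hcs
  have hcm : m₁ ≤ ‖P c‖ := hmin hcs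
  have hup : ‖P w‖ ≤ 2 * ρ * M₁ / (1 - ‖w‖) := by
    rw [le_div_iff₀ h1w]
    have h3 : (1 - ‖w‖) / ρ * ‖P w‖ ≤ 2 * M₁ := by
      refine hH.1.trans ?_
      exact mul_le_mul hq2 hcM (norm_nonneg _) (by norm_num)
    have h4 : (1 - ‖w‖) / ρ * ‖P w‖ = ‖P w‖ * (1 - ‖w‖) / ρ := by ring
    rw [h4, div_le_iff₀ hρ0] at h3
    linarith
  have hlow : m₁ / (2 * ρ) * (1 - ‖w‖) ≤ ‖P w‖ := by
    have h3 : (1 - ‖w‖) / ρ * m₁ ≤ 2 * ‖P w‖ := by
      calc (1 - ‖w‖) / ρ * m₁ ≤ (1 - ‖w‖) / ρ * ‖P c‖ :=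
            mul_le_mul_of_nonneg_left hcm (by positivity)
        _ ≤ _ := hH.2
        _ ≤ _ := mul_le_mul_of_nonneg_right hq2 (norm_nonneg _)
    have h4 : m₁ / (2 * ρ) * (1 - ‖w‖) = (1 - ‖w‖) / ρ * m₁ / 2 := by
      field_simp
    rw [h4]; linarith
  have hFP : ‖F w‖ = ‖P w‖ ^ κ := by
    rw [hPnorm w hr₀w hw2, ← Real.rpow_mul (norm_nonneg _), one_div, inv_mul_cancel₀ hκ0.ne',
      Real.rpow_one]
  rw [hFP]
  constructor
  · rw [← Real.mul_rpow (by positivity) h1w.le]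
    exact Real.rpow_le_rpow (by positivity) hlow hκ0.le
  · rw [Real.rpow_neg h1w.le, ← div_eq_mul_inv, ← Real.div_rpow (by positivity) h1w.le]
    exact Real.rpow_le_rpow (norm_nonneg _) hup hκ0.le

end Pool.Agent.H5R3
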