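import Pool.Agent.H5R3.Growth

/-!
Growth bounds for `g'`.
-/

set_option autoImplicit false
open Complex Set Filter Metric Topology Function ComplexConjugate

namespace Pool.Agent.H5R3

lemma growth_deriv {U : Set ℂ} (hU : IsOpen U) {g φ : ℂ → ℂ} (hg : DifferentiableOn ℂ g (ball 0 1))
    (hgU : MapsTo g (ball 0 1) U) (hg' : ∀ z ∈ ball (0 : ℂ) 1, deriv g z ≠ 0)
    (hφ : DifferentiableOn ℂ φ U) (hφm : MapsTo φ U (ball 0 1)) (hgφ : ∀ z ∈ U, g (φ z) = z)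
    (hφg : ∀ z ∈ ball (0 : ℂ) 1, φ (g z) = z) {z₁ : ℂ} {δ R : ℝ} (hδ : 0 < δ)
    (hsub : ball z₁ δ ⊆ U) (hstar : ∀ z₂ ∈ ball z₁ δ, StarConvex ℝ z₂ U)
    (hR : ∀ x ∈ U, ∀ y ∈ U, ‖x - y‖ ≤ R) (hg0 : g 0 = z₁) :
    ∃ κ c C : ℝ, 0 < κ ∧ κ < 1 ∧ 0 < c ∧ 0 < C ∧ ∀ w ∈ ball (0 : ℂ) 1,
      c * (1 - ‖w‖) ^ κ ≤ ‖deriv g w‖ ∧ ‖deriv g w‖ ≤ C * (1 - ‖w‖) ^ (-κ) := by
  obtain ⟨r₀, c₀, hr0, hr1, hc0, hc1, hsec⟩ :=
    sector hU hg hgU hg' hφ hφm hgφ hφg hδ hsub hstar hR hg0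
  have hz1U : z₁ ∈ U := hsub (mem_ball_self hδ)
  have hdg : DifferentiableOn ℂ (deriv g) (ball 0 1) := hg.deriv isOpen_ball
  have hann : {w : ℂ | r₀ < ‖w‖ ∧ ‖w‖ < 1} ⊆ ball 0 1 := fun w hw => mem_ball_zero_iff.mpr hw.2
  have hFd : DifferentiableOn ℂ (fun w => w * deriv g w / (g w - z₁))
      {w | r₀ < ‖w‖ ∧ ‖w‖ < 1} :=
    (differentiableOn_id.mul (hdg.mono hann)).div ((hg.mono hann).sub_const _)
      (fun w hw => sub_ne_zero.mpr (hsec w hw.1 hw.2).1)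
  obtain ⟨κ, ρ, m, M, hκ0, hκ1, hρ0, hρ4, hm, hM, hgr⟩ := growth_F hr0 hr1 hc0 hc1 hFd
    (by
      intro w h1 h2
      have hw0 : w ≠ 0 := by intro h; rw [h, norm_zero] at h1; linarith
      exact div_ne_zero (mul_ne_zero hw0 (hg' w (mem_ball_zero_iff.mpr h2)))
        (sub_ne_zero.mpr (hsec w h1 h2).1))
    (fun w h1 h2 => (hsec w h1 h2).2)
  -- distance from `z₁`
  have hφz1 : φ z₁ = 0 := by rw [← hg0]; exact hφg 0 (mem_ball_self one_pos)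
  obtain ⟨r₁, hr₁0, hr₁⟩ : ∃ r₁ > 0, ∀ z ∈ U, ‖z - z₁‖ < r₁ → ‖φ z‖ < 1 / 2 := by
    have h1 : ContinuousAt φ z₁ := (hφ.differentiableAt (hU.mem_nhds hz1U)).continuousAt
    obtain ⟨r₁, h2, h3⟩ := Metric.continuousAt_iff.mp h1 (1 / 2) (by norm_num)
    refine ⟨r₁, h2, fun z _ hz => ?_⟩
    have := h3 (x := z) (by rwa [dist_eq_norm])
    rwa [hφz1, dist_zero_right] at this
  have hfar : ∀ w ∈ ball (0 : ℂ) 1, 1 / 2 ≤ ‖w‖ → r₁ ≤ ‖g w - z₁‖ := by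
    intro w hw h1
    by_contra h2
    push Not at h2
    have := hr₁ (g w) (hgU hw) h2
    rw [hφg w hw] at this
    linarith
  -- the compact part
  have hcb : closedBall (0 : ℂ) (1 - ρ) ⊆ ball 0 1 := closedBall_subset_ball (by linarith)
  have hcont : ContinuousOn (fun w => ‖deriv g w‖) (closedBall (0 : ℂ) (1 - ρ)) :=
    (hdg.continuousOn.mono hcb).norm
  have hnonempty : (closedBall (0 : ℂ) (1 - ρ)).Nonempty := ⟨0, mem_closedBall_self (by linarith)⟩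
  obtain ⟨x₁, hx₁, hmin⟩ := (isCompact_closedBall (0 : ℂ) (1 - ρ)).exists_isMinOn hnonempty hcont
  obtain ⟨x₂, hx₂, hmax⟩ := (isCompact_closedBall (0 : ℂ) (1 - ρ)).exists_isMaxOn hnonempty hcont
  set m₂ := ‖deriv g x₁‖ with hm₂
  set M₂ := ‖deriv g x₂‖ with hM₂
  have hm₂0 : 0 < m₂ := norm_pos_iff.mpr (hg' x₁ (hcb hx₁))
  have hM₂0 : 0 < M₂ := norm_pos_iff.mpr (hg' x₂ (hcb hx₂))
  have hRnn : 0 ≤ R := (norm_nonneg _).trans (hR z₁ hz1U z₁ hz1U)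
  refine ⟨κ, min m₂ (m * r₁), max M₂ (2 * M * R), hκ0, hκ1, lt_min hm₂0 (by positivity),
    lt_max_of_lt_left hM₂0, ?_⟩
  intro w hw
  have hw1 := mem_ball_zero_iff.mp hw
  have h1w : 0 < 1 - ‖w‖ := by linarith
  have hpow1 : (1 - ‖w‖) ^ κ ≤ 1 :=
    Real.rpow_le_one h1w.le (by linarith [norm_nonneg w]) hκ0.le
  have hpow2 : 1 ≤ (1 - ‖w‖) ^ (-κ) := by
    apply Real.one_le_rpow_of_pos_of_le_one_of_nonpos h1w (by linarith [norm_nonneg w])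
    linarith
  have hpow0 : 0 < (1 - ‖w‖) ^ κ := Real.rpow_pos_of_pos h1w _
  rcases le_or_gt ‖w‖ (1 - ρ) with h | h
  · have hwc : w ∈ closedBall (0 : ℂ) (1 - ρ) := by rwa [mem_closedBall_zero_iff]
    have e1 : m₂ ≤ ‖deriv g w‖ := hmin hwc
    have e2 : ‖deriv g w‖ ≤ M₂ := hmax hwc
    constructor
    · calc min m₂ (m * r₁) * (1 - ‖w‖) ^ κ ≤ m₂ * 1 :=
            mul_le_mul (min_le_left _ _) hpow1 hpow0.le hm₂0.le
        _ ≤ _ := by linarith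
    · calc ‖deriv g w‖ ≤ M₂ * 1 := by linarith
        _ ≤ max M₂ (2 * M * R) * (1 - ‖w‖) ^ (-κ) :=
            mul_le_mul (le_max_left _ _) hpow2 zero_le_one (hM₂0.le.trans (le_max_left _ _))
  · obtain ⟨h1, h2⟩ := hgr w h.le hw1
    have hr₀w : r₀ < ‖w‖ ∨ True := Or.inr trivial
    have hw2 : 1 / 2 ≤ ‖w‖ := by linarith
    have hwpos : 0 < ‖w‖ := by linarith
    have hfw := hfar w hw hw2
    have hdpos : 0 < ‖g w - z₁‖ := lt_of_lt_of_le hr₁0 hfw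
    have heq : ‖w * deriv g w / (g w - z₁)‖ = ‖w‖ * ‖deriv g w‖ / ‖g w - z₁‖ := by
      rw [norm_div, norm_mul]
    rw [heq] at h1 h2
    rw [le_div_iff₀ hdpos] at h1
    rw [div_le_iff₀ hdpos] at h2
    have hRw : ‖g w - z₁‖ ≤ R := hR _ (hgU hw) _ hz1U
    constructor
    · calc min m₂ (m * r₁) * (1 - ‖w‖) ^ κ ≤ (m * r₁) * (1 - ‖w‖) ^ κ :=
            mul_le_mul_of_nonneg_right (min_le_right _ _) hpow0.le
        _ = m * (1 - ‖w‖) ^ κ * r₁ := by ring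
        _ ≤ m * (1 - ‖w‖) ^ κ * ‖g w - z₁‖ := mul_le_mul_of_nonneg_left hfw (by positivity)
        _ ≤ ‖w‖ * ‖deriv g w‖ := h1
        _ ≤ 1 * ‖deriv g w‖ := mul_le_mul_of_nonneg_right hw1.le (norm_nonneg _)
        _ = _ := one_mul _
    · have hneg : 0 < (1 - ‖w‖) ^ (-κ) := lt_of_lt_of_le one_pos hpow2
      have h3 : ‖deriv g w‖ ≤ 2 * (‖w‖ * ‖deriv g w‖) := by
        nlinarith [norm_nonneg (deriv g w)]
      calc ‖deriv g w‖ ≤ 2 * (‖w‖ * ‖deriv g w‖) := h3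
        _ ≤ 2 * (M * (1 - ‖w‖) ^ (-κ) * ‖g w - z₁‖) := by linarith
        _ ≤ 2 * (M * (1 - ‖w‖) ^ (-κ) * R) := by
            have : M * (1 - ‖w‖) ^ (-κ) * ‖g w - z₁‖ ≤ M * (1 - ‖w‖) ^ (-κ) * R :=
              mul_le_mul_of_nonneg_left hRw (by positivity)
            linarith
        _ = 2 * M * R * (1 - ‖w‖) ^ (-κ) := by ring
        _ ≤ _ := mul_le_mul_of_nonneg_right (le_max_right _ _) hneg.le

end Pool.Agent.H5R3
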