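import Pool.Agent.H5R3.Task469A
import Pool.Agent.H180R3.Task469E

set_option autoImplicit false

/-! SELBERG-PROJECT: assembly of tasks A and E: `Hoheisel` from `BT2` and `SelbergShort`. -/

namespace Pool.Agent.H5R3.T469H

open Pool.Agent.H469R10.HO

theorem structureLemma180 : Pool.Agent.H180R3.StructureLemma' := T469A.structureLemma'

theorem hoheisel_of_BT_Selberg (h1 : BT2) (h2 : SelbergShort) : Hoheisel :=
  Pool.Agent.H180R3.E469.hoheisel_of structureLemma180 h1 h2

end Pool.Agent.H5R3.T469H
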