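import Mathlib
import Pool.Agent.H870R4.Noz.Stmts

/-! TaskCollar of project H870-NOZ (helper5) -/

set_option autoImplicit false

open MeasureTheory Set
open scoped ContDiff

namespace Pool.Agent.H5R3.NozCollar

open H870N

lemma arct (t : ℝ) : (1 + (t : ℂ) * Complex.I) / (1 - (t : ℂ) * Complex.I) =
    Complex.exp (Complex.I * ((2 * Real.arctan t : ℝ) : ℂ)) := by
  obtain ⟨φ, hφ⟩ : ∃ φ : ℝ, φ = Real.arctan t := ⟨_, rfl⟩
  have hc : 0 < Real.cos φ := by rw [hφ]; exact Real.cos_arctan_pos t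
  have ht : t * Real.cos φ = Real.sin φ := by
    have h1 : Real.tan φ = t := by rw [hφ]; exact Real.tan_arctan t
    rw [← h1, Real.tan_eq_sin_div_cos]
    field_simp
  have hcC : (Complex.cos (φ : ℂ)) ≠ 0 := by
    rw [← Complex.ofReal_cos]; exact_mod_cast hc.ne'
  have htC : (t : ℂ) * Complex.cos φ = Complex.sin φ := by
    rw [← Complex.ofReal_cos, ← Complex.ofReal_sin]; exact_mod_cast ht
  have e1 : Complex.exp (φ * Complex.I) = Complex.cos φ * (1 + (t : ℂ) * Complex.I) := by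
    rw [Complex.exp_mul_I, ← htC]; ring
  have e2 : Complex.exp (-(φ * Complex.I)) = Complex.cos φ * (1 - (t : ℂ) * Complex.I) := by
    rw [← neg_mul, Complex.exp_mul_I, Complex.cos_neg, Complex.sin_neg, ← htC]; ring
  have hn : (1 - (t : ℂ) * Complex.I) ≠ 0 := by
    intro h
    rw [h, mul_zero] at e2
    exact Complex.exp_ne_zero _ e2
  rw [← hφ, div_eq_iff hn]
  have e3 : Complex.exp (Complex.I * ((2 * φ : ℝ) : ℂ)) =
      Complex.exp (φ * Complex.I) * Complex.exp (φ * Complex.I) := by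
    rw [← Complex.exp_add]; congr 1; push_cast; ring
  have e4 : Complex.exp (φ * Complex.I) * Complex.exp (-(φ * Complex.I)) = 1 := by
    rw [← Complex.exp_add]; simp
  rw [e3]
  have e5 : Complex.cos φ * (1 + (t : ℂ) * Complex.I) =
      Complex.cos φ * (Complex.exp (φ * Complex.I) * Complex.exp (φ * Complex.I) *
        (1 - (t : ℂ) * Complex.I)) := by
    rw [← e1]
    calc Complex.exp (φ * Complex.I) = Complex.exp (φ * Complex.I) *
        (Complex.exp (φ * Complex.I) * Complex.exp (-(φ * Complex.I))) := by rw [e4, mul_one]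
      _ = _ := by rw [e2]; ring
  exact mul_left_cancel₀ hcC e5

lemma Bp_val (κ θ : ℝ) (hθ : |θ| ≤ 1 / 4) :
    Bp (Complex.exp (κ + (1 + Complex.I) * θ)) =
      Complex.I * ((Real.exp (-κ - 2 * θ) : ℝ) : ℂ) * Complex.exp (Complex.I * κ) := by
  have him : ((κ : ℂ) + (1 + Complex.I) * θ).im = θ := by simp
  have hpi := Real.pi_gt_three
  obtain ⟨h1, h2⟩ := abs_le.1 hθ
  unfold Bp
  rw [Complex.log_exp (by rw [him]; linarith) (by rw [him]; linarith), Complex.ofReal_exp,
    mul_assoc, ← Complex.exp_add]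
  congr 2
  push_cast
  linear_combination ((κ : ℂ) * 0 + θ) * Complex.I_sq

lemma al_deriv (δ κ e : ℝ) (θ : ℝ → ℝ) (y : ℝ) (hθ : DifferentiableAt ℝ θ y) :
    HasDerivAt (al δ κ e θ)
      (e * (2 * (1 / (1 + (δ * Real.exp (-κ - 2 * θ y)) ^ 2) *
        (δ * (Real.exp (-κ - 2 * θ y) * -(2 * deriv θ y)))))) y := by
  have h1 : HasDerivAt (fun y => -κ - 2 * θ y) (-(2 * deriv θ y)) y :=
    (hθ.hasDerivAt.const_mul 2).const_sub (-κ)
  exact (((h1.exp.const_mul δ).arctan).const_mul 2).const_mul e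

theorem collar : TaskCollar := by
  intro hCore hSm
  obtain ⟨δ₀, hδ₀, hcore⟩ := hCore
  refine ⟨min δ₀ (1 / 10 ^ 9), lt_min hδ₀ (by norm_num), ?_⟩
  intro δ κ e σ q θ hδ hδle hinv hcur hκe
  have hδ1 : δ ≤ δ₀ := hδle.trans (min_le_left _ _)
  have hδ2 : δ ≤ 1 / 10 ^ 9 := hδle.trans (min_le_right _ _)
  have he2 : e * e = 1 := by rcases hκe with ⟨-, h⟩ | ⟨-, h⟩ <;> rw [h] <;> norm_num
  have hI : IsOpen (Ioo (-(1 / 180) : ℝ) (1 / 180)) := isOpen_Ioo
  have hθd : ∀ y ∈ Ioo (-(1 / 180) : ℝ) (1 / 180), DifferentiableAt ℝ θ y := fun y hy =>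
    (hcur.hθ.differentiableOn (by simp)).differentiableAt (hI.mem_nhds hy)
  have hqd : ∀ y ∈ Ioo (-(1 / 180) : ℝ) (1 / 180), DifferentiableAt ℝ q y := fun y hy =>
    (hcur.hq.differentiableOn (by simp)).differentiableAt (hI.mem_nhds hy)
  obtain ⟨k, hk⟩ : ∃ k : ℝ → ℝ, k = fun y => δ * Real.exp (-κ - 2 * θ y) := ⟨_, rfl⟩
  have hkv : ∀ y, δ * Real.exp (-κ - 2 * θ y) = k y := fun y => by rw [hk]
  have hkpos : ∀ y, 0 < k y := fun y => by rw [hk]; positivity
  have hkle : ∀ y ∈ Ioo (-(1 / 180) : ℝ) (1 / 180), k y ≤ 64 * δ := by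
    intro y hy
    have h1 := abs_le.1 (hcur.small y hy)
    have h2 : -κ - 2 * θ y ≤ 4 := by
      have := Real.pi_lt_d2
      have := Real.pi_pos
      rcases hκe with ⟨h, -⟩ | ⟨h, -⟩ <;> rw [h] <;> linarith
    have h3 : Real.exp 4 ≤ 64 := by
      have h4 : Real.exp 1 ≤ 2.8 := by have := Real.exp_one_lt_d9; linarith
      have h5 : Real.exp 4 = Real.exp 1 ^ 4 := by rw [← Real.exp_nat_mul]; norm_num
      rw [h5]
      calc Real.exp 1 ^ 4 ≤ 2.8 ^ 4 := pow_le_pow_left₀ (Real.exp_pos 1).le h4 4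
        _ ≤ 64 := by norm_num
    rw [← hkv, mul_comm]
    exact mul_le_mul_of_nonneg_right ((Real.exp_le_exp.2 h2).trans h3) hδ.le
  have hald : ∀ y ∈ Ioo (-(1 / 180) : ℝ) (1 / 180), HasDerivAt (al δ κ e θ)
      (-(4 * e * deriv θ y * (k y / (1 + k y ^ 2)))) y := by
    intro y hy
    have h1 := al_deriv δ κ e θ y (hθd y hy)
    convert h1 using 1
    rw [← hkv]
    have : (1 + (δ * Real.exp (-κ - 2 * θ y)) ^ 2) ≠ 0 := by positivity
    field_simp
    ring
  have hBp : ∀ y ∈ Ioo (-(1 / 180) : ℝ) (1 / 180),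
      (δ : ℂ) * Bp (σ ⟨q y, y⟩) = -(((e * k y : ℝ) : ℂ) * Complex.I) := by
    intro y hy
    rw [hcur.eq y hy, Bp_val κ (θ y) (hcur.small y hy)]
    have h1 : Complex.exp (Complex.I * κ) = -(e : ℂ) := by
      rcases hκe with ⟨h, h'⟩ | ⟨h, h'⟩
      · rw [h, h']
        have : Complex.I * ((-Real.pi : ℝ) : ℂ) = -(Real.pi * Complex.I) := by push_cast; ring
        rw [this, Complex.exp_neg, Complex.exp_pi_mul_I]
        norm_num
      · rw [h, h']
        have : Complex.I * ((2 * Real.pi : ℝ) : ℂ) = 2 * Real.pi * Complex.I := by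
          push_cast; ring
        rw [this, Complex.exp_two_pi_mul_I]
        norm_num
    rw [h1, ← hkv]
    push_cast
    ring
  have hal2 : ∀ y, al δ κ e θ y = 2 * Real.arctan (e * k y) := by
    intro y
    rw [al, hkv]
    rcases hκe with ⟨-, h'⟩ | ⟨-, h'⟩
    · rw [h']; simp
    · rw [h', neg_one_mul, neg_one_mul, Real.arctan_neg]; ring
  have hfirst : ∀ y ∈ Ioo (-(1 / 180) : ℝ) (1 / 180),
      (1 - δ * Bp (σ ⟨q y, y⟩)) / (1 + δ * Bp (σ ⟨q y, y⟩)) =
        Complex.exp (Complex.I * al δ κ e θ y) := by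
    intro y hy
    rw [hBp y hy, hal2 y, ← arct (e * k y), sub_neg_eq_add, ← sub_eq_add_neg]
  have hder : ∀ y ∈ Ioo (-(1 / 180) : ℝ) (1 / 180), deriv (al δ κ e θ) y =
      -(4 * e * deriv θ y * (k y / (1 + k y ^ 2))) := fun y hy => (hald y hy).deriv
  have hθc : ContinuousOn θ (Ioo (-(1 / 180) : ℝ) (1 / 180)) := hcur.hθ.continuousOn
  have hθ'c : ContinuousOn (deriv θ) (Ioo (-(1 / 180) : ℝ) (1 / 180)) :=
    hcur.hθ.continuousOn_deriv_of_isOpen hI (by simp)
  have hkc : ContinuousOn k (Ioo (-(1 / 180) : ℝ) (1 / 180)) := by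
    rw [hk]
    exact continuousOn_const.mul ((continuousOn_const.sub (continuousOn_const.mul hθc)).rexp)
  refine ⟨fun y hy => ⟨hfirst y hy, ?_, ?_⟩, ?_, ?_, ?_⟩
  · unfold Vm
    rw [hBp y hy]
    have h1 : ‖1 + -(((e * k y : ℝ) : ℂ) * Complex.I)‖ =
        ‖1 - -(((e * k y : ℝ) : ℂ) * Complex.I)‖ := by
      rw [← Complex.norm_conj (1 + -(((e * k y : ℝ) : ℂ) * Complex.I))]
      congr 1
      rw [map_add, map_neg, map_mul, Complex.conj_I, Complex.conj_ofReal, map_one]
      ring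
    rw [h1, div_self]
    have h2 : (1 - -(((e * k y : ℝ) : ℂ) * Complex.I)) ≠ 0 := by
      intro h
      have := congrArg Complex.re h
      simp at this
    exact norm_ne_zero_iff.2 h2
  · rw [hder y hy]
    have h1 := (hcur.dpos y hy).1
    have h2 : 0 < k y / (1 + k y ^ 2) := div_pos (hkpos y) (by positivity)
    have h3 : 0 < deriv θ y * (k y / (1 + k y ^ 2)) := mul_pos h1 h2
    have h4 : e * -(4 * e * deriv θ y * (k y / (1 + k y ^ 2))) =
        -(4 * (e * e) * (deriv θ y * (k y / (1 + k y ^ 2)))) := by ring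
    rw [h4, he2]
    linarith
  · refine ContinuousOn.congr ?_ hder
    refine ((continuousOn_const.mul hθ'c).mul (hkc.div (continuousOn_const.add (hkc.pow 2)) ?_)).neg
    intro y _
    change (1 : ℝ) + k y ^ 2 ≠ 0
    positivity
  · exact fun y hy => (hald y hy).continuousAt.continuousWithinAt
  · intro w hw
    obtain ⟨w1, w2, w3⟩ := hw
    have hy : w.im ∈ Ioo (-(1 / 180) : ℝ) (1 / 180) := by
      have := abs_lt.1 w3
      exact ⟨by linarith [this.1], this.2⟩
    obtain ⟨y, hyd⟩ : ∃ y, y = w.im := ⟨_, rfl⟩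
    rw [← hyd] at hy
    obtain ⟨A', hA'⟩ : ∃ A' : ℝ, A' = deriv (al δ κ e θ) y := ⟨_, rfl⟩
    have hA : HasDerivAt (al δ κ e θ) A' y := by
      rw [hA', hder y hy]; exact hald y hy
    obtain ⟨q', hq'⟩ : ∃ q' : ℝ, q' = deriv q y := ⟨_, rfl⟩
    have hqD : HasDerivAt q q' y := by rw [hq']; exact (hqd y hy).hasDerivAt
    obtain ⟨E, hE⟩ : ∃ E : ℂ, E = Complex.exp (Complex.I * al δ κ e θ y) := ⟨_, rfl⟩
    have hmem := hcur.mem y hy
    have hmem2 : (⟨q y, y⟩ : ℂ) ∈ crect (1 / 32) 550 (1 / 180) := by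
      obtain ⟨m1, m2, m3⟩ := hmem
      exact ⟨by linarith, by linarith, m3⟩
    have hZ := (hcore δ σ hδ hδ1 hinv _ hmem2).2.1
    rw [hfirst y hy, ← hE] at hZ
    have hγ : HasDerivAt (fun y : ℝ => (⟨q y, y⟩ : ℂ)) ((q' : ℂ) + Complex.I) y := by
      have h1 : HasDerivAt (fun y : ℝ => ((q y : ℝ) : ℂ) + (y : ℂ) * Complex.I)
          ((q' : ℂ) + ((1 : ℝ) : ℂ) * Complex.I) y :=
        hqD.ofReal_comp.add (((hasDerivAt_id y).ofReal_comp).mul_const Complex.I)
      rw [Complex.ofReal_one, one_mul] at h1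
      refine h1.congr_of_eventuallyEq (Filter.Eventually.of_forall fun y => ?_)
      simp only
      rw [← Complex.mk_eq_add_mul_I]
    have hg : HasDerivAt (fun y : ℝ => ((⟨q y, y⟩ : ℂ) - 2 * δ * Bf (σ ⟨q y, y⟩)))
        (E * ((q' : ℂ) + Complex.I)) y := HasDerivAt.comp (h := fun y : ℝ => (⟨q y, y⟩ : ℂ)) y hZ hγ
    have hEd : HasDerivAt (fun y : ℝ => Complex.exp (Complex.I * al δ κ e θ y))
        (E * (Complex.I * A')) y := by
      have h1 := (hA.ofReal_comp.const_mul Complex.I).cexp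
      rw [← hE] at h1
      exact h1
    have hG : HasDerivAt (fun y : ℝ => ((⟨q y, y⟩ : ℂ) - 2 * δ * Bf (σ ⟨q y, y⟩)) -
        (q y : ℂ) * Complex.exp (Complex.I * al δ κ e θ y))
        (E * ((q' : ℂ) + Complex.I) - ((q' : ℂ) * E + (q y : ℂ) * (E * (Complex.I * A')))) y := by
      have h1 := hg.sub (hqD.ofReal_comp.mul hEd)
      rw [← hE] at h1
      exact h1
    have hre : HasFDerivAt (fun w : ℂ => ((w.re : ℝ) : ℂ))
        (Complex.ofRealCLM.comp Complex.reCLM) w :=
      (Complex.ofRealCLM.comp Complex.reCLM).hasFDerivAt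
    rw [hyd] at hG hEd
    have hG2 := hG.hasFDerivAt.comp w Complex.imCLM.hasFDerivAt
    have hE2 := hEd.hasFDerivAt.comp w Complex.imCLM.hasFDerivAt
    have htot := hG2.add (hre.mul hE2)
    have habs : ‖E - 1‖ ≤ 1 / 16 := by
      rw [hE]
      refine (Real.norm_exp_I_mul_ofReal_sub_one_le).trans ?_
      rw [hal2 y, Real.norm_eq_abs, abs_mul, abs_of_pos (by norm_num : (0 : ℝ) < 2)]
      have h1 : |Real.arctan (e * k y)| ≤ k y := by
        have h2 : |Real.arctan (e * k y)| = Real.arctan (k y) := by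
          rcases hκe with ⟨-, h'⟩ | ⟨-, h'⟩
          · rw [h', one_mul, abs_of_pos (Real.arctan_pos.2 (hkpos y))]
          · rw [h', neg_one_mul, Real.arctan_neg, abs_neg,
              abs_of_pos (Real.arctan_pos.2 (hkpos y))]
        rw [h2]
        have h9 := Real.le_tan (Real.arctan_pos.2 (hkpos y)).le (Real.arctan_lt_pi_div_two (k y))
        rwa [Real.tan_arctan] at h9
      have h3 := hkle y hy
      linarith
    refine ⟨?_, ?_, ?_⟩
    · refine (htot.congr_fderiv ?_).congr_of_eventuallyEq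
        (Filter.Eventually.of_forall fun z => ?_)
      · ext v
        simp only [add_apply, smul_apply,
          ContinuousLinearMap.comp_apply, ContinuousLinearMap.smulRight_apply,
          Complex.reCLM_apply, Complex.imCLM_apply, Complex.ofRealCLM_apply,
          ContinuousLinearMap.toSpanSingleton_apply, Function.comp_apply, smul_eq_mul,
          Complex.real_smul, ← hyd, ← hE, ← hA']
        push_cast
        ring
      · simp only [Yk, Pi.add_apply, Pi.mul_apply, Function.comp_apply, Complex.imCLM_apply]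
        push_cast
        ring
    · rw [← hyd, ← hE]; exact habs
    · rw [← hyd, ← hE, ← hA']
      have hEn : ‖E‖ = 1 := by
        rw [hE, mul_comm, Complex.norm_exp_ofReal_mul_I]
      have h1 : Complex.I * E * ((1 + (w.re - q y) * A' : ℝ) : ℂ) - Complex.I =
          Complex.I * ((E - 1) + E * (((w.re - q y) * A' : ℝ) : ℂ)) := by
        push_cast; ring
      rw [h1, norm_mul, Complex.norm_I, one_mul]
      refine (norm_add_le _ _).trans ?_
      rw [norm_mul, hEn, one_mul, Complex.norm_real, Real.norm_eq_abs, abs_mul]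
      have h2 : |w.re - q y| ≤ 550 := by
        obtain ⟨m1, m2, -⟩ := hmem
        simp only at m1 m2
        rw [abs_le]; constructor <;> linarith
      have h3 : |A'| ≤ 400 * (64 * δ) := by
        rw [hA', hder y hy, abs_neg]
        obtain ⟨d1, d2⟩ := hcur.dpos y hy
        have he : |e| = 1 := by
          rcases hκe with ⟨-, h'⟩ | ⟨-, h'⟩ <;> rw [h'] <;> norm_num
        have h4 : 0 ≤ k y / (1 + k y ^ 2) := (div_pos (hkpos y) (by positivity)).le
        have h5 : k y / (1 + k y ^ 2) ≤ 64 * δ :=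
          (div_le_self (hkpos y).le (by nlinarith [hkpos y])).trans (hkle y hy)
        rw [abs_mul, abs_mul, abs_mul, he, abs_of_pos d1, abs_of_nonneg h4,
          abs_of_pos (by norm_num : (0 : ℝ) < 4), mul_one]
        calc 4 * deriv θ y * (k y / (1 + k y ^ 2)) ≤ (4 * 100) * (64 * δ) :=
              mul_le_mul (by linarith) h5 h4 (by norm_num)
          _ = _ := by norm_num
      have h6 : |w.re - q y| * |A'| ≤ 550 * (400 * (64 * δ)) :=
        mul_le_mul h2 h3 (abs_nonneg _) (by norm_num)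
      have h7 : 550 * (400 * (64 * δ)) ≤ 1 / 16 := by
        have : 550 * (400 * (64 * δ)) = 14080000 * δ := by ring
        rw [this]
        linarith
      linarith

end Pool.Agent.H5R3.NozCollar
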