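import Pool.Agent.H572R4.Stmts

/-!
# Project H572-PI (S15622): task C8, hardness at level zero
-/

set_option autoImplicit false

namespace Pool.Agent.H5R3.PIC8

open Pool.Agent.H572R4 Pool.Agent.Helper446.Defs Pool.Agent.Helper446.CB
open Pool.Agent.Helper446

/-- every c.e. subset of a cohesive co-c.e. set is finite -/
def Imm : Prop := ∀ C : Set ℕ, CohS C → ∀ W : Set ℕ, REPred (fun x => x ∈ W) → W ⊆ C → W.Finite

theorem c_y : Computable (fun x : ℕ => x.unpair.2.unpair.1) := by
  have h1 : Computable (fun x : ℕ => x.unpair) := Computable.unpair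
  have h2 : Computable (fun x : ℕ => x.unpair.2) := Computable.snd.comp h1
  have h3 : Computable (fun x : ℕ => x.unpair.2.unpair) := Computable.unpair.comp h2
  exact Computable.fst.comp h3

theorem c_w : Computable (fun x : ℕ => x.unpair.2.unpair.2) := by
  have h1 : Computable (fun x : ℕ => x.unpair) := Computable.unpair
  have h2 : Computable (fun x : ℕ => x.unpair.2) := Computable.snd.comp h1
  have h3 : Computable (fun x : ℕ => x.unpair.2.unpair) := Computable.unpair.comp h2
  exact Computable.snd.comp h3

theorem c_n : Computable (fun x : ℕ => x.unpair.1) := Computable.fst.comp Computable.unpair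

theorem cr_inter {R S : Set ℕ} (h1 : CR R) (h2 : CR S) : CR (R ∩ S) := cp_and h1 h2
theorem cr_union {R S : Set ℕ} (h1 : CR R) (h2 : CR S) : CR (R ∪ S) := cp_or h1 h2
theorem cr_compl {R : Set ℕ} (h1 : CR R) : CR Rᶜ := ComputablePred.not h1
theorem cr_diff {R S : Set ℕ} (h1 : CR R) (h2 : CR S) : CR (R \ S) := cp_and h1 (cr_compl h2)
theorem cr_empty : CR (∅ : Set ℕ) := by
  have h : ComputablePred (fun x : ℕ => x = x + 1) :=
    RE.cp_eq Computable.id Computable.succ
  refine h.of_eq fun x => ?_
  constructor
  · intro h; omega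
  · intro h; exact absurd h (Set.notMem_empty x)

theorem cr_y (y : ℕ) : CR {x : ℕ | x.unpair.2.unpair.1 = y} := RE.cp_eq c_y (Computable.const y)
theorem cr_w (y : ℕ) : CR {x : ℕ | x.unpair.2.unpair.2 = y} := RE.cp_eq c_w (Computable.const y)

theorem cr_wF (F : Finset ℕ) : CR {x : ℕ | x.unpair.2.unpair.2 ∈ F} := by
  induction F using Finset.induction_on with
  | empty =>
    refine ComputablePred.of_eq cr_empty fun x => ?_
    simp
  | insert a s ha ih =>
    refine ComputablePred.of_eq (cr_union (cr_w a) ih) fun x => ?_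
    simp

theorem cr_lt (y0 : ℕ) : CR {x : ℕ | x.unpair.2.unpair.1 < y0} :=
  RE.cp_lt c_y (Computable.const y0)

/-- the coded set -/
def AA (C : Set ℕ) (I : ℕ → ℕ → ℕ → Prop) : Set ℕ :=
  {x | x.unpair.2.unpair.1 ∉ C ∨ I x.unpair.1 x.unpair.2.unpair.1 x.unpair.2.unpair.2}

theorem taskC8' (him : Imm) : TaskC8 := by
  classical
  intro hB h7 D hD
  obtain ⟨C, hC⟩ := hB
  have hD3 : Pi 3 D := hD.1 (by decide)
  obtain ⟨I, hI, hdown, hmono, hDD⟩ := h7 D hD3
  refine ⟨fun _ => AA C I, fun _ => ?_, fun _ _ _ _ => subset_rfl, ?_⟩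
  · refine RE.or (RE.comp hC.2.1 c_y) ?_
    exact RE.comp (f := fun x : ℕ => ((x.unpair.1, x.unpair.2.unpair.1), x.unpair.2.unpair.2)) hI
      ((c_n.pair c_y).pair c_w)
  intro n
  show ¬ CR (row n ∩ AA C I) ↔ D n
  constructor
  · intro h
    by_contra hDn
    apply h
    rw [hDD] at hDn
    push Not at hDn
    obtain ⟨a0, ha0⟩ := hDn
    -- columns
    have hcol : ∀ a, CR (row n ∩ AA C I ∩ {x | x.unpair.2.unpair.1 = a}) := by
      intro a
      by_cases hw : a ∉ C ∨ ∀ i, I n a i
      · have e : row n ∩ AA C I ∩ {x | x.unpair.2.unpair.1 = a}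
            = row n ∩ {x | x.unpair.2.unpair.1 = a} := by
          ext x
          constructor
          · rintro ⟨⟨h1, _⟩, h2⟩
            exact ⟨h1, h2⟩
          · rintro ⟨h1, h2⟩
            have h1' : x.unpair.1 = n := h1
            have h2' : x.unpair.2.unpair.1 = a := h2
            refine ⟨⟨h1, ?_⟩, h2⟩
            rcases hw with hw | hw
            · left
              rw [h2']
              exact hw
            · right
              rw [h1', h2']
              exact hw _
        rw [e]
        exact cr_inter (cr_row n) (cr_y a)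
      · push Not at hw
        obtain ⟨hw1, i0, hi0⟩ := hw
        have e : row n ∩ AA C I ∩ {x | x.unpair.2.unpair.1 = a}
            = (row n ∩ {x | x.unpair.2.unpair.1 = a}) ∩
              {x | x.unpair.2.unpair.2 ∈ (Finset.range i0).filter (fun i => I n a i)} := by
          ext x
          constructor
          · rintro ⟨⟨h1, h3⟩, h2⟩
            have h1' : x.unpair.1 = n := h1
            have h2' : x.unpair.2.unpair.1 = a := h2
            refine ⟨⟨h1, h2⟩, ?_⟩
            rcases h3 with h3 | h3
            · rw [h2'] at h3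
              exact absurd hw1 h3
            · rw [h1', h2'] at h3
              show x.unpair.2.unpair.2 ∈ (Finset.range i0).filter (fun i => I n a i)
              rw [Finset.mem_filter, Finset.mem_range]
              refine ⟨?_, h3⟩
              by_contra hc
              exact hi0 (hdown n a i0 _ (not_lt.1 hc) h3)
          · rintro ⟨⟨h1, h2⟩, h3⟩
            have h1' : x.unpair.1 = n := h1
            have h2' : x.unpair.2.unpair.1 = a := h2
            have h3' : x.unpair.2.unpair.2 ∈ (Finset.range i0).filter (fun i => I n a i) := h3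
            rw [Finset.mem_filter] at h3'
            refine ⟨⟨h1, Or.inr ?_⟩, h2⟩
            rw [h1', h2']
            exact h3'.2
        rw [e]
        exact cr_inter (cr_inter (cr_row n) (cr_y a)) (cr_wF _)
    have hlow : ∀ m, CR (row n ∩ AA C I ∩ {x | x.unpair.2.unpair.1 < m}) := by
      intro m
      induction m with
      | zero =>
        refine ComputablePred.of_eq cr_empty fun x => ?_
        constructor
        · intro h
          exact absurd h (Set.notMem_empty x)
        · rintro ⟨_, h⟩
          exact absurd h (Nat.not_lt_zero _)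
      | succ m ih =>
        refine ComputablePred.of_eq (cr_union ih (hcol m)) fun x => ?_
        constructor
        · rintro (⟨h1, h2⟩ | ⟨h1, h2⟩)
          · refine ⟨h1, ?_⟩
            have h2' : x.unpair.2.unpair.1 < m := h2
            show x.unpair.2.unpair.1 < m + 1
            omega
          · refine ⟨h1, ?_⟩
            have h2' : x.unpair.2.unpair.1 = m := h2
            show x.unpair.2.unpair.1 < m + 1
            omega
        · rintro ⟨h1, h2⟩
          have h2' : x.unpair.2.unpair.1 < m + 1 := h2
          rcases Nat.lt_succ_iff_lt_or_eq.1 h2' with h3 | h3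
          · exact Or.inl ⟨h1, h3⟩
          · exact Or.inr ⟨h1, h3⟩
    refine ComputablePred.of_eq (cr_union (hlow a0) (cr_diff (cr_row n) (cr_lt a0))) fun x => ?_
    constructor
    · rintro (⟨h1, _⟩ | ⟨h1, h2⟩)
      · exact h1
      · refine ⟨h1, Or.inr ?_⟩
        have h1' : x.unpair.1 = n := h1
        have h2' : ¬ x.unpair.2.unpair.1 < a0 := h2
        rw [h1']
        exact hmono n a0 _ (not_lt.1 h2') ha0 _
    · rintro h1
      by_cases h2 : x.unpair.2.unpair.1 < a0
      · exact Or.inl ⟨h1, h2⟩
      · exact Or.inr ⟨h1.1, h2⟩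
  · intro hDn hcr
    rw [hDD] at hDn
    have hre : REPred (fun a => a ∈ {a : ℕ | ∃ i, ¬ (Nat.pair n (Nat.pair a i) ∈ row n ∩ AA C I)}) := by
      have h1 : REPred (fun x : ℕ => ¬ (x ∈ row n ∩ AA C I)) := RE.of_comput (ComputablePred.not hcr)
      have h2 : Computable (fun z : ℕ × ℕ => Nat.pair n (Nat.pair z.1 z.2)) :=
        (Primrec₂.natPair.to_comp).comp (Computable.const n)
          ((Primrec₂.natPair.to_comp).comp Computable.fst Computable.snd)
      exact RE.exN (p := fun a i => ¬ (Nat.pair n (Nat.pair a i) ∈ row n ∩ AA C I)) (RE.comp h1 h2)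
    have hsub : {a : ℕ | ∃ i, ¬ (Nat.pair n (Nat.pair a i) ∈ row n ∩ AA C I)} ⊆ C := by
      rintro a ⟨i, hi⟩
      by_contra hc
      apply hi
      refine ⟨?_, Or.inl ?_⟩
      · show (Nat.pair n (Nat.pair a i)).unpair.1 = n
        simp
      · simpa using hc
    have hsup : C ⊆ {a : ℕ | ∃ i, ¬ (Nat.pair n (Nat.pair a i) ∈ row n ∩ AA C I)} := by
      intro a ha
      have h1 := hDn a
      push Not at h1
      obtain ⟨i, hi⟩ := h1
      refine ⟨i, ?_⟩
      rintro ⟨_, h2 | h2⟩
      · apply h2
        simpa using ha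
      · apply hi
        simpa using h2
    have hf := him C hC _ hre hsub
    exact hC.1 (hf.subset hsup)

end Pool.Agent.H5R3.PIC8
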