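import Mathlib

/-!
Schwarz–Pick at an interior fixed point and the Harnack type inequality for functions with
positive real part.
-/

set_option autoImplicit false
open Complex Set Filter Metric Topology Function ComplexConjugate

namespace Pool.Agent.H5R3

/-- The Blaschke factor. -/
noncomputable def T (a z : ℂ) : ℂ := (z - a) / (1 - conj a * z)

lemma one_sub_ne {a z : ℂ} (ha : ‖a‖ < 1) (hz : ‖z‖ < 1) : 1 - conj a * z ≠ 0 := by
  intro h
  have h1 : conj a * z = 1 := (sub_eq_zero.mp h).symm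
  have h2 : ‖conj a * z‖ = 1 := by rw [h1]; simp
  rw [norm_mul, RCLike.norm_conj] at h2
  nlinarith [norm_nonneg a, norm_nonneg z]

lemma normSq_identity (a z : ℂ) :
    normSq (1 - conj a * z) - normSq (z - a) = (1 - normSq a) * (1 - normSq z) := by
  simp only [normSq_apply, sub_re, sub_im, one_re, one_im, mul_re, mul_im, conj_re, conj_im]
  ring

lemma norm_T_lt {a z : ℂ} (ha : ‖a‖ < 1) (hz : ‖z‖ < 1) : ‖T a z‖ < 1 := by
  have h1 := normSq_identity a z
  have h2 : 0 < ‖1 - conj a * z‖ := norm_pos_iff.mpr (one_sub_ne ha hz)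
  rw [T, norm_div, div_lt_one h2]
  have h3 : 0 < (1 - normSq a) * (1 - normSq z) := by
    rw [normSq_eq_norm_sq, normSq_eq_norm_sq]
    apply mul_pos <;> nlinarith [norm_nonneg a, norm_nonneg z]
  rw [normSq_eq_norm_sq, normSq_eq_norm_sq] at h1
  nlinarith [norm_nonneg (z - a), norm_nonneg (1 - conj a * z)]

lemma T_neg_T {a z : ℂ} (ha : ‖a‖ < 1) (hz : ‖z‖ < 1) : T (-a) (T a z) = z := by
  have h1 := one_sub_ne ha hz
  have h2 : ‖T a z‖ < 1 := norm_T_lt ha hz
  have h3 : 1 - conj (-a) * T a z ≠ 0 := one_sub_ne (by simpa using ha) h2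
  have h5 : T a z * (1 - conj a * z) = z - a := div_mul_cancel₀ _ h1
  have h6 : T (-a) (T a z) = (T a z - -a) / (1 - conj (-a) * T a z) := rfl
  rw [h6, div_eq_iff h3, map_neg]
  apply mul_right_cancel₀ h1
  linear_combination (1 - z * conj a) * h5

lemma differentiableAt_T {a z : ℂ} (ha : ‖a‖ < 1) (hz : ‖z‖ < 1) : DifferentiableAt ℂ (T a) z := by
  unfold T
  exact ((differentiableAt_id.sub_const a).div
    ((differentiableAt_const _).sub ((differentiableAt_const _).mul differentiableAt_id))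
    (one_sub_ne ha hz))

lemma hasDerivAt_T {a z : ℂ} (ha : ‖a‖ < 1) (hz : ‖z‖ < 1) :
    HasDerivAt (T a) ((1 - conj a * a) / (1 - conj a * z) ^ 2) z := by
  have h1 : HasDerivAt (fun w : ℂ => w - a) 1 z := (hasDerivAt_id z).sub_const a
  have h2 : HasDerivAt (fun w : ℂ => 1 - conj a * w) (-(conj a)) z := by
    simpa using ((hasDerivAt_id z).const_mul (conj a)).const_sub 1
  have h3 := h1.div h2 (one_sub_ne ha hz)
  refine h3.congr_deriv ?_
  congr 1
  ring

/-- Schwarz–Pick at an interior fixed point. -/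
lemma pick {Φ : ℂ → ℂ} (hd : DifferentiableOn ℂ Φ (ball 0 1)) (hm : MapsTo Φ (ball 0 1) (ball 0 1))
    {a w : ℂ} (ha : ‖a‖ < 1) (hw : ‖w‖ < 1) (hfix : Φ a = a) :
    ‖T a (Φ w)‖ ≤ ‖T a w‖ := by
  have hna : ‖-a‖ < 1 := by simpa using ha
  have hmaps : MapsTo (fun z => T a (Φ (T (-a) z))) (ball 0 1) (ball 0 1) := by
    intro z hz
    rw [mem_ball_zero_iff] at hz ⊢
    have h1 : ‖T (-a) z‖ < 1 := norm_T_lt hna hz
    have h2 := hm (mem_ball_zero_iff.mpr h1)
    exact norm_T_lt ha (mem_ball_zero_iff.mp h2)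
  have hdiff : DifferentiableOn ℂ (fun z => T a (Φ (T (-a) z))) (ball 0 1) := by
    intro z hz
    rw [mem_ball_zero_iff] at hz
    have h1 : ‖T (-a) z‖ < 1 := norm_T_lt hna hz
    have h2 := mem_ball_zero_iff.mp (hm (mem_ball_zero_iff.mpr h1))
    have h3 : DifferentiableAt ℂ Φ (T (-a) z) :=
      hd.differentiableAt (isOpen_ball.mem_nhds (mem_ball_zero_iff.mpr h1))
    exact ((differentiableAt_T ha h2).comp z (h3.comp z
      (differentiableAt_T hna hz))).differentiableWithinAt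
  have h0 : (fun z => T a (Φ (T (-a) z))) 0 = 0 := by
    have h1 : T (-a) 0 = a := by simp [T]
    simp only [h1, hfix]
    simp [T]
  have h1 := norm_le_norm_of_mapsTo_ball (z := T a w) hdiff
    (hmaps.mono_right ball_subset_closedBall) h0 (norm_T_lt ha hw)
  simpa only [T_neg_T ha hw] using h1

/-- Harnack type inequality for holomorphic functions with positive real part. -/
lemma harnack {P : ℂ → ℂ} {c w : ℂ} {ρ : ℝ} (hP : DifferentiableOn ℂ P (ball c ρ))
    (hre : ∀ z ∈ ball c ρ, 0 < (P z).re) (hw : w ∈ ball c ρ) :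
    (1 - ‖w - c‖ / ρ) * ‖P w‖ ≤ (1 + ‖w - c‖ / ρ) * ‖P c‖ ∧
    (1 - ‖w - c‖ / ρ) * ‖P c‖ ≤ (1 + ‖w - c‖ / ρ) * ‖P w‖ := by
  have hρ : 0 < ρ := lt_of_le_of_lt dist_nonneg (mem_ball.mp hw)
  have hcre : 0 < (P c).re := hre c (mem_ball_self hρ)
  have hne : ∀ z ∈ ball c ρ, P z + conj (P c) ≠ 0 := by
    intro z hz h
    have := congrArg Complex.re h
    simp only [add_re, conj_re, zero_re] at this
    linarith [hre z hz]
  have hmaps : MapsTo (fun z => (P z - P c) / (P z + conj (P c))) (ball c ρ) (ball 0 1) := by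
    intro z hz
    rw [mem_ball_zero_iff, norm_div, div_lt_one (norm_pos_iff.mpr (hne z hz))]
    have h1 : ‖P z - P c‖ ^ 2 < ‖P z + conj (P c)‖ ^ 2 := by
      rw [← normSq_eq_norm_sq, ← normSq_eq_norm_sq]
      simp only [normSq_apply, sub_re, sub_im, add_re, add_im, conj_re, conj_im]
      nlinarith [mul_pos (hre z hz) hcre]
    exact lt_of_pow_lt_pow_left₀ 2 (norm_nonneg _) h1
  have hdiff : DifferentiableOn ℂ (fun z => (P z - P c) / (P z + conj (P c))) (ball c ρ) :=
    (hP.sub_const _).div (hP.add_const _) hne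
  have h1 := dist_le_div_mul_dist_of_mapsTo_ball hdiff (R₂ := 1) (by
    have : (P c - P c) / (P c + conj (P c)) = 0 := by simp
    rw [this]; exact hmaps.mono_right ball_subset_closedBall) hw
  rw [sub_self, zero_div, dist_zero_right, norm_div,
    div_le_iff₀ (norm_pos_iff.mpr (hne w hw)), dist_eq_norm] at h1
  have h2 : ‖P w + conj (P c)‖ ≤ ‖P w‖ + ‖P c‖ := by
    refine (norm_add_le _ _).trans ?_
    rw [RCLike.norm_conj]
  set q := ‖w - c‖ / ρ with hq
  have hq0 : 0 ≤ q := by positivity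
  have h3 : ‖P w - P c‖ ≤ q * (‖P w‖ + ‖P c‖) := by
    calc ‖P w - P c‖ ≤ 1 / ρ * ‖w - c‖ * ‖P w + conj (P c)‖ := h1
      _ = q * ‖P w + conj (P c)‖ := by rw [hq]; ring
      _ ≤ _ := mul_le_mul_of_nonneg_left h2 hq0
  have h4 := norm_sub_norm_le (P w) (P c)
  have h5 := norm_sub_norm_le (P c) (P w)
  rw [norm_sub_rev] at h5
  constructor <;> nlinarith

end Pool.Agent.H5R3
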