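import Pool.Agent.H5R3.StarIneq

/-!
The sector bound for `w g'(w) / (g(w) - z₁)` near the unit circle.
-/

set_option autoImplicit false
open Complex Set Filter Metric Topology Function ComplexConjugate

namespace Pool.Agent.H5R3

lemma sector {U : Set ℂ} (hU : IsOpen U) {g φ : ℂ → ℂ} (hg : DifferentiableOn ℂ g (ball 0 1))
    (hgU : MapsTo g (ball 0 1) U) (hg' : ∀ z ∈ ball (0 : ℂ) 1, deriv g z ≠ 0)
    (hφ : DifferentiableOn ℂ φ U) (hφm : MapsTo φ U (ball 0 1)) (hgφ : ∀ z ∈ U, g (φ z) = z)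
    (hφg : ∀ z ∈ ball (0 : ℂ) 1, φ (g z) = z) {z₁ : ℂ} {δ R : ℝ} (hδ : 0 < δ)
    (hsub : ball z₁ δ ⊆ U) (hstar : ∀ z₂ ∈ ball z₁ δ, StarConvex ℝ z₂ U)
    (hR : ∀ x ∈ U, ∀ y ∈ U, ‖x - y‖ ≤ R) (hg0 : g 0 = z₁) :
    ∃ r₀ c₀ : ℝ, 1 / 2 ≤ r₀ ∧ r₀ < 1 ∧ 0 < c₀ ∧ c₀ < 1 ∧ ∀ w : ℂ, r₀ < ‖w‖ → ‖w‖ < 1 →
      g w ≠ z₁ ∧ c₀ * ‖w * deriv g w / (g w - z₁)‖ ≤ (w * deriv g w / (g w - z₁)).re := by
  have hz1U : z₁ ∈ U := hsub (mem_ball_self hδ)
  -- the bound for `φ` on the compact ball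
  have hK : closedBall z₁ (δ / 2) ⊆ U := (closedBall_subset_ball (by linarith)).trans hsub
  obtain ⟨zm, hzm, hmax⟩ := (isCompact_closedBall z₁ (δ / 2)).exists_isMaxOn
    ⟨z₁, mem_closedBall_self (by linarith)⟩ ((hφ.continuousOn.mono hK).norm)
  set a₀ := ‖φ zm‖ with ha₀
  have ha₀1 : a₀ < 1 := mem_ball_zero_iff.mp (hφm (hK hzm))
  have ha₀0 : 0 ≤ a₀ := norm_nonneg _
  have hφle : ∀ z ∈ closedBall z₁ (δ / 2), ‖φ z‖ ≤ a₀ := fun z hz => hmax hz
  have hRδ : δ / 2 ≤ R := by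
    have h1 := hR (z₁ + (δ / 2 : ℝ)) (hK (by
      rw [mem_closedBall, dist_eq_norm, add_sub_cancel_left, Complex.norm_real, Real.norm_eq_abs,
        abs_of_pos (by linarith)])) z₁ hz1U
    rwa [add_sub_cancel_left, Complex.norm_real, Real.norm_eq_abs, abs_of_pos (by linarith)] at h1
  have hRpos : 0 < R := by linarith
  set η := (1 - a₀) * δ / (16 * R) with hη
  have hηpos : 0 < η := by
    apply div_pos (mul_pos (by linarith) hδ) (by linarith)
  refine ⟨max (1 / 2) (1 - η), δ / (4 * R), le_max_left _ _,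
    max_lt (by norm_num) (by linarith), by positivity, ?_, ?_⟩
  · rw [div_lt_one (by positivity)]; linarith
  intro w hwr hw1
  have hw : w ∈ ball (0 : ℂ) 1 := mem_ball_zero_iff.mpr hw1
  have hw2 : 1 / 2 < ‖w‖ := lt_of_le_of_lt (le_max_left _ _) hwr
  have hwη : 1 - ‖w‖ < η := by linarith [lt_of_le_of_lt (le_max_right (1 / 2) (1 - η)) hwr]
  have hw0 : w ≠ 0 := by
    intro h; rw [h, norm_zero] at hw2; linarith
  have hgne : g w ≠ z₁ := by
    intro h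
    apply hw0
    rw [← hφg w hw, h, ← hg0, hφg 0 (mem_ball_self one_pos)]
  refine ⟨hgne, ?_⟩
  have hg'w := hg' w hw
  set V : ℂ := conj w / deriv g w with hV
  have hVne : V ≠ 0 := div_ne_zero ((map_ne_zero _).mpr hw0) hg'w
  have hVpos : 0 < ‖V‖ := norm_pos_iff.mpr hVne
  set z₂ : ℂ := z₁ + ((δ / 2 / ‖V‖ : ℝ) : ℂ) * conj V with hz₂
  have hz₂d : ‖z₂ - z₁‖ = δ / 2 := by
    rw [hz₂, add_sub_cancel_left, norm_mul, RCLike.norm_conj, Complex.norm_real,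
      Real.norm_eq_abs, abs_of_pos (by positivity)]
    field_simp
  have hz₂K : z₂ ∈ closedBall z₁ (δ / 2) := by rw [mem_closedBall, dist_eq_norm, hz₂d]
  have hz₂U : z₂ ∈ U := hK hz₂K
  have hz₂s : StarConvex ℝ z₂ U := hstar z₂ (closedBall_subset_ball (by linarith) hz₂K)
  have hmain := star_ineq hU hg hgU hg' hφ hφm hgφ hφg hz₂U hz₂s hw
  set a := φ z₂ with ha
  have ha1 : ‖a‖ ≤ a₀ := hφle z₂ hz₂K
  have hne : 1 - conj a * w ≠ 0 := one_sub_ne (by linarith) hw1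
  have hid : conj (w - a) / (1 - conj a * w) * ((g w - z₂) / deriv g w) =
      (V * (g w - z₁) - ((δ / 2 * ‖V‖ : ℝ) : ℂ)) -
        conj a * (1 - normSq w) / (1 - conj a * w) * ((g w - z₂) / deriv g w) := by
    have e1 : conj (w - a) / (1 - conj a * w) =
        conj w - conj a * (1 - normSq w) / (1 - conj a * w) := by
      rw [eq_sub_iff_add_eq, ← add_div, div_eq_iff hne, map_sub]
      rw [← mul_conj w]
      ring
    have e2 : V * (g w - z₁) - ((δ / 2 * ‖V‖ : ℝ) : ℂ) = conj w * ((g w - z₂) / deriv g w) := by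
      have e3 : ((δ / 2 * ‖V‖ : ℝ) : ℂ) = ((δ / 2 / ‖V‖ : ℝ) : ℂ) * (V * conj V) := by
        rw [mul_conj, ← ofReal_mul, normSq_eq_norm_sq]
        congr 1
        field_simp
      rw [e3, hz₂, hV]
      ring
    rw [e2, e1]
    ring
  rw [hid, sub_re, sub_re, ofReal_re] at hmain
  have herr : |(conj a * (1 - normSq w) / (1 - conj a * w) * ((g w - z₂) / deriv g w)).re| ≤
      δ / 4 * ‖V‖ := by
    refine (Complex.abs_re_le_norm _).trans ?_
    have n1 : ‖conj a * (1 - normSq w) / (1 - conj a * w)‖ ≤ 2 * (1 - ‖w‖) / (1 - a₀) := by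
      rw [norm_div, norm_mul, RCLike.norm_conj]
      have m1 : ‖(1 - (normSq w : ℂ))‖ ≤ 2 * (1 - ‖w‖) := by
        rw [← ofReal_one, ← ofReal_sub, Complex.norm_real, Real.norm_eq_abs, normSq_eq_norm_sq,
          abs_of_nonneg (by nlinarith [norm_nonneg w])]
        nlinarith [norm_nonneg w]
      have m2 : 1 - a₀ ≤ ‖1 - conj a * w‖ := by
        have := norm_sub_norm_le (1 : ℂ) (conj a * w)
        rw [norm_one, norm_mul, RCLike.norm_conj] at this
        nlinarith [norm_nonneg a, norm_nonneg w]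
      have m3 : ‖a‖ * ‖(1 - (normSq w : ℂ))‖ ≤ 2 * (1 - ‖w‖) := by
        nlinarith [norm_nonneg a, norm_nonneg (1 - (normSq w : ℂ))]
      exact div_le_div₀ (by linarith) m3 (by linarith) m2
    have n2 : ‖(g w - z₂) / deriv g w‖ ≤ R * (2 * ‖V‖) := by
      have m1 : ‖deriv g w‖⁻¹ = ‖V‖ / ‖w‖ := by
        rw [hV, norm_div, RCLike.norm_conj]
        have : ‖w‖ ≠ 0 := norm_ne_zero_iff.mpr hw0
        field_simp
      rw [norm_div, div_eq_mul_inv, m1]
      have m2 : ‖V‖ / ‖w‖ ≤ 2 * ‖V‖ := by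
        rw [div_le_iff₀ (by linarith)]
        nlinarith
      exact mul_le_mul (hR _ (hgU hw) _ hz₂U) m2 (by positivity) hRpos.le
    rw [norm_mul]
    calc _ ≤ 2 * (1 - ‖w‖) / (1 - a₀) * (R * (2 * ‖V‖)) :=
          mul_le_mul n1 n2 (norm_nonneg _) (div_nonneg (by linarith) (by linarith))
      _ ≤ 2 * η / (1 - a₀) * (R * (2 * ‖V‖)) := by
          apply mul_le_mul_of_nonneg_right _ (by positivity)
          apply div_le_div_of_nonneg_right (by linarith) (by linarith)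
      _ = δ / 4 * ‖V‖ := by
          rw [hη]
          have : (1 - a₀) ≠ 0 := by linarith
          field_simp
          ring
  have hG : δ / 4 * ‖V‖ ≤ (V * (g w - z₁)).re := by
    have := neg_abs_le (conj a * (1 - normSq w) / (1 - conj a * w) *
      ((g w - z₂) / deriv g w)).re
    linarith
  set G : ℂ := V * (g w - z₁) with hGdef
  have hsubne : g w - z₁ ≠ 0 := sub_ne_zero.mpr hgne
  have hGne : G ≠ 0 := mul_ne_zero hVne hsubne
  have hGpos : 0 < ‖G‖ := norm_pos_iff.mpr hGne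
  have hGle : ‖G‖ ≤ ‖V‖ * R := by
    rw [hGdef, norm_mul]
    exact mul_le_mul_of_nonneg_left (hR _ (hgU hw) _ hz1U) hVpos.le
  have hF : w * deriv g w / (g w - z₁) = ((‖w‖ ^ 2 : ℝ) : ℂ) / G := by
    rw [eq_div_iff hGne, hGdef, hV, ← normSq_eq_norm_sq, ← mul_conj]
    field_simp
  rw [hF, norm_div, Complex.norm_real, Real.norm_eq_abs, abs_of_nonneg (by positivity), div_re,
    ofReal_re, ofReal_im, zero_mul, zero_div, add_zero, normSq_eq_norm_sq]
  have h8 : δ / (4 * R) * ‖G‖ ≤ G.re := by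
    calc δ / (4 * R) * ‖G‖ ≤ δ / (4 * R) * (‖V‖ * R) :=
          mul_le_mul_of_nonneg_left hGle (by positivity)
      _ = δ / 4 * ‖V‖ := by field_simp
      _ ≤ _ := hG
  calc δ / (4 * R) * (‖w‖ ^ 2 / ‖G‖) = (δ / (4 * R) * ‖G‖) * (‖w‖ ^ 2 / ‖G‖ ^ 2) := by
        field_simp
    _ ≤ G.re * (‖w‖ ^ 2 / ‖G‖ ^ 2) := mul_le_mul_of_nonneg_right h8 (by positivity)
    _ = _ := by ring

end Pool.Agent.H5R3
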