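import Pool.Agent.H5R3.Pick

/-!
The inequality characterising star-shaped images, with an arbitrary star centre.
-/

set_option autoImplicit false
open Complex Set Filter Metric Topology Function ComplexConjugate

namespace Pool.Agent.H5R3

lemma deriv_nonneg_of_le {N : ℝ → ℝ} {N' : ℝ} (h : HasDerivAt N N' 1)
    (hle : ∀ s ∈ Set.Icc (0 : ℝ) 1, N s ≤ N 1) : 0 ≤ N' := by
  have h1 := (hasDerivAt_iff_tendsto_slope.mp h).mono_left
    (nhdsWithin_mono 1 (show Set.Iio (1 : ℝ) ⊆ {1}ᶜ from fun x hx => ne_of_lt hx))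
  refine ge_of_tendsto h1 ?_
  have h2 : ∀ᶠ s in 𝓝[<] (1 : ℝ), s ∈ Set.Ioo (0 : ℝ) 1 :=
    Ioo_mem_nhdsLT zero_lt_one
  filter_upwards [h2] with s hs
  rw [slope_def_field]
  apply div_nonneg_of_nonpos
  · linarith [hle s ⟨hs.1.le, hs.2.le⟩]
  · linarith [hs.2]

lemma star_ineq {U : Set ℂ} (hU : IsOpen U) {g φ : ℂ → ℂ} (hg : DifferentiableOn ℂ g (ball 0 1))
    (hgU : MapsTo g (ball 0 1) U) (hg' : ∀ z ∈ ball (0 : ℂ) 1, deriv g z ≠ 0)
    (hφ : DifferentiableOn ℂ φ U) (hφm : MapsTo φ U (ball 0 1)) (hgφ : ∀ z ∈ U, g (φ z) = z)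
    (hφg : ∀ z ∈ ball (0 : ℂ) 1, φ (g z) = z) {z₂ : ℂ} (hz₂ : z₂ ∈ U)
    (hstar : StarConvex ℝ z₂ U) {w : ℂ} (hw : w ∈ ball (0 : ℂ) 1) :
    0 ≤ (conj (w - φ z₂) / (1 - conj (φ z₂) * w) * ((g w - z₂) / deriv g w)).re := by
  set a := φ z₂ with ha_def
  have ha : ‖a‖ < 1 := mem_ball_zero_iff.mp (hφm hz₂)
  have hw1 : ‖w‖ < 1 := mem_ball_zero_iff.mp hw
  have hmem : ∀ s ∈ Set.Icc (0 : ℝ) 1, ∀ ζ ∈ ball (0 : ℂ) 1, z₂ + (s : ℂ) * (g ζ - z₂) ∈ U := by
    intro s hs ζ hζ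
    have := hstar.add_smul_sub_mem (hgU hζ) hs.1 hs.2
    simpa using this
  have hle : ∀ s ∈ Set.Icc (0 : ℝ) 1,
      ‖T a (φ (z₂ + (s : ℂ) * (g w - z₂)))‖ ≤ ‖T a w‖ := by
    intro s hs
    refine pick (Φ := fun ζ => φ (z₂ + (s : ℂ) * (g ζ - z₂))) ?_ ?_ ha hw1 ?_
    · intro ζ hζ
      have h1 : DifferentiableAt ℂ φ (z₂ + (s : ℂ) * (g ζ - z₂)) :=
        hφ.differentiableAt (hU.mem_nhds (hmem s hs ζ hζ))
      have h2 : DifferentiableAt ℂ g ζ := hg.differentiableAt (isOpen_ball.mem_nhds hζ)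
      exact (h1.comp ζ (((h2.sub_const z₂).const_mul (s : ℂ)).const_add z₂)).differentiableWithinAt
    · intro ζ hζ
      exact hφm (hmem s hs ζ hζ)
    · simp only [ha_def, hgφ z₂ hz₂, sub_self, mul_zero, add_zero]
  -- the derivative
  have hgw : HasDerivAt g (deriv g w) w :=
    (hg.differentiableAt (isOpen_ball.mem_nhds hw)).hasDerivAt
  have hφw : HasDerivAt φ (deriv φ (g w)) (g w) :=
    (hφ.differentiableAt (hU.mem_nhds (hgU hw))).hasDerivAt
  have hprod : deriv φ (g w) * deriv g w = 1 := by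
    have h1 : HasDerivAt (fun z => φ (g z)) (deriv φ (g w) * deriv g w) w := hφw.comp w hgw
    have h2 : HasDerivAt (fun z => φ (g z)) 1 w := by
      refine (hasDerivAt_id w).congr_of_eventuallyEq ?_
      filter_upwards [isOpen_ball.mem_nhds hw] with z hz
      exact hφg z hz
    exact h1.unique h2
  have hφ' : deriv φ (g w) = (deriv g w)⁻¹ := eq_inv_of_mul_eq_one_left hprod
  set D : ℂ := (1 - conj a * a) / (1 - conj a * w) ^ 2 * ((deriv g w)⁻¹ * (g w - z₂)) with hD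
  have hk : HasDerivAt (fun s : ℝ => T a (φ (z₂ + (s : ℂ) * (g w - z₂)))) D 1 := by
    have e1 : z₂ + ((1 : ℝ) : ℂ) * (g w - z₂) = g w := by push_cast; ring
    have h1 : HasDerivAt (fun s : ℂ => z₂ + s * (g w - z₂)) (g w - z₂) ((1 : ℝ) : ℂ) := by
      simpa using ((hasDerivAt_id ((1 : ℝ) : ℂ)).mul_const (g w - z₂)).const_add z₂
    have h2 : HasDerivAt φ (deriv g w)⁻¹ (z₂ + ((1 : ℝ) : ℂ) * (g w - z₂)) := by
      rw [e1, ← hφ']; exact hφw
    have h3 : HasDerivAt (T a) ((1 - conj a * a) / (1 - conj a * w) ^ 2)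
        (φ (z₂ + ((1 : ℝ) : ℂ) * (g w - z₂))) := by
      rw [e1, hφg w hw]; exact hasDerivAt_T ha hw1
    have h4 := h3.comp ((1 : ℝ) : ℂ) (h2.comp ((1 : ℝ) : ℂ) h1)
    exact h4.comp_ofReal
  have hN := hk.norm_sq
  have hnn := deriv_nonneg_of_le hN (by
    intro s hs
    have e1 : z₂ + ((1 : ℝ) : ℂ) * (g w - z₂) = g w := by push_cast; ring
    have h1 := hle s hs
    simp only [e1, hφg w hw]
    exact pow_le_pow_left₀ (norm_nonneg _) h1 2)
  have e1 : z₂ + ((1 : ℝ) : ℂ) * (g w - z₂) = g w := by push_cast; ring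
  rw [e1, hφg w hw] at hnn
  have h5 : 0 ≤ (conj (T a w) * D).re := by
    have : (2 : ℝ) * (inner ℝ (T a w) D) = 2 * (conj (T a w) * D).re := by
      rw [Complex.inner, mul_comm D]
    linarith [this ▸ hnn]
  have hne := one_sub_ne ha hw1
  have hcne : conj (1 - conj a * w) ≠ 0 := by
    rw [Ne, map_eq_zero]; exact hne
  have ha2 : 0 < 1 - normSq a := by
    rw [normSq_eq_norm_sq]; nlinarith [norm_nonneg a]
  have h6 : conj (T a w) * D = ((1 - normSq a) / normSq (1 - conj a * w) : ℝ) *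
      (conj (w - a) / (1 - conj a * w) * ((g w - z₂) / deriv g w)) := by
    have e2 : ((normSq (1 - conj a * w) : ℝ) : ℂ) = (1 - conj a * w) * conj (1 - conj a * w) :=
      (mul_conj _).symm
    have e3 : ((normSq a : ℝ) : ℂ) = conj a * a := by rw [mul_comm]; exact (mul_conj _).symm
    have hgne := hg' w hw
    rw [hD, T, map_div₀]
    push_cast
    rw [e2, e3]
    field_simp
  rw [h6, re_ofReal_mul] at h5
  have h7 : 0 < (1 - normSq a) / normSq (1 - conj a * w) :=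
    div_pos ha2 (normSq_pos.mpr hne)
  exact nonneg_of_mul_nonneg_right h5 h7 |> fun h => h

end Pool.Agent.H5R3
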