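import Mathlib

set_option autoImplicit false

/-!
# The period integral as a beta integral
-/

namespace Pool.Agent.H5R3.Str

open Filter Topology Set MeasureTheory intervalIntegral

/-- the beta integrand -/
noncomputable def bg (c s : ℝ) : ℝ := s ^ (c - 1) * (1 - s) ^ ((1 / 2 : ℝ) - 1)

theorem bg_eqOn (c : ℝ) : EqOn (fun s : ℝ => (bg c s : ℂ))
    (fun s : ℝ => (s : ℂ) ^ ((c : ℂ) - 1) * (1 - (s : ℂ)) ^ (((1 / 2 : ℝ) : ℂ) - 1)) (Ioc 0 1) := by
  intro s hs
  simp only [bg]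
  rw [Complex.ofReal_mul, Complex.ofReal_cpow hs.1.le, Complex.ofReal_cpow (by linarith [hs.2])]
  push_cast
  rfl

theorem bg_int {c : ℝ} (hc : 0 < c) : IntervalIntegrable (bg c) volume 0 1 := by
  have h := Complex.betaIntegral_convergent (u := (c : ℂ)) (v := ((1 / 2 : ℝ) : ℂ))
    (by simpa using hc) (by norm_num)
  have h2 : IntervalIntegrable (fun s : ℝ => (bg c s : ℂ)) volume 0 1 := by
    rw [intervalIntegrable_iff_integrableOn_Ioc_of_le zero_le_one] at h ⊢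
    exact h.congr_fun (bg_eqOn c).symm measurableSet_Ioc
  rw [intervalIntegrable_iff_integrableOn_Ioc_of_le zero_le_one] at h2 ⊢
  have h4 := h2.re
  have h3 : Integrable (fun x => bg c x) (volume.restrict (Ioc 0 1)) := by simpa using h4
  exact h3

theorem bg_value {c : ℝ} (hc : 0 < c) :
    ∫ s in (0 : ℝ)..1, bg c s = Real.Gamma c * Real.Gamma (1 / 2) / Real.Gamma (c + 1 / 2) := by
  have h := ProbabilityTheory.beta_eq_betaIntegralReal c (1 / 2) hc (by norm_num)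
  rw [ProbabilityTheory.beta] at h
  rw [h, Complex.betaIntegral]
  have h2 : ∫ s in (0 : ℝ)..1, (s : ℂ) ^ ((c : ℂ) - 1) * (1 - (s : ℂ)) ^ (((1 / 2 : ℝ) : ℂ) - 1)
      = ((∫ s in (0 : ℝ)..1, bg c s : ℝ) : ℂ) := by
    rw [← intervalIntegral.integral_ofReal]
    refine intervalIntegral.integral_congr_ae (ae_of_all _ fun s hs => ?_)
    rw [uIoc_of_le zero_le_one] at hs
    exact (bg_eqOn c hs).symm
  rw [h2, Complex.ofReal_re]

theorem bg_nonneg {c s : ℝ} (hs : 0 ≤ s) (hs1 : s ≤ 1) : 0 ≤ bg c s :=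
  mul_nonneg (Real.rpow_nonneg hs _) (Real.rpow_nonneg (by linarith) _)

theorem bg_cont {c s : ℝ} (hs : 0 < s) (hs1 : s < 1) : ContinuousAt (bg c) s := by
  unfold bg
  refine ContinuousAt.mul ?_ ?_
  · exact Real.continuousAt_rpow_const _ _ (Or.inl hs.ne')
  · have h1 : ContinuousAt (fun t : ℝ => 1 - t) s := by fun_prop
    exact h1.rpow_const (Or.inl (by linarith))

theorem algebra_id {p q e : ℝ} {k : ℕ} (hk : 0 < k) (hk3 : k ≤ 3) (he : 0 < e) (hp : e < p)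
    (hq : q < 0) (hode : q ^ 2 = 4 * p ^ (3 - k) * (p ^ k - e ^ k)) :
    bg (1 / (2 * k)) ((e / p) ^ k) * (k * (e / p) ^ (k - 1) * (-(e * q) / p ^ 2)) =
      2 * k * Real.sqrt e := by
  have hp0 : 0 < p := he.trans hp
  set r : ℝ := e / p with hr
  have hr0 : 0 < r := div_pos he hp0
  have hr1 : r < 1 := (div_lt_one hp0).2 hp
  have hrk : r ^ k < 1 := pow_lt_one₀ hr0.le hr1 hk.ne'
  have hkR : (0 : ℝ) < k := by exact_mod_cast hk
  have hep : e = r * p := by rw [hr]; field_simp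
  have h1 : q ^ 2 = 4 * (p ^ 3 * (1 - r ^ k)) := by
    rw [hode, hep, mul_pow]
    have : p ^ 3 = p ^ (3 - k) * p ^ k := by rw [← pow_add]; congr 1; omega
    rw [this]
    ring
  have hA : 0 < 1 - r ^ k := by linarith
  have h2 : q = -(2 * Real.sqrt (p ^ 3 * (1 - r ^ k))) := by
    have h3 : (-q) ^ 2 = (2 * Real.sqrt (p ^ 3 * (1 - r ^ k))) ^ 2 := by
      rw [neg_sq, h1, mul_pow, Real.sq_sqrt (by positivity)]
      ring
    have := (sq_eq_sq₀ (by linarith) (by positivity)).1 h3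
    linarith
  have h3 : bg (1 / (2 * k)) (r ^ k) = (r ^ ((1 : ℝ) / 2) / r ^ k) / Real.sqrt (1 - r ^ k) := by
    unfold bg
    congr 1
    · rw [← Real.rpow_natCast r k, ← Real.rpow_mul hr0.le, ← Real.rpow_sub hr0]
      congr 1
      field_simp
    · rw [show ((1 : ℝ) / 2 - 1) = -(1 / 2) by norm_num, Real.rpow_neg hA.le,
        Real.sqrt_eq_rpow]
  have hs : Real.sqrt e = r ^ ((1 : ℝ) / 2) * Real.sqrt p := by
    rw [hep, Real.sqrt_mul hr0.le, Real.sqrt_eq_rpow r]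
  have hsp : Real.sqrt (p ^ 3 * (1 - r ^ k)) = p * Real.sqrt p * Real.sqrt (1 - r ^ k) := by
    rw [Real.sqrt_mul (by positivity), show p ^ 3 = p ^ 2 * p by ring,
      Real.sqrt_mul (by positivity), Real.sqrt_sq hp0.le]
  have hpp : Real.sqrt p * Real.sqrt p = p := Real.mul_self_sqrt hp0.le
  have hsA : 0 < Real.sqrt (1 - r ^ k) := Real.sqrt_pos.2 hA
  have hrr : r ^ k = r ^ (k - 1) * r := by rw [← pow_succ]; congr 1; omega
  rw [h3, h2, hsp, hs, hep]
  have hrk0 : 0 < r ^ k := pow_pos hr0 _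
  rw [show (r ^ ((1 : ℝ) / 2) / r ^ k / Real.sqrt (1 - r ^ k) *
      (k * r ^ (k - 1) * (-(r * p * -(2 * (p * Real.sqrt p * Real.sqrt (1 - r ^ k)))) / p ^ 2)))
      = 2 * k * (r ^ ((1 : ℝ) / 2) * Real.sqrt p) * ((r ^ (k - 1) * r) / r ^ k) *
        (Real.sqrt (1 - r ^ k) / Real.sqrt (1 - r ^ k)) * (p * p / p ^ 2) by ring,
    ← hrr, div_self hrk0.ne', div_self hsA.ne', ← sq, div_self (by positivity)]
  ring

theorem beta_of_ode {p q : ℝ → ℝ} {e : ℝ} {k : ℕ} (hk : 0 < k) (hk3 : k ≤ 3) (he : 0 < e)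
    (hd : ∀ x ∈ Ioo (0 : ℝ) (1 / 2), HasDerivAt p (q x) x)
    (hq : ∀ x ∈ Ioo (0 : ℝ) (1 / 2), q x ≠ 0)
    (hqc : ContinuousOn q (Ioo (0 : ℝ) (1 / 2)))
    (h0 : Tendsto p (𝓝[>] 0) atTop)
    (h1 : Tendsto p (𝓝[<] (1 / 2)) (𝓝 e))
    (hode : ∀ x ∈ Ioo (0 : ℝ) (1 / 2), q x ^ 2 = 4 * p x ^ (3 - k) * (p x ^ k - e ^ k)) :
    ∫ s in (0 : ℝ)..1, bg (1 / (2 * k)) s = k * Real.sqrt e := by
  set I : Set ℝ := Ioo (0 : ℝ) (1 / 2) with hI
  have hpc : ContinuousOn p I := fun x hx => (hd x hx).continuousAt.continuousWithinAt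
  have hderiv : ∀ x ∈ I, deriv p x = q x := fun x hx => (hd x hx).deriv
  have hint : interior I = I := isOpen_Ioo.interior_eq
  -- the sign of the derivative
  have hneg : ∀ x ∈ I, q x < 0 := by
    intro x hx
    by_contra hx0
    have hx1 : 0 < q x := lt_of_le_of_ne (not_lt.1 hx0) (hq x hx).symm
    have hall : ∀ y ∈ I, 0 < q y := by
      intro y hy
      by_contra hy0
      have hsub : uIcc x y ⊆ I := by
        intro z hz
        rw [mem_uIcc] at hz
        rcases hz with hz | hz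
        · exact ⟨hx.1.trans_le hz.1, hz.2.trans_lt hy.2⟩
        · exact ⟨hy.1.trans_le hz.1, hz.2.trans_lt hx.2⟩
      have := intermediate_value_uIcc (hqc.mono hsub)
      obtain ⟨c, hc, hc0⟩ := this (show (0 : ℝ) ∈ uIcc (q x) (q y) by
        rw [mem_uIcc]; right; exact ⟨not_lt.1 hy0, hx1.le⟩)
      exact hq c (hsub hc) hc0
    have hmono : StrictMonoOn p I := strictMonoOn_of_deriv_pos (convex_Ioo _ _) hpc (by
      rw [hint]; intro y hy; rw [hderiv y hy]; exact hall y hy)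
    have ev1 : ∀ᶠ y in 𝓝[>] (0 : ℝ), p (1 / 4) < p y := h0.eventually (eventually_gt_atTop _)
    have ev2 : ∀ᶠ y in 𝓝[>] (0 : ℝ), y ∈ Ioo (0 : ℝ) (1 / 4) :=
      Ioo_mem_nhdsGT (by norm_num)
    obtain ⟨y, hy1, hy2⟩ := (ev1.and ev2).exists
    have := hmono (show y ∈ I from ⟨hy2.1, by linarith [hy2.2]⟩)
      (show (1 / 4 : ℝ) ∈ I from ⟨by norm_num, by norm_num⟩) hy2.2
    linarith
  have hanti : StrictAntiOn p I := strictAntiOn_of_deriv_neg (convex_Ioo _ _) hpc (by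
      rw [hint]; intro y hy; rw [hderiv y hy]; exact hneg y hy)
  have hgt : ∀ x ∈ I, e < p x := by
    intro x hx
    obtain ⟨y, hy1, hy2⟩ := exists_between hx.2
    have hyI : y ∈ I := ⟨hx.1.trans hy1, hy2⟩
    have h3 : e ≤ p y := by
      refine le_of_tendsto h1 ?_
      filter_upwards [Ioo_mem_nhdsLT hy2] with z hz
      exact (hanti hyI ⟨hyI.1.trans hz.1, hz.2⟩ hz.1).le
    exact lt_of_le_of_lt h3 (hanti hx hyI hy1)
  -- the substitution
  set c : ℝ := 1 / (2 * k) with hc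
  have hkR : (0 : ℝ) < k := by exact_mod_cast hk
  have hc0 : 0 < c := by positivity
  have hbi := bg_int hc0
  set Φ : ℝ → ℝ := fun t => ∫ s in (0 : ℝ)..t, bg c s with hΦ
  set S : ℝ → ℝ := fun x => (e / p x) ^ k with hS
  have hΦd : ∀ t ∈ Ioo (0 : ℝ) 1, HasDerivAt Φ (bg c t) t := by
    intro t ht
    refine intervalIntegral.integral_hasDerivAt_right ?_ ?_ (bg_cont ht.1 ht.2)
    · exact hbi.mono_set (by
        rw [uIcc_of_le ht.1.le, uIcc_of_le zero_le_one]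
        exact Icc_subset_Icc_right ht.2.le)
    · have hco : ContinuousOn (bg c) (Ioo (0 : ℝ) 1) := fun s hs =>
        (bg_cont hs.1 hs.2).continuousWithinAt
      exact hco.stronglyMeasurableAtFilter isOpen_Ioo t ht
  have hΦc : ContinuousOn Φ (Icc 0 1) := by
    have h5 := continuousOn_primitive_interval (μ := volume) (f := bg c) (a := 0) (b := 1)
      (by
        rw [uIcc_of_le zero_le_one, integrableOn_Icc_iff_integrableOn_Ioc]
        exact (intervalIntegrable_iff_integrableOn_Ioc_of_le zero_le_one).1 hbi)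
    rwa [uIcc_of_le zero_le_one] at h5
  have hS01 : ∀ x ∈ I, S x ∈ Ioo (0 : ℝ) 1 := by
    intro x hx
    have hp0 : 0 < p x := he.trans (hgt x hx)
    have hr0 : 0 < e / p x := div_pos he hp0
    exact ⟨pow_pos hr0 _, pow_lt_one₀ hr0.le ((div_lt_one hp0).2 (hgt x hx)) hk.ne'⟩
  have hSd : ∀ x ∈ I, HasDerivAt S (k * (e / p x) ^ (k - 1) * (-(e * q x) / p x ^ 2)) x := by
    intro x hx
    have hp0 : p x ≠ 0 := (he.trans (hgt x hx)).ne'
    have h6 : HasDerivAt (fun y => e / p y) (-(e * q x) / p x ^ 2) x := by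
      have := (hasDerivAt_const x e).fun_div (hd x hx) hp0
      rw [zero_mul, zero_sub] at this
      exact this
    exact h6.fun_pow k
  have hcomp : ∀ x ∈ I, HasDerivAt (fun y => Φ (S y) - 2 * k * Real.sqrt e * y) 0 x := by
    intro x hx
    have h7 := (hΦd (S x) (hS01 x hx)).comp x (hSd x hx)
    rw [algebra_id hk hk3 he (hgt x hx) (hneg x hx) (hode x hx)] at h7
    have h8 : HasDerivAt (fun y : ℝ => 2 * k * Real.sqrt e * y) (2 * k * Real.sqrt e) x := by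
      simpa using (hasDerivAt_id x).const_mul (2 * k * Real.sqrt e)
    have h9 := h7.fun_sub h8
    rw [sub_self] at h9
    exact h9
  have hconst : ∀ x ∈ I, ∀ y ∈ I, Φ (S x) - 2 * k * Real.sqrt e * x =
      Φ (S y) - 2 * k * Real.sqrt e * y := by
    intro x hx y hy
    exact isOpen_Ioo.is_const_of_deriv_eq_zero isPreconnected_Ioo
      (fun z hz => (hcomp z hz).differentiableAt.differentiableWithinAt)
      (fun z hz => (hcomp z hz).deriv) hx hy
  set K := Φ (S (1 / 4)) - 2 * k * Real.sqrt e * (1 / 4) with hK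
  have hq4 : (1 / 4 : ℝ) ∈ I := ⟨by norm_num, by norm_num⟩
  have heq : ∀ x ∈ I, Φ (S x) = 2 * k * Real.sqrt e * x + K := by
    intro x hx
    have := hconst x hx _ hq4
    linarith
  -- limit at 0
  have hS0 : Tendsto S (𝓝[>] 0) (𝓝 0) := by
    have h10 : Tendsto (fun x => e / p x) (𝓝[>] 0) (𝓝 0) := h0.const_div_atTop e
    have := h10.pow k
    rwa [zero_pow hk.ne'] at this
  have hS1 : Tendsto S (𝓝[<] (1 / 2)) (𝓝 1) := by
    have h10 : Tendsto (fun x => e / p x) (𝓝[<] (1 / 2)) (𝓝 (e / e)) :=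
      tendsto_const_nhds.div h1 he.ne'
    have := h10.pow k
    rwa [div_self he.ne', one_pow] at this
  have evI0 : ∀ᶠ x in 𝓝[>] (0 : ℝ), x ∈ I := Ioo_mem_nhdsGT (by norm_num)
  have evI1 : ∀ᶠ x in 𝓝[<] (1 / 2 : ℝ), x ∈ I := Ioo_mem_nhdsLT (by norm_num)
  have hΦ0 : Tendsto (fun x => Φ (S x)) (𝓝[>] 0) (𝓝 (Φ 0)) := by
    have h11 : ContinuousWithinAt Φ (Icc 0 1) 0 := hΦc 0 ⟨le_rfl, zero_le_one⟩
    refine h11.tendsto.comp (tendsto_nhdsWithin_iff.2 ⟨hS0, ?_⟩)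
    filter_upwards [evI0] with x hx
    exact ⟨(hS01 x hx).1.le, (hS01 x hx).2.le⟩
  have hΦ1 : Tendsto (fun x => Φ (S x)) (𝓝[<] (1 / 2)) (𝓝 (Φ 1)) := by
    have h11 : ContinuousWithinAt Φ (Icc 0 1) 1 := hΦc 1 ⟨zero_le_one, le_rfl⟩
    refine h11.tendsto.comp (tendsto_nhdsWithin_iff.2 ⟨hS1, ?_⟩)
    filter_upwards [evI1] with x hx
    exact ⟨(hS01 x hx).1.le, (hS01 x hx).2.le⟩
  have hlin : ∀ a : ℝ, Tendsto (fun x : ℝ => 2 * k * Real.sqrt e * x + K) (𝓝 a)
      (𝓝 (2 * k * Real.sqrt e * a + K)) := by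
    intro a
    have : Continuous (fun x : ℝ => 2 * k * Real.sqrt e * x + K) := by fun_prop
    exact this.tendsto a
  have hE0 : Φ 0 = 2 * k * Real.sqrt e * 0 + K := by
    refine tendsto_nhds_unique hΦ0 ?_
    refine Tendsto.congr' ?_ ((hlin 0).mono_left nhdsWithin_le_nhds)
    filter_upwards [evI0] with x hx
    exact (heq x hx).symm
  have hE1 : Φ 1 = 2 * k * Real.sqrt e * (1 / 2) + K := by
    refine tendsto_nhds_unique hΦ1 ?_
    refine Tendsto.congr' ?_ ((hlin (1 / 2)).mono_left nhdsWithin_le_nhds)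
    filter_upwards [evI1] with x hx
    exact (heq x hx).symm
  have hΦ00 : Φ 0 = 0 := by simp [hΦ]
  have hK0 : K = 0 := by
    rw [hΦ00] at hE0
    linarith
  show Φ 1 = _
  rw [hE1, hK0]
  ring

end Pool.Agent.H5R3.Str
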