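import Mathlib
import Pool.Agent.H5R3.VC

set_option autoImplicit false

/-!
# Core of task T1: the limit `δ ∫ Y(t) D(t) z^(η - it) dt → 0`, `z = δ + iy`
-/

namespace Pool.Agent.H5R3.T1

open Filter Topology Set MeasureTheory Complex
open Pool.Agent.H5R3.VC

/-- the Dirichlet polynomial factor -/
noncomputable def DD (β : ℕ → ℂ) (ℓ : ℕ → ℝ) (t : ℝ) : ℂ :=
  ∑' n, β n * cexp (I * ((t * ℓ n : ℝ) : ℂ))

theorem norm_cexp_I (x : ℝ) : ‖cexp (I * (x : ℂ))‖ = 1 := by
  rw [mul_comm, Complex.norm_exp_ofReal_mul_I]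

theorem DD_cont {β : ℕ → ℂ} {ℓ : ℕ → ℝ} (hβ : Summable fun n => ‖β n‖) : Continuous (DD β ℓ) := by
  refine continuous_tsum (fun n => by fun_prop) hβ fun n t => ?_
  rw [norm_mul, norm_cexp_I, mul_one]

theorem DD_le {β : ℕ → ℂ} {ℓ : ℕ → ℝ} (hβ : Summable fun n => ‖β n‖) (t : ℝ) :
    ‖DD β ℓ t‖ ≤ ∑' n, ‖β n‖ := by
  refine tsum_of_norm_bounded hβ.hasSum fun n => ?_
  rw [norm_mul, norm_cexp_I, mul_one]

section z

variable {δ y : ℝ}

/-- the point `δ + iy` -/
noncomputable def zz (δ y : ℝ) : ℂ := (δ : ℂ) + y * I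

theorem zz_re (δ y : ℝ) : (zz δ y).re = δ := by simp [zz]
theorem zz_im (δ y : ℝ) : (zz δ y).im = y := by simp [zz]

theorem zz_ne (hδ : 0 < δ) : zz δ y ≠ 0 := fun h => by
  have := congrArg Complex.re h
  rw [zz_re, Complex.zero_re] at this
  exact hδ.ne' this

/-- the small angle -/
noncomputable def rho (δ y : ℝ) : ℝ := Real.pi / 2 - arg (zz δ y)

theorem rho_pos (hδ : 0 < δ) : 0 < rho δ y := by
  have h : |arg (zz δ y)| < Real.pi / 2 := abs_arg_lt_pi_div_two_iff.2 (Or.inl (by rwa [zz_re]))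
  have := (abs_lt.1 h).2
  unfold rho
  linarith

theorem rho_ge (hδ : 0 < δ) : δ / ‖zz δ y‖ ≤ rho δ y := by
  have h1 : Real.sin (rho δ y) = δ / ‖zz δ y‖ := by
    rw [rho, Real.sin_pi_div_two_sub, Complex.cos_arg (zz_ne hδ), zz_re]
  rw [← h1]
  exact Real.sin_le (rho_pos hδ).le

theorem norm_zz_le (hδ : 0 < δ) (hδ1 : δ ≤ 1) (hy : 0 < y) : ‖zz δ y‖ ≤ 1 + y := by
  refine (norm_add_le _ _).trans ?_
  rw [Complex.norm_real, norm_mul, norm_I, mul_one, Complex.norm_real, Real.norm_eq_abs,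
    Real.norm_eq_abs, abs_of_pos hδ, abs_of_pos hy]
  linarith

theorem rho_ge' (hδ : 0 < δ) (hδ1 : δ ≤ 1) (hy : 0 < y) : δ / (1 + y) ≤ rho δ y := by
  refine le_trans ?_ (rho_ge hδ)
  have := norm_zz_le hδ hδ1 hy
  have h0 : 0 < ‖zz δ y‖ := norm_pos_iff.2 (zz_ne hδ)
  gcongr

theorem zz_cpow (hδ : 0 < δ) (η t : ℝ) :
    (zz δ y) ^ ((η : ℂ) - t * I) =
      ((‖zz δ y‖ ^ η : ℝ) : ℂ) * ((Real.exp (arg (zz δ y) * t) : ℝ) : ℂ) *
        cexp (I * ((η * arg (zz δ y) - t * Real.log ‖zz δ y‖ : ℝ) : ℂ)) := by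
  have h0 : 0 < ‖zz δ y‖ := norm_pos_iff.2 (zz_ne hδ)
  have hl : Complex.log (zz δ y) = (Real.log ‖zz δ y‖ : ℂ) + (arg (zz δ y) : ℂ) * I := by
    rw [Complex.log]
  rw [Complex.cpow_def_of_ne_zero (zz_ne hδ), hl, Real.rpow_def_of_pos h0, Complex.ofReal_exp,
    Complex.ofReal_exp, ← Complex.exp_add, ← Complex.exp_add]
  congr 1
  push_cast
  have hI : (I : ℂ) * I = -1 := I_mul_I
  linear_combination (-(arg (zz δ y) : ℂ) * t) * hI

theorem norm_zz_cpow (hδ : 0 < δ) (η t : ℝ) :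
    ‖(zz δ y) ^ ((η : ℂ) - t * I)‖ = ‖zz δ y‖ ^ η * Real.exp (arg (zz δ y) * t) := by
  rw [zz_cpow hδ, norm_mul, norm_cexp_I, mul_one, norm_mul, Complex.norm_real, Complex.norm_real,
    Real.norm_eq_abs, Real.norm_eq_abs, abs_of_nonneg (Real.rpow_nonneg (norm_nonneg _) _),
    abs_of_pos (Real.exp_pos _)]

theorem zz_cpow_cont (hδ : 0 < δ) (η : ℝ) :
    Continuous fun t : ℝ => (zz δ y) ^ ((η : ℂ) - t * I) := by
  simp only [zz_cpow hδ]
  fun_prop

theorem arg_nonneg' (hy : 0 < y) : 0 ≤ arg (zz δ y) := by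
  rw [Complex.arg_nonneg_iff, zz_im]
  exact hy.le

theorem norm_rpow_le (hδ : 0 < δ) (hδ1 : δ ≤ 1) (hy : 0 < y) {η : ℝ} (hη : 0 ≤ η) :
    ‖zz δ y‖ ^ η ≤ (1 + y) ^ η :=
  Real.rpow_le_rpow (norm_nonneg _) (norm_zz_le hδ hδ1 hy) hη

end z

/-- integrability of the majorant on the left -/
theorem left_int (M : ℝ) :
    IntegrableOn (fun t : ℝ => (1 + |t|) ^ M * Real.exp (-(Real.pi / 2 * |t|))) (Iic 1) := by
  have hc : Continuous (fun t : ℝ => (1 + |t|) ^ M * Real.exp (-(Real.pi / 2 * |t|))) := by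
    refine Continuous.mul ?_ (by fun_prop)
    refine Continuous.rpow_const (by fun_prop) fun t => Or.inl ?_
    positivity
  have h1 : IntegrableOn (fun t : ℝ => (1 + |t|) ^ M * Real.exp (-(Real.pi / 2 * |t|)))
      (Icc (-1) 1) := hc.continuousOn.integrableOn_Icc
  have h2 : IntegrableOn (fun t : ℝ => (1 + |t|) ^ M * Real.exp (-(Real.pi / 2 * |t|)))
      (Iic (-1)) := by
    rw [integrableOn_Iic_iff_integrableOn_Iio]
    have h3 : IntegrableOn (fun t : ℝ => (1 + |t|) ^ M * Real.exp (-(Real.pi / 2 * |t|)))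
        (Ioi 1) := by
      have h4 : IntegrableOn (fun t : ℝ => (2 ^ |M| : ℝ) * (t ^ |M| *
          Real.exp (-(Real.pi / 2 * t)))) (Ioi 1) :=
        ((gam_int (lt_of_lt_of_le neg_one_lt_zero (abs_nonneg M))
          (by positivity)).mono_set (Ioi_subset_Ioi zero_le_one)).const_mul _
      refine Integrable.mono' h4 hc.aestronglyMeasurable
        ((ae_restrict_iff' measurableSet_Ioi).2 (ae_of_all _ fun t ht => ?_))
      have ht1 : (1 : ℝ) < t := ht
      have ht0 : (0 : ℝ) < t := by linarith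
      rw [Real.norm_eq_abs, abs_of_nonneg (by positivity), abs_of_pos ht0, ← mul_assoc,
        ← Real.mul_rpow (by norm_num) ht0.le]
      gcongr
      calc (1 + t) ^ M ≤ (1 + t) ^ |M| :=
            Real.rpow_le_rpow_of_exponent_le (by linarith) (le_abs_self M)
        _ ≤ (2 * t) ^ |M| := Real.rpow_le_rpow (by linarith) (by linarith) (abs_nonneg M)
    have h5 := h3.comp_neg
    rw [Set.neg_Ioi] at h5
    simpa only [abs_neg] using h5
  have h6 := h2.union h1
  rwa [Iic_union_Icc_eq_Iic (by norm_num)] at h6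

theorem core {β : ℕ → ℂ} {ℓ : ℕ → ℝ} (hβ : Summable fun n => ‖β n‖)
    {α κ A c1 K M y η : ℝ} {c : ℂ} {Y : ℝ → ℂ} (hα : 0 < α) (hα1 : α < 1 / 2) (hκ : 0 < κ)
    (hη : 0 ≤ η) (hy : 0 < y) (hK : 0 ≤ K) (hYm : AEStronglyMeasurable Y)
    (hp : ∀ t : ℝ, 1 < t → ‖Y t - c * ((t ^ α * Real.exp (-(Real.pi / 2 * t)) : ℝ) : ℂ) *
      cexp (I * ((c1 * t - κ * t * Real.log t - A * Real.log t : ℝ) : ℂ))‖ ≤
      K * (t ^ (α - 1) * Real.exp (-(Real.pi / 2 * t))))
    (hm : ∀ t : ℝ, t ≤ 1 → ‖Y t‖ ≤ K * ((1 + |t|) ^ M * Real.exp (-(Real.pi / 2 * |t|)))) :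
    Tendsto (fun δ : ℝ => (δ : ℂ) * ∫ t : ℝ, Y t * DD β ℓ t * (zz δ y) ^ ((η : ℂ) - t * I))
      (𝓝[>] 0) (𝓝 0) := by
  set S : ℝ := ∑' n, ‖β n‖ with hS
  have hS0 : 0 ≤ S := tsum_nonneg fun n => norm_nonneg _
  obtain ⟨C, hC0, hC⟩ := vc hκ hα.le A
  set B : ℝ := (1 + y) ^ η with hB
  have hB0 : 0 ≤ B := by positivity
  set CA : ℝ := K * S * B * Real.exp (Real.pi / 2) *
    ∫ t in Iic (1 : ℝ), (1 + |t|) ^ M * Real.exp (-(Real.pi / 2 * |t|)) with hCA
  -- the bound for a fixed `δ`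
  have key : ∀ δ : ℝ, 0 < δ → δ ≤ 1 →
      ‖∫ t : ℝ, Y t * DD β ℓ t * (zz δ y) ^ ((η : ℂ) - t * I)‖ ≤
      CA + (K * S * B * (Real.Gamma α * (rho δ y) ^ (-α)) +
        ‖c‖ * B * (S * (C * (rho δ y) ^ (-(α + 1 / 2))))) := by
    intro δ hδ hδ1
    have hr := rho_pos (y := y) hδ
    have hnz := norm_rpow_le hδ hδ1 hy hη
    have harg := arg_nonneg' (δ := δ) hy
    have harg2 : arg (zz δ y) < Real.pi / 2 := by
      have := rho_pos (y := y) hδ
      unfold rho at this
      linarith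
    set P : ℝ → ℂ := fun t => (zz δ y) ^ ((η : ℂ) - t * I) with hP
    have hPc : Continuous P := zz_cpow_cont hδ η
    have hDc : Continuous (DD β ℓ) := DD_cont hβ
    have hmeas : AEStronglyMeasurable (fun t => Y t * DD β ℓ t * P t) :=
      (hYm.mul hDc.aestronglyMeasurable).mul hPc.aestronglyMeasurable
    -- left part
    have hleftb : ∀ t ∈ Iic (1 : ℝ), ‖Y t * DD β ℓ t * P t‖ ≤
        (K * S * B * Real.exp (Real.pi / 2)) * ((1 + |t|) ^ M * Real.exp (-(Real.pi / 2 * |t|))) := by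
      intro t ht
      have ht1 : t ≤ 1 := ht
      have h1 : ‖P t‖ ≤ B * Real.exp (Real.pi / 2) := by
        rw [hP]
        simp only
        rw [norm_zz_cpow hδ]
        gcongr
        rcases le_total t 0 with h | h
        · have : arg (zz δ y) * t ≤ 0 := mul_nonpos_of_nonneg_of_nonpos harg h
          have := Real.pi_pos
          linarith
        · calc arg (zz δ y) * t ≤ Real.pi / 2 * 1 := by
                gcongr
            _ = Real.pi / 2 := mul_one _
      rw [norm_mul, norm_mul]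
      calc ‖Y t‖ * ‖DD β ℓ t‖ * ‖P t‖ ≤
          (K * ((1 + |t|) ^ M * Real.exp (-(Real.pi / 2 * |t|)))) * S *
            (B * Real.exp (Real.pi / 2)) := by
            gcongr
            · exact hm t ht1
            · exact DD_le hβ t
        _ = _ := by ring
    have hleft : IntegrableOn (fun t => Y t * DD β ℓ t * P t) (Iic 1) :=
      Integrable.mono' ((left_int M).const_mul _) hmeas.restrict
        ((ae_restrict_iff' measurableSet_Iic).2 (ae_of_all _ hleftb))
    have hleftn : ‖∫ t in Iic (1 : ℝ), Y t * DD β ℓ t * P t‖ ≤ CA := by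
      have := norm_integral_le_of_norm_le ((left_int M).const_mul
        (K * S * B * Real.exp (Real.pi / 2)))
        ((ae_restrict_iff' measurableSet_Iic).2 (ae_of_all _ hleftb))
      rwa [MeasureTheory.integral_const_mul] at this
    -- right part
    set Z : ℝ → ℂ := fun t => c * ((t ^ α * Real.exp (-(Real.pi / 2 * t)) : ℝ) : ℂ) *
      cexp (I * ((c1 * t - κ * t * Real.log t - A * Real.log t : ℝ) : ℂ)) with hZ
    have hZm : Measurable Z := by
      rw [hZ]
      fun_prop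
    have hexp : ∀ t : ℝ, Real.exp (-(Real.pi / 2 * t)) * Real.exp (arg (zz δ y) * t) =
        Real.exp (-(rho δ y * t)) := by
      intro t
      rw [← Real.exp_add]
      congr 1
      unfold rho
      ring
    have herrb : ∀ t ∈ Ioi (1 : ℝ), ‖(Y t - Z t) * DD β ℓ t * P t‖ ≤
        (K * S * B) * (t ^ (α - 1) * Real.exp (-(rho δ y * t))) := by
      intro t ht
      have ht1 : 1 < t := ht
      have h1 : ‖P t‖ ≤ B * Real.exp (arg (zz δ y) * t) := by
        rw [hP]
        simp only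
        rw [norm_zz_cpow hδ]
        gcongr
      have ht0 : 0 < t := by linarith
      rw [norm_mul, norm_mul]
      calc ‖Y t - Z t‖ * ‖DD β ℓ t‖ * ‖P t‖ ≤
          (K * (t ^ (α - 1) * Real.exp (-(Real.pi / 2 * t)))) * S *
            (B * Real.exp (arg (zz δ y) * t)) := by
            gcongr
            · exact hp t ht1
            · exact DD_le hβ t
        _ = (K * S * B) * (t ^ (α - 1) * (Real.exp (-(Real.pi / 2 * t)) *
              Real.exp (arg (zz δ y) * t))) := by ring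
        _ = _ := by rw [hexp]
    have gi : IntegrableOn (fun t : ℝ => t ^ (α - 1) * Real.exp (-(rho δ y * t))) (Ioi 1) :=
      (gam_int (by linarith) hr).mono_set (Ioi_subset_Ioi zero_le_one)
    have herr : IntegrableOn (fun t => (Y t - Z t) * DD β ℓ t * P t) (Ioi 1) := by
      refine Integrable.mono' (gi.const_mul (K * S * B)) ?_
        ((ae_restrict_iff' measurableSet_Ioi).2 (ae_of_all _ herrb))
      exact (((hYm.sub hZm.aestronglyMeasurable).mul hDc.aestronglyMeasurable).mul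
        hPc.aestronglyMeasurable).restrict
    have herrn : ‖∫ t in Ioi (1 : ℝ), (Y t - Z t) * DD β ℓ t * P t‖ ≤
        K * S * B * (Real.Gamma α * (rho δ y) ^ (-α)) := by
      have h1 := norm_integral_le_of_norm_le (gi.const_mul (K * S * B))
        ((ae_restrict_iff' measurableSet_Ioi).2 (ae_of_all _ herrb))
      rw [MeasureTheory.integral_const_mul] at h1
      refine h1.trans ?_
      have h2 := gam_le (s := α - 1) (by linarith) hr
      rw [sub_add_cancel] at h2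
      gcongr
    -- main part
    set W : ℕ → ℝ → ℂ := fun n t => β n * (c * (‖zz δ y‖ ^ η : ℝ) *
      cexp (I * ((η * arg (zz δ y) : ℝ) : ℂ))) * (((t ^ α * Real.exp (-(rho δ y * t)) : ℝ) : ℂ) *
        cexp (I * (((c1 + ℓ n - Real.log ‖zz δ y‖) * t - κ * t * Real.log t -
          A * Real.log t : ℝ) : ℂ))) with hW
    have hWi : ∀ n, IntegrableOn (W n) (Ioi 1) := fun n =>
      (vc_integrable (κ := κ) (b := c1 + ℓ n - Real.log ‖zz δ y‖) A hα.le hr).const_mul _
    have gi2 : IntegrableOn (fun t : ℝ => t ^ α * Real.exp (-(rho δ y * t))) (Ioi 1) :=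
      (gam_int (by linarith) hr).mono_set (Ioi_subset_Ioi zero_le_one)
    have hWn : ∀ n, ∀ t ∈ Ioi (1 : ℝ), ‖W n t‖ = (‖β n‖ * (‖c‖ * ‖zz δ y‖ ^ η)) *
        (t ^ α * Real.exp (-(rho δ y * t))) := by
      intro n t ht
      have ht0 : 0 < t := lt_trans one_pos ht
      rw [hW]
      simp only
      rw [norm_mul, norm_mul, norm_mul, norm_mul, norm_mul, norm_cexp_I, norm_cexp_I,
        Complex.norm_real, Complex.norm_real, Real.norm_eq_abs, Real.norm_eq_abs,
        abs_of_nonneg (Real.rpow_nonneg (norm_nonneg _) _),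
        abs_of_nonneg (gam_nonneg t ht0)]
      ring
    have hWint : ∀ n, ∫ t in Ioi (1 : ℝ), ‖W n t‖ = (‖β n‖ * (‖c‖ * ‖zz δ y‖ ^ η)) *
        ∫ t in Ioi (1 : ℝ), t ^ α * Real.exp (-(rho δ y * t)) := by
      intro n
      rw [← MeasureTheory.integral_const_mul]
      exact setIntegral_congr_fun measurableSet_Ioi (hWn n)
    have hsum : Summable fun n => ∫ t in Ioi (1 : ℝ), ‖W n t‖ := by
      simp only [hWint]
      exact (hβ.mul_right _).mul_right _
    have hWeq : ∀ t ∈ Ioi (1 : ℝ), ∑' n, W n t = Z t * DD β ℓ t * P t := by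
      intro t ht
      have ht0 : 0 < t := lt_trans one_pos ht
      rw [DD, mul_assoc, ← tsum_mul_right, ← tsum_mul_left]
      refine tsum_congr fun n => ?_
      rw [hW, hZ, hP]
      simp only
      rw [zz_cpow hδ, ← hexp t]
      have e1 : cexp (I * (((c1 + ℓ n - Real.log ‖zz δ y‖) * t - κ * t * Real.log t -
          A * Real.log t : ℝ) : ℂ)) * cexp (I * ((η * arg (zz δ y) : ℝ) : ℂ)) =
          cexp (I * ((c1 * t - κ * t * Real.log t - A * Real.log t : ℝ) : ℂ)) *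
          cexp (I * ((t * ℓ n : ℝ) : ℂ)) *
          cexp (I * ((η * arg (zz δ y) - t * Real.log ‖zz δ y‖ : ℝ) : ℂ)) := by
        rw [← Complex.exp_add, ← Complex.exp_add, ← Complex.exp_add]
        congr 1
        push_cast
        ring
      have e2 : ((t ^ α * (Real.exp (-(Real.pi / 2 * t)) * Real.exp (arg (zz δ y) * t)) : ℝ) : ℂ) =
          ((t ^ α * Real.exp (-(Real.pi / 2 * t)) : ℝ) : ℂ) *
            ((Real.exp (arg (zz δ y) * t) : ℝ) : ℂ) := by
        push_cast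
        ring
      rw [e2]
      linear_combination (β n * c * ((‖zz δ y‖ ^ η : ℝ) : ℂ) *
        ((t ^ α * Real.exp (-(Real.pi / 2 * t)) : ℝ) : ℂ) *
          ((Real.exp (arg (zz δ y) * t) : ℝ) : ℂ)) * e1
    have hmain := MeasureTheory.hasSum_integral_of_summable_integral_norm hWi hsum
    have hmainE : ∫ t in Ioi (1 : ℝ), ∑' n, W n t =
        ∫ t in Ioi (1 : ℝ), Z t * DD β ℓ t * P t :=
      setIntegral_congr_fun measurableSet_Ioi hWeq
    rw [hmainE] at hmain
    have hWb : ∀ n, ‖∫ t in Ioi (1 : ℝ), W n t‖ ≤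
        ‖β n‖ * (‖c‖ * B * (C * (rho δ y) ^ (-(α + 1 / 2)))) := by
      intro n
      rw [hW]
      simp only
      rw [MeasureTheory.integral_const_mul, norm_mul, norm_mul, norm_mul, norm_mul, norm_cexp_I,
        Complex.norm_real, Real.norm_eq_abs, abs_of_nonneg (Real.rpow_nonneg (norm_nonneg _) _),
        mul_one, mul_assoc ‖β n‖]
      gcongr
      exact hC _ hr _
    have hmainn : ‖∫ t in Ioi (1 : ℝ), Z t * DD β ℓ t * P t‖ ≤
        ‖c‖ * B * (S * (C * (rho δ y) ^ (-(α + 1 / 2)))) := by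
      have h1 := tsum_of_norm_bounded ((hβ.hasSum).mul_right
        (‖c‖ * B * (C * (rho δ y) ^ (-(α + 1 / 2))))) hWb
      rw [hmain.tsum_eq] at h1
      refine h1.trans (le_of_eq ?_)
      ring
    have hmaini : IntegrableOn (fun t => Z t * DD β ℓ t * P t) (Ioi 1) := by
      refine Integrable.mono' (gi2.const_mul (‖c‖ * S * B)) ?_
        ((ae_restrict_iff' measurableSet_Ioi).2 (ae_of_all _ fun t ht => ?_))
      · exact ((hZm.aestronglyMeasurable.mul hDc.aestronglyMeasurable).mul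
          hPc.aestronglyMeasurable).restrict
      · have ht0 : 0 < t := lt_trans one_pos ht
        have h1 : ‖P t‖ ≤ B * Real.exp (arg (zz δ y) * t) := by
          rw [hP]
          simp only
          rw [norm_zz_cpow hδ]
          gcongr
        have h2 : ‖Z t‖ = ‖c‖ * (t ^ α * Real.exp (-(Real.pi / 2 * t))) := by
          rw [hZ]
          simp only
          rw [norm_mul, norm_mul, norm_cexp_I, Complex.norm_real, Real.norm_eq_abs,
            abs_of_nonneg (gam_nonneg t ht0), mul_one]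
        rw [norm_mul, norm_mul, h2]
        calc ‖c‖ * (t ^ α * Real.exp (-(Real.pi / 2 * t))) * ‖DD β ℓ t‖ * ‖P t‖ ≤
            ‖c‖ * (t ^ α * Real.exp (-(Real.pi / 2 * t))) * S *
              (B * Real.exp (arg (zz δ y) * t)) := by
              gcongr
              exact DD_le hβ t
          _ = (‖c‖ * S * B) * (t ^ α * (Real.exp (-(Real.pi / 2 * t)) *
                Real.exp (arg (zz δ y) * t))) := by ring
          _ = _ := by rw [hexp]
    have hrightE : ∀ t, Y t * DD β ℓ t * P t =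
        (Y t - Z t) * DD β ℓ t * P t + Z t * DD β ℓ t * P t := fun t => by ring
    have hright : IntegrableOn (fun t => Y t * DD β ℓ t * P t) (Ioi 1) := by
      simp only [hrightE]
      exact herr.add hmaini
    have hrightn : ‖∫ t in Ioi (1 : ℝ), Y t * DD β ℓ t * P t‖ ≤
        K * S * B * (Real.Gamma α * (rho δ y) ^ (-α)) +
        ‖c‖ * B * (S * (C * (rho δ y) ^ (-(α + 1 / 2)))) := by
      have h1 : ∫ t in Ioi (1 : ℝ), Y t * DD β ℓ t * P t =
          (∫ t in Ioi (1 : ℝ), (Y t - Z t) * DD β ℓ t * P t) +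
          ∫ t in Ioi (1 : ℝ), Z t * DD β ℓ t * P t := by
        rw [← MeasureTheory.integral_add herr hmaini]
        refine setIntegral_congr_fun measurableSet_Ioi fun t _ => ?_
        exact hrightE t
      rw [h1]
      exact (norm_add_le _ _).trans (add_le_add herrn hmainn)
    have hsplit : ∫ t : ℝ, Y t * DD β ℓ t * P t =
        (∫ t in Iic (1 : ℝ), Y t * DD β ℓ t * P t) + ∫ t in Ioi (1 : ℝ), Y t * DD β ℓ t * P t := by
      rw [← setIntegral_univ, ← Iic_union_Ioi (a := (1 : ℝ))]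
      exact setIntegral_union (Iic_disjoint_Ioi le_rfl) measurableSet_Ioi hleft hright
    rw [hsplit]
    exact (norm_add_le _ _).trans (add_le_add hleftn hrightn)
  -- conclusion
  have hy1 : 0 < 1 + y := by linarith
  set C1 : ℝ := K * S * B * (Real.Gamma α * (1 + y) ^ α) with hC1
  set C2 : ℝ := ‖c‖ * B * (S * (C * (1 + y) ^ (α + 1 / 2))) with hC2
  have hlim : Tendsto (fun δ : ℝ => CA * δ + (C1 * δ ^ (1 - α) + C2 * δ ^ (1 / 2 - α)))
      (𝓝[>] 0) (𝓝 0) := by
    have e1 : Tendsto (fun δ : ℝ => δ) (𝓝[>] 0) (𝓝 0) := nhdsWithin_le_nhds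
    have e2 : ∀ s : ℝ, 0 < s → Tendsto (fun δ : ℝ => δ ^ s) (𝓝[>] 0) (𝓝 0) := by
      intro s hs
      have := (Real.continuousAt_rpow_const 0 s (Or.inr hs.le)).tendsto
      rw [Real.zero_rpow hs.ne'] at this
      exact this.mono_left nhdsWithin_le_nhds
    have e3 := (e1.const_mul CA).add (((e2 (1 - α) (by linarith)).const_mul C1).add
      ((e2 (1 / 2 - α) (by linarith)).const_mul C2))
    simpa using e3
  refine squeeze_zero_norm' ?_ hlim
  have ev : ∀ᶠ δ : ℝ in 𝓝[>] 0, δ ∈ Ioc (0 : ℝ) 1 := Ioc_mem_nhdsGT one_pos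
  filter_upwards [ev] with δ hδ
  have hδ0 := hδ.1
  have hr := rho_pos (y := y) hδ0
  have hr2 := rho_ge' hδ0 hδ.2 hy
  have hq : 0 < δ / (1 + y) := by positivity
  rw [norm_mul, Complex.norm_real, Real.norm_eq_abs, abs_of_pos hδ0]
  have hk := key δ hδ0 hδ.2
  have p1 : (rho δ y) ^ (-α) ≤ (1 + y) ^ α * δ ^ (-α) := by
    calc (rho δ y) ^ (-α) ≤ (δ / (1 + y)) ^ (-α) :=
          Real.rpow_le_rpow_of_nonpos hq hr2 (by linarith)
      _ = _ := by
          rw [Real.div_rpow hδ0.le hy1.le, Real.rpow_neg hy1.le, div_inv_eq_mul, mul_comm]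
  have p2 : (rho δ y) ^ (-(α + 1 / 2)) ≤ (1 + y) ^ (α + 1 / 2) * δ ^ (-(α + 1 / 2)) := by
    calc (rho δ y) ^ (-(α + 1 / 2)) ≤ (δ / (1 + y)) ^ (-(α + 1 / 2)) :=
          Real.rpow_le_rpow_of_nonpos hq hr2 (by linarith)
      _ = _ := by
          rw [Real.div_rpow hδ0.le hy1.le, Real.rpow_neg hy1.le, div_inv_eq_mul, mul_comm]
  have q1 : δ * δ ^ (-α) = δ ^ (1 - α) := by
    rw [sub_eq_add_neg, Real.rpow_add hδ0, Real.rpow_one]
  have q2 : δ * δ ^ (-(α + 1 / 2)) = δ ^ (1 / 2 - α) := by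
    nth_rewrite 1 [← Real.rpow_one δ]
    rw [← Real.rpow_add hδ0]
    congr 1
    ring
  have hΓ : 0 < Real.Gamma α := Real.Gamma_pos_of_pos hα
  calc δ * ‖∫ t : ℝ, Y t * DD β ℓ t * (zz δ y) ^ ((η : ℂ) - t * I)‖
      ≤ δ * (CA + (K * S * B * (Real.Gamma α * ((1 + y) ^ α * δ ^ (-α))) +
        ‖c‖ * B * (S * (C * ((1 + y) ^ (α + 1 / 2) * δ ^ (-(α + 1 / 2))))))) := by
        refine mul_le_mul_of_nonneg_left (hk.trans ?_) hδ0.le
        gcongr
    _ = CA * δ + (C1 * (δ * δ ^ (-α)) + C2 * (δ * δ ^ (-(α + 1 / 2)))) := by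
        rw [hC1, hC2]; ring
    _ = _ := by rw [q1, q2]

end Pool.Agent.H5R3.T1
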