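import Pool.Agent.H5R3.TaskPZN
import Pool.Agent.H180R3.PO.Stmts

set_option autoImplicit false

open Finset MeasureTheory Filter

/-! TASK POLEORDER-HN of helper180 (MP_8e9775_nt): size of the extra source with a log power. -/

namespace Pool.Agent.H5R3.HN

open Pool.Agent.H469R10.HO Pool.Agent.H902R3.PZ Pool.Agent.H5R3.T469N Pool.Agent.H5R3.PZN
open Pool.Agent.H180R3.PO

lemma abs_log_pow_le (j : ℕ) {x : ℝ} (hx : x ≠ 0) (hx1 : |x| ≤ 1) :
    |x| * |Real.log x| ^ j ≤ ((j : ℝ) + 1) ^ j * |x| ^ (1 / ((j : ℝ) + 1)) := by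
  have h0 : 0 < |x| := abs_pos.2 hx
  have hj : (0 : ℝ) < (j : ℝ) + 1 := by positivity
  have h1 := (Real.abs_log_mul_self_rpow_lt |x| (1 / ((j : ℝ) + 1)) h0 hx1 (by positivity)).le
  rw [Real.log_abs, abs_mul, abs_of_pos (Real.rpow_pos_of_pos h0 _), one_div_one_div] at h1
  set r : ℝ := |x| ^ (1 / ((j : ℝ) + 1)) with hr
  have hr0 : 0 < r := Real.rpow_pos_of_pos h0 _
  have h2 : r ^ (j + 1) = |x| := by
    rw [hr, ← Real.rpow_natCast, ← Real.rpow_mul h0.le]
    push_cast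
    rw [one_div, inv_mul_cancel₀ hj.ne', Real.rpow_one]
  have h3 : (|Real.log x| * r) ^ j ≤ ((j : ℝ) + 1) ^ j := by
    gcongr
  calc |x| * |Real.log x| ^ j = (|Real.log x| * r) ^ j * r := by
        rw [← h2, mul_pow, pow_succ]; ring
    _ ≤ ((j : ℝ) + 1) ^ j * r := by gcongr

lemma cont_log_pow_mul {k : ℝ → ℝ} (hk : ∀ x, x ≠ 0 → ContinuousAt k x) {M : ℝ}
    (hM : ∀ x, |k x| ≤ M) {n : ℕ} (hn : 1 ≤ n) (j : ℕ) :
    Continuous fun x : ℝ => x ^ n * (Real.log x ^ j * k x) := by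
  rw [continuous_iff_continuousAt]
  intro x
  by_cases hx : x = 0
  · subst hx
    have h0 : (0:ℝ) ^ n * (Real.log 0 ^ j * k 0) = 0 := by rw [zero_pow (by omega)]; ring
    change Tendsto (fun x : ℝ => x ^ n * (Real.log x ^ j * k x)) (nhds 0)
      (nhds ((0:ℝ) ^ n * (Real.log 0 ^ j * k 0)))
    rw [h0]
    have hlim : Tendsto (fun x : ℝ => ((j : ℝ) + 1) ^ j * |x| ^ (1 / ((j : ℝ) + 1)) * M) (nhds 0)
        (nhds 0) := by
      have h1 : Continuous fun x : ℝ => ((j : ℝ) + 1) ^ j * |x| ^ (1 / ((j : ℝ) + 1)) * M := by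
        refine (continuous_const.mul ?_).mul continuous_const
        exact continuous_abs.rpow_const fun x => Or.inr (by positivity)
      have h2 := h1.tendsto 0
      rwa [abs_zero, Real.zero_rpow (by positivity), mul_zero, zero_mul] at h2
    refine squeeze_zero_norm' ?_ hlim
    have hM0 : 0 ≤ M := (abs_nonneg _).trans (hM 0)
    have ev : ∀ᶠ t : ℝ in nhds 0, |t| ≤ 1 := by
      have : Set.Icc (-1 : ℝ) 1 ∈ nhds (0 : ℝ) := Icc_mem_nhds (by norm_num) (by norm_num)
      filter_upwards [this] with t ht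
      exact abs_le.2 ht
    filter_upwards [ev] with t ht
    by_cases ht0 : t = 0
    · subst ht0
      rw [h0, norm_zero]
      positivity
    · have h3 := abs_log_pow_le j ht0 ht
      rw [norm_mul, norm_mul, norm_pow, norm_pow, Real.norm_eq_abs, Real.norm_eq_abs,
        Real.norm_eq_abs]
      have h4 : |t| ^ n ≤ |t| := by
        calc |t| ^ n ≤ |t| ^ 1 := pow_le_pow_of_le_one (abs_nonneg _) ht hn
          _ = |t| := pow_one _
      calc |t| ^ n * (|Real.log t| ^ j * |k t|) ≤ |t| * (|Real.log t| ^ j * M) := by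
            gcongr
            exact hM t
        _ = (|t| * |Real.log t| ^ j) * M := by ring
        _ ≤ _ := by gcongr
  · exact (continuousAt_id.pow n).mul (((Real.continuousAt_log hx).pow j).mul (hk x hx))

noncomputable def kB (N : ℕ) (L x : ℝ) : ℝ := (2 * N : ℕ) * (th x * Real.sin (L * Real.log x))

lemma sin_cont (L : ℝ) {x : ℝ} (hx : x ≠ 0) :
    ContinuousAt (fun x : ℝ => Real.sin (L * Real.log x)) x :=
  Real.continuous_sin.continuousAt.comp
    (continuousAt_const.mul (Real.continuousAt_log hx) : ContinuousAt (fun x : ℝ => L * Real.log x) x)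

lemma ths_bound (L x : ℝ) : |th x * Real.sin (L * Real.log x)| ≤ 1 := by
  have hs : |Real.sin (L * Real.log x)| ≤ 1 := Real.abs_sin_le_one _
  have ht : |th x| ≤ 1 := by rw [abs_of_nonneg (th_nonneg x)]; exact th_le x
  rw [abs_mul]
  calc _ ≤ (1:ℝ) * 1 := by gcongr
    _ = 1 := one_mul 1

lemma kB_cont (N : ℕ) (L : ℝ) {x : ℝ} (hx : x ≠ 0) : ContinuousAt (kB N L) x := by
  unfold kB
  exact continuousAt_const.mul ((th_cont hx).mul (sin_cont L hx))

lemma kB_bound (N : ℕ) (L x : ℝ) : |kB N L x| ≤ (2 * N : ℕ) := by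
  unfold kB
  rw [abs_mul, abs_of_nonneg (show (0:ℝ) ≤ ((2 * N : ℕ) : ℝ) by positivity)]
  have := ths_bound L x
  calc ((2 * N : ℕ) : ℝ) * |th x * Real.sin (L * Real.log x)| ≤ ((2 * N : ℕ) : ℝ) * 1 := by gcongr
    _ = _ := mul_one _

noncomputable def rN1 (m N : ℕ) (L x : ℝ) : ℝ :=
  x ^ (m - 1) * (Real.log x ^ (2 * N) * kk m L x) +
    x ^ (m - 1) * (Real.log x ^ (2 * N - 1) * kB N L x)

lemma rN_eq (m N : ℕ) (L x : ℝ) : rN m N 1 L x = Real.log x ^ (2 * N) * rr m 1 L x := by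
  unfold rN RN rr RR
  ring

lemma rN_hasDeriv (m N : ℕ) (L : ℝ) (hm : 2 ≤ m) (x : ℝ) :
    HasDerivAt (rN m N 1 L) (rN1 m N L x) x := by
  by_cases hx : x = 0
  · subst hx
    have h0 : rN1 m N L 0 = 0 := by
      unfold rN1; rw [zero_pow (by omega), zero_mul, zero_mul, add_zero]
    have e : ∀ x : ℝ, rN m N 1 L x =
        x * (x ^ (m - 1) * (Real.log x ^ (2 * N) * (th x * Real.sin (L * Real.log x)))) := by
      intro x
      unfold rN RN
      obtain ⟨k, rfl⟩ : ∃ k, m = k + 1 := ⟨m - 1, by omega⟩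
      rw [Nat.add_sub_cancel, pow_succ]
      ring
    rw [h0, hasDerivAt_iff_tendsto_slope]
    have hK : Continuous fun x : ℝ =>
        x ^ (m - 1) * (Real.log x ^ (2 * N) * (th x * Real.sin (L * Real.log x))) :=
      cont_log_pow_mul (k := fun x => th x * Real.sin (L * Real.log x))
        (fun x hx => (th_cont hx).mul (sin_cont L hx)) (ths_bound L) (by omega) _
    have h1 := hK.tendsto 0
    rw [zero_pow (by omega), zero_mul] at h1
    refine (h1.mono_left nhdsWithin_le_nhds).congr' ?_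
    filter_upwards [self_mem_nhdsWithin] with t ht
    have ht' : t ≠ 0 := ht
    rw [slope_def_field, e t, e 0, sub_zero, zero_mul, sub_zero]
    field_simp
  · have h1 := ((Real.hasDerivAt_log hx).fun_pow (2 * N)).fun_mul (rr_hasDeriv m L hm x)
    have e1 : (fun y => Real.log y ^ (2 * N) * rr m 1 L y) = rN m N 1 L := by
      funext y
      exact (rN_eq m N L y).symm
    rw [e1] at h1
    refine h1.congr_deriv ?_
    have e2 : x ^ m = x ^ (m - 1) * x := by
      rw [← pow_succ]; congr 1; omega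
    unfold rN1 rr1 kB rr RR
    rw [e2]
    field_simp
    ring

lemma rN1_cont (m N : ℕ) (L : ℝ) (hm : 2 ≤ m) : Continuous (rN1 m N L) := by
  obtain ⟨S, hS0, hS⟩ := exists_st_bound
  exact (cont_log_pow_mul (fun x hx => kk_cont m L hx) (fun x => kk_bound m L hS0 hS x)
    (by omega) _).add (cont_log_pow_mul (fun x hx => kB_cont N L hx) (kB_bound N L) (by omega) _)

lemma PP_rN (m N : ℕ) (C L : ℝ) (j : ℕ) : PP (rN m N C L) j = C * PP (rN m N 1 L) j := by
  unfold PP
  rw [← mul_div_assoc, ← intervalIntegral.integral_const_mul]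
  congr 2
  ext x
  unfold rN RN
  ring

/-- TASK POLEORDER-HN -/
theorem taskHN : TaskHN := by
  intro m N L hm
  have hc0 : Continuous (rN m N 1 L) :=
    continuous_iff_continuousAt.2 fun x => (rN_hasDeriv m N L hm x).continuousAt
  obtain ⟨M, hM⟩ := (isCompact_Icc (a := (0:ℝ)) (b := 2)).exists_bound_of_continuousOn
    hc0.continuousOn
  obtain ⟨R, hR⟩ := (isCompact_Icc (a := (0:ℝ)) (b := 2)).exists_bound_of_continuousOn
    (rN1_cont m N L hm).continuousOn
  have hM0 : 0 ≤ M := (norm_nonneg _).trans (hM 0 (by norm_num))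
  have hR0 : 0 ≤ R := (norm_nonneg _).trans (hR 0 (by norm_num))
  have hb := weighted_bessel (rN_hasDeriv m N L hm) (rN1_cont m N L hm) (M := M + 1) (M' := R)
    (fun x hx => (hM x hx).trans (by linarith)) (fun x hx => hR x hx)
  refine ⟨256 * (4 * (M + 1) ^ 2 + 4 * R ^ 2), by positivity, ?_⟩
  intro c hc hc1 C J
  calc ∑ j ∈ range J, WW c j * (PP (rN m N C L) j) ^ 2 ≤
      ∑ j ∈ range J, 256 / c * C ^ 2 * ((1 + (j:ℝ)) ^ 2 * (PP (rN m N 1 L) j) ^ 2) := by
        apply sum_le_sum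
        intro j _
        rw [PP_rN, mul_pow]
        have h1 := WW_le hc hc1 j
        have h2 : 0 ≤ C ^ 2 * PP (rN m N 1 L) j ^ 2 := by positivity
        calc WW c j * (C ^ 2 * PP (rN m N 1 L) j ^ 2) ≤
            256 / c * (1 + (j:ℝ)) ^ 2 * (C ^ 2 * PP (rN m N 1 L) j ^ 2) := by
              gcongr
          _ = _ := by ring
    _ = 256 / c * C ^ 2 * ∑ j ∈ range J, (1 + (j:ℝ)) ^ 2 * (PP (rN m N 1 L) j) ^ 2 := by
        rw [mul_sum]
    _ ≤ 256 / c * C ^ 2 * (4 * (M + 1) ^ 2 + 4 * R ^ 2) := by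
        have := hb (range J)
        gcongr
    _ = 256 * (4 * (M + 1) ^ 2 + 4 * R ^ 2) * C ^ 2 / c := by ring

end Pool.Agent.H5R3.HN
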