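import Pool.Agent.H902R3.PZ.Stmts
import Pool.Agent.H469R10.HO.Final
import Pool.Agent.H5R3.TaskHN
import Pool.Agent.H5R3.TaskHO

set_option autoImplicit false

/-!
# TASK POLEORDER-HC of helper180: the core with a polar term of higher order (adapted from helper902)
-/

namespace Pool.Agent.H5R3.HC

open Finset Pool.Agent.H469R10.HO Pool.Agent.H902R3.PZ Pool.Agent.H180R3.PO

theorem taskHC : TaskHC := by
  obtain ⟨m₁, lam₀, hlam8, hH⟩ := exists_hyp hoheisel
  set M : ℕ := max (max m₁ 2) ⌈lam₀⌉₊ with hM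
  set m : ℕ := 2 * M + 1 with hm
  have hmM : M ≤ m := by omega
  have hm1 : m₁ ≤ m := ((le_max_left _ _).trans (le_max_left _ _)).trans hmM
  have hm2 : 2 ≤ m := ((le_max_right _ _).trans (le_max_left _ _)).trans hmM
  have hm3 : lam₀ ≤ m := Nat.ceil_le.mp ((le_max_right _ _).trans hmM)
  have hmR : (2:ℝ) ≤ m := by exact_mod_cast hm2
  have hlam : lam₀ ≤ lamOf m := by unfold lamOf; linarith
  refine ⟨m, ⟨M, hm⟩, hm2, ?_⟩
  intro γ N hγ
  obtain ⟨e, κ, CJ, CH, η, ρ, c₁, he0, he, hη, hρ0, hρ9, hfin, hc₁, hyp⟩ := hH m hm1 (lamOf m) hlam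
  obtain ⟨cN, hcN, hN⟩ := Pool.Agent.H5R3.T469N.taskN m hm2 ((ρ / 2) ^ 2 / 4) (by positivity)
  obtain ⟨cP, hcP, hP⟩ := Pool.Agent.H180R3.P469.taskP m (by omega) η hη
  obtain ⟨K, hK, hKN⟩ := Pool.Agent.H5R3.HN.taskHN m N (lamOf m * γ) hm2
  -- the choice of `c`
  set c : ℝ := min (min c₁ cN) (min cP (min 1 ((ρ / 2) ^ 2 / 4 / K))) with hcdef
  have hc : 0 < c := lt_min (lt_min hc₁ hcN) (lt_min hcP (lt_min one_pos (by positivity)))
  have hc1 : c ≤ c₁ := (min_le_left _ _).trans (min_le_left _ _)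
  have hcN' : c ≤ cN := (min_le_left _ _).trans (min_le_right _ _)
  have hcP' : c ≤ cP := (min_le_right _ _).trans (min_le_left _ _)
  have hc1' : c ≤ 1 := (min_le_right _ _).trans ((min_le_right _ _).trans (min_le_left _ _))
  have hcK : c ≤ (ρ / 2) ^ 2 / 4 / K := (min_le_right _ _).trans ((min_le_right _ _).trans (min_le_right _ _))
  obtain ⟨B, h, hB2⟩ := hyp c hc hc1
  -- the source
  have hsrc : ∀ J : ℕ, ∑ j ∈ range J, WW c j * (ss c m j + PP (rN m N c (lamOf m * γ)) j) ^ 2 ≤ (ρ / 2) ^ 2 := by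
    intro J
    have h1 := hN c hc hcN' J
    have h2 := hKN c hc hc1' c J
    have h3 : K * c ^ 2 / c ≤ (ρ / 2) ^ 2 / 4 := by
      have : K * c ^ 2 / c = K * c := by field_simp
      rw [this]
      rw [le_div_iff₀ hK] at hcK
      linarith
    calc ∑ j ∈ range J, WW c j * (ss c m j + PP (rN m N c (lamOf m * γ)) j) ^ 2
        ≤ ∑ j ∈ range J, (2 * (WW c j * ss c m j ^ 2) + 2 * (WW c j * PP (rN m N c (lamOf m * γ)) j ^ 2)) := by
          apply Finset.sum_le_sum
          intro j _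
          have hW := (WW_pos h.hc h.hc1 j).le
          nlinarith [mul_nonneg hW (sq_nonneg (ss c m j - PP (rN m N c (lamOf m * γ)) j))]
      _ = 2 * ∑ j ∈ range J, WW c j * ss c m j ^ 2 + 2 * ∑ j ∈ range J, WW c j * PP (rN m N c (lamOf m * γ)) j ^ 2 := by
          rw [Finset.sum_add_distrib, Finset.mul_sum, Finset.mul_sum]
      _ ≤ _ := by
          have : (ρ / 2) ^ 2 = 2 * ((ρ / 2) ^ 2 / 4) + 2 * ((ρ / 2) ^ 2 / 4) := by ring
          rw [this]
          linarith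
  obtain ⟨b, hb1, hb2, hb3⟩ := h.fixed Pool.Agent.H180R3.Q469.taskQ hρ0 hρ9 hfin
    (fun j => ss c m j + PP (rN m N c (lamOf m * γ)) j) hsrc
  have hBh : ∀ j, ∀ p ∈ B j, 1 ≤ j ∧ p.Prime ∧ |uu c (lamOf m) p - xx j| ≤ 1 / 2 :=
    fun j p hp => ⟨(h.hB j p hp).1, (h.hB j p hp).2.1, (h.hB j p hp).2.2.trans he⟩
  refine ⟨c, c, bet c (lamOf m) B b, fun n => if n = 0 then b 0 - 1 else
    if Squarefree n then ∏ p ∈ n.primeFactors, bet c (lamOf m) B b p else 0, hc, hc, ?_, ?_, ?_, ?_⟩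
  · intro p hp
    have hbet := hP c hc hcP' B hBh hB2 b (fun j => by
      have h1 := hb1 (j + 1)
      rw [Finset.sum_range_succ] at h1
      have h2 : 0 ≤ ∑ i ∈ range j, WW c i * b i ^ 2 :=
        Finset.sum_nonneg fun i _ => mul_nonneg (WW_pos h.hc h.hc1 i).le (sq_nonneg _)
      have h3 : ρ ^ 2 ≤ 1 := by nlinarith [sq_nonneg ρ]
      linarith) p hp
    refine hbet.trans ?_
    have hp1 : (1:ℝ) ≤ p := by exact_mod_cast hp.one_lt.le
    have hl : 0 < lamOf m := by unfold lamOf; linarith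
    refine mul_le_of_le_one_right (by positivity) ?_
    exact Real.rpow_le_one_of_one_le_of_nonpos hp1 (by rw [neg_nonpos]; positivity)
  · intro n hn
    simp only []
    rw [if_neg (by omega)]
  · refine hb2.congr_cofinite ?_
    rw [Filter.EventuallyEq, Filter.eventually_cofinite]
    refine (Set.finite_singleton 0).subset ?_
    intro n hn
    by_contra h0
    apply hn
    have h0' : n ≠ 0 := h0
    simp only [alp, if_neg h0']
  · exact Pool.Agent.H5R3.HO.taskHO c (lamOf m) m N B b c (lamOf m * γ) hc h.hlam hm2 hBh h.hBne hb2 hb3 _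
      (fun n => rfl)

end Pool.Agent.H5R3.HC
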